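import Mathlib
set_option autoImplicit false
namespace Pool.Agent.Helper459.Arc
open Metric Set

/-- continuous and separately entire functions of two complex variables -/
structure Adm (F : ℂ × ℂ → ℂ) : Prop where
  h1 : ∀ w : ℂ, Differentiable ℂ (fun z : ℂ => F (z, w))
  h2 : ∀ z : ℂ, Differentiable ℂ (fun w : ℂ => F (z, w))
  hc : Continuous F

structure Node where
  a : ℂ
  r : ℝ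
  b : ℂ
  s : ℝ
  e : ℝ

def Ann (a : ℂ) (r e : ℝ) : Set ℂ := {z | |dist z a - r| ≤ e}

namespace Node
def T (v : Node) : Set (ℂ × ℂ) := sphere v.a v.r ×ˢ sphere v.b v.s
def N (v : Node) : Set (ℂ × ℂ) := Ann v.a v.r v.e ×ˢ Ann v.b v.s v.e
def Good (v : Node) : Prop := 0 < v.e ∧ v.e ≤ v.r / 2 ∧ v.e ≤ v.s / 2
end Node

def HalfStep (v : Node) : Prop :=
    ∃ S : Finset Node,
      (∀ u ∈ S, u.Good ∧ u.N ⊆ v.N ∧ u.s ≤ v.e / 2 ∧ u.r ≤ v.r + v.e / 2 ∧ u.e ≤ v.e / 8) ∧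
      (∀ u ∈ S, ∀ u' ∈ S, u ≠ u' → Disjoint u.N u'.N) ∧
      (∀ F : ℂ × ℂ → ℂ, Adm F → ∀ c : ℝ, (∀ u ∈ S, ∀ p ∈ u.T, ‖F p‖ ≤ c) →
        ∀ p ∈ v.T, ‖F p‖ ≤ c) ∧
      (∑ u ∈ S, u.r * u.e ≤ v.r * v.e / 2) ∧ (∑ u ∈ S, u.s * u.e ≤ v.s * v.e / 2)

def FullStep (v : Node) : Prop :=
    ∃ S : Finset Node,
      (∀ u ∈ S, u.Good ∧ u.N ⊆ v.N ∧ u.s ≤ v.e ∧ u.r ≤ v.e ∧ u.e ≤ v.e / 2) ∧
      (∀ u ∈ S, ∀ u' ∈ S, u ≠ u' → Disjoint u.N u'.N) ∧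
      (∀ F : ℂ × ℂ → ℂ, Adm F → ∀ c : ℝ, (∀ u ∈ S, ∀ p ∈ u.T, ‖F p‖ ≤ c) →
        ∀ p ∈ v.T, ‖F p‖ ≤ c) ∧
      (∑ u ∈ S, u.r * u.e ≤ v.r * v.e / 2) ∧ (∑ u ∈ S, u.s * u.e ≤ v.s * v.e / 2)

structure Tree (L : ℕ → Finset Node) : Prop where
  h0 : L 0 = {⟨0, 1, 0, 1, 1 / 2⟩}
  hgood : ∀ n, ∀ u ∈ L n, u.Good
  he : ∀ n, ∀ u ∈ L n, u.e ≤ (1 / 2 : ℝ) ^ (n + 1)
  hsmall : ∀ n, ∀ u ∈ L (n + 1), u.r ≤ (1 / 2 : ℝ) ^ (n + 1) ∧ u.s ≤ (1 / 2 : ℝ) ^ (n + 1)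
  hsub : ∀ n, ∀ u ∈ L (n + 1), ∃ v ∈ L n, u.N ⊆ v.N
  hdisj : ∀ n, ∀ u ∈ L n, ∀ u' ∈ L n, u ≠ u' → Disjoint u.N u'.N
  hhull : ∀ n, ∀ F : ℂ × ℂ → ℂ, Adm F → ∀ c : ℝ, (∀ u ∈ L n, ∀ p ∈ u.T, ‖F p‖ ≤ c) →
    ‖F (0, 0)‖ ≤ c
  hsum1 : ∀ n, ∑ u ∈ L n, u.r * u.e ≤ (1 / 2 : ℝ) ^ (n + 1)
  hsum2 : ∀ n, ∑ u ∈ L n, u.s * u.e ≤ (1 / 2 : ℝ) ^ (n + 1)

/-- area bound for annuli -/
def VolFact : Prop := ∀ (a : ℂ) (r e : ℝ), 0 < e → e ≤ r →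
  MeasureTheory.volume (Ann a r e) ≤ ENNReal.ofReal (4 * Real.pi * (r * e))

def EmbFact : Prop := ∀ (K : Set (ℂ × ℂ)), IsCompact K → ∀ (V : ℕ → Set (ℂ × ℂ)),
  (∀ i, ∃ O : Set (ℂ × ℂ), IsOpen O ∧ K ∩ O = K ∩ V i) →
  (∀ i, ∃ O : Set (ℂ × ℂ), IsClosed O ∧ K ∩ O = K ∩ V i) →
  (∀ x ∈ K, ∀ y ∈ K, x ≠ y → ∃ i, ¬ (x ∈ V i ↔ y ∈ V i)) →
  ∃ f : ℂ × ℂ → ℝ, ContinuousOn f K ∧ InjOn f K ∧ ∀ p ∈ K, f p ∈ Icc (0 : ℝ) 1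

/-- last point of C not after t, first point of C not before t -/
noncomputable def lo (C : Set ℝ) (t : ℝ) : ℝ := sSup (C ∩ Iic t)
noncomputable def hi (C : Set ℝ) (t : ℝ) : ℝ := sInf (C ∩ Ici t)

/-- facts about lo and hi on the interval [m, M] spanned by C -/
structure Facts (C : Set ℝ) (m M : ℝ) : Prop where
  lo_mem : ∀ t ∈ Icc m M, lo C t ∈ C
  hi_mem : ∀ t ∈ Icc m M, hi C t ∈ C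
  lo_le : ∀ t ∈ Icc m M, lo C t ≤ t
  le_hi : ∀ t ∈ Icc m M, t ≤ hi C t
  on_C : ∀ t ∈ C, t ∈ Icc m M ∧ lo C t = t ∧ hi C t = t
  off_C : ∀ t ∈ Icc m M, t ∉ C → lo C t < t ∧ t < hi C t ∧
    ∀ x ∈ Ioo (lo C t) (hi C t), x ∉ C ∧ lo C x = lo C t ∧ hi C x = hi C t

/-- piecewise linear interpolation of κ over the gaps of C -/
noncomputable def g0 (C : Set ℝ) (κ : ℝ → ℂ × ℂ) (t : ℝ) : ℂ × ℂ :=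
  AffineMap.lineMap (κ (lo C t)) (κ (hi C t)) ((t - lo C t) / (hi C t - lo C t))

/-- third coordinate -/
noncomputable def ph (C : Set ℝ) (t : ℝ) : ℂ :=
  (infDist t C : ℂ) * Complex.exp (Complex.I * (lo C t : ℂ))

end Pool.Agent.Helper459.Arc
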