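import Mathlib
import Pool.Agent.Helper459.ArcDefs

set_option autoImplicit false
namespace Pool.Agent.Helper459.Arc
open Metric Set

theorem lineMap_bd (p q r : ℂ × ℂ) (l : ℝ) (h0 : 0 ≤ l) (h1 : l ≤ 1) :
    ‖(AffineMap.lineMap p q l : ℂ × ℂ) - r‖ ≤ (1 - l) * ‖p - r‖ + l * ‖q - r‖ := by
  have e : (AffineMap.lineMap p q l : ℂ × ℂ) - r = (1 - l) • (p - r) + l • (q - r) := by
    rw [AffineMap.lineMap_apply_module]
    module
  rw [e]
  refine (norm_add_le _ _).trans ?_
  rw [norm_smul, norm_smul, Real.norm_of_nonneg h0, Real.norm_of_nonneg (sub_nonneg.2 h1)]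

theorem cont_g0 (C : Set ℝ) (hC : IsCompact C) (hne : C.Nonempty) (m M : ℝ) (hF : Facts C m M)
    (κ : ℝ → ℂ × ℂ) (hκ : ContinuousOn κ C) : ContinuousOn (g0 C κ) (Icc m M) := by
  intro t0 ht0
  by_cases hC0 : t0 ∈ C
  · -- a point of `C`
    have hg0 : g0 C κ t0 = κ t0 := by
      obtain ⟨_, h1, h2⟩ := hF.on_C t0 hC0
      rw [g0, h1, h2]
      simp
    obtain ⟨B, hBpos, hB⟩ : ∃ B : ℝ, 0 < B ∧ ∀ c ∈ C, ‖κ c - κ t0‖ ≤ B := by
      obtain ⟨B, hB⟩ := hC.exists_bound_of_continuousOn (f := fun c => κ c - κ t0)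
        (hκ.sub continuousOn_const)
      exact ⟨|B| + 1, by positivity, fun c hc => (hB c hc).trans (by
        have := le_abs_self B; linarith)⟩
    rw [Metric.continuousWithinAt_iff]
    intro ε hε
    obtain ⟨δ, hδ, hδ'⟩ := Metric.continuousWithinAt_iff.1 (hκ t0 hC0) (ε / 2) (by positivity)
    set s : ℝ := ε / (ε + 4 * B) with hs
    have hs0 : 0 < s := by positivity
    have hs1 : s < 1 := by
      rw [hs, div_lt_one (by positivity)]; linarith
    have hsB : B * (s / (1 - s)) = ε / 4 := by
      have h1 : 1 - s = 4 * B / (ε + 4 * B) := by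
        rw [hs]; field_simp; ring
      rw [h1, hs]
      field_simp
    refine ⟨δ * s, by positivity, ?_⟩
    intro t ht htd
    rw [Real.dist_eq] at htd
    rw [hg0, dist_eq_norm]
    have hδs : δ * s < δ := by nlinarith
    have h1s : 0 < 1 - s := by linarith
    have hlo := hF.lo_mem t ht
    have hhi := hF.hi_mem t ht
    have hlot := hF.lo_le t ht
    have hthi := hF.le_hi t ht
    set a := lo C t with ha
    set b := hi C t with hb
    set l : ℝ := (t - a) / (b - a) with hl
    have hl0 : 0 ≤ l := div_nonneg (by linarith) (by linarith)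
    have hl1 : l ≤ 1 := by
      apply div_le_one_of_le₀ (by linarith) (by linarith)
    have hbd := lineMap_bd (κ a) (κ b) (κ t0) l hl0 hl1
    have hg : g0 C κ t = AffineMap.lineMap (κ a) (κ b) l := rfl
    rw [hg]
    have hBa := hB a hlo
    have hBb := hB b hhi
    have hn0 : 0 ≤ ‖κ a - κ t0‖ := norm_nonneg _
    have hn1 : 0 ≤ ‖κ b - κ t0‖ := norm_nonneg _
    have hfar : ∀ u : ℝ, 0 ≤ u → u ≤ δ * s / (δ - δ * s) → ∀ v : ℝ, 0 ≤ v → v ≤ B →
        u * v ≤ ε / 4 := by
      intro u hu0 hu v hv0 hv
      have h2 : δ * s / (δ - δ * s) = s / (1 - s) := by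
        have : δ - δ * s = δ * (1 - s) := by ring
        rw [this, mul_div_mul_left _ _ hδ.ne']
      rw [h2] at hu
      calc u * v ≤ s / (1 - s) * B := mul_le_mul hu hv hv0 (by positivity)
        _ = ε / 4 := by rw [← hsB]; ring
    rcases le_total t0 t with htt | htt
    · rw [abs_of_nonneg (by linarith)] at htd
      have h3 : t0 ≤ a := le_csSup ⟨t, fun x hx => hx.2⟩ ⟨hC0, htt⟩
      have h4 : ‖κ a - κ t0‖ < ε / 2 := by
        have := hδ' hlo (by rw [Real.dist_eq, abs_of_nonneg (by linarith)]; linarith)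
        rwa [dist_eq_norm] at this
      by_cases h5 : b - t0 < δ
      · have h6 : ‖κ b - κ t0‖ < ε / 2 := by
          have := hδ' hhi (by rw [Real.dist_eq, abs_of_nonneg (by linarith)]; linarith)
          rwa [dist_eq_norm] at this
        nlinarith
      · push Not at h5
        have h7 : l ≤ δ * s / (δ - δ * s) := by
          rw [hl]
          apply div_le_div₀ (by positivity) (by linarith) (by linarith) (by linarith)
        have h8 := hfar l hl0 h7 _ hn1 hBb
        nlinarith
    · rw [abs_of_nonpos (by linarith)] at htd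
      have h3 : b ≤ t0 := csInf_le ⟨t, fun x hx => hx.2⟩ ⟨hC0, htt⟩
      have h4 : ‖κ b - κ t0‖ < ε / 2 := by
        have := hδ' hhi (by rw [Real.dist_eq, abs_of_nonpos (by linarith)]; linarith)
        rwa [dist_eq_norm] at this
      by_cases h5 : t0 - a < δ
      · have h6 : ‖κ a - κ t0‖ < ε / 2 := by
          have := hδ' hlo (by rw [Real.dist_eq, abs_of_nonpos (by linarith)]; linarith)
          rwa [dist_eq_norm] at this
        nlinarith
      · push Not at h5
        have hba : 0 < b - a := by linarith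
        have h7 : 1 - l ≤ δ * s / (δ - δ * s) := by
          have h8 : 1 - l = (b - t) / (b - a) := by
            rw [hl]; field_simp; ring
          rw [h8]
          apply div_le_div₀ (by positivity) (by linarith) (by linarith) (by linarith)
        have h8 := hfar (1 - l) (by linarith) h7 _ hn0 hBa
        nlinarith
  · -- a point off `C`
    obtain ⟨h1, h2, h3⟩ := hF.off_C t0 ht0 hC0
    set a := lo C t0 with ha
    set b := hi C t0 with hb
    have hcont : Continuous fun x : ℝ =>
        (AffineMap.lineMap (κ a) (κ b) ((x - a) / (b - a)) : ℂ × ℂ) := by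
      simp only [AffineMap.lineMap_apply_module]
      fun_prop
    apply ContinuousAt.continuousWithinAt
    refine hcont.continuousAt.congr ?_
    filter_upwards [Ioo_mem_nhds h1 h2] with x hx
    obtain ⟨_, h4, h5⟩ := h3 x hx
    rw [g0, h4, h5]

end Pool.Agent.Helper459.Arc
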