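import Mathlib
import Pool.Agent.Helper459.ArcDefs

set_option autoImplicit false
namespace Pool.Agent.Helper459.Arc
open Metric Set

namespace Node
/-- exchange the two coordinates of a node -/
def sw (u : Node) : Node := ⟨u.b, u.s, u.a, u.r, u.e⟩

theorem sw_sw (u : Node) : u.sw.sw = u := rfl

theorem sw_inj : Function.Injective sw := fun u v h => by
  have := congrArg sw h
  simpa [sw_sw] using this

theorem mem_N_sw (u : Node) (p : ℂ × ℂ) : p ∈ u.sw.N ↔ p.swap ∈ u.N := by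
  simp only [N, sw, Set.mem_prod, Prod.fst_swap, Prod.snd_swap]
  tauto

theorem mem_T_sw (u : Node) (p : ℂ × ℂ) : p ∈ u.sw.T ↔ p.swap ∈ u.T := by
  simp only [T, sw, Set.mem_prod, Prod.fst_swap, Prod.snd_swap]
  tauto

theorem good_sw {u : Node} (h : u.Good) : u.sw.Good := ⟨h.1, h.2.2, h.2.1⟩

theorem N_sw_sub {u v : Node} (h : u.N ⊆ v.sw.N) : u.sw.N ⊆ v.N := by
  intro p hp
  have h1 := (mem_N_sw u p).1 hp
  have h2 := (mem_N_sw v _).1 (h h1)
  simpa using h2

theorem disj_sw {u v : Node} (h : Disjoint u.N v.N) : Disjoint u.sw.N v.sw.N := by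
  rw [Set.disjoint_left] at h ⊢
  intro p hp hq
  exact h ((mem_N_sw u p).1 hp) ((mem_N_sw v p).1 hq)

theorem N_nonempty {u : Node} (h : u.Good) : (u.a + (u.r : ℂ), u.b + (u.s : ℂ)) ∈ u.N := by
  obtain ⟨h1, h2, h3⟩ := h
  have hr : 0 < u.r := by linarith
  have hs : 0 < u.s := by linarith
  refine ⟨?_, ?_⟩
  · show |dist (u.a + (u.r : ℂ)) u.a - u.r| ≤ u.e
    rw [dist_eq_norm, add_sub_cancel_left, Complex.norm_real, Real.norm_eq_abs, abs_of_pos hr,
      sub_self, abs_zero]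
    exact h1.le
  · show |dist (u.b + (u.s : ℂ)) u.b - u.s| ≤ u.e
    rw [dist_eq_norm, add_sub_cancel_left, Complex.norm_real, Real.norm_eq_abs, abs_of_pos hs,
      sub_self, abs_zero]
    exact h1.le
end Node

theorem Adm.swap {F : ℂ × ℂ → ℂ} (h : Adm F) : Adm (fun p => F p.swap) where
  h1 := fun w => h.h2 w
  h2 := fun z => h.h1 z
  hc := h.hc.comp continuous_swap

theorem half_swap (H : ∀ v : Node, v.Good → HalfStep v) (v : Node) (hv : v.Good) :
    ∃ S : Finset Node,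
      (∀ u ∈ S, u.Good ∧ u.N ⊆ v.N ∧ u.r ≤ v.e / 2 ∧ u.s ≤ v.s + v.e / 2 ∧ u.e ≤ v.e / 8) ∧
      (∀ u ∈ S, ∀ u' ∈ S, u ≠ u' → Disjoint u.N u'.N) ∧
      (∀ F : ℂ × ℂ → ℂ, Adm F → ∀ c : ℝ, (∀ u ∈ S, ∀ p ∈ u.T, ‖F p‖ ≤ c) →
        ∀ p ∈ v.T, ‖F p‖ ≤ c) ∧
      (∑ u ∈ S, u.r * u.e ≤ v.r * v.e / 2) ∧ (∑ u ∈ S, u.s * u.e ≤ v.s * v.e / 2) := by
  classical
  obtain ⟨S, h1, h2, h3, h4, h5⟩ := H v.sw (Node.good_sw hv)
  have hmem : ∀ u ∈ S.image Node.sw, u.sw ∈ S := by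
    intro u hu
    obtain ⟨w, hw, rfl⟩ := Finset.mem_image.1 hu
    simpa [Node.sw_sw] using hw
  refine ⟨S.image Node.sw, ?_, ?_, ?_, ?_, ?_⟩
  · intro u hu
    obtain ⟨g1, g2, g3, g4, g5⟩ := h1 _ (hmem u hu)
    refine ⟨?_, ?_, g3, g4, g5⟩
    · have := Node.good_sw g1
      simpa [Node.sw_sw] using this
    · have := Node.N_sw_sub g2
      simpa [Node.sw_sw] using this
  · intro u hu u' hu' hne
    have h := h2 _ (hmem u hu) _ (hmem u' hu') (fun h => hne (Node.sw_inj h))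
    have := Node.disj_sw h
    simpa [Node.sw_sw] using this
  · intro F hF c hc p hp
    have := h3 (fun p => F p.swap) hF.swap c (by
      intro u hu q hq
      have hq' : q.swap ∈ u.sw.T := by
        rw [Node.mem_T_sw]
        simpa using hq
      exact hc u.sw (Finset.mem_image_of_mem _ hu) q.swap hq') p.swap (by
        rw [Node.mem_T_sw]
        simpa using hp)
    simpa using this
  · rw [Finset.sum_image (fun _ _ _ _ h => Node.sw_inj h)]
    exact h5
  · rw [Finset.sum_image (fun _ _ _ _ h => Node.sw_inj h)]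
    exact h4

theorem full_step (H : ∀ v : Node, v.Good → HalfStep v) (v : Node) (hv : v.Good) : FullStep v := by
  classical
  obtain ⟨S, h1, h2, h3, h4, h5⟩ := H v hv
  choose! g hg using half_swap H
  have gm : ∀ u ∈ S, ∀ w ∈ g u, w.Good ∧ w.N ⊆ u.N ∧ w.r ≤ u.e / 2 ∧ w.s ≤ u.s + u.e / 2 ∧
      w.e ≤ u.e / 8 := fun u hu => (hg u (h1 u hu).1).1
  have hpd : (S : Set Node).PairwiseDisjoint g := by
    intro u hu u' hu' hne
    rw [Function.onFun, Finset.disjoint_left]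
    intro w hw hw'
    have hd := h2 u hu u' hu' hne
    rw [Set.disjoint_left] at hd
    have hn := Node.N_nonempty (gm u hu w hw).1
    exact hd ((gm u hu w hw).2.1 hn) ((gm u' hu' w hw').2.1 hn)
  refine ⟨S.biUnion g, ?_, ?_, ?_, ?_, ?_⟩
  · intro w hw
    obtain ⟨u, hu, hwu⟩ := Finset.mem_biUnion.1 hw
    obtain ⟨a1, a2, a3, a4, a5⟩ := h1 u hu
    obtain ⟨b1, b2, b3, b4, b5⟩ := gm u hu w hwu
    have hve := hv.1
    have hue := a1.1
    refine ⟨b1, b2.trans a2, ?_, ?_, ?_⟩ <;> linarith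
  · intro w hw w' hw' hne
    obtain ⟨u, hu, hwu⟩ := Finset.mem_biUnion.1 hw
    obtain ⟨u', hu', hwu'⟩ := Finset.mem_biUnion.1 hw'
    by_cases h : u = u'
    · subst h
      exact (hg u (h1 u hu).1).2.1 w hwu w' hwu' hne
    · exact Set.disjoint_of_subset (gm u hu w hwu).2.1 (gm u' hu' w' hwu').2.1 (h2 u hu u' hu' h)
  · intro F hF c hc
    refine h3 F hF c ?_
    intro u hu
    refine (hg u (h1 u hu).1).2.2.1 F hF c ?_
    intro w hw p hp
    exact hc w (Finset.mem_biUnion.2 ⟨u, hu, hw⟩) p hp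
  · rw [Finset.sum_biUnion hpd]
    refine le_trans ?_ h4
    refine Finset.sum_le_sum ?_
    intro u hu
    have := (hg u (h1 u hu).1).2.2.2.1
    obtain ⟨a1, a2, a3⟩ := (h1 u hu).1
    have hr : 0 < u.r := by linarith
    have : 0 < u.r * u.e := mul_pos hr a1
    linarith
  · rw [Finset.sum_biUnion hpd]
    refine le_trans ?_ h5
    refine Finset.sum_le_sum ?_
    intro u hu
    have := (hg u (h1 u hu).1).2.2.2.2
    obtain ⟨a1, a2, a3⟩ := (h1 u hu).1
    have hs : 0 < u.s := by linarith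
    have : 0 < u.s * u.e := mul_pos hs a1
    linarith

end Pool.Agent.Helper459.Arc
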