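import Mathlib
import Pool.Agent.Helper459.ArcDefs

set_option autoImplicit false
namespace Pool.Agent.Helper459.Arc
open Metric Set

theorem facts (C : Set ℝ) (hC : IsCompact C) (hne : C.Nonempty) : Facts C (sInf C) (sSup C) := by
  have hm : sInf C ∈ C := hC.sInf_mem hne
  have hM : sSup C ∈ C := hC.sSup_mem hne
  have hbb : BddBelow C := hC.bddBelow
  have hba : BddAbove C := hC.bddAbove
  have hlo : ∀ t ∈ Icc (sInf C) (sSup C), lo C t ∈ C ∩ Iic t := by
    intro t ht
    have hc : IsCompact (C ∩ Iic t) := hC.inter_right isClosed_Iic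
    exact hc.sSup_mem ⟨sInf C, hm, ht.1⟩
  have hhi : ∀ t ∈ Icc (sInf C) (sSup C), hi C t ∈ C ∩ Ici t := by
    intro t ht
    have hc : IsCompact (C ∩ Ici t) := hC.inter_right isClosed_Ici
    exact hc.sInf_mem ⟨sSup C, hM, ht.2⟩
  have hle : ∀ t c, c ∈ C → c ≤ t → c ≤ lo C t := by
    intro t c hc hct
    exact le_csSup (hba.mono inter_subset_left) ⟨hc, hct⟩
  have hge : ∀ t c, c ∈ C → t ≤ c → hi C t ≤ c := by
    intro t c hc hct
    exact csInf_le (hbb.mono inter_subset_left) ⟨hc, hct⟩
  have hmem : ∀ t ∈ C, t ∈ Icc (sInf C) (sSup C) := fun t ht => ⟨csInf_le hbb ht, le_csSup hba ht⟩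
  refine ⟨fun t ht => (hlo t ht).1, fun t ht => (hhi t ht).1, fun t ht => (hlo t ht).2,
    fun t ht => (hhi t ht).2, ?_, ?_⟩
  · intro t ht
    have h1 := hmem t ht
    exact ⟨h1, le_antisymm (hlo t h1).2 (hle t t ht le_rfl), le_antisymm (hge t t ht le_rfl) (hhi t h1).2⟩
  · intro t ht htC
    have hl := hlo t ht
    have hh := hhi t ht
    have h1 : lo C t < t := lt_of_le_of_ne hl.2 (fun h => htC (h ▸ hl.1))
    have h2 : t < hi C t := lt_of_le_of_ne hh.2 (fun h => htC (h ▸ hh.1))
    refine ⟨h1, h2, ?_⟩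
    intro x hx
    have hno : ∀ c ∈ C, ¬ (lo C t < c ∧ c < hi C t) := by
      rintro c hc ⟨ha, hb⟩
      rcases le_total c t with h | h
      · exact absurd (hle t c hc h) (not_le.2 ha)
      · exact absurd (hge t c hc h) (not_le.2 hb)
    refine ⟨fun hxC => hno x hxC ⟨hx.1, hx.2⟩, ?_, ?_⟩
    · have hset : C ∩ Iic x = C ∩ Iic t := by
        ext c
        constructor
        · rintro ⟨hc, hcx⟩
          refine ⟨hc, ?_⟩
          by_contra hct
          have hct' : t < c := not_le.1 hct
          exact hno c hc ⟨h1.trans hct', lt_of_le_of_lt hcx hx.2⟩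
        · rintro ⟨hc, hct⟩
          exact ⟨hc, le_trans (hle t c hc hct) hx.1.le⟩
      unfold lo
      rw [hset]
    · have hset : C ∩ Ici x = C ∩ Ici t := by
        ext c
        constructor
        · rintro ⟨hc, hcx⟩
          refine ⟨hc, ?_⟩
          by_contra hct
          have hct' : c < t := not_le.1 hct
          exact hno c hc ⟨lt_of_lt_of_le hx.1 hcx, hct'.trans h2⟩
        · rintro ⟨hc, hct⟩
          exact ⟨hc, le_trans hx.2.le (hge t c hc hct)⟩
      unfold hi
      rw [hset]

theorem cont_ph (C : Set ℝ) (hC : IsCompact C) (hne : C.Nonempty) (m M : ℝ) (hF : Facts C m M) :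
    ContinuousOn (ph C) (Icc m M) := by
  have hnorm : ∀ t, ‖ph C t‖ = infDist t C := by
    intro t
    unfold ph
    rw [norm_mul, mul_comm Complex.I, Complex.norm_exp_ofReal_mul_I, mul_one, Complex.norm_real,
      Real.norm_eq_abs, abs_of_nonneg infDist_nonneg]
  intro t0 ht0
  by_cases htC : t0 ∈ C
  · have h0 : ph C t0 = 0 := by
      rw [← norm_eq_zero, hnorm, infDist_zero_of_mem htC]
    apply ContinuousAt.continuousWithinAt
    unfold ContinuousAt
    rw [h0]
    apply squeeze_zero_norm (a := fun t => infDist t C) (fun t => (hnorm t).le)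
    have := (continuous_infDist_pt C).tendsto t0
    rwa [infDist_zero_of_mem htC] at this
  · obtain ⟨h1, h2, h3⟩ := hF.off_C t0 ht0 htC
    apply ContinuousAt.continuousWithinAt
    have hev : ph C =ᶠ[nhds t0] fun x => (infDist x C : ℂ) * Complex.exp (Complex.I * (lo C t0 : ℂ)) := by
      filter_upwards [Ioo_mem_nhds h1 h2] with x hx
      unfold ph
      rw [(h3 x hx).2.1]
    rw [continuousAt_congr hev]
    apply Continuous.continuousAt
    exact (Complex.continuous_ofReal.comp (continuous_infDist_pt C)).mul continuous_const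

end Pool.Agent.Helper459.Arc
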