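import Mathlib
import Pool.Agent.Helper459.ArcDefs

set_option autoImplicit false
namespace Pool.Agent.Helper459.Arc
open Metric Set

theorem disc_max {f : ℂ → ℂ} (hf : Differentiable ℂ f) {a : ℂ} {ρ c : ℝ} (hρ : 0 < ρ)
    (h : ∀ z ∈ sphere a ρ, ‖f z‖ ≤ c) {z : ℂ} (hz : z ∈ closedBall a ρ) : ‖f z‖ ≤ c := by
  refine Complex.norm_le_of_forall_mem_frontier_norm_le (U := ball a ρ) isBounded_ball
    hf.diffContOnCl ?_ ?_
  · rw [frontier_ball a hρ.ne']; exact h
  · rw [closure_ball a hρ.ne']; exact hz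

theorem half_step (v : Node) (hv : v.Good) : HalfStep v := by
  obtain ⟨a, r, b, s, e⟩ := v
  obtain ⟨he, her, hes⟩ := hv
  simp only at he her hes
  have hr : 0 < r := by linarith
  have hs : 0 < s := by linarith
  obtain ⟨t, htS, htf, htc⟩ := (isCompact_sphere b s).finite_cover_balls (half_pos he)
  set tf : Finset ℂ := htf.toFinset with htfdef
  set M : ℕ := tf.card with hMdef
  have hMpos : 0 < M := by
    rw [hMdef, Finset.card_pos]
    have hb : b + (s : ℂ) ∈ sphere b s := by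
      rw [mem_sphere, dist_eq_norm]
      simp [abs_of_pos hs]
    obtain ⟨x, hx⟩ := Set.mem_iUnion.1 (htc hb)
    obtain ⟨hx, _⟩ := Set.mem_iUnion.1 hx
    exact ⟨x, by rw [htfdef, Set.Finite.mem_toFinset]; exact hx⟩
  have hM1 : (1 : ℝ) ≤ M := by exact_mod_cast hMpos
  have hM0 : (0 : ℝ) < M := by linarith
  set bj : Fin M → ℂ := fun j => ((tf.equivFin.symm j : tf) : ℂ) with hbj
  have hbj_mem : ∀ j, bj j ∈ sphere b s := by
    intro j
    apply htS
    exact htf.mem_toFinset.1 (tf.equivFin.symm j).2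
  have hcov : ∀ w ∈ sphere b s, ∃ j, w ∈ ball (bj j) (e / 2) := by
    intro w hw
    obtain ⟨x, hx⟩ := Set.mem_iUnion.1 (htc hw)
    obtain ⟨hx, hwx⟩ := Set.mem_iUnion.1 hx
    have hx' : x ∈ tf := by rw [htfdef, Set.Finite.mem_toFinset]; exact hx
    refine ⟨tf.equivFin ⟨x, hx'⟩, ?_⟩
    rw [hbj]
    simp only [Equiv.symm_apply_apply]
    exact hwx
  set δ : Fin M → ℝ := fun j => ((j : ℕ) + 1 : ℝ) * e / (4 * M) with hδ
  set η : ℝ := e / (16 * M) with hη
  have hη0 : 0 < η := by rw [hη]; positivity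
  have hη1 : η ≤ e / 16 := by
    rw [hη]
    apply div_le_div_of_nonneg_left he.le (by norm_num)
    linarith
  have hMη : (M : ℝ) * η = e / 16 := by rw [hη]; field_simp
  have hδ0 : ∀ j, 0 < δ j := fun j => by rw [hδ]; positivity
  have hδη : ∀ j, δ j = ((j : ℕ) + 1 : ℝ) * (4 * η) := fun j => by
    rw [hδ, hη]; field_simp; norm_num
  have hδ1 : ∀ j, δ j ≤ e / 4 := fun j => by
    rw [hδη]
    have h1 : ((j : ℕ) + 1 : ℝ) ≤ M := by exact_mod_cast j.2
    have h2 : ((j : ℕ) + 1 : ℝ) * (4 * η) ≤ (M : ℝ) * (4 * η) :=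
      mul_le_mul_of_nonneg_right h1 (by positivity)
    linarith
  set u : Fin M → Node := fun j => ⟨a, r + δ j, bj j, e / 2, η⟩ with hu
  have hinj : Function.Injective u := by
    intro j k hjk
    have h1 : (u j).r = (u k).r := by rw [hjk]
    simp only [hu] at h1
    have h2 : δ j = δ k := by linarith
    rw [hδη, hδη] at h2
    have h3 : ((j : ℕ) + 1 : ℝ) = ((k : ℕ) + 1 : ℝ) := mul_right_cancel₀ (by positivity) h2
    apply Fin.ext
    have h4 : ((j : ℕ) : ℝ) = ((k : ℕ) : ℝ) := by linarith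
    exact_mod_cast h4
  refine ⟨Finset.univ.map ⟨u, hinj⟩, ?_, ?_, ?_, ?_, ?_⟩
  · intro x hx
    obtain ⟨j, _, rfl⟩ := Finset.mem_map.1 hx
    simp only [Function.Embedding.coeFn_mk, hu]
    have d0 := hδ0 j
    have d1 := hδ1 j
    refine ⟨⟨hη0, ?_, ?_⟩, ?_, le_refl _, ?_, ?_⟩
    · show η ≤ (r + δ j) / 2
      linarith
    · show η ≤ e / 2 / 2
      linarith
    · rintro ⟨z, w⟩ ⟨h1, h2⟩
      simp only [Ann, Set.mem_setOf_eq] at h1 h2
      rw [abs_le] at h1 h2
      have hd : dist (bj j) b = s := mem_sphere.1 (hbj_mem j)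
      have h3 := abs_dist_sub_le w (bj j) b
      rw [hd, abs_le] at h3
      refine ⟨?_, ?_⟩
      · show |dist z a - r| ≤ e
        rw [abs_le]
        constructor <;> linarith [h1.1, h1.2]
      · show |dist w b - s| ≤ e
        rw [abs_le]
        constructor <;> linarith [h2.1, h2.2, h3.1, h3.2]
    · show r + δ j ≤ r + e / 2
      linarith
    · show η ≤ e / 8
      linarith
  · intro x hx y hy hxy
    obtain ⟨j, _, rfl⟩ := Finset.mem_map.1 hx
    obtain ⟨k, _, rfl⟩ := Finset.mem_map.1 hy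
    rw [Set.disjoint_left]
    rintro ⟨z, w⟩ ⟨h1, _⟩ ⟨h2, _⟩
    apply hxy
    simp only [Function.Embedding.coeFn_mk]
    congr 1
    simp only [Function.Embedding.coeFn_mk, hu, Ann, Set.mem_setOf_eq] at h1 h2
    rw [abs_le] at h1 h2
    rw [hδη] at h1 h2
    apply Fin.ext
    have h3 : ((j : ℕ) : ℝ) - ((k : ℕ) : ℝ) < 1 := by
      by_contra h
      push Not at h
      nlinarith [h1.1, h1.2, h2.1, h2.2]
    have h4 : ((k : ℕ) : ℝ) - ((j : ℕ) : ℝ) < 1 := by
      by_contra h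
      push Not at h
      nlinarith [h1.1, h1.2, h2.1, h2.2]
    have h5 : ((j : ℕ) : ℝ) < ((k : ℕ) + 1 : ℕ) := by push_cast; linarith
    have h6 : ((k : ℕ) : ℝ) < ((j : ℕ) + 1 : ℕ) := by push_cast; linarith
    have h5' : (j : ℕ) < (k : ℕ) + 1 := by exact_mod_cast h5
    have h6' : (k : ℕ) < (j : ℕ) + 1 := by exact_mod_cast h6
    omega
  · intro F hF c hc
    rintro ⟨z, w⟩ ⟨hz, hw⟩
    simp only at hz hw
    obtain ⟨j, hj⟩ := hcov w hw
    have hcj : ∀ p ∈ (u j).T, ‖F p‖ ≤ c :=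
      hc (u j) (Finset.mem_map.2 ⟨j, Finset.mem_univ _, rfl⟩)
    have d0 := hδ0 j
    have step1 : ∀ z' ∈ sphere a (r + δ j), ‖F (z', w)‖ ≤ c := by
      intro z' hz'
      refine disc_max (hF.h2 z') (half_pos he) (a := bj j) ?_ (ball_subset_closedBall hj)
      intro w' hw'
      exact hcj (z', w') ⟨hz', hw'⟩
    refine disc_max (hF.h1 w) (by linarith : 0 < r + δ j) (a := a) step1 ?_
    rw [mem_closedBall, mem_sphere.1 hz]
    linarith
  · rw [Finset.sum_map]
    simp only [Function.Embedding.coeFn_mk, hu]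
    have h1 : ∑ j : Fin M, (r + δ j) * η ≤ ∑ _j : Fin M, (r + e / 4) * η := by
      refine Finset.sum_le_sum fun j _ => ?_
      have := hδ1 j
      apply mul_le_mul_of_nonneg_right _ hη0.le
      linarith
    rw [Finset.sum_const, Finset.card_univ, Fintype.card_fin, nsmul_eq_mul] at h1
    have h2 : (M : ℝ) * ((r + e / 4) * η) = (r + e / 4) * (e / 16) := by rw [← hMη]; ring
    rw [h2] at h1
    nlinarith
  · rw [Finset.sum_map]
    simp only [Function.Embedding.coeFn_mk, hu]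
    rw [Finset.sum_const, Finset.card_univ, Fintype.card_fin, nsmul_eq_mul]
    have h2 : (M : ℝ) * (e / 2 * η) = (e / 2) * (e / 16) := by rw [← hMη]; ring
    rw [h2]
    nlinarith

end Pool.Agent.Helper459.Arc
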