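import Mathlib
import Pool.Agent.Helper459.ArcDefs

set_option autoImplicit false
namespace Pool.Agent.Helper459.Arc
open Metric Set

theorem ph_zero_iff (C : Set ℝ) (hC : IsCompact C) (hne : C.Nonempty) (t : ℝ) :
    ph C t = 0 ↔ t ∈ C := by
  rw [hC.isClosed.mem_iff_infDist_zero hne]
  simp [ph, Complex.exp_ne_zero]

theorem g0_on (C : Set ℝ) (m M : ℝ)
    (hF : Facts C m M) (κ : ℝ → ℂ × ℂ) (t : ℝ) (ht : t ∈ C) : g0 C κ t = κ t := by
  obtain ⟨_, h1, h2⟩ := hF.on_C t ht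
  simp [g0, h1, h2]

theorem norm_ph (C : Set ℝ) (t : ℝ) : ‖ph C t‖ = infDist t C := by
  unfold ph
  rw [norm_mul, mul_comm Complex.I, Complex.norm_exp_ofReal_mul_I, mul_one, Complex.norm_real,
    Real.norm_eq_abs, abs_of_nonneg infDist_nonneg]

theorem inj_g (C : Set ℝ) (hC : IsCompact C) (hne : C.Nonempty) (h01 : C ⊆ Icc 0 1) (m M : ℝ)
    (hF : Facts C m M) (κ : ℝ → ℂ × ℂ) (hκ : InjOn κ C) :
    InjOn (fun t => (g0 C κ t, ph C t)) (Icc m M) ∧
    (∀ t ∈ C, g0 C κ t = κ t ∧ ph C t = 0) ∧ (∀ t ∈ Icc m M, t ∉ C → ph C t ≠ 0) := by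
  have hph := ph_zero_iff C hC hne
  refine ⟨?_, fun t ht => ⟨g0_on C m M hF κ t ht, (hph t).2 ht⟩,
    fun t _ htC h => htC ((hph t).1 h)⟩
  intro t ht t' ht' heq
  simp only [Prod.mk.injEq] at heq
  obtain ⟨hg, hp⟩ := heq
  by_cases htC : t ∈ C
  · have ht'C : t' ∈ C := by
      rw [← hph, ← hp, hph]; exact htC
    rw [g0_on C m M hF κ t htC, g0_on C m M hF κ t' ht'C] at hg
    exact hκ htC ht'C hg
  · have ht'C : t' ∉ C := by
      intro h
      apply htC
      rw [← hph, hp, hph]; exact h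
    have hn : infDist t C = infDist t' C := by
      rw [← norm_ph, ← norm_ph, hp]
    have hpos : infDist t C ≠ 0 := by
      intro h
      exact htC ((hC.isClosed.mem_iff_infDist_zero hne).2 h)
    have hexp : Complex.exp (Complex.I * (lo C t : ℂ)) = Complex.exp (Complex.I * (lo C t' : ℂ)) := by
      unfold ph at hp
      rw [← hn] at hp
      exact mul_left_cancel₀ (by exact_mod_cast hpos) hp
    have hlo : lo C t = lo C t' := by
      have h1 := h01 (hF.lo_mem t ht)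
      have h2 := h01 (hF.lo_mem t' ht')
      have hpi := Real.pi_gt_three
      have := Complex.exp_inj_of_neg_pi_lt_of_le_pi (x := Complex.I * (lo C t : ℂ))
        (y := Complex.I * (lo C t' : ℂ)) (by simp; linarith [h1.1]) (by simp; linarith [h1.2])
        (by simp; linarith [h2.1]) (by simp; linarith [h2.2]) hexp
      have := mul_left_cancel₀ Complex.I_ne_zero this
      exact_mod_cast this
    have hhi : hi C t = hi C t' := by
      rcases le_total t t' with h | h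
      · obtain ⟨_, _, h3⟩ := hF.off_C t' ht' ht'C
        obtain ⟨h1, _, _⟩ := hF.off_C t ht htC
        have h2 := (hF.off_C t' ht' ht'C).2.1
        exact (h3 t ⟨by rw [← hlo]; exact h1, lt_of_le_of_lt h h2⟩).2.2
      · obtain ⟨_, _, h3⟩ := hF.off_C t ht htC
        obtain ⟨h1, _, _⟩ := hF.off_C t' ht' ht'C
        have h2 := (hF.off_C t ht htC).2.1
        exact ((h3 t' ⟨by rw [hlo]; exact h1, lt_of_le_of_lt h h2⟩).2.2).symm
    obtain ⟨a1, a2, _⟩ := hF.off_C t ht htC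
    have hlt : lo C t < hi C t := lt_trans a1 a2
    have hne' : κ (lo C t) ≠ κ (hi C t) := by
      intro h
      exact hlt.ne (hκ (hF.lo_mem t ht) (hF.hi_mem t ht) h)
    unfold g0 at hg
    rw [← hlo, ← hhi] at hg
    have := AffineMap.lineMap_injective ℝ hne' hg
    have hd : hi C t - lo C t ≠ 0 := by linarith
    field_simp at this
    linarith

theorem null_line (p d : ℂ) : MeasureTheory.volume {z : ℂ | ∃ x : ℝ, z = p + x • d} = 0 := by
  have h1 : (AffineSubspace.mk' p (Submodule.span ℝ {d}) : Set ℂ) = {z : ℂ | ∃ x : ℝ, z = p + x • d} := by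
    ext z
    simp only [SetLike.mem_coe, AffineSubspace.mem_mk', vsub_eq_sub, Submodule.mem_span_singleton]
    constructor
    · rintro ⟨a, ha⟩
      exact ⟨a, by rw [ha]; ring⟩
    · rintro ⟨a, ha⟩
      exact ⟨a, by rw [ha]; ring⟩
  rw [← h1]
  apply MeasureTheory.Measure.addHaar_affineSubspace
  intro h
  have h2 : (Submodule.span ℝ {d} : Submodule ℝ ℂ) = ⊤ := by
    have := congrArg AffineSubspace.direction h
    rwa [AffineSubspace.direction_mk', AffineSubspace.direction_top] at this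
  have h3 : Module.finrank ℝ (Submodule.span ℝ {d} : Submodule ℝ ℂ) ≤ 1 := by
    have := finrank_span_le_card (R := ℝ) ({d} : Set ℂ)
    simpa using this
  rw [h2, finrank_top, Complex.finrank_real_complex] at h3
  omega

theorem null_g (C : Set ℝ) (hC : IsCompact C) (hne : C.Nonempty) (m M : ℝ)
    (hF : Facts C m M) (κ : ℝ → ℂ × ℂ) :
    MeasureTheory.volume ((fun t => (g0 C κ t).1) '' (Icc m M \ C)) = 0 ∧
    MeasureTheory.volume ((fun t => (g0 C κ t).2) '' (Icc m M \ C)) = 0 ∧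
    MeasureTheory.volume ((ph C) '' (Icc m M \ C)) = 0 := by
  have key : ∀ f : ℝ → ℂ, (∀ q : ℚ, (q : ℝ) ∈ Icc m M → (q : ℝ) ∉ C →
      ∃ p d : ℂ, ∀ t, lo C t = lo C q → hi C t = hi C q → ∃ x : ℝ, f t = p + x • d) →
      MeasureTheory.volume (f '' (Icc m M \ C)) = 0 := by
    intro f hf
    have hsub : f '' (Icc m M \ C) ⊆ ⋃ q : ℚ, {z : ℂ | (q : ℝ) ∈ Icc m M ∧ (q : ℝ) ∉ C ∧ ∃ t, lo C t = lo C q ∧ hi C t = hi C q ∧ z = f t} := by
      rintro _ ⟨t, ⟨ht, htC⟩, rfl⟩
      obtain ⟨a1, a2, a3⟩ := hF.off_C t ht htC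
      obtain ⟨q, hq1, hq2⟩ := exists_rat_btwn (lt_trans a1 a2)
      obtain ⟨b1, b2, b3⟩ := a3 q ⟨hq1, hq2⟩
      rw [mem_iUnion]
      refine ⟨q, ⟨?_, ?_⟩, b1, t, b2.symm, b3.symm, rfl⟩
      · exact le_trans (hF.on_C _ (hF.lo_mem t ht)).1.1 hq1.le
      · exact le_trans hq2.le (hF.on_C _ (hF.hi_mem t ht)).1.2
    refine MeasureTheory.measure_mono_null hsub ?_
    rw [MeasureTheory.measure_iUnion_null_iff]
    intro q
    by_cases hq : (q : ℝ) ∈ Icc m M ∧ (q : ℝ) ∉ C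
    · obtain ⟨p, d, hpd⟩ := hf q hq.1 hq.2
      refine MeasureTheory.measure_mono_null ?_ (null_line p d)
      rintro z ⟨_, _, t, h1, h2, rfl⟩
      exact hpd t h1 h2
    · have : {z : ℂ | (q : ℝ) ∈ Icc m M ∧ (q : ℝ) ∉ C ∧ ∃ t, lo C t = lo C q ∧ hi C t = hi C q ∧ z = f t} = ∅ := by
        ext z
        simp only [mem_setOf_eq, mem_empty_iff_false, iff_false]
        rintro ⟨h1, h2, _⟩
        exact hq ⟨h1, h2⟩
      rw [this]; simp
  refine ⟨key _ ?_, key _ ?_, key _ ?_⟩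
  · intro q hq hqC
    refine ⟨(κ (lo C q)).1, (κ (hi C q)).1 - (κ (lo C q)).1, fun t h1 h2 => ?_⟩
    refine ⟨(t - lo C t) / (hi C t - lo C t), ?_⟩
    simp only [g0, AffineMap.lineMap_apply_module', h1, h2]
    simp only [Prod.fst_add, Prod.smul_fst, Prod.fst_sub]
    ring
  · intro q hq hqC
    refine ⟨(κ (lo C q)).2, (κ (hi C q)).2 - (κ (lo C q)).2, fun t h1 h2 => ?_⟩
    refine ⟨(t - lo C t) / (hi C t - lo C t), ?_⟩
    simp only [g0, AffineMap.lineMap_apply_module', h1, h2]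
    simp only [Prod.snd_add, Prod.smul_snd, Prod.snd_sub]
    ring
  · intro q hq hqC
    refine ⟨0, Complex.exp (Complex.I * (lo C q : ℂ)), fun t h1 h2 => ⟨infDist t C, ?_⟩⟩
    simp only [ph, h1, zero_add, Complex.real_smul]

end Pool.Agent.Helper459.Arc
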