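import Mathlib
import Pool.Agent.Helper459.ArcDefs

set_option autoImplicit false
namespace Pool.Agent.Helper459.Arc
open Metric Set

theorem exists_K (hvol : VolFact) (hemb : EmbFact) (L : ℕ → Finset Node) (hL : Tree L) :
    ∃ K : Set (ℂ × ℂ), IsCompact K ∧ (0, 0) ∉ K ∧
      MeasureTheory.volume (Prod.fst '' K) = 0 ∧ MeasureTheory.volume (Prod.snd '' K) = 0 ∧
      (∀ F : ℂ × ℂ → ℂ, Adm F → ∀ c : ℝ, (∀ p ∈ K, ‖F p‖ ≤ c) → ‖F (0, 0)‖ ≤ c) ∧
      ∃ f : ℂ × ℂ → ℝ, ContinuousOn f K ∧ InjOn f K ∧ ∀ p ∈ K, f p ∈ Icc (0 : ℝ) 1 := by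
  classical
  have hAnnC : ∀ (a : ℂ) (r e : ℝ), IsClosed (Ann a r e) := by
    intro a r e
    exact isClosed_le (by fun_prop) continuous_const
  have hAnnK : ∀ (a : ℂ) (r e : ℝ), IsCompact (Ann a r e) := by
    intro a r e
    refine (isCompact_closedBall a (r + e)).of_isClosed_subset (hAnnC a r e) ?_
    intro z hz
    have h1 : |dist z a - r| ≤ e := hz
    have h2 := (abs_le.mp h1).2
    rw [mem_closedBall]; linarith
  have hNK : ∀ v : Node, IsCompact v.N := fun v => (hAnnK _ _ _).prod (hAnnK _ _ _)
  have hNC : ∀ v : Node, IsClosed v.N := fun v => (hNK v).isClosed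
  set U : ℕ → Set (ℂ × ℂ) := fun n => ⋃ u ∈ L n, u.N with hU
  have hUK : ∀ n, IsCompact (U n) := fun n => (L n).isCompact_biUnion (fun u _ => hNK u)
  have hUC : ∀ n, IsClosed (U n) := fun n => (hUK n).isClosed
  have hUs : ∀ n, U (n + 1) ⊆ U n := by
    intro n x hx
    simp only [hU, mem_iUnion] at hx ⊢
    obtain ⟨u, hu, hxu⟩ := hx
    obtain ⟨v, hv, hs⟩ := hL.hsub n u hu
    exact ⟨v, hv, hs hxu⟩
  have hUanti : Antitone U := antitone_nat_of_succ_le hUs
  set K : Set (ℂ × ℂ) := ⋂ n, U n with hK
  have hKC : IsClosed K := isClosed_iInter hUC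
  have hKU : ∀ n, K ⊆ U n := fun n => iInter_subset U n
  have hKK : IsCompact K := (hUK 0).of_isClosed_subset hKC (hKU 0)
  refine ⟨K, hKK, ?_, ?_, ?_, ?_, ?_⟩
  · intro h0
    have h1 := hKU 0 h0
    simp only [hU, mem_iUnion] at h1
    obtain ⟨u, hu, hxu⟩ := h1
    rw [hL.h0, Finset.mem_singleton] at hu
    subst hu
    have h2 : |dist (0:ℂ) 0 - 1| ≤ 1/2 := hxu.1
    rw [dist_self] at h2
    norm_num at h2
  · have key : ∀ n, MeasureTheory.volume (Prod.fst '' K) ≤
        ENNReal.ofReal (4 * Real.pi * (1/2 : ℝ) ^ (n+1)) := by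
      intro n
      calc MeasureTheory.volume (Prod.fst '' K)
          ≤ MeasureTheory.volume (⋃ u ∈ L n, Ann u.a u.r u.e) := by
            apply MeasureTheory.measure_mono
            rintro _ ⟨x, hx, rfl⟩
            have h1 := hKU n hx
            simp only [hU, mem_iUnion] at h1 ⊢
            obtain ⟨u, hu, hxu⟩ := h1
            exact ⟨u, hu, hxu.1⟩
        _ ≤ ∑ u ∈ L n, MeasureTheory.volume (Ann u.a u.r u.e) :=
            MeasureTheory.measure_biUnion_finset_le _ _
        _ ≤ ∑ u ∈ L n, ENNReal.ofReal (4 * Real.pi * (u.r * u.e)) := by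
            apply Finset.sum_le_sum
            intro u hu
            obtain ⟨h1, h2, h3⟩ := hL.hgood n u hu
            exact hvol _ _ _ h1 (by linarith)
        _ = ENNReal.ofReal (∑ u ∈ L n, 4 * Real.pi * (u.r * u.e)) := by
            rw [ENNReal.ofReal_sum_of_nonneg]
            intro u hu
            obtain ⟨h1, h2, h3⟩ := hL.hgood n u hu
            have := Real.pi_pos
            have h4 : 0 < u.r := by linarith
            positivity
        _ ≤ ENNReal.ofReal (4 * Real.pi * (1/2 : ℝ) ^ (n+1)) := by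
            apply ENNReal.ofReal_le_ofReal
            rw [← Finset.mul_sum]
            have := Real.pi_pos
            exact mul_le_mul_of_nonneg_left (hL.hsum1 n) (by positivity)
    have hlim : Filter.Tendsto (fun n : ℕ => ENNReal.ofReal (4 * Real.pi * (1/2 : ℝ) ^ (n+1)))
        Filter.atTop (nhds 0) := by
      rw [← ENNReal.ofReal_zero]
      apply ENNReal.tendsto_ofReal
      have h1 : Filter.Tendsto (fun n : ℕ => (1/2 : ℝ) ^ (n+1)) Filter.atTop (nhds 0) :=
        (tendsto_pow_atTop_nhds_zero_of_lt_one (by norm_num) (by norm_num)).comp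
          (Filter.tendsto_add_atTop_nat 1)
      simpa using h1.const_mul (4 * Real.pi)
    exact le_antisymm (ge_of_tendsto' hlim key) (by simp)
  · have key : ∀ n, MeasureTheory.volume (Prod.snd '' K) ≤
        ENNReal.ofReal (4 * Real.pi * (1/2 : ℝ) ^ (n+1)) := by
      intro n
      calc MeasureTheory.volume (Prod.snd '' K)
          ≤ MeasureTheory.volume (⋃ u ∈ L n, Ann u.b u.s u.e) := by
            apply MeasureTheory.measure_mono
            rintro _ ⟨x, hx, rfl⟩
            have h1 := hKU n hx
            simp only [hU, mem_iUnion] at h1 ⊢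
            obtain ⟨u, hu, hxu⟩ := h1
            exact ⟨u, hu, hxu.2⟩
        _ ≤ ∑ u ∈ L n, MeasureTheory.volume (Ann u.b u.s u.e) :=
            MeasureTheory.measure_biUnion_finset_le _ _
        _ ≤ ∑ u ∈ L n, ENNReal.ofReal (4 * Real.pi * (u.s * u.e)) := by
            apply Finset.sum_le_sum
            intro u hu
            obtain ⟨h1, h2, h3⟩ := hL.hgood n u hu
            exact hvol _ _ _ h1 (by linarith)
        _ = ENNReal.ofReal (∑ u ∈ L n, 4 * Real.pi * (u.s * u.e)) := by
            rw [ENNReal.ofReal_sum_of_nonneg]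
            intro u hu
            obtain ⟨h1, h2, h3⟩ := hL.hgood n u hu
            have := Real.pi_pos
            have h4 : 0 < u.s := by linarith
            positivity
        _ ≤ ENNReal.ofReal (4 * Real.pi * (1/2 : ℝ) ^ (n+1)) := by
            apply ENNReal.ofReal_le_ofReal
            rw [← Finset.mul_sum]
            have := Real.pi_pos
            exact mul_le_mul_of_nonneg_left (hL.hsum2 n) (by positivity)
    have hlim : Filter.Tendsto (fun n : ℕ => ENNReal.ofReal (4 * Real.pi * (1/2 : ℝ) ^ (n+1)))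
        Filter.atTop (nhds 0) := by
      rw [← ENNReal.ofReal_zero]
      apply ENNReal.tendsto_ofReal
      have h1 : Filter.Tendsto (fun n : ℕ => (1/2 : ℝ) ^ (n+1)) Filter.atTop (nhds 0) :=
        (tendsto_pow_atTop_nhds_zero_of_lt_one (by norm_num) (by norm_num)).comp
          (Filter.tendsto_add_atTop_nat 1)
      simpa using h1.const_mul (4 * Real.pi)
    exact le_antisymm (ge_of_tendsto' hlim key) (by simp)
  · intro F hF c hc
    apply le_of_forall_pos_le_add
    intro ε hε
    -- exists n with ‖F‖ < c + ε on U n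
    have hex : ∃ n, ∀ p ∈ U n, ‖F p‖ < c + ε := by
      by_contra hcon
      push Not at hcon
      have hne : (⋂ n, (U n ∩ {p | c + ε ≤ ‖F p‖})).Nonempty := by
        apply IsCompact.nonempty_iInter_of_sequence_nonempty_isCompact_isClosed
        · intro n x hx
          exact ⟨hUs n hx.1, hx.2⟩
        · intro n
          obtain ⟨p, hp, hp2⟩ := hcon n
          exact ⟨p, hp, hp2⟩
        · exact (hUK 0).inter_right (isClosed_le continuous_const hF.hc.norm)
        · intro n
          exact (hUC n).inter (isClosed_le continuous_const hF.hc.norm)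
      obtain ⟨p, hp⟩ := hne
      rw [mem_iInter] at hp
      have hpK : p ∈ K := by
        rw [hK, mem_iInter]
        exact fun n => (hp n).1
      have h1 := hc p hpK
      have h2 : c + ε ≤ ‖F p‖ := (hp 0).2
      linarith
    obtain ⟨n, hn⟩ := hex
    apply hL.hhull n F hF
    intro u hu p hp
    have hpN : p ∈ u.N := by
      obtain ⟨h1, h2, h3⟩ := hL.hgood n u hu
      have hp1 : dist p.1 u.a = u.r := hp.1
      have hp2 : dist p.2 u.b = u.s := hp.2
      refine ⟨?_, ?_⟩
      · show |dist p.1 u.a - u.r| ≤ u.e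
        rw [hp1, sub_self, abs_zero]; exact h1.le
      · show |dist p.2 u.b - u.s| ≤ u.e
        rw [hp2, sub_self, abs_zero]; exact h1.le
    have hpU : p ∈ U n := by
      simp only [hU, mem_iUnion]
      exact ⟨u, hu, hpN⟩
    exact (hn p hpU).le
  · -- embedding
    set S : Set Node := ⋃ n, (L n : Set Node) with hS
    have hSc : S.Countable := countable_iUnion (fun n => (L n).countable_toSet)
    have hSne : S.Nonempty := by
      refine ⟨⟨0, 1, 0, 1, 1 / 2⟩, mem_iUnion.mpr ⟨0, ?_⟩⟩
      rw [hL.h0]; simp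
    obtain ⟨g, hg⟩ := hSc.exists_eq_range hSne
    have hgm : ∀ i, ∃ n, g i ∈ L n := by
      intro i
      have : g i ∈ S := by rw [hg]; exact mem_range_self i
      obtain ⟨n, hn⟩ := mem_iUnion.mp this
      exact ⟨n, hn⟩
    apply hemb K hKK (fun i => (g i).N)
    · intro i
      obtain ⟨n, hn⟩ := hgm i
      refine ⟨(⋃ u ∈ (L n).erase (g i), u.N)ᶜ, ?_, ?_⟩
      · apply isOpen_compl_iff.mpr
        exact ((L n).erase (g i)).isCompact_biUnion (fun u _ => hNK u) |>.isClosed
      · ext x
        constructor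
        · rintro ⟨hxK, hx⟩
          refine ⟨hxK, ?_⟩
          have h1 := hKU n hxK
          simp only [hU, mem_iUnion] at h1
          obtain ⟨u, hu, hxu⟩ := h1
          by_cases hug : u = g i
          · rw [← hug]; exact hxu
          · exfalso
            apply hx
            simp only [mem_iUnion]
            exact ⟨u, Finset.mem_erase.mpr ⟨hug, hu⟩, hxu⟩
        · rintro ⟨hxK, hx⟩
          refine ⟨hxK, ?_⟩
          intro hx2
          simp only [mem_iUnion] at hx2
          obtain ⟨u, hu, hxu⟩ := hx2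
          rw [Finset.mem_erase] at hu
          exact disjoint_left.mp (hL.hdisj n u hu.2 (g i) hn hu.1) hxu hx
    · intro i
      exact ⟨(g i).N, hNC _, rfl⟩
    · intro x hx y hy hxy
      by_contra hcon
      push Not at hcon
      apply hxy
      have hd : ∀ n : ℕ, dist x y ≤ 4 * (1/2 : ℝ) ^ (n+1) := by
        intro n
        have h1 := hKU (n+1) hx
        simp only [hU, mem_iUnion] at h1
        obtain ⟨u, hu, hxu⟩ := h1
        have huS : u ∈ S := mem_iUnion.mpr ⟨n+1, hu⟩
        rw [hg] at huS
        obtain ⟨i, hi⟩ := huS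
        have hyu : y ∈ u.N := by
          have := hcon i
          simp only [hi] at this
          exact this.mp hxu
        obtain ⟨hr, hs⟩ := hL.hsmall n u hu
        have he := hL.he (n+1) u hu
        have hp : (1/2 : ℝ) ^ (n+1+1) = (1/2) * (1/2 : ℝ) ^ (n+1) := by ring
        have hpos : 0 < (1/2 : ℝ) ^ (n+1) := by positivity
        have hx1 : |dist x.1 u.a - u.r| ≤ u.e := hxu.1
        have hx2 : |dist x.2 u.b - u.s| ≤ u.e := hxu.2
        have hy1 : |dist y.1 u.a - u.r| ≤ u.e := hyu.1
        have hy2 : |dist y.2 u.b - u.s| ≤ u.e := hyu.2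
        have hx1' := (abs_le.mp hx1).2
        have hx2' := (abs_le.mp hx2).2
        have hy1' := (abs_le.mp hy1).2
        have hy2' := (abs_le.mp hy2).2
        rw [Prod.dist_eq]
        apply max_le
        · have := dist_triangle_right x.1 y.1 u.a
          linarith
        · have := dist_triangle_right x.2 y.2 u.b
          linarith
      have hlim : Filter.Tendsto (fun n : ℕ => 4 * (1/2 : ℝ) ^ (n+1))
          Filter.atTop (nhds 0) := by
        have h1 : Filter.Tendsto (fun n : ℕ => (1/2 : ℝ) ^ (n+1)) Filter.atTop (nhds 0) :=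
          (tendsto_pow_atTop_nhds_zero_of_lt_one (by norm_num) (by norm_num)).comp
            (Filter.tendsto_add_atTop_nat 1)
        simpa using h1.const_mul 4
      have h0 : dist x y ≤ 0 := ge_of_tendsto' hlim hd
      exact dist_le_zero.mp h0

end Pool.Agent.Helper459.Arc
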