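import Mathlib
import Pool.Agent.Helper459.ArcDefs

set_option autoImplicit false
namespace Pool.Agent.Helper459.Arc
open Metric Set

theorem aux833_nonempty (u : Node) (hu : u.Good) : u.N.Nonempty := by
  obtain ⟨h1, h2, h3⟩ := hu
  have hr : 0 ≤ u.r := by linarith
  have hs : 0 ≤ u.s := by linarith
  refine ⟨(u.a + (u.r : ℂ), u.b + (u.s : ℂ)), ?_⟩
  have e1 : dist (u.a + (u.r : ℂ)) u.a = u.r := by
    rw [dist_eq_norm, add_sub_cancel_left, Complex.norm_real, Real.norm_eq_abs, abs_of_nonneg hr]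
  have e2 : dist (u.b + (u.s : ℂ)) u.b = u.s := by
    rw [dist_eq_norm, add_sub_cancel_left, Complex.norm_real, Real.norm_eq_abs, abs_of_nonneg hs]
  refine Set.mem_prod.2 ⟨?_, ?_⟩
  · change |dist (u.a + (u.r : ℂ)) u.a - u.r| ≤ u.e
    rw [e1, sub_self, abs_zero]; exact h1.le
  · change |dist (u.b + (u.s : ℂ)) u.b - u.s| ≤ u.e
    rw [e2, sub_self, abs_zero]; exact h1.le

theorem aux833_max (F : ℂ × ℂ → ℂ) (hF : Adm F) (c : ℝ)
    (h : ∀ z ∈ sphere (0 : ℂ) 1, ∀ w ∈ sphere (0 : ℂ) 1, ‖F (z, w)‖ ≤ c) : ‖F (0, 0)‖ ≤ c := by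
  have hfr : frontier (ball (0 : ℂ) 1) = sphere (0 : ℂ) 1 := frontier_ball 0 one_ne_zero
  have h0 : (0 : ℂ) ∈ closure (ball (0 : ℂ) 1) := subset_closure (mem_ball_self one_pos)
  have h1 : ∀ w ∈ sphere (0 : ℂ) 1, ‖F (0, w)‖ ≤ c := by
    intro w hw
    refine Complex.norm_le_of_forall_mem_frontier_norm_le (f := fun z : ℂ => F (z, w))
      isBounded_ball (hF.h1 w).diffContOnCl ?_ h0
    intro z hz
    rw [hfr] at hz
    exact h z hz w hw
  refine Complex.norm_le_of_forall_mem_frontier_norm_le (f := fun w : ℂ => F (0, w))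
    isBounded_ball (hF.h2 0).diffContOnCl ?_ h0
  intro w hw
  rw [hfr] at hw
  exact h1 w hw

theorem exists_tree (H : ∀ v : Node, v.Good → FullStep v) : ∃ L : ℕ → Finset Node, Tree L := by
  classical
  have hex : ∃ ch : Node → Finset Node, ∀ v : Node, v.Good →
      (∀ u ∈ ch v, u.Good ∧ u.N ⊆ v.N ∧ u.s ≤ v.e ∧ u.r ≤ v.e ∧ u.e ≤ v.e / 2) ∧
      (∀ u ∈ ch v, ∀ u' ∈ ch v, u ≠ u' → Disjoint u.N u'.N) ∧
      (∀ F : ℂ × ℂ → ℂ, Adm F → ∀ c : ℝ, (∀ u ∈ ch v, ∀ p ∈ u.T, ‖F p‖ ≤ c) →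
        ∀ p ∈ v.T, ‖F p‖ ≤ c) ∧
      (∑ u ∈ ch v, u.r * u.e ≤ v.r * v.e / 2) ∧ (∑ u ∈ ch v, u.s * u.e ≤ v.s * v.e / 2) := by
    refine ⟨fun v => if h : v.Good then Classical.choose (H v h) else ∅, ?_⟩
    intro v hv
    simp only [dif_pos hv]
    exact Classical.choose_spec (H v hv)
  obtain ⟨ch, hch⟩ := hex
  obtain ⟨L, hL0, hLs⟩ : ∃ L : ℕ → Finset Node, L 0 = {⟨0, 1, 0, 1, 1 / 2⟩} ∧
      ∀ n, L (n + 1) = (L n).biUnion ch :=
    ⟨fun n => Nat.rec {⟨0, 1, 0, 1, 1 / 2⟩} (fun _ S => S.biUnion ch) n, rfl, fun n => rfl⟩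
  have hgood : ∀ n, ∀ u ∈ L n, u.Good := by
    intro n
    induction n with
    | zero =>
      intro u hu
      rw [hL0, Finset.mem_singleton] at hu
      subst hu
      refine ⟨?_, ?_, ?_⟩ <;> norm_num
    | succ n ih =>
      intro u hu
      rw [hLs, Finset.mem_biUnion] at hu
      obtain ⟨v, hv, huv⟩ := hu
      exact ((hch v (ih v hv)).1 u huv).1
  have hdisj : ∀ n, ∀ u ∈ L n, ∀ u' ∈ L n, u ≠ u' → Disjoint u.N u'.N := by
    intro n
    induction n with
    | zero =>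
      intro u hu u' hu' hne
      rw [hL0, Finset.mem_singleton] at hu hu'
      exact absurd (hu.trans hu'.symm) hne
    | succ n ih =>
      intro u hu u' hu' hne
      rw [hLs, Finset.mem_biUnion] at hu hu'
      obtain ⟨v, hv, huv⟩ := hu
      obtain ⟨v', hv', huv'⟩ := hu'
      by_cases hvv : v = v'
      · subst hvv
        exact (hch v (hgood n v hv)).2.1 u huv u' huv' hne
      · exact (ih v hv v' hv' hvv).mono ((hch v (hgood n v hv)).1 u huv).2.1
          ((hch v' (hgood n v' hv')).1 u' huv').2.1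
  have hpd : ∀ n, (↑(L n) : Set Node).PairwiseDisjoint ch := by
    intro n v hv v' hv' hne
    rw [Function.onFun, Finset.disjoint_left]
    intro u hu hu'
    have hv1 : v ∈ L n := hv
    have hv2 : v' ∈ L n := hv'
    have h1 := (hch v (hgood n v hv1)).1 u hu
    have h2 := (hch v' (hgood n v' hv2)).1 u hu'
    obtain ⟨q, hq⟩ := aux833_nonempty u h1.1
    exact Set.disjoint_left.1 (hdisj n v hv1 v' hv2 hne) (h1.2.1 hq) (h2.2.1 hq)
  have he : ∀ n, ∀ u ∈ L n, u.e ≤ (1 / 2 : ℝ) ^ (n + 1) := by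
    intro n
    induction n with
    | zero =>
      intro u hu
      rw [hL0, Finset.mem_singleton] at hu
      subst hu
      norm_num
    | succ n ih =>
      intro u hu
      rw [hLs, Finset.mem_biUnion] at hu
      obtain ⟨v, hv, huv⟩ := hu
      have h1 := ((hch v (hgood n v hv)).1 u huv).2.2.2.2
      have h2 := ih v hv
      rw [pow_succ]
      linarith
  refine ⟨L, ⟨hL0, hgood, he, ?_, ?_, hdisj, ?_, ?_, ?_⟩⟩
  · intro n u hu
    rw [hLs, Finset.mem_biUnion] at hu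
    obtain ⟨v, hv, huv⟩ := hu
    have h1 := (hch v (hgood n v hv)).1 u huv
    have h2 := he n v hv
    exact ⟨h1.2.2.2.1.trans h2, h1.2.2.1.trans h2⟩
  · intro n u hu
    rw [hLs, Finset.mem_biUnion] at hu
    obtain ⟨v, hv, huv⟩ := hu
    exact ⟨v, hv, ((hch v (hgood n v hv)).1 u huv).2.1⟩
  · intro n
    induction n with
    | zero =>
      intro F hF c h
      refine aux833_max F hF c ?_
      intro z hz w hw
      refine h ⟨0, 1, 0, 1, 1 / 2⟩ ?_ (z, w) ?_
      · rw [hL0]; exact Finset.mem_singleton_self _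
      · exact Set.mem_prod.2 ⟨hz, hw⟩
    | succ n ih =>
      intro F hF c h
      refine ih F hF c ?_
      intro v hv p hp
      refine (hch v (hgood n v hv)).2.2.1 F hF c ?_ p hp
      intro u hu q hq
      refine h u ?_ q hq
      rw [hLs, Finset.mem_biUnion]
      exact ⟨v, hv, hu⟩
  · intro n
    induction n with
    | zero =>
      rw [hL0, Finset.sum_singleton]
      norm_num
    | succ n ih =>
      rw [hLs, Finset.sum_biUnion (hpd n)]
      have h1 : ∑ v ∈ L n, ∑ u ∈ ch v, u.r * u.e ≤ ∑ v ∈ L n, v.r * v.e / 2 :=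
        Finset.sum_le_sum (fun v hv => (hch v (hgood n v hv)).2.2.2.1)
      rw [← Finset.sum_div] at h1
      rw [pow_succ]
      linarith
  · intro n
    induction n with
    | zero =>
      rw [hL0, Finset.sum_singleton]
      norm_num
    | succ n ih =>
      rw [hLs, Finset.sum_biUnion (hpd n)]
      have h1 : ∑ v ∈ L n, ∑ u ∈ ch v, u.s * u.e ≤ ∑ v ∈ L n, v.s * v.e / 2 :=
        Finset.sum_le_sum (fun v hv => (hch v (hgood n v hv)).2.2.2.2)
      rw [← Finset.sum_div] at h1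
      rw [pow_succ]
      linarith

end Pool.Agent.Helper459.Arc
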