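import Mathlib
import Pool.Agent.Helper459.ArcDefs

set_option autoImplicit false
namespace Pool.Agent.Helper459.Arc
open Metric Set

theorem vol_fact (a : ℂ) (r e : ℝ) (he : 0 < e) (her : e ≤ r) :
    MeasureTheory.volume (Ann a r e) ≤ ENNReal.ofReal (4 * Real.pi * (r * e)) := by
  have h1 : Ann a r e ⊆ closedBall a (r + e) \ ball a (r - e) := by
    intro z hz
    have hz' : |dist z a - r| ≤ e := hz
    rw [abs_le] at hz'
    refine ⟨?_, ?_⟩
    · rw [mem_closedBall]; linarith
    · rw [mem_ball]; intro h; linarith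
  have h2 : ball a (r - e) ⊆ closedBall a (r + e) :=
    ball_subset_closedBall.trans (closedBall_subset_closedBall (by linarith))
  have key : ∀ x : ℝ, 0 ≤ x → ENNReal.ofReal x ^ 2 * (NNReal.pi : ENNReal) = ENNReal.ofReal (x ^ 2 * Real.pi) := by
    intro x hx
    rw [ENNReal.ofReal_mul (by positivity), ENNReal.ofReal_pow hx]
    congr 1
    rw [← NNReal.coe_real_pi, ENNReal.ofReal_coe_nnreal]
  calc MeasureTheory.volume (Ann a r e) ≤ MeasureTheory.volume (closedBall a (r + e) \ ball a (r - e)) :=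
        MeasureTheory.measure_mono h1
    _ = MeasureTheory.volume (closedBall a (r + e)) - MeasureTheory.volume (ball a (r - e)) :=
        MeasureTheory.measure_sdiff h2 measurableSet_ball.nullMeasurableSet MeasureTheory.measure_ball_lt_top.ne
    _ = ENNReal.ofReal (4 * Real.pi * (r * e)) := by
        rw [Complex.volume_closedBall, Complex.volume_ball, key _ (by linarith), key _ (by linarith),
          ← ENNReal.ofReal_sub _ (by positivity)]
        congr 1
        ring
    _ ≤ _ := le_rfl

theorem emb_fact (K : Set (ℂ × ℂ)) (hK : IsCompact K) (V : ℕ → Set (ℂ × ℂ))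
    (h1 : ∀ i, ∃ O : Set (ℂ × ℂ), IsOpen O ∧ K ∩ O = K ∩ V i)
    (h2 : ∀ i, ∃ O : Set (ℂ × ℂ), IsClosed O ∧ K ∩ O = K ∩ V i)
    (h3 : ∀ x ∈ K, ∀ y ∈ K, x ≠ y → ∃ i, ¬ (x ∈ V i ↔ y ∈ V i)) :
    ∃ f : ℂ × ℂ → ℝ, ContinuousOn f K ∧ InjOn f K ∧ ∀ p ∈ K, f p ∈ Icc (0 : ℝ) 1 := by
  classical
  let g : ℂ × ℂ → (ℕ → Bool) := fun x i => decide (x ∈ V i)
  let φ : (ℕ → Bool) → ℝ := fun b => (cantorSetHomeomorphNatToBool.symm b : ℝ)
  have hφ : Continuous φ := continuous_subtype_val.comp cantorSetHomeomorphNatToBool.symm.continuous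
  have hφi : Function.Injective φ := Subtype.val_injective.comp cantorSetHomeomorphNatToBool.symm.injective
  have hg : ContinuousOn g K := by
    rw [continuousOn_iff_continuous_domRestrict]
    apply continuous_pi
    intro i
    obtain ⟨O, hO, hO'⟩ := h1 i
    obtain ⟨C, hC, hC'⟩ := h2 i
    have e1 : (fun x : K => decide ((x : ℂ × ℂ) ∈ V i)) ⁻¹' {true} = Subtype.val ⁻¹' O := by
      ext x
      simp only [mem_preimage, mem_singleton_iff, decide_eq_true_eq]
      have := Set.ext_iff.mp hO' x.1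
      simp only [mem_inter_iff, x.2, true_and] at this
      exact this.symm
    have e2 : (fun x : K => decide ((x : ℂ × ℂ) ∈ V i)) ⁻¹' {true} = Subtype.val ⁻¹' C := by
      ext x
      simp only [mem_preimage, mem_singleton_iff, decide_eq_true_eq]
      have := Set.ext_iff.mp hC' x.1
      simp only [mem_inter_iff, x.2, true_and] at this
      exact this.symm
    have hclopen : IsClopen ((fun x : K => decide ((x : ℂ × ℂ) ∈ V i)) ⁻¹' {true}) :=
      ⟨by rw [e2]; exact hC.preimage continuous_subtype_val, by rw [e1]; exact hO.preimage continuous_subtype_val⟩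
    show Continuous (fun x : K => decide ((x : ℂ × ℂ) ∈ V i))
    exact (continuous_bool_rng true).mpr hclopen
  refine ⟨φ ∘ g, hφ.comp_continuousOn hg, ?_, ?_⟩
  · intro x hx y hy hxy
    by_contra hne
    obtain ⟨i, hi⟩ := h3 x hx y hy hne
    apply hi
    have := congrFun (hφi hxy) i
    have h4 : decide (x ∈ V i) = decide (y ∈ V i) := this
    exact decide_eq_decide.mp h4
  · intro p _
    exact cantorSet_subset_unitInterval (cantorSetHomeomorphNatToBool.symm (g p)).2

end Pool.Agent.Helper459.Arc
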