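import Mathlib
import Pool.Agent.Helper459.ArcDefs
import Pool.Agent.Helper459.ArcHalf
import Pool.Agent.Helper459.ArcFull
import Pool.Agent.Helper459.ArcTree
import Pool.Agent.Helper459.ArcK
import Pool.Agent.Helper459.ArcVol
import Pool.Agent.Helper459.ArcGap
import Pool.Agent.Helper459.ArcCont
import Pool.Agent.Helper459.ArcInj

set_option autoImplicit false
namespace Pool.Agent.Helper459.Arc
open Metric Set

theorem exists_K_final :
    ∃ K : Set (ℂ × ℂ), IsCompact K ∧ (0, 0) ∉ K ∧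
      MeasureTheory.volume (Prod.fst '' K) = 0 ∧ MeasureTheory.volume (Prod.snd '' K) = 0 ∧
      (∀ F : ℂ × ℂ → ℂ, Adm F → ∀ c : ℝ, (∀ p ∈ K, ‖F p‖ ≤ c) → ‖F (0, 0)‖ ≤ c) ∧
      ∃ f : ℂ × ℂ → ℝ, ContinuousOn f K ∧ InjOn f K ∧ ∀ p ∈ K, f p ∈ Icc (0 : ℝ) 1 := by
  obtain ⟨L, hL⟩ := exists_tree (full_step half_step)
  exact exists_K vol_fact emb_fact L hL


theorem diff_eval (p : MvPolynomial (Fin 3) ℂ) (h : ℂ → Fin 3 → ℂ)
    (hh : ∀ j, Differentiable ℂ (fun z => h z j)) :
    Differentiable ℂ (fun z => MvPolynomial.eval (h z) p) := by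
  induction p using MvPolynomial.induction_on with
  | C a => simp
  | add p q hp hq =>
    simp only [map_add]
    exact hp.add hq
  | mul_X p i hp =>
    simp only [map_mul, MvPolynomial.eval_X]
    exact hp.mul (hh i)

theorem adm_eval (p : MvPolynomial (Fin 3) ℂ) :
    Adm (fun x : ℂ × ℂ => MvPolynomial.eval ![x.1, x.2, 0] p) := by
  refine ⟨fun w => ?_, fun z => ?_, ?_⟩
  · apply diff_eval p (fun z => ![z, w, 0])
    intro j; fin_cases j
    · exact differentiable_id
    · exact differentiable_const _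
    · exact differentiable_const _
  · apply diff_eval p (fun w => ![z, w, 0])
    intro j; fin_cases j
    · exact differentiable_const _
    · exact differentiable_id
    · exact differentiable_const _
  · apply (MvPolynomial.continuous_eval p).comp
    refine continuous_pi ?_
    intro j; fin_cases j
    · exact continuous_fst
    · exact continuous_snd
    · exact continuous_const

theorem adm_F (p q : MvPolynomial (Fin 3) ℂ) :
    Adm (fun x : ℂ × ℂ => 1 - (x.1 * MvPolynomial.eval ![x.1, x.2, 0] p +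
      x.2 * MvPolynomial.eval ![x.1, x.2, 0] q)) := by
  have hp := adm_eval p
  have hq := adm_eval q
  refine ⟨fun w => ?_, fun z => ?_, ?_⟩
  · have h1 := hp.h1 w
    have h2 := hq.h1 w
    exact (differentiable_const _).sub ((differentiable_id.mul h1).add
      ((differentiable_const _).mul h2))
  · have h1 := hp.h2 z
    have h2 := hq.h2 z
    exact (differentiable_const _).sub (((differentiable_const _).mul h1).add
      (differentiable_id.mul h2))
  · exact continuous_const.sub ((continuous_fst.mul hp.hc).add (continuous_snd.mul hq.hc))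

theorem inv_cont (K : Set (ℂ × ℂ)) (hK : IsCompact K) (f : ℂ × ℂ → ℝ) (hf : ContinuousOn f K)
    (hinj : InjOn f K) : ContinuousOn (Function.invFunOn f K) (f '' K) := by
  rw [continuousOn_iff_isClosed]
  intro A hA
  refine ⟨f '' (K ∩ A), ?_, ?_⟩
  · exact ((hK.inter_right hA).image_of_continuousOn (hf.mono inter_subset_left)).isClosed
  · ext t
    constructor
    · rintro ⟨ht, x, hx, rfl⟩
      have : Function.invFunOn f K (f x) = x := hinj.leftInvOn_invFunOn hx
      refine ⟨⟨x, ⟨hx, ?_⟩, rfl⟩, ⟨x, hx, rfl⟩⟩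
      simpa [this] using ht
    · rintro ⟨⟨x, ⟨hx, hxA⟩, rfl⟩, -⟩
      have : Function.invFunOn f K (f x) = x := hinj.leftInvOn_invFunOn hx
      exact ⟨by simpa [this] using hxA, ⟨x, hx, rfl⟩⟩

theorem main_neg :
    ¬ (∀ n : ℕ, 2 ≤ n →
      ∀ g : ℝ → (Fin n → ℂ),
        ContinuousOn g (Set.Icc (0:ℝ) 1) →
        Set.InjOn g (Set.Icc (0:ℝ) 1) →
        (∀ j : Fin n,
          (MeasureTheory.volume : MeasureTheory.Measure ℂ)
            ((fun z : Fin n → ℂ => z j) '' (g '' Set.Icc (0:ℝ) 1)) = 0) →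
        ∀ f : (Fin n → ℂ) → ℂ,
          ContinuousOn f (g '' Set.Icc (0:ℝ) 1) →
          ∀ ε : ℝ, 0 < ε →
            ∃ p : MvPolynomial (Fin n) ℂ,
              ∀ z ∈ g '' Set.Icc (0:ℝ) 1, ‖f z - MvPolynomial.eval z p‖ < ε) := by
  intro H
  obtain ⟨K, hKc, h0K, hn1, hn2, hhull, f, hfc, hfi, hf01⟩ := exists_K_final
  -- K is nonempty and not a singleton
  have hKne : K.Nonempty := by
    by_contra hK
    rw [not_nonempty_iff_eq_empty] at hK
    have := hhull (fun _ => 1) ⟨fun _ => differentiable_const _, fun _ => differentiable_const _,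
      continuous_const⟩ 0 (by simp [hK])
    norm_num at this
  have hKnt : ∃ p ∈ K, ∃ q ∈ K, p ≠ q := by
    by_contra hK
    push Not at hK
    obtain ⟨p, hp⟩ := hKne
    have e1 := hhull (fun x => x.1 - p.1) ⟨fun _ => differentiable_id.sub_const _,
      fun x => differentiable_const (x - p.1), by fun_prop⟩ 0 (by
        intro q hq; have := hK p hp q hq; simp [this])
    have e2 := hhull (fun x => x.2 - p.2) ⟨fun x => differentiable_const (x - p.2),
      fun _ => differentiable_id.sub_const _, by fun_prop⟩ 0 (by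
        intro q hq; have := hK p hp q hq; simp [this])
    simp only [zero_sub, norm_neg, norm_le_zero_iff] at e1 e2
    apply h0K
    have : p = (0, 0) := Prod.ext e1 e2
    rwa [this] at hp
  set C : Set ℝ := f '' K with hCdef
  have hCc : IsCompact C := hKc.image_of_continuousOn hfc
  have hCne : C.Nonempty := hKne.image f
  have hC01 : C ⊆ Icc 0 1 := by rintro _ ⟨p, hp, rfl⟩; exact hf01 p hp
  set κ : ℝ → ℂ × ℂ := Function.invFunOn f K with hκdef
  have hκf : ∀ p ∈ K, κ (f p) = p := fun p hp => hfi.leftInvOn_invFunOn hp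
  have hκc : ContinuousOn κ C := inv_cont K hKc f hfc hfi
  have hκi : InjOn κ C := by
    rintro _ ⟨p, hp, rfl⟩ _ ⟨q, hq, rfl⟩ h
    rw [hκf p hp, hκf q hq] at h
    rw [h]
  have hκK : ∀ t ∈ C, κ t ∈ K := by
    rintro _ ⟨p, hp, rfl⟩
    rw [hκf p hp]; exact hp
  have hF := facts C hCc hCne
  set m := sInf C with hm
  set M := sSup C with hM
  have hmM : m < M := by
    obtain ⟨p, hp, q, hq, hpq⟩ := hKnt
    have hne : f p ≠ f q := fun h => hpq (hfi hp hq h)
    have h1 := (hF.on_C (f p) ⟨p, hp, rfl⟩).1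
    have h2 := (hF.on_C (f q) ⟨q, hq, rfl⟩).1
    rcases lt_or_gt_of_ne hne with h | h
    · exact lt_of_le_of_lt h1.1 (lt_of_lt_of_le h h2.2)
    · exact lt_of_le_of_lt h2.1 (lt_of_lt_of_le h h1.2)
  obtain ⟨hgi, hgC, hgn⟩ := inj_g C hCc hCne hC01 m M hF κ hκi
  obtain ⟨hz1, hz2, hz3⟩ := null_g C hCc hCne m M hF κ
  have hcg := cont_g0 C hCc hCne m M hF κ hκc
  have hcp := cont_ph C hCc hCne m M hF
  -- reparametrisation
  set σ : ℝ → ℝ := fun t => m + (M - m) * t with hσ
  have hσmap : MapsTo σ (Icc 0 1) (Icc m M) := by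
    intro t ht
    constructor
    · simp only [hσ]; nlinarith [ht.1, ht.2]
    · simp only [hσ]; nlinarith [ht.1, ht.2]
  have hσc : Continuous σ := by fun_prop
  have hσi : Function.Injective σ := by
    intro a b h
    simp only [hσ] at h
    have : (M - m) * (a - b) = 0 := by linarith
    rcases mul_eq_zero.mp this with h | h
    · linarith
    · linarith
  have hσs : ∀ s ∈ Icc m M, ∃ t ∈ Icc (0:ℝ) 1, σ t = s := by
    intro s hs
    have hpos : 0 < M - m := by linarith
    refine ⟨(s - m) / (M - m), ⟨div_nonneg (by linarith [hs.1]) hpos.le, ?_⟩, ?_⟩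
    · rw [div_le_one hpos]; linarith [hs.2]
    · simp only [hσ]; field_simp; ring
  set g : ℝ → (Fin 3 → ℂ) := fun t => ![(g0 C κ (σ t)).1, (g0 C κ (σ t)).2, ph C (σ t)] with hg
  have hgc : ContinuousOn g (Icc 0 1) := by
    have k1 : ContinuousOn (fun t => g0 C κ (σ t)) (Icc 0 1) := hcg.comp hσc.continuousOn hσmap
    have k2 : ContinuousOn (fun t => ph C (σ t)) (Icc 0 1) := hcp.comp hσc.continuousOn hσmap
    refine continuousOn_pi.2 ?_
    intro j; fin_cases j
    · exact continuous_fst.comp_continuousOn k1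
    · exact continuous_snd.comp_continuousOn k1
    · exact k2
  have hginj : InjOn g (Icc 0 1) := by
    intro a ha b hb h
    apply hσi
    apply hgi (hσmap ha) (hσmap hb)
    have e0 := congrFun h 0
    have e1 := congrFun h 1
    have e2 := congrFun h 2
    simp only [hg, Matrix.cons_val_zero, Matrix.cons_val_one, Matrix.cons_val_two,
      Matrix.head_cons, Matrix.tail_cons] at e0 e1 e2
    exact Prod.ext (Prod.ext e0 e1) e2
  have himg : ∀ (φ : ℝ → ℂ) (h : ℂ × ℂ → ℂ), (∀ t ∈ C, φ t = h (κ t)) →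
      MeasureTheory.volume (h '' K) = 0 → MeasureTheory.volume (φ '' (Icc m M \ C)) = 0 →
      MeasureTheory.volume ((fun t => φ (σ t)) '' (Icc 0 1)) = 0 := by
    intro φ h hφ h1 h2
    refine MeasureTheory.measure_mono_null (t := h '' K ∪ φ '' (Icc m M \ C)) ?_
      (MeasureTheory.measure_union_null h1 h2)
    rintro _ ⟨t, ht, rfl⟩
    by_cases hc : σ t ∈ C
    · left
      exact ⟨κ (σ t), hκK _ hc, (hφ _ hc).symm⟩
    · right
      exact ⟨σ t, ⟨hσmap ht, hc⟩, rfl⟩
  have hnull : ∀ j : Fin 3, (MeasureTheory.volume : MeasureTheory.Measure ℂ)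
      ((fun z : Fin 3 → ℂ => z j) '' (g '' Set.Icc (0:ℝ) 1)) = 0 := by
    intro j
    rw [Set.image_image]
    fin_cases j
    · exact himg (fun t => (g0 C κ t).1) Prod.fst (fun t ht => by rw [(hgC t ht).1]) hn1 hz1
    · exact himg (fun t => (g0 C κ t).2) Prod.snd (fun t ht => by rw [(hgC t ht).1]) hn2 hz2
    · refine himg (ph C) (fun _ => 0) (fun t ht => (hgC t ht).2) ?_ hz3
      refine MeasureTheory.measure_mono_null (t := {0}) ?_ (by simp)
      rintro _ ⟨_, _, rfl⟩; simp
  set γ := g '' Icc (0:ℝ) 1 with hγ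
  have hγc : IsCompact γ := isCompact_Icc.image_of_continuousOn hgc
  have hKγ : ∀ p ∈ K, (![p.1, p.2, 0] : Fin 3 → ℂ) ∈ γ := by
    intro p hp
    have hfC : f p ∈ C := ⟨p, hp, rfl⟩
    obtain ⟨t, ht, hts⟩ := hσs (f p) (hF.on_C _ hfC).1
    refine ⟨t, ht, ?_⟩
    simp only [hg, hts, (hgC _ hfC).1, (hgC _ hfC).2, hκf p hp]
  have h0γ : ∀ z ∈ γ, z ≠ 0 := by
    rintro _ ⟨t, ht, rfl⟩ h
    have e0 := congrFun h 0
    have e1 := congrFun h 1
    have e2 := congrFun h 2
    simp only [hg, Matrix.cons_val_zero, Matrix.cons_val_one, Matrix.cons_val_two,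
      Matrix.head_cons, Matrix.tail_cons, Pi.zero_apply] at e0 e1 e2
    have hc : σ t ∈ C := by
      by_contra hc
      exact hgn _ (hσmap ht) hc e2
    rw [(hgC _ hc).1] at e0 e1
    apply h0K
    have : κ (σ t) = (0, 0) := Prod.ext e0 e1
    rw [← this]
    exact hκK _ hc
  obtain ⟨R, hR⟩ := hγc.isBounded.exists_norm_le
  have hRj : ∀ z ∈ γ, ∀ j, ‖z j‖ ≤ R := fun z hz j => (norm_le_pi_norm z j).trans (hR z hz)
  have hRpos : 0 ≤ R := by
    obtain ⟨p, hp⟩ := hKne
    exact (norm_nonneg _).trans (hR _ (hKγ p hp))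
  -- the three functions
  have hq : ∀ z ∈ γ, ((∑ k, ‖z k‖ ^ 2 : ℝ) : ℂ) ≠ 0 := by
    intro z hz h
    rw [Complex.ofReal_eq_zero] at h
    apply h0γ z hz
    ext k
    have := (Finset.sum_eq_zero_iff_of_nonneg (fun i _ => by positivity)).1 h k (Finset.mem_univ k)
    simpa using this
  have hfj : ∀ j : Fin 3, ContinuousOn
      (fun z : Fin 3 → ℂ => (starRingEnd ℂ) (z j) / ((∑ k, ‖z k‖ ^ 2 : ℝ) : ℂ)) γ := by
    intro j
    apply ContinuousOn.div
    · apply Continuous.continuousOn
      exact Complex.continuous_conj.comp (continuous_apply j)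
    · apply Continuous.continuousOn
      apply Complex.continuous_ofReal.comp
      fun_prop
    · exact hq
  have hε : 0 < 1 / (6 * (R + 1)) := by positivity
  choose p hp using fun j : Fin 3 => H 3 (by norm_num) g hgc hginj hnull _ (hfj j) _ hε
  have key : ∀ x ∈ K, ‖1 - (x.1 * MvPolynomial.eval ![x.1, x.2, 0] (p 0) +
      x.2 * MvPolynomial.eval ![x.1, x.2, 0] (p 1))‖ ≤ 1 / 2 := by
    intro x hx
    have hz := hKγ x hx
    set z : Fin 3 → ℂ := ![x.1, x.2, 0] with hzdef
    have a0 := hp 0 z hz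
    have a1 := hp 1 z hz
    have b0 := hRj z hz 0
    have b1 := hRj z hz 1
    have c0 : z 0 = x.1 := rfl
    have c1 : z 1 = x.2 := rfl
    have c2 : z 2 = 0 := rfl
    have hQ := hq z hz
    set Q : ℂ := ((∑ k, ‖z k‖ ^ 2 : ℝ) : ℂ) with hQdef
    have hQe : Q = z 0 * (starRingEnd ℂ) (z 0) + z 1 * (starRingEnd ℂ) (z 1) := by
      rw [hQdef, Fin.sum_univ_three, c2]
      simp only [Complex.mul_conj, Complex.normSq_eq_norm_sq]
      push_cast
      simp
    have e : 1 - (x.1 * MvPolynomial.eval z (p 0) + x.2 * MvPolynomial.eval z (p 1)) =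
        z 0 * ((starRingEnd ℂ) (z 0) / Q - MvPolynomial.eval z (p 0)) +
        z 1 * ((starRingEnd ℂ) (z 1) / Q - MvPolynomial.eval z (p 1)) := by
      have h1 : (1 : ℂ) = (z 0 * (starRingEnd ℂ) (z 0) + z 1 * (starRingEnd ℂ) (z 1)) / Q := by
        rw [← hQe]; field_simp
      rw [← c0, ← c1]
      nth_rewrite 1 [h1]
      ring
    rw [e]
    calc _ ≤ ‖z 0‖ * ‖(starRingEnd ℂ) (z 0) / Q - MvPolynomial.eval z (p 0)‖ +
          ‖z 1‖ * ‖(starRingEnd ℂ) (z 1) / Q - MvPolynomial.eval z (p 1)‖ := by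
          refine (norm_add_le _ _).trans ?_
          rw [norm_mul, norm_mul]
      _ ≤ R * (1 / (6 * (R + 1))) + R * (1 / (6 * (R + 1))) := by
          gcongr
      _ ≤ 1 / 2 := by
          have : R / (R + 1) ≤ 1 := by rw [div_le_one (by linarith)]; linarith
          have e2 : R * (1 / (6 * (R + 1))) = (1 / 6) * (R / (R + 1)) := by field_simp
          rw [e2]; linarith
  have := hhull _ (adm_F (p 0) (p 1)) (1 / 2) key
  simp at this
  norm_num at this

end Pool.Agent.Helper459.Arc
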