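import Mathlib

set_option autoImplicit false
open scoped ContDiff

namespace Pool.Agent.Helper459.CC

structure IsM (M : ℂ → ℝ) : Prop where
  smooth : ContDiff ℝ ∞ M
  log : ∀ z : ℂ, 1 ≤ ‖z‖ → M z = Real.log ‖z‖
  nonpos : ∀ z : ℂ, ‖z‖ ≤ 1 → M z ≤ 0
  lower : ∀ z : ℂ, -1 ≤ M z
  const : ∀ z : ℂ, ‖z‖ ≤ 1/2 → M z = M 0
  lap : ∀ z a : ℂ, 0 ≤ fderiv ℝ (fderiv ℝ M) z a a
        + fderiv ℝ (fderiv ℝ M) z (Complex.I * a) (Complex.I * a)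
  bound : ∀ k : ℕ, 1 ≤ k → ∃ C : ℝ, ∀ z : ℂ, ‖iteratedFDeriv ℝ k M z‖ ≤ C

/-- scaled truncated logarithm -/
noncomputable def LL (M : ℂ → ℝ) (r : ℝ) (z : ℂ) : ℝ := M (r⁻¹ • z) + Real.log r

/-- Laplacian (up to a factor) as a second iterated derivative -/
noncomputable def QQ (f : ℂ → ℝ) (z a : ℂ) : ℝ :=
  iteratedFDeriv ℝ 2 f z ![a, a] + iteratedFDeriv ℝ 2 f z ![Complex.I * a, Complex.I * a]

variable {M : ℂ → ℝ}

theorem LL_log (hM : IsM M) {r : ℝ} (hr : 0 < r) {z : ℂ} (hz : r ≤ ‖z‖) :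
    LL M r z = Real.log ‖z‖ := by
  have h1 : ‖r⁻¹ • z‖ = ‖z‖ / r := by
    rw [norm_smul, norm_inv, Real.norm_eq_abs, abs_of_pos hr]; ring
  have h2 : 1 ≤ ‖r⁻¹ • z‖ := by rw [h1, le_div_iff₀ hr]; linarith
  unfold LL
  rw [hM.log _ h2, h1, Real.log_div (by linarith) hr.ne']
  ring

theorem LL_le (hM : IsM M) {r : ℝ} (hr : 0 < r) (z : ℂ) :
    LL M r z ≤ Real.log (max ‖z‖ r) := by
  by_cases hz : r ≤ ‖z‖
  · rw [LL_log hM hr hz, max_eq_left hz]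
  · push Not at hz
    have h1 : ‖r⁻¹ • z‖ ≤ 1 := by
      rw [norm_smul, norm_inv, Real.norm_eq_abs, abs_of_pos hr, inv_mul_le_iff₀ hr]; linarith
    rw [max_eq_right hz.le]
    unfold LL
    linarith [hM.nonpos _ h1]

theorem LL_ge (hM : IsM M) (r : ℝ) (z : ℂ) : Real.log r - 1 ≤ LL M r z := by
  unfold LL; linarith [hM.lower (r⁻¹ • z)]

theorem LL_smooth (hM : IsM M) (r : ℝ) : ContDiff ℝ ∞ (LL M r) := by
  unfold LL
  exact (hM.smooth.comp (contDiff_const_smul _)).add contDiff_const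

theorem LL_der (hM : IsM M) (r : ℝ) (k : ℕ) (hk : 1 ≤ k) (z : ℂ) :
    iteratedFDeriv ℝ k (LL M r) z = (r⁻¹) ^ k • iteratedFDeriv ℝ k M (r⁻¹ • z) := by
  have h1 : ContDiffAt ℝ (k : ℕ∞) (fun z : ℂ => M (r⁻¹ • z)) z :=
    ((hM.smooth.comp (contDiff_const_smul _)).of_le (by exact_mod_cast le_top)).contDiffAt
  have h2 : ContDiffAt ℝ (k : ℕ∞) (fun _ : ℂ => Real.log r) z := contDiffAt_const
  have h3 := iteratedFDeriv_add_apply (i := k) h1 h2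
  have h4 : iteratedFDeriv ℝ k (fun _ : ℂ => Real.log r) z = 0 := by
    rw [iteratedFDeriv_const_of_ne (by omega)]; rfl
  have h5 : iteratedFDeriv ℝ k (fun z : ℂ => M (r⁻¹ • z)) z
      = (r⁻¹) ^ k • iteratedFDeriv ℝ k M (r⁻¹ • z) := by
    have := iteratedFDeriv_comp_const_smul (r⁻¹)
      (hM.smooth.of_le (by exact_mod_cast le_top) : ContDiff ℝ k M)
    exact congrFun this z
  rw [h4, add_zero, h5] at h3
  exact h3

theorem LL_bound (hM : IsM M) (k : ℕ) (hk : 1 ≤ k) : ∃ C : ℝ, 0 ≤ C ∧ ∀ (r : ℝ), 0 < r →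
    ∀ z a : ℂ, ‖iteratedFDeriv ℝ k (fun z => LL M r (z - a)) z‖ ≤ C * (r⁻¹) ^ k := by
  obtain ⟨C, hC⟩ := hM.bound k hk
  refine ⟨C, (norm_nonneg _).trans (hC 0), fun r hr z a => ?_⟩
  rw [iteratedFDeriv_comp_sub, LL_der hM r k hk, norm_smul, norm_pow, norm_inv, Real.norm_eq_abs,
    abs_of_pos hr, mul_comm]
  gcongr
  exact hC _

theorem QQ_eq (f : ℂ → ℝ) (z a : ℂ) : QQ f z a = fderiv ℝ (fderiv ℝ f) z a a
        + fderiv ℝ (fderiv ℝ f) z (Complex.I * a) (Complex.I * a) := by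
  unfold QQ
  rw [iteratedFDeriv_two_apply, iteratedFDeriv_two_apply]
  simp

theorem LL_QQ (hM : IsM M) (r : ℝ) (z a b : ℂ) :
    0 ≤ QQ (fun z => LL M r (z - b)) z a := by
  unfold QQ
  rw [iteratedFDeriv_comp_sub, LL_der hM r 2 (by norm_num)]
  simp only [smul_apply, smul_eq_mul]
  have h1 := hM.lap (r⁻¹ • (z - b)) a
  rw [← QQ_eq] at h1
  unfold QQ at h1
  have : 0 ≤ (r⁻¹) ^ 2 := by positivity
  nlinarith [mul_nonneg this h1]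

end Pool.Agent.Helper459.CC
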