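import Mathlib
import Pool.Agent.Helper459.CaraA

set_option autoImplicit false
open scoped ContDiff

namespace Pool.Agent.Helper459.CC

/-- wells -/
noncomputable def well (ρ : ℕ → ℝ) (N : ℕ → ℕ) (j l : ℕ) : ℂ :=
  (ρ j : ℂ) * Complex.exp (2 * Real.pi * Complex.I * (l / N j))

theorem well_norm {ρ : ℕ → ℝ} {N : ℕ → ℕ} (hρ : ∀ j, 0 < ρ j) (j l : ℕ) : ‖well ρ N j l‖ = ρ j := by
  unfold well
  rw [norm_mul, Complex.norm_exp]
  have : (2 * (Real.pi : ℂ) * Complex.I * ((l : ℂ) / (N j : ℂ))).re = 0 := by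
    have : (2 * (Real.pi : ℂ) * Complex.I * ((l : ℂ) / (N j : ℂ))) = ((2 * Real.pi * (l / N j) : ℝ) : ℂ) * Complex.I := by
      push_cast; ring
    rw [this, Complex.re_ofReal_mul]; simp
  rw [this]
  simp [abs_of_pos (hρ j)]

structure Par (N : ℕ → ℕ) (R : ℕ → ℝ) : Prop where
  Npos : ∀ i, 1 ≤ N i
  R2 : ∀ i, 2 ≤ R i
  Nsum : Summable (fun i => Real.sqrt ((1 / 2 : ℝ) ^ (N i)))
  der : ∀ k : ℕ, Summable (fun i =>
      (∏ l ∈ Finset.range (i + 1), (R l)⁻¹) *
        ((4 : ℝ) ^ (i + 1) * Real.exp (100 * N i * R i)) ^ k)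

noncomputable def ee (R : ℕ → ℝ) (j : ℕ) : ℝ := ∏ l ∈ Finset.range j, (R l)⁻¹
noncomputable def rh (j : ℕ) : ℝ := (1 / 4 : ℝ) ^ (j + 1)
noncomputable def rd (N : ℕ → ℕ) (R : ℕ → ℝ) (j : ℕ) : ℝ := rh j * Real.exp (-(40 * N j * R j))

noncomputable def PP (M : ℂ → ℝ) (z : ℂ) : ℝ := LL M 8 z - LL M 8 0

noncomputable def tt (M : ℂ → ℝ) (N : ℕ → ℕ) (R : ℕ → ℝ) (i l : ℕ) (z : ℂ) : ℝ :=
  LL M (rd N R i) (z - well rh N i l) - Real.log (rh i) - PP M z

noncomputable def TT (M : ℂ → ℝ) (N : ℕ → ℕ) (R : ℕ → ℝ) (i : ℕ) (z : ℂ) : ℝ :=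
  ∑ l ∈ Finset.range (N i), ((1 / 64) * ee R (i + 1) * (N i : ℝ)⁻¹) • tt M N R i l z

noncomputable def psi (M : ℂ → ℝ) (N : ℕ → ℕ) (R : ℕ → ℝ) (z : ℂ) : ℝ := ∑' i, TT M N R i z

variable {M : ℂ → ℝ} {N : ℕ → ℕ} {R : ℕ → ℝ}

theorem rh_pos (j : ℕ) : 0 < rh j := by unfold rh; positivity
theorem rh_le (j : ℕ) : rh j ≤ 1 / 4 := by
  unfold rh
  calc (1 / 4 : ℝ) ^ (j + 1) ≤ (1 / 4) ^ 1 := pow_le_pow_of_le_one (by norm_num) (by norm_num) (by omega)
    _ = 1 / 4 := by norm_num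
theorem rd_pos (j : ℕ) : 0 < rd N R j := by unfold rd; exact mul_pos (rh_pos j) (Real.exp_pos _)
theorem rd_le (P : Par N R) (j : ℕ) : rd N R j ≤ rh j := by
  unfold rd
  have : Real.exp (-(40 * N j * R j)) ≤ 1 := by
    apply Real.exp_le_one_iff.2
    have := P.R2 j
    have h2 : (0 : ℝ) ≤ N j := by positivity
    nlinarith [mul_nonneg h2 (by linarith : (0 : ℝ) ≤ R j)]
  calc rh j * Real.exp (-(40 * N j * R j)) ≤ rh j * 1 := by
        apply mul_le_mul_of_nonneg_left this (rh_pos j).le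
    _ = rh j := mul_one _
theorem rd_le1 (P : Par N R) (j : ℕ) : rd N R j ≤ 1 / 4 := (rd_le P j).trans (rh_le j)
theorem ee_pos (P : Par N R) (j : ℕ) : 0 < ee R j := by
  unfold ee
  apply Finset.prod_pos
  intro l _
  exact inv_pos.2 (by linarith [P.R2 l])

theorem inv_rd_ge (P : Par N R) (j : ℕ) : 1 ≤ (rd N R j)⁻¹ := by
  rw [one_le_inv₀ (rd_pos j)]
  linarith [rd_le1 P j]

theorem tt_smooth (hM : IsM M) (i l : ℕ) : ContDiff ℝ ∞ (tt M N R i l) := by
  unfold tt PP
  have h1 : ContDiff ℝ ∞ (fun z : ℂ => LL M (rd N R i) (z - well rh N i l)) :=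
    (LL_smooth hM _).comp (contDiff_id.sub contDiff_const)
  exact (h1.sub contDiff_const).sub ((LL_smooth hM 8).sub contDiff_const)

theorem TT_smooth (hM : IsM M) (i : ℕ) : ContDiff ℝ ∞ (TT M N R i) := by
  unfold TT
  apply ContDiff.sum
  intro l _
  exact (tt_smooth hM i l).const_smul _

theorem tt_bound0 (hM : IsM M) (P : Par N R) : ∃ C : ℝ, 0 ≤ C ∧ ∀ i l z,
    |tt M N R i l z| ≤ C * (rd N R i)⁻¹ := by
  refine ⟨100 + |LL M 8 0|, by positivity, fun i l z => ?_⟩
  have hr := rd_pos (N := N) (R := R) i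
  have hr4 := rd_le1 P i
  have hrh := rd_le P i
  have hinv := inv_rd_ge P i
  have hwn : ‖well rh N i l‖ ≤ 1 / 4 := by rw [well_norm rh_pos]; exact rh_le i
  -- logs
  have hlogr : -Real.log (rd N R i) ≤ (rd N R i)⁻¹ := by
    rw [← Real.log_inv]
    linarith [Real.log_le_sub_one_of_pos (inv_pos.2 hr)]
  have hlogr0 : Real.log (rd N R i) ≤ 0 := Real.log_nonpos hr.le (by linarith)
  have hlogrh : -Real.log (rh i) ≤ (rd N R i)⁻¹ := by
    have : Real.log (rd N R i) ≤ Real.log (rh i) := Real.log_le_log hr hrh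
    linarith
  have hlogrh0 : Real.log (rh i) ≤ 0 := Real.log_nonpos (rh_pos i).le (by linarith [rh_le i])
  have hl8 : Real.log 8 ≤ 7 := by linarith [Real.log_le_sub_one_of_pos (by norm_num : (0:ℝ) < 8)]
  have hl80 : 0 ≤ Real.log 8 := Real.log_nonneg (by norm_num)
  have key : |LL M (rd N R i) (z - well rh N i l) - LL M 8 z| ≤ 20 + (rd N R i)⁻¹ := by
    by_cases hz : 8 ≤ ‖z‖
    · have h1 : ‖z‖ / 2 ≤ ‖z - well rh N i l‖ := by
        have := norm_sub_norm_le z (well rh N i l)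
        linarith
      have h2 : ‖z - well rh N i l‖ ≤ ‖z‖ * 2 := by
        have := norm_sub_le z (well rh N i l)
        linarith
      have hz0 : 0 < ‖z‖ := by linarith
      rw [LL_log hM hr (by linarith), LL_log hM (by norm_num) hz]
      have h3 : Real.log (‖z‖ / 2) ≤ Real.log ‖z - well rh N i l‖ := Real.log_le_log (by positivity) h1
      have h4 : Real.log ‖z - well rh N i l‖ ≤ Real.log (‖z‖ * 2) := Real.log_le_log (by linarith) h2
      rw [Real.log_div hz0.ne' (by norm_num)] at h3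
      rw [Real.log_mul hz0.ne' (by norm_num)] at h4
      have hl2 : Real.log 2 ≤ 1 := by linarith [Real.log_le_sub_one_of_pos (by norm_num : (0:ℝ) < 2)]
      rw [abs_le]; constructor <;> linarith
    · push Not at hz
      have h1 := LL_ge hM (rd N R i) (z - well rh N i l)
      have h2 := LL_le hM hr (z - well rh N i l)
      have h3 := LL_ge hM 8 z
      have h4 := LL_le hM (by norm_num : (0:ℝ) < 8) z
      have h5 : Real.log (max ‖z - well rh N i l‖ (rd N R i)) ≤ Real.log 9 := by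
        apply Real.log_le_log (lt_max_of_lt_right hr)
        apply max_le
        · have := norm_sub_le z (well rh N i l)
          linarith
        · linarith
      have h6 : Real.log (max ‖z‖ 8) ≤ Real.log 8 := by
        apply Real.log_le_log (lt_max_of_lt_right (by norm_num))
        apply max_le hz.le le_rfl
      have hl9 : Real.log 9 ≤ 8 := by linarith [Real.log_le_sub_one_of_pos (by norm_num : (0:ℝ) < 9)]
      rw [abs_le]; constructor <;> linarith
  have hfin : |tt M N R i l z| ≤ (20 + (rd N R i)⁻¹) + (rd N R i)⁻¹ + |LL M 8 0| := by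
    have : tt M N R i l z = (LL M (rd N R i) (z - well rh N i l) - LL M 8 z) - Real.log (rh i) + LL M 8 0 := by
      unfold tt PP; ring
    rw [this]
    calc |(LL M (rd N R i) (z - well rh N i l) - LL M 8 z) - Real.log (rh i) + LL M 8 0|
        ≤ |(LL M (rd N R i) (z - well rh N i l) - LL M 8 z) - Real.log (rh i)| + |LL M 8 0| := abs_add_le _ _
      _ ≤ |LL M (rd N R i) (z - well rh N i l) - LL M 8 z| + |Real.log (rh i)| + |LL M 8 0| := by
          gcongr; exact abs_sub _ _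
      _ ≤ _ := by
          gcongr
          rw [abs_of_nonpos hlogrh0]; exact hlogrh
  have h8 : |LL M 8 0| ≤ |LL M 8 0| * (rd N R i)⁻¹ := le_mul_of_one_le_right (abs_nonneg _) hinv
  nlinarith

theorem tt_boundk (hM : IsM M) (P : Par N R) (k : ℕ) : ∃ C : ℝ, 0 ≤ C ∧ ∀ i l z,
    ‖iteratedFDeriv ℝ k (tt M N R i l) z‖ ≤ C * ((rd N R i)⁻¹) ^ (k + 1) := by
  rcases Nat.eq_zero_or_pos k with rfl | hk
  · obtain ⟨C, hC, h⟩ := tt_bound0 hM P
    refine ⟨C, hC, fun i l z => ?_⟩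
    rw [norm_iteratedFDeriv_zero, zero_add, pow_one]
    exact h i l z
  · obtain ⟨C, hC, h⟩ := LL_bound hM k hk
    refine ⟨2 * C, by positivity, fun i l z => ?_⟩
    have hr := rd_pos (N := N) (R := R) i
    have hinv := inv_rd_ge P i
    have h1 : ContDiffAt ℝ (k : ℕ∞) (fun z : ℂ => LL M (rd N R i) (z - well rh N i l)) z :=
      (((LL_smooth hM _).comp (contDiff_id.sub contDiff_const)).of_le (by exact_mod_cast le_top)).contDiffAt
    have h2 : ContDiffAt ℝ (k : ℕ∞) (fun z : ℂ => LL M 8 (z - 0)) z :=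
      (((LL_smooth hM 8).comp (contDiff_id.sub contDiff_const)).of_le (by exact_mod_cast le_top)).contDiffAt
    have h3 : ContDiffAt ℝ (k : ℕ∞) (fun _ : ℂ => - Real.log (rh i) + LL M 8 0) z := contDiffAt_const
    have hfun : tt M N R i l = fun z => ((fun z : ℂ => LL M (rd N R i) (z - well rh N i l)) z
        - (fun z : ℂ => LL M 8 (z - 0)) z) + (fun _ : ℂ => - Real.log (rh i) + LL M 8 0) z := by
      funext z; simp only [tt, PP, sub_zero]; ring
    have h4 := iteratedFDeriv_sub_apply (i := k) h1 h2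
    have h5 := iteratedFDeriv_add_apply (i := k) (h1.sub h2) h3
    have h6 : iteratedFDeriv ℝ k (tt M N R i l) z =
        iteratedFDeriv ℝ k (fun z : ℂ => LL M (rd N R i) (z - well rh N i l)) z
        - iteratedFDeriv ℝ k (fun z : ℂ => LL M 8 (z - 0)) z := by
      rw [hfun]
      refine (h5.trans ?_)
      rw [iteratedFDeriv_const_of_ne (by omega)]
      have h4' : iteratedFDeriv ℝ k (fun x => LL M (rd N R i) (x - well rh N i l) - LL M 8 (x - 0)) z
        = iteratedFDeriv ℝ k (fun z : ℂ => LL M (rd N R i) (z - well rh N i l)) z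
        - iteratedFDeriv ℝ k (fun z : ℂ => LL M 8 (z - 0)) z := h4
      rw [h4']; simp
    rw [h6]
    have h7 := h (rd N R i) hr z (well rh N i l)
    have h8 := h 8 (by norm_num) z 0
    have h9 : ((8 : ℝ)⁻¹) ^ k ≤ ((rd N R i)⁻¹) ^ k := by
      apply pow_le_pow_left₀ (by norm_num)
      linarith
    have h10 : ((rd N R i)⁻¹) ^ k ≤ ((rd N R i)⁻¹) ^ (k + 1) := pow_le_pow_right₀ hinv (by omega)
    calc _ ≤ _ := norm_sub_le _ _
      _ ≤ C * ((rd N R i)⁻¹) ^ k + C * ((8 : ℝ)⁻¹) ^ k := add_le_add h7 h8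
      _ ≤ C * ((rd N R i)⁻¹) ^ (k + 1) + C * ((rd N R i)⁻¹) ^ (k + 1) := by
          gcongr
          exact h9.trans h10
      _ = 2 * C * ((rd N R i)⁻¹) ^ (k + 1) := by ring

theorem TT_bound (hM : IsM M) (P : Par N R) (k : ℕ) : ∃ C : ℝ, 0 ≤ C ∧ ∀ i z,
    ‖iteratedFDeriv ℝ k (TT M N R i) z‖ ≤ C * (ee R (i + 1) * ((rd N R i)⁻¹) ^ (k + 1)) := by
  obtain ⟨C, hC, h⟩ := tt_boundk hM P k
  refine ⟨C, hC, fun i z => ?_⟩
  have hN : (0 : ℝ) < N i := by exact_mod_cast P.Npos i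
  have he := ee_pos P (i + 1)
  set c : ℝ := (1 / 64) * ee R (i + 1) * (N i : ℝ)⁻¹ with hc
  have hc0 : 0 ≤ c := by positivity
  have h1 : iteratedFDeriv ℝ k (TT M N R i) z =
      ∑ l ∈ Finset.range (N i), c • iteratedFDeriv ℝ k (tt M N R i l) z := by
    have hs : ∀ l, ContDiff ℝ (k : ℕ∞) (fun z => c • tt M N R i l z) := fun l =>
      ((tt_smooth hM i l).of_le (by exact_mod_cast le_top)).const_smul c
    have h2 : TT M N R i = fun z => ∑ l ∈ Finset.range (N i), (fun l z => c • tt M N R i l z) l z := rfl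
    rw [h2, iteratedFDeriv_sum (fun l _ => hs l)]
    simp only [Finset.sum_apply]
    apply Finset.sum_congr rfl
    intro l _
    exact iteratedFDeriv_const_smul_apply' (((tt_smooth hM i l).of_le (by exact_mod_cast le_top)).contDiffAt)
  rw [h1]
  calc ‖∑ l ∈ Finset.range (N i), c • iteratedFDeriv ℝ k (tt M N R i l) z‖
      ≤ ∑ l ∈ Finset.range (N i), c * (C * ((rd N R i)⁻¹) ^ (k + 1)) := by
        apply norm_sum_le_of_le
        intro l _
        rw [norm_smul, Real.norm_eq_abs, abs_of_nonneg hc0]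
        gcongr
        exact h i l z
    _ = N i * c * (C * ((rd N R i)⁻¹) ^ (k + 1)) := by
        rw [Finset.sum_const, Finset.card_range, nsmul_eq_mul]; ring
    _ = (1 / 64) * (C * (ee R (i + 1) * ((rd N R i)⁻¹) ^ (k + 1))) := by
        rw [hc]; field_simp
    _ ≤ 1 * (C * (ee R (i + 1) * ((rd N R i)⁻¹) ^ (k + 1))) := by
        have : 0 < (rd N R i)⁻¹ := inv_pos.2 (rd_pos i)
        gcongr
        norm_num
    _ = _ := one_mul _

theorem summable_bound (P : Par N R) (k : ℕ) :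
    Summable (fun i => ee R (i + 1) * ((rd N R i)⁻¹) ^ k) := by
  refine Summable.of_nonneg_of_le (fun i => ?_) (fun i => ?_) (P.der k)
  · have := ee_pos P (i + 1)
    have := rd_pos (N := N) (R := R) i
    positivity
  · have h1 := ee_pos P (i + 1)
    have h2 : (rd N R i)⁻¹ ≤ (4 : ℝ) ^ (i + 1) * Real.exp (100 * N i * R i) := by
      unfold rd rh
      rw [mul_inv, ← Real.exp_neg, neg_neg, ← inv_pow]
      have : (1 / 4 : ℝ)⁻¹ = 4 := by norm_num
      rw [this]
      gcongr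
      · have := P.R2 i
        linarith
      · norm_num
    have h3 : 0 < (rd N R i)⁻¹ := inv_pos.2 (rd_pos i)
    unfold ee at h1 ⊢
    gcongr

theorem psi_smooth (hM : IsM M) (P : Par N R) : ContDiff ℝ ∞ (psi M N R) := by
  unfold psi
  choose C hC h using fun k => TT_bound hM P k
  have := contDiff_tsum (𝕜 := ℝ) (N := ⊤) (f := fun i z => TT M N R i z)
    (v := fun k i => C k * (ee R (i + 1) * ((rd N R i)⁻¹) ^ (k + 1)))
    (fun i => TT_smooth hM i) (fun k _ => (summable_bound P (k + 1)).mul_left _)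
    (fun k i x _ => h k i x)
  exact this

end Pool.Agent.Helper459.CC
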