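import Mathlib
import Pool.Agent.Helper459.CaraB

set_option autoImplicit false
open scoped ContDiff

namespace Pool.Agent.Helper459.CC

variable {M : ℂ → ℝ} {N : ℕ → ℕ} {R : ℕ → ℝ}

theorem PP_zero (hM : IsM M) {z : ℂ} (hz : ‖z‖ ≤ 4) : PP M z = 0 := by
  unfold PP LL
  have h1 : ‖(8 : ℝ)⁻¹ • z‖ ≤ 1 / 2 := by
    rw [norm_smul, norm_inv, Real.norm_eq_abs, abs_of_pos (by norm_num)]
    linarith
  rw [hM.const _ h1]
  simp

theorem tt_QQ (hM : IsM M) (i l : ℕ) {z : ℂ} (a : ℂ) (hz : ‖z‖ < 4) : 0 ≤ QQ (tt M N R i l) z a := by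
  have hev : tt M N R i l =ᶠ[nhds z] (fun z => (fun z : ℂ => LL M (rd N R i) (z - well rh N i l)) z
      + (fun _ : ℂ => - Real.log (rh i)) z) := by
    have : Metric.ball (0 : ℂ) 4 ∈ nhds z := Metric.isOpen_ball.mem_nhds (by simpa using hz)
    filter_upwards [this] with y hy
    have hy' : ‖y‖ ≤ 4 := by
      rw [Metric.mem_ball, dist_zero_right] at hy; exact hy.le
    simp only [tt, PP_zero hM hy']
    ring
  have h1 : ContDiffAt ℝ ((2 : ℕ) : ℕ∞) (fun z : ℂ => LL M (rd N R i) (z - well rh N i l)) z :=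
      (((LL_smooth hM _).comp (contDiff_id.sub contDiff_const)).of_le (by exact_mod_cast le_top)).contDiffAt
  have h3 : ContDiffAt ℝ ((2 : ℕ) : ℕ∞) (fun _ : ℂ => - Real.log (rh i)) z := contDiffAt_const
  have h5 := iteratedFDeriv_add_apply (i := 2) h1 h3
  have h6 := (hev.iteratedFDeriv (𝕜 := ℝ) 2).self_of_nhds
  have h7 : iteratedFDeriv ℝ 2 (tt M N R i l) z =
      iteratedFDeriv ℝ 2 (fun z : ℂ => LL M (rd N R i) (z - well rh N i l)) z := by
    rw [h6]
    refine h5.trans ?_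
    rw [iteratedFDeriv_const_of_ne (by omega)]
    simp
  have h8 := LL_QQ hM (rd N R i) z a (well rh N i l)
  unfold QQ at h8 ⊢
  rw [h7]
  exact h8

theorem TT_QQ (hM : IsM M) (P : Par N R) (i : ℕ) {z : ℂ} (a : ℂ) (hz : ‖z‖ < 4) :
    0 ≤ QQ (TT M N R i) z a := by
  have hN : (0 : ℝ) < N i := by exact_mod_cast P.Npos i
  have he := ee_pos P (i + 1)
  set c : ℝ := (1 / 64) * ee R (i + 1) * (N i : ℝ)⁻¹ with hc
  have hc0 : 0 ≤ c := by positivity
  have h1 : iteratedFDeriv ℝ 2 (TT M N R i) z =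
      ∑ l ∈ Finset.range (N i), c • iteratedFDeriv ℝ 2 (tt M N R i l) z := by
    have hs : ∀ l, ContDiff ℝ ((2 : ℕ) : ℕ∞) (fun z => c • tt M N R i l z) := fun l =>
      ((tt_smooth hM i l).of_le (by exact_mod_cast le_top)).const_smul c
    have h2 : TT M N R i = fun z => ∑ l ∈ Finset.range (N i), (fun l z => c • tt M N R i l z) l z := rfl
    rw [h2, iteratedFDeriv_sum (fun l _ => hs l)]
    simp only [Finset.sum_apply]
    apply Finset.sum_congr rfl
    intro l _
    have hts : ContDiff ℝ ((2 : ℕ) : ℕ∞) (tt M N R i l) :=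
      (tt_smooth hM i l).of_le (by exact_mod_cast le_top)
    exact iteratedFDeriv_const_smul_apply' hts.contDiffAt
  have h2 : QQ (TT M N R i) z a = ∑ l ∈ Finset.range (N i), c * QQ (tt M N R i l) z a := by
    unfold QQ
    rw [h1]
    simp only [sum_apply, smul_apply, smul_eq_mul]
    rw [← Finset.sum_add_distrib]
    apply Finset.sum_congr rfl
    intro l _
    ring
  rw [h2]
  apply Finset.sum_nonneg
  intro l _
  exact mul_nonneg hc0 (tt_QQ hM i l a hz)

theorem psi_QQ (hM : IsM M) (P : Par N R) {z : ℂ} (a : ℂ) (hz : ‖z‖ < 4) :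
    0 ≤ QQ (psi M N R) z a := by
  choose C hC h using fun k => TT_bound hM P k
  have hf : ∀ i, ContDiff ℝ ((⊤ : ℕ∞) : WithTop ℕ∞) (TT M N R i) := fun i => TT_smooth hM i
  have hsum2 : Summable (fun i => iteratedFDeriv ℝ 2 (TT M N R i) z) :=
    Summable.of_norm_bounded ((summable_bound P (2 + 1)).mul_left _) (fun i => h 2 i z)
  have h1 : iteratedFDeriv ℝ 2 (psi M N R) z = ∑' i, iteratedFDeriv ℝ 2 (TT M N R i) z := by
    unfold psi
    exact iteratedFDeriv_tsum_apply (𝕜 := ℝ) (N := ⊤) (f := fun i z => TT M N R i z)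
      (v := fun k i => C k * (ee R (i + 1) * ((rd N R i)⁻¹) ^ (k + 1)))
      hf (fun k _ => (summable_bound P (k + 1)).mul_left _)
      (fun k i x _ => h k i x) le_top z
  have hs : HasSum (fun i => iteratedFDeriv ℝ 2 (TT M N R i) z) (iteratedFDeriv ℝ 2 (psi M N R) z) := by
    rw [h1]; exact hsum2.hasSum
  have hev : ∀ m : Fin 2 → ℂ, HasSum (fun i => iteratedFDeriv ℝ 2 (TT M N R i) z m)
      (iteratedFDeriv ℝ 2 (psi M N R) z m) := by
    intro m
    exact hs.mapL (ContinuousMultilinearMap.apply ℝ (fun _ : Fin 2 => ℂ) ℝ m)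
  have h2 : HasSum (fun i => QQ (TT M N R i) z a) (QQ (psi M N R) z a) := (hev _).add (hev _)
  exact h2.nonneg (fun i => TT_QQ hM P i a hz)

/-- average of truncated logs -/
noncomputable def VV (M : ℂ → ℝ) (N : ℕ → ℕ) (R : ℕ → ℝ) (i : ℕ) (z : ℂ) : ℝ :=
  ∑ l ∈ Finset.range (N i), (LL M (rd N R i) (z - well rh N i l) - Real.log (rh i))

theorem TT_eq (hM : IsM M) (i : ℕ) {z : ℂ} (hz : ‖z‖ ≤ 4) :
    TT M N R i z = (1 / 64) * ee R (i + 1) * ((N i : ℝ)⁻¹ * VV M N R i z) := by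
  unfold TT VV
  rw [Finset.mul_sum, Finset.mul_sum]
  apply Finset.sum_congr rfl
  intro l _
  rw [tt, PP_zero hM hz, smul_eq_mul]
  ring

theorem well_pow (i l : ℕ) : well rh N i l = Complex.exp (2 * Real.pi * Complex.I / (N i)) ^ l * (rh i : ℂ) := by
  unfold well
  rw [← Complex.exp_nat_mul, mul_comm]
  congr 2
  ring

theorem prod_wells (P : Par N R) (i : ℕ) (z : ℂ) :
    ∏ l ∈ Finset.range (N i), (z - well rh N i l) = z ^ (N i) - (rh i : ℂ) ^ (N i) := by
  have hζ := Complex.isPrimitiveRoot_exp (N i) (by have := P.Npos i; omega)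
  have h1 := X_pow_sub_C_eq_prod hζ (by have := P.Npos i; omega : 0 < N i) (α := (rh i : ℂ)) rfl
  have h2 := congrArg (Polynomial.eval z) h1
  rw [Polynomial.eval_prod] at h2
  simp only [Polynomial.eval_sub, Polynomial.eval_pow, Polynomial.eval_X, Polynomial.eval_C] at h2
  rw [h2]
  apply Finset.prod_congr rfl
  intro l _
  rw [well_pow]

/-- away from the wells -/
theorem VV_far (hM : IsM M) (P : Par N R) (i : ℕ) {z : ℂ}
    (hz : ∀ l < N i, rd N R i ≤ ‖z - well rh N i l‖) :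
    VV M N R i z = Real.log ‖1 - (z / rh i) ^ (N i)‖ := by
  have hr := rd_pos (N := N) (R := R) i
  have hρ := rh_pos i
  have hρc : (rh i : ℂ) ≠ 0 := by exact_mod_cast hρ.ne'
  have h1 : VV M N R i z = ∑ l ∈ Finset.range (N i), (Real.log ‖z - well rh N i l‖ - Real.log (rh i)) := by
    unfold VV
    apply Finset.sum_congr rfl
    intro l hl
    rw [LL_log hM hr (hz l (Finset.mem_range.1 hl))]
  rw [h1, Finset.sum_sub_distrib, Finset.sum_const, Finset.card_range, nsmul_eq_mul,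
    ← Real.log_prod (fun l hl => (lt_of_lt_of_le hr (hz l (Finset.mem_range.1 hl))).ne'),
    ← norm_prod, prod_wells P, ← Real.log_pow]
  have hne : ‖z ^ (N i) - (rh i : ℂ) ^ (N i)‖ ≠ 0 := by
    rw [← prod_wells P, norm_prod]
    apply Finset.prod_ne_zero_iff.2
    intro l hl
    exact (lt_of_lt_of_le hr (hz l (Finset.mem_range.1 hl))).ne'
  rw [← Real.log_div hne (by positivity)]
  congr 1
  have : (1 : ℂ) - (z / rh i) ^ (N i) = -((z ^ (N i) - (rh i : ℂ) ^ (N i)) / (rh i : ℂ) ^ (N i)) := by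
    have hp : (rh i : ℂ) ^ (N i) ≠ 0 := pow_ne_zero _ hρc
    rw [div_pow, sub_div, div_self hp]
    ring
  rw [this, norm_neg, norm_div, norm_pow, Complex.norm_real, Real.norm_eq_abs, abs_of_pos hρ]

/-- near a well -/
theorem VV_near (hM : IsM M) (P : Par N R) (i l₀ : ℕ) (hl₀ : l₀ < N i) {z : ℂ}
    (hz : ‖z - well rh N i l₀‖ < rd N R i) :
    VV M N R i z ≤ -(40 * N i * R i) + 2 * N i := by
  have hr := rd_pos (N := N) (R := R) i
  have hρ := rh_pos i
  have hrh := rd_le P i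
  have hzn : ‖z‖ ≤ 2 * rh i := by
    have h1 := norm_sub_norm_le z (well rh N i l₀)
    rw [well_norm rh_pos] at h1
    linarith
  have hall : ∀ l, LL M (rd N R i) (z - well rh N i l) - Real.log (rh i) ≤ 2 := by
    intro l
    have h1 := LL_le hM hr (z - well rh N i l)
    have h2 : Real.log (max ‖z - well rh N i l‖ (rd N R i)) ≤ Real.log (3 * rh i) := by
      apply Real.log_le_log (lt_max_of_lt_right hr)
      apply max_le
      · have := norm_sub_le z (well rh N i l)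
        rw [well_norm rh_pos] at this
        linarith
      · linarith
    rw [Real.log_mul (by norm_num) hρ.ne'] at h2
    have h3 : Real.log 3 ≤ 2 := by linarith [Real.log_le_sub_one_of_pos (by norm_num : (0:ℝ) < 3)]
    linarith
  have hone : LL M (rd N R i) (z - well rh N i l₀) - Real.log (rh i) ≤ -(40 * N i * R i) := by
    have h1 := LL_le hM hr (z - well rh N i l₀)
    rw [max_eq_right hz.le] at h1
    have h2 : Real.log (rd N R i) = Real.log (rh i) - 40 * N i * R i := by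
      unfold rd
      rw [Real.log_mul hρ.ne' (Real.exp_pos _).ne', Real.log_exp]; ring
    linarith
  unfold VV
  rw [← Finset.add_sum_erase _ _ (Finset.mem_range.2 hl₀)]
  have h3 : ∑ l ∈ (Finset.range (N i)).erase l₀, (LL M (rd N R i) (z - well rh N i l) - Real.log (rh i))
      ≤ ∑ l ∈ (Finset.range (N i)).erase l₀, (2 : ℝ) := Finset.sum_le_sum (fun l _ => hall l)
  rw [Finset.sum_const, Finset.card_erase_of_mem (Finset.mem_range.2 hl₀), Finset.card_range, nsmul_eq_mul] at h3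
  have h4 : ((N i - 1 : ℕ) : ℝ) ≤ N i := by exact_mod_cast Nat.sub_le _ _
  linarith

theorem VV_upper (hM : IsM M) (P : Par N R) (i m : ℕ) {z : ℂ} (hz : ‖z‖ ≤ 2 * 4 ^ m * rh i) :
    (N i : ℝ)⁻¹ * VV M N R i z ≤ 2 * (m + 1) := by
  have hN : (1 : ℝ) ≤ N i := by exact_mod_cast P.Npos i
  have hN0 : (0 : ℝ) < N i := by linarith
  have hR := P.R2 i
  have hρ := rh_pos i
  rw [inv_mul_le_iff₀ hN0]
  by_cases hcase : ∀ l < N i, rd N R i ≤ ‖z - well rh N i l‖
  · rw [VV_far hM P i hcase]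
    have h1 : ‖1 - (z / rh i) ^ (N i)‖ ≤ 2 * (2 * 4 ^ m) ^ (N i) := by
      have h2 : ‖(z / rh i)‖ ≤ 2 * 4 ^ m := by
        rw [norm_div, Complex.norm_real, Real.norm_eq_abs, abs_of_pos hρ, div_le_iff₀ hρ]
        exact hz
      have h3 : (1 : ℝ) ≤ (2 * 4 ^ m) ^ (N i) := by
        apply one_le_pow₀
        have : (1 : ℝ) ≤ 4 ^ m := one_le_pow₀ (by norm_num)
        linarith
      calc ‖1 - (z / rh i) ^ (N i)‖ ≤ ‖(1 : ℂ)‖ + ‖(z / rh i) ^ (N i)‖ := norm_sub_le _ _
        _ ≤ 1 + (2 * 4 ^ m) ^ (N i) := by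
          rw [norm_one, norm_pow]; gcongr
        _ ≤ _ := by linarith
    by_cases h0 : ‖1 - (z / rh i) ^ (N i)‖ = 0
    · rw [h0, Real.log_zero]; positivity
    · have hpos : 0 < ‖1 - (z / rh i) ^ (N i)‖ := lt_of_le_of_ne (norm_nonneg _) (Ne.symm h0)
      have h4 : Real.log ‖1 - (z / rh i) ^ (N i)‖ ≤ Real.log (2 * (2 * 4 ^ m) ^ (N i)) :=
        Real.log_le_log hpos h1
      rw [Real.log_mul (by norm_num) (by positivity), Real.log_pow, Real.log_mul (by norm_num) (by positivity),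
        Real.log_pow] at h4
      have hl2 : Real.log 2 ≤ 1 := by linarith [Real.log_le_sub_one_of_pos (by norm_num : (0:ℝ) < 2)]
      have hl20 : 0 ≤ Real.log 2 := Real.log_nonneg (by norm_num)
      have hl4 : Real.log 4 = 2 * Real.log 2 := by
        rw [show (4 : ℝ) = 2 ^ 2 by norm_num, Real.log_pow]; norm_num
      rw [hl4] at h4
      have hm : (0 : ℝ) ≤ m := Nat.cast_nonneg m
      have h5 : Real.log 2 + N i * (Real.log 2 + m * (2 * Real.log 2)) ≤ N i * (2 * (m + 1)) := by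
        have h6 : Real.log 2 ≤ N i * Real.log 2 := by nlinarith
        have h7 : (N i : ℝ) * (2 * (m + 1)) * Real.log 2 ≤ N i * (2 * (m + 1)) * 1 := by gcongr
        nlinarith
      linarith
  · push Not at hcase
    obtain ⟨l, hl, hlt⟩ := hcase
    have h1 := VV_near hM P i l hl hlt
    have hm : (0 : ℝ) ≤ m := Nat.cast_nonneg m
    have h2 : 0 ≤ (N i : ℝ) * (2 * (m + 1)) := by positivity
    nlinarith [mul_nonneg hN0.le (by linarith : (0 : ℝ) ≤ R i - 2)]

end Pool.Agent.Helper459.CC
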