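import Mathlib
import Pool.Agent.Helper459.CaraC

set_option autoImplicit false
open scoped ContDiff

namespace Pool.Agent.Helper459.CC

/-- the list of properties of the weight -/
structure Weight (ψ : ℂ → ℝ) (e ρ : ℕ → ℝ) (N : ℕ → ℕ) (H : ℕ → ℂ → ℂ) : Prop where
  smooth : ContDiff ℝ ∞ ψ
  zero : ψ 0 = 0
  lap : ∀ z a : ℂ, ‖z‖ ≤ 2 → 0 ≤ fderiv ℝ (fderiv ℝ ψ) z a a
        + fderiv ℝ (fderiv ℝ ψ) z (Complex.I * a) (Complex.I * a)
  epos : ∀ j, 0 < e j
  edec : ∀ j, e (j + 1) ≤ e j / 2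
  rhopos : ∀ j, 0 < ρ j
  rhole : ∀ j, ρ j ≤ 1 / 4
  Npos : ∀ j, 1 ≤ N j
  Nsum : Summable (fun j => Real.sqrt ((1 / 2 : ℝ) ^ (N j)))
  Hdiff : ∀ j, DifferentiableOn ℂ (H j) (Metric.ball 0 (2 * ρ j))
  Hzero : ∀ j, H j 0 = 0
  upper : ∀ j, ∀ z ∈ Metric.ball (0 : ℂ) (2 * ρ j), ψ z ≤ (H j z).re + e (j + 1) / 8
  wells : ∀ j, ∀ l < N j, ψ (well ρ N j l) ≤ (H j (well ρ N j l)).re - e j / 2

variable {M : ℂ → ℝ} {N : ℕ → ℕ} {R : ℕ → ℝ}

noncomputable def HH (N : ℕ → ℕ) (R : ℕ → ℝ) (j : ℕ) (z : ℂ) : ℂ :=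
  ∑ i ∈ Finset.range j, (((1 / 64) * ee R (i + 1) * (N i : ℝ)⁻¹ : ℝ) : ℂ) *
    Complex.log (1 - (z / rh i) ^ (N i))

theorem ee_succ (R : ℕ → ℝ) (j : ℕ) : ee R (j + 1) = ee R j * (R j)⁻¹ := by
  unfold ee; rw [Finset.prod_range_succ]

theorem ee_half (P : Par N R) (j : ℕ) : ee R (j + 1) ≤ ee R j / 2 := by
  rw [ee_succ, div_eq_mul_inv]
  have := ee_pos P j
  gcongr
  exact P.R2 j

theorem ee_add (P : Par N R) (j m : ℕ) : ee R (j + m) ≤ ee R j * (1 / 2) ^ m := by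
  induction m with
  | zero => simp
  | succ n ih =>
    calc ee R (j + (n + 1)) = ee R ((j + n) + 1) := by ring_nf
      _ ≤ ee R (j + n) / 2 := ee_half P _
      _ ≤ (ee R j * (1 / 2) ^ n) / 2 := by linarith
      _ = ee R j * (1 / 2) ^ (n + 1) := by ring

theorem rh_add (j m : ℕ) : rh j = 4 ^ m * rh (j + m) := by
  unfold rh
  rw [show j + m + 1 = (j + 1) + m by ring, pow_add (1 / 4 : ℝ) (j + 1) m]
  rw [mul_comm, mul_assoc, ← mul_pow]
  norm_num

/-- inside disc -/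
theorem small_ratio (i : ℕ) {z : ℂ} (hz : ‖z‖ < rh i / 2) (P : Par N R) :
    ‖(z / rh i) ^ (N i)‖ ≤ 1 / 2 := by
  have hρ := rh_pos i
  have h1 : ‖z / rh i‖ ≤ 1 / 2 := by
    rw [norm_div, Complex.norm_real, Real.norm_eq_abs, abs_of_pos hρ, div_le_iff₀ hρ]
    linarith
  rw [norm_pow]
  calc ‖z / rh i‖ ^ (N i) ≤ ‖z / rh i‖ ^ 1 :=
        pow_le_pow_of_le_one (norm_nonneg _) (by linarith) (P.Npos i)
    _ ≤ 1 / 2 := by rw [pow_one]; exact h1

theorem slit_of_small {ζ : ℂ} (h : ‖ζ‖ ≤ 1 / 2) : (1 - ζ) ∈ Complex.slitPlane := by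
  left
  have := Complex.abs_re_le_norm ζ
  rw [abs_le] at this
  simp only [Complex.sub_re, Complex.one_re]
  linarith [this.2]

theorem ball_sub {j i : ℕ} (hij : i < j) {z : ℂ} (hz : z ∈ Metric.ball (0 : ℂ) (2 * rh j)) :
    ‖z‖ < rh i / 2 := by
  rw [Metric.mem_ball, dist_zero_right] at hz
  obtain ⟨m, rfl⟩ := Nat.exists_eq_add_of_lt hij
  have h1 := rh_add i (m + 1)
  have h2 : (4 : ℝ) ≤ 4 ^ (m + 1) := by
    calc (4 : ℝ) = 4 ^ 1 := by norm_num
      _ ≤ 4 ^ (m + 1) := pow_le_pow_right₀ (by norm_num) (by omega)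
  have h3 := rh_pos (i + m + 1)
  have h4 : rh (i + (m + 1)) = rh (i + m + 1) := by ring_nf
  rw [h4] at h1
  nlinarith

theorem HH_diff (P : Par N R) (j : ℕ) : DifferentiableOn ℂ (HH N R j) (Metric.ball 0 (2 * rh j)) := by
  unfold HH
  apply DifferentiableOn.fun_sum
  intro i hi
  apply DifferentiableOn.const_mul
  apply DifferentiableOn.clog
  · fun_prop
  · intro z hz
    exact slit_of_small (small_ratio i (ball_sub (Finset.mem_range.1 hi) hz) P)

theorem HH_zero (P : Par N R) (j : ℕ) : HH N R j 0 = 0 := by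
  unfold HH
  apply Finset.sum_eq_zero
  intro i _
  have : N i ≠ 0 := by have := P.Npos i; omega
  simp [this]

theorem HH_re (hM : IsM M) (P : Par N R) (j : ℕ) {z : ℂ} (hz : z ∈ Metric.ball (0 : ℂ) (2 * rh j)) :
    (HH N R j z).re = ∑ i ∈ Finset.range j, TT M N R i z := by
  unfold HH
  rw [Complex.re_sum]
  apply Finset.sum_congr rfl
  intro i hi
  have hb := ball_sub (Finset.mem_range.1 hi) hz
  have hz4 : ‖z‖ ≤ 4 := by linarith [rh_le i]
  rw [TT_eq hM i hz4, Complex.re_ofReal_mul, Complex.log_re, VV_far hM P i]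
  · ring
  · intro l hl
    have h1 := norm_sub_norm_le (well rh N i l) z
    rw [well_norm rh_pos, norm_sub_rev] at h1
    have h2 : rd N R i ≤ rh i / 2 := by
      unfold rd
      have h3 : Real.exp (-(40 * N i * R i)) ≤ 1 / 2 := by
        have hN : (1 : ℝ) ≤ N i := by exact_mod_cast P.Npos i
        have hR := P.R2 i
        have h4 : (1 : ℝ) ≤ 40 * N i * R i := by nlinarith
        calc Real.exp (-(40 * N i * R i)) ≤ Real.exp (-1) := by
              apply Real.exp_le_exp.2; linarith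
          _ ≤ 1 / 2 := by
            rw [Real.exp_neg, one_div]
            apply inv_anti₀ (by norm_num)
            linarith [Real.add_one_le_exp (1 : ℝ)]
      have := rh_pos i
      nlinarith
    linarith

theorem TT_summable (hM : IsM M) (P : Par N R) (z : ℂ) : Summable (fun i => TT M N R i z) := by
  obtain ⟨C, _, h⟩ := TT_bound hM P 0
  apply Summable.of_norm_bounded ((summable_bound P (0 + 1)).mul_left C)
  intro i
  have := h i z
  rwa [norm_iteratedFDeriv_zero] at this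

theorem TT_upper (hM : IsM M) (P : Par N R) (j m : ℕ) {z : ℂ} (hz : ‖z‖ ≤ 2 * rh j) :
    TT M N R (m + j) z ≤ (1 / 64) * ee R (j + 1) * (2 * ((m : ℝ) + 1) * (1 / 2) ^ m) := by
  have hz4 : ‖z‖ ≤ 4 := by linarith [rh_le j]
  rw [TT_eq hM _ hz4]
  have h1 := VV_upper hM P (m + j) m (z := z) (by
    rw [rh_add j m] at hz
    rw [add_comm m j]
    linarith)
  have h2 := ee_pos P (m + j + 1)
  have h3 : ee R (m + j + 1) ≤ ee R (j + 1) * (1 / 2) ^ m := by
    have := ee_add P (j + 1) m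
    rw [show m + j + 1 = j + 1 + m by ring]
    exact this
  have hm : (0 : ℝ) ≤ m := Nat.cast_nonneg m
  calc (1 / 64) * ee R (m + j + 1) * ((N (m + j) : ℝ)⁻¹ * VV M N R (m + j) z)
      ≤ (1 / 64) * ee R (m + j + 1) * (2 * (m + 1)) := by gcongr
    _ ≤ (1 / 64) * (ee R (j + 1) * (1 / 2) ^ m) * (2 * (m + 1)) := by gcongr
    _ = _ := by ring

theorem hasSum_four : HasSum (fun m : ℕ => 2 * ((m : ℝ) + 1) * (1 / 2) ^ m) 8 := by
  have h1 : HasSum (fun n : ℕ => (n : ℝ) * (1 / 2) ^ n) ((1 / 2) / (1 - 1 / 2) ^ 2) :=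
    hasSum_coe_mul_geometric_of_norm_lt_one (by norm_num)
  have h2 : HasSum (fun n : ℕ => (1 / 2 : ℝ) ^ n) (1 - 1 / 2)⁻¹ :=
    hasSum_geometric_of_lt_one (by norm_num) (by norm_num)
  have h3 := (h1.add h2).mul_left 2
  have h4 : (2 : ℝ) * ((1 / 2) / (1 - 1 / 2) ^ 2 + (1 - 1 / 2)⁻¹) = 8 := by norm_num
  rw [h4] at h3
  have h5 : (fun m : ℕ => 2 * ((m : ℝ) + 1) * (1 / 2 : ℝ) ^ m) =
      fun i : ℕ => 2 * ((i : ℝ) * (1 / 2) ^ i + (1 / 2) ^ i) := by
    funext m; ring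
  rw [h5]
  exact h3

theorem hasSum_six : HasSum (fun m : ℕ => 2 * (((m + 1 : ℕ) : ℝ) + 1) * (1 / 2 : ℝ) ^ (m + 1)) 6 := by
  have h3 := (hasSum_nat_add_iff' (f := fun m : ℕ => 2 * ((m : ℝ) + 1) * (1 / 2 : ℝ) ^ m) 1).2 hasSum_four
  have h4 : (8 : ℝ) - ∑ i ∈ Finset.range 1, 2 * ((i : ℝ) + 1) * (1 / 2 : ℝ) ^ i = 6 := by
    rw [Finset.sum_range_one]; norm_num
  rw [h4] at h3
  exact h3

theorem psi_split (hM : IsM M) (P : Par N R) (j : ℕ) {z : ℂ} (hz : z ∈ Metric.ball (0 : ℂ) (2 * rh j)) :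
    psi M N R z = (HH N R j z).re + ∑' m, TT M N R (m + j) z := by
  rw [HH_re hM P j hz]
  unfold psi
  exact ((TT_summable hM P z).sum_add_tsum_nat_add j).symm

theorem psi_upper (hM : IsM M) (P : Par N R) (j : ℕ) {z : ℂ} (hz : z ∈ Metric.ball (0 : ℂ) (2 * rh j)) :
    psi M N R z ≤ (HH N R j z).re + ee R (j + 1) / 8 := by
  rw [psi_split hM P j hz]
  have hz' : ‖z‖ ≤ 2 * rh j := by
    rw [Metric.mem_ball, dist_zero_right] at hz; exact hz.le
  have h1 : ∑' m, TT M N R (m + j) z ≤ (1 / 64) * ee R (j + 1) * 8 := by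
    have hs := hasSum_four.mul_left ((1 / 64) * ee R (j + 1))
    rw [← hs.tsum_eq]
    apply ((summable_nat_add_iff (f := fun i => TT M N R i z) j).2 (TT_summable hM P z)).tsum_le_tsum _ hs.summable
    intro m
    exact TT_upper hM P j m hz'
  linarith

theorem psi_wells_aux (hM : IsM M) (P : Par N R) (j : ℕ) (z : ℂ) (hn : ‖z‖ = rh j)
    (hV : VV M N R j z ≤ -(40 * N j * R j) + 2 * N j) :
    psi M N R z ≤ (HH N R j z).re - ee R j / 2 := by
  have hρ := rh_pos j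
  have hz : z ∈ Metric.ball (0 : ℂ) (2 * rh j) := by
    rw [Metric.mem_ball, dist_zero_right, hn]; linarith
  rw [psi_split hM P j hz]
  have hsum : Summable (fun m => TT M N R (m + j) z) :=
    (summable_nat_add_iff (f := fun i => TT M N R i z) j).2 (TT_summable hM P z)
  have hsplit : ∑' m, TT M N R (m + j) z = TT M N R (0 + j) z + ∑' m, TT M N R (m + 1 + j) z :=
    hsum.tsum_eq_zero_add
  rw [hsplit]
  have he := ee_pos P j
  have he1 := ee_pos P (j + 1)
  have hR := P.R2 j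
  have heR : ee R (j + 1) * R j = ee R j := by
    rw [ee_succ]; field_simp
  have h0 : TT M N R (0 + j) z ≤ -(39 / 64) * ee R j := by
    rw [zero_add, TT_eq hM j (by rw [hn]; linarith [rh_le j])]
    have hN : (1 : ℝ) ≤ N j := by exact_mod_cast P.Npos j
    have hN0 : (0 : ℝ) < N j := by linarith
    have h2 : (N j : ℝ)⁻¹ * VV M N R j z ≤ -39 * R j := by
      rw [inv_mul_le_iff₀ hN0]
      have h5 : 0 ≤ (N j : ℝ) * (R j - 2) := mul_nonneg hN0.le (by linarith)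
      linarith
    calc (1 / 64) * ee R (j + 1) * ((N j : ℝ)⁻¹ * VV M N R j z)
        ≤ (1 / 64) * ee R (j + 1) * (-39 * R j) := by gcongr
      _ = -(39 / 64) * (ee R (j + 1) * R j) := by ring
      _ = _ := by rw [heR]
  have h1 : ∑' m, TT M N R (m + 1 + j) z ≤ (1 / 64) * ee R (j + 1) * 6 := by
    have hs2 := hasSum_six.mul_left ((1 / 64) * ee R (j + 1))
    rw [← hs2.tsum_eq]
    apply ((summable_nat_add_iff (f := fun m => TT M N R (m + j) z) 1).2 hsum).tsum_le_tsum _ hs2.summable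
    intro m
    exact TT_upper hM P j (m + 1) (by rw [hn]; linarith)
  have h2 := ee_half P j
  linarith

theorem psi_wells (hM : IsM M) (P : Par N R) (j l : ℕ) (hl : l < N j) :
    psi M N R (well rh N j l) ≤ (HH N R j (well rh N j l)).re - ee R j / 2 := by
  apply psi_wells_aux hM P j
  · exact well_norm rh_pos j l
  · apply VV_near hM P j l hl
    rw [sub_self, norm_zero]
    exact rd_pos j

theorem psi_zero (hM : IsM M) (P : Par N R) : psi M N R 0 = 0 := by
  unfold psi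
  have : ∀ i, TT M N R i 0 = 0 := by
    intro i
    rw [TT_eq hM i (by simp), VV_far hM P i]
    · have : N i ≠ 0 := by have := P.Npos i; omega
      simp [this]
    · intro l _
      rw [zero_sub, norm_neg, well_norm rh_pos]
      exact rd_le P i
  simp [this]

theorem weight (hM : IsM M) (P : Par N R) : Weight (psi M N R) (ee R) rh N (HH N R) where
  smooth := psi_smooth hM P
  zero := psi_zero hM P
  lap := fun z a hz => by
    rw [← QQ_eq]
    exact psi_QQ hM P a (by linarith)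
  epos := ee_pos P
  edec := ee_half P
  rhopos := rh_pos
  rhole := rh_le
  Npos := P.Npos
  Nsum := P.Nsum
  Hdiff := HH_diff P
  Hzero := HH_zero P
  upper := fun j z hz => psi_upper hM P j hz
  wells := fun j l hl => psi_wells hM P j l hl

end Pool.Agent.Helper459.CC
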