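import Mathlib

set_option autoImplicit false
open scoped ContDiff

namespace Pool.Agent.Helper459.CC

/-- Three circles: bounded by `2` on a big disc, by `η` on a small disc. -/
theorem three_circles (G : ℂ → ℂ) (e η : ℝ) (he : 0 < e) (hη : 0 < η) (hη2 : η ≤ 2)
    (hG : DifferentiableOn ℂ G (Metric.ball 0 (Real.exp (2 * e))))
    (hG2 : ∀ w ∈ Metric.ball (0 : ℂ) (Real.exp (2 * e)), ‖G w‖ ≤ 2)
    (hGs : ∀ w : ℂ, ‖w‖ ≤ Real.exp (-e) → ‖G w‖ ≤ η) :
    ∀ w : ℂ, ‖w‖ ≤ 1 → ‖G w‖ ≤ 2 * Real.sqrt η := by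
  intro w hw
  by_cases hwe : ‖w‖ ≤ Real.exp (-e)
  · refine (hGs w hwe).trans ?_
    have h1 : Real.sqrt η * Real.sqrt η = η := Real.mul_self_sqrt hη.le
    have h2 : Real.sqrt η ≤ 2 := by
      rw [Real.sqrt_le_left (by norm_num)]; linarith
    nlinarith [Real.sqrt_nonneg η]
  push Not at hwe
  have hw0 : 0 < ‖w‖ := (Real.exp_pos _).trans hwe
  have hwne : w ≠ 0 := norm_pos_iff.1 hw0
  obtain ⟨u, hu⟩ : ∃ u, u = Real.log ‖w‖ := ⟨_, rfl⟩
  have hu0 : u ≤ 0 := by rw [hu]; exact Real.log_nonpos hw0.le hw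
  have hue : -e < u := by
    rw [hu, Real.lt_log_iff_exp_lt hw0]; exact hwe
  obtain ⟨v, hv⟩ : ∃ v, v = Complex.arg w := ⟨_, rfl⟩
  have hwexp : Complex.exp (u + v * Complex.I) = w := by
    have h1 := Complex.exp_log hwne
    have h2 : Complex.log w = u + v * Complex.I := by rw [Complex.log, hu, hv]
    rw [← h2]; exact h1
  obtain ⟨f, hf⟩ : ∃ f : ℂ → ℂ, f = fun s => G (Complex.exp (-e + 2 * e * s + v * Complex.I)) :=
    ⟨_, rfl⟩
  have hnorm : ∀ s : ℂ, ‖Complex.exp (-e + 2 * e * s + v * Complex.I)‖ =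
      Real.exp (-e + 2 * e * s.re) := by
    intro s
    rw [Complex.norm_exp]
    congr 1
    simp
  have hmem : ∀ s : ℂ, s.re ≤ 1 →
      Complex.exp (-e + 2 * e * s + v * Complex.I) ∈ Metric.ball (0 : ℂ) (Real.exp (2 * e)) := by
    intro s hs
    rw [mem_ball_zero_iff, hnorm, Real.exp_lt_exp]
    nlinarith
  have hfd : DifferentiableOn ℂ f {s | s.re ≤ 1} := by
    rw [hf]
    refine hG.comp ?_ (fun s hs => hmem s hs)
    apply Differentiable.differentiableOn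
    fun_prop
  have hcl : closure (Complex.HadamardThreeLines.verticalStrip 0 1) ⊆ {s : ℂ | s.re ≤ 1} := by
    apply closure_minimal
    · intro s hs
      exact (le_of_lt hs.2 : s.re ≤ 1)
    · exact isClosed_le Complex.continuous_re continuous_const
  have hDC : DiffContOnCl ℂ f (Complex.HadamardThreeLines.verticalStrip 0 1) :=
    (hfd.mono hcl).diffContOnCl
  obtain ⟨x, hx⟩ : ∃ x, x = (u + e) / (2 * e) := ⟨_, rfl⟩
  have hx0 : 0 ≤ x := by rw [hx]; apply div_nonneg <;> linarith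
  have hx1 : x ≤ 1 / 2 := by
    rw [hx, div_le_iff₀ (by linarith)]; linarith
  have hz : (x : ℂ) ∈ Complex.HadamardThreeLines.verticalClosedStrip 0 1 := by
    show (x : ℂ).re ∈ Set.Icc 0 1
    rw [Complex.ofReal_re]
    exact ⟨hx0, by linarith⟩
  have hB : BddAbove ((norm ∘ f) '' Complex.HadamardThreeLines.verticalClosedStrip 0 1) := by
    refine ⟨2, ?_⟩
    rintro _ ⟨s, hs, rfl⟩
    have hs1 : s.re ≤ 1 := hs.2
    rw [Function.comp_apply, hf]
    exact hG2 _ (hmem s hs1)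
  have ha : ∀ z ∈ Complex.re ⁻¹' {0}, ‖f z‖ ≤ η := by
    intro z hz
    have hz' : z.re = 0 := hz
    rw [hf]
    apply hGs
    rw [hnorm, hz']; simp
  have hb : ∀ z ∈ Complex.re ⁻¹' {1}, ‖f z‖ ≤ 2 := by
    intro z hz
    have hz' : z.re = 1 := hz
    rw [hf]
    exact hG2 _ (hmem z hz'.le)
  have hmain := Complex.HadamardThreeLines.norm_le_interp_of_mem_verticalClosedStrip₀₁'
    f hz hDC hB ha hb
  have hfx : f x = G w := by
    rw [hf]
    simp only
    congr 1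
    rw [← hwexp]
    congr 1
    rw [hx]
    have he' : (e : ℂ) ≠ 0 := by exact_mod_cast he.ne'
    push_cast
    field_simp
    ring
  rw [hfx, Complex.ofReal_re] at hmain
  refine hmain.trans ?_
  have h1 : η ^ (1 - x) = η ^ (1 / 2 : ℝ) * η ^ (1 / 2 - x) := by
    rw [← Real.rpow_add hη]; congr 1; ring
  have h2 : η ^ (1 / 2 - x) ≤ (2 : ℝ) ^ (1 / 2 - x) :=
    Real.rpow_le_rpow hη.le hη2 (by linarith)
  have h3 : (2 : ℝ) ^ (1 / 2 - x) * 2 ^ x = 2 ^ (1 / 2 : ℝ) := by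
    rw [← Real.rpow_add (by norm_num)]; congr 1; ring
  have h4 : (2 : ℝ) ^ (1 / 2 : ℝ) ≤ 2 := by
    calc (2 : ℝ) ^ (1 / 2 : ℝ) ≤ 2 ^ (1 : ℝ) :=
          Real.rpow_le_rpow_of_exponent_le (by norm_num) (by norm_num)
      _ = 2 := Real.rpow_one 2
  have hsq : Real.sqrt η = η ^ (1 / 2 : ℝ) := Real.sqrt_eq_rpow η
  rw [hsq, h1]
  have hp : 0 ≤ η ^ (1 / 2 : ℝ) := Real.rpow_nonneg hη.le _
  calc η ^ (1 / 2 : ℝ) * η ^ (1 / 2 - x) * 2 ^ x
      ≤ η ^ (1 / 2 : ℝ) * 2 ^ (1 / 2 - x) * 2 ^ x := by gcongr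
    _ = η ^ (1 / 2 : ℝ) * (2 ^ (1 / 2 - x) * 2 ^ x) := by ring
    _ = η ^ (1 / 2 : ℝ) * 2 ^ (1 / 2 : ℝ) := by rw [h3]
    _ ≤ η ^ (1 / 2 : ℝ) * 2 := mul_le_mul_of_nonneg_left h4 hp
    _ = 2 * η ^ (1 / 2 : ℝ) := by ring

open Finset Filter Topology in
theorem aux663_q (g : ℂ → ℂ) (ρ : ℝ) (hρ : 0 < ρ) (N : ℕ) (hN : 1 ≤ N)
    (hg : DifferentiableOn ℂ g (Metric.ball 0 (2 * ρ)))
    (hb : ∀ z ∈ Metric.ball (0 : ℂ) (2 * ρ), ‖g z‖ ≤ 1) (q : ℝ) (hq : 1 / 2 < q) (hq1 : q < 1) :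
    ‖(N : ℂ)⁻¹ * (∑ l ∈ Finset.range N,
        g ((ρ : ℂ) * Complex.exp (2 * Real.pi * Complex.I * (l / N)))) - g 0‖
      ≤ q ^ N * (1 - q ^ N)⁻¹ := by
  have hq0 : 0 < q := by linarith
  have hN0 : N ≠ 0 := by omega
  have hNC : (N : ℂ) ≠ 0 := by exact_mod_cast hN0
  -- radius
  set R : NNReal := ⟨ρ / q, by positivity⟩ with hR
  have hRr : (R : ℝ) = ρ / q := rfl
  have hRpos : 0 < R := by
    rw [← NNReal.coe_pos, hRr]; positivity
  have hR2 : (R : ℝ) < 2 * ρ := by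
    rw [hRr, div_lt_iff₀ hq0]; nlinarith
  have hρR : ρ < R := by
    rw [hRr, lt_div_iff₀ hq0]; nlinarith
  have hsub : Metric.closedBall (0:ℂ) R ⊆ Metric.ball 0 (2 * ρ) := Metric.closedBall_subset_ball hR2
  have hps := (hg.mono hsub).hasFPowerSeriesOnBall hRpos
  set a : ℕ → ℂ := fun n => (cauchyPowerSeries g 0 R).coeff n with ha
  have han : ∀ n, ‖a n‖ ≤ (R : ℝ)⁻¹ ^ n := by
    intro n
    rw [ha]
    simp only
    rw [← FormalMultilinearSeries.norm_apply_eq_norm_coef]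
    refine (norm_cauchyPowerSeries_le g 0 R n).trans ?_
    rw [abs_of_pos (NNReal.coe_pos.2 hRpos)]
    have hint : ∫ θ : ℝ in (0:ℝ)..2 * Real.pi, ‖g (circleMap 0 R θ)‖ ≤ 2 * Real.pi := by
      have h1 : ∀ θ ∈ Set.uIoc (0:ℝ) (2 * Real.pi), ‖‖g (circleMap 0 R θ)‖‖ ≤ 1 := by
        intro θ _
        rw [norm_norm]
        apply hb
        apply hsub
        exact Metric.sphere_subset_closedBall (circleMap_mem_sphere 0 R.2 θ)
      have h2 := intervalIntegral.norm_integral_le_of_norm_le_const h1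
      rw [sub_zero, one_mul, abs_of_pos (by positivity : (0:ℝ) < 2 * Real.pi)] at h2
      exact (le_abs_self _).trans h2
    have hpi : 0 < 2 * Real.pi := by positivity
    calc ((2 * Real.pi)⁻¹ * ∫ θ : ℝ in (0:ℝ)..2 * Real.pi, ‖g (circleMap 0 R θ)‖) * (R:ℝ)⁻¹ ^ n
        ≤ ((2 * Real.pi)⁻¹ * (2 * Real.pi)) * (R:ℝ)⁻¹ ^ n := by gcongr
      _ = (R:ℝ)⁻¹ ^ n := by rw [inv_mul_cancel₀ hpi.ne', one_mul]
  have hsum : ∀ z : ℂ, ‖z‖ < R → HasSum (fun n => z ^ n * a n) (g z) := by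
    intro z hz
    have h1 := hps.hasSum (y := z) (by
      rw [Metric.mem_eball, edist_zero_right]
      rw [← ofReal_norm, ← ENNReal.ofReal_coe_nnreal]
      exact (ENNReal.ofReal_lt_ofReal_iff (NNReal.coe_pos.2 hRpos)).2 hz)
    rw [zero_add] at h1
    exact h1.congr_fun (fun n => by
      rw [FormalMultilinearSeries.apply_eq_pow_smul_coeff, smul_eq_mul])
  have ha0 : a 0 = g 0 := by
    have h1 := hsum 0 (by simpa using NNReal.coe_pos.2 hRpos)
    have h2 : HasSum (fun n => (0:ℂ) ^ n * a n) (a 0) := by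
      have := hasSum_single (f := fun n => (0:ℂ) ^ n * a n) 0 (fun n hn => by simp [hn])
      simpa using this
    exact h2.unique h1
  set ζ : ℂ := Complex.exp (2 * Real.pi * Complex.I / N) with hζ
  have hprim : IsPrimitiveRoot ζ N := Complex.isPrimitiveRoot_exp N hN0
  have hexp : ∀ l : ℕ, Complex.exp (2 * Real.pi * Complex.I * (l / N)) = ζ ^ l := by
    intro l
    rw [hζ, ← Complex.exp_nat_mul]
    congr 1
    field_simp
  simp only [hexp]
  have hζn : ‖ζ‖ = 1 := hprim.norm'_eq_one hN0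
  have hzl : ∀ l : ℕ, ‖(ρ : ℂ) * ζ ^ l‖ < R := by
    intro l
    rw [norm_mul, norm_pow, hζn, one_pow, mul_one, Complex.norm_real, Real.norm_eq_abs,
      abs_of_pos hρ]
    exact hρR
  have hav : HasSum (fun n => (N : ℂ)⁻¹ * ∑ l ∈ Finset.range N, ((ρ : ℂ) * ζ ^ l) ^ n * a n)
      ((N : ℂ)⁻¹ * ∑ l ∈ Finset.range N, g ((ρ : ℂ) * ζ ^ l)) :=
    (hasSum_sum fun l _ => hsum _ (hzl l)).mul_left _
  have hterm : ∀ n : ℕ, (N : ℂ)⁻¹ * ∑ l ∈ Finset.range N, ((ρ : ℂ) * ζ ^ l) ^ n * a n =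
      if N ∣ n then (ρ : ℂ) ^ n * a n else 0 := by
    intro n
    have e1 : ∑ l ∈ Finset.range N, ((ρ : ℂ) * ζ ^ l) ^ n * a n =
        ((ρ : ℂ) ^ n * a n) * ∑ l ∈ Finset.range N, (ζ ^ n) ^ l := by
      rw [Finset.mul_sum]
      refine Finset.sum_congr rfl fun l _ => ?_
      rw [mul_pow, ← pow_mul, ← pow_mul, mul_comm l n]; ring
    rw [e1]
    split_ifs with hd
    · rw [(hprim.pow_eq_one_iff_dvd n).2 hd]
      simp only [one_pow, Finset.sum_const, Finset.card_range, nsmul_eq_mul, mul_one]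
      field_simp
    · have hne : ζ ^ n ≠ 1 := fun h => hd ((hprim.pow_eq_one_iff_dvd n).1 h)
      rw [geom_sum_eq hne, ← pow_mul, mul_comm n N, pow_mul, hprim.pow_eq_one, one_pow, sub_self,
        zero_div, mul_zero, mul_zero]
  simp only [hterm] at hav
  have hsub2 := hav.sub (hasSum_ite_eq (0 : ℕ) (g 0))
  have hinj : Function.Injective (fun m : ℕ => (m + 1) * N) := by
    intro x y hxy
    have := Nat.eq_of_mul_eq_mul_right (by omega : 0 < N) hxy
    omega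
  have hre := (hinj.hasSum_iff (fun n hn => by
    by_cases hn0 : n = 0
    · subst hn0
      simp [ha0]
    · rw [if_neg hn0, sub_zero, if_neg]
      rintro ⟨k, rfl⟩
      apply hn
      have hk : k ≠ 0 := by rintro rfl; simp at hn0
      exact ⟨k - 1, by
        simp only
        rw [Nat.sub_add_cancel (by omega : 1 ≤ k), mul_comm]⟩)).2 hsub2
  have hqN : q ^ N < 1 := pow_lt_one₀ hq0.le hq1 hN0
  have hgeo : HasSum (fun m : ℕ => q ^ N * (q ^ N) ^ m) (q ^ N * (1 - q ^ N)⁻¹) :=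
    (hasSum_geometric_of_lt_one (by positivity) hqN).mul_left _
  refine hre.norm_le_of_bounded hgeo fun m => ?_
  have hm0 : (m + 1) * N ≠ 0 := Nat.mul_ne_zero (by omega) hN0
  simp only [Function.comp_apply]
  rw [if_pos (dvd_mul_left N (m + 1)), if_neg hm0, sub_zero, norm_mul, norm_pow, Complex.norm_real,
    Real.norm_eq_abs, abs_of_pos hρ]
  have h3 := han ((m + 1) * N)
  have hq' : ρ * (R : ℝ)⁻¹ = q := by rw [hRr]; field_simp
  calc ρ ^ ((m + 1) * N) * ‖a ((m + 1) * N)‖ ≤ ρ ^ ((m + 1) * N) * (R : ℝ)⁻¹ ^ ((m + 1) * N) := by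
        gcongr
    _ = q ^ ((m + 1) * N) := by rw [← mul_pow, hq']
    _ = q ^ N * (q ^ N) ^ m := by rw [← pow_mul, ← pow_add]; congr 1; ring

open Filter Topology in
/-- The mean of a bounded holomorphic function over the `N`-th roots is exponentially close
to its value at the centre. -/
theorem mean_lemma (g : ℂ → ℂ) (ρ : ℝ) (hρ : 0 < ρ) (N : ℕ) (hN : 1 ≤ N)
    (hg : DifferentiableOn ℂ g (Metric.ball 0 (2 * ρ)))
    (hb : ∀ z ∈ Metric.ball (0 : ℂ) (2 * ρ), ‖g z‖ ≤ 1) :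
    ‖(N : ℂ)⁻¹ * (∑ l ∈ Finset.range N,
        g ((ρ : ℂ) * Complex.exp (2 * Real.pi * Complex.I * (l / N)))) - g 0‖
      ≤ 2 * (1 / 2 : ℝ) ^ N := by
  have hhalf : (1 / 2 : ℝ) ^ N ≤ 1 / 2 := by
    calc (1 / 2 : ℝ) ^ N ≤ (1 / 2 : ℝ) ^ 1 := pow_le_pow_of_le_one (by norm_num) (by norm_num) hN
      _ = 1 / 2 := pow_one _
  have hpos : 0 < (1 / 2 : ℝ) ^ N := by positivity
  have hcont : ContinuousAt (fun q : ℝ => q ^ N * (1 - q ^ N)⁻¹) (1 / 2) := by
    refine ContinuousAt.mul (by fun_prop) (ContinuousAt.inv₀ (by fun_prop) ?_)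
    linarith
  have hlim : Tendsto (fun q : ℝ => q ^ N * (1 - q ^ N)⁻¹) (𝓝[>] (1 / 2))
      (𝓝 ((1 / 2 : ℝ) ^ N * (1 - (1 / 2 : ℝ) ^ N)⁻¹)) := hcont.tendsto.mono_left nhdsWithin_le_nhds
  have hev : ∀ᶠ q : ℝ in 𝓝[>] (1 / 2), ‖(N : ℂ)⁻¹ * (∑ l ∈ Finset.range N,
        g ((ρ : ℂ) * Complex.exp (2 * Real.pi * Complex.I * (l / N)))) - g 0‖ ≤
        q ^ N * (1 - q ^ N)⁻¹ := by
    filter_upwards [Ioo_mem_nhdsGT (show (1 / 2 : ℝ) < 1 by norm_num)] with q hq
    exact aux663_q g ρ hρ N hN hg hb q hq.1 hq.2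
  refine (ge_of_tendsto hlim hev).trans ?_
  have h1 : (1 - (1 / 2 : ℝ) ^ N)⁻¹ ≤ 2 := by
    rw [inv_le_comm₀ (by linarith) (by norm_num)]
    linarith
  calc (1 / 2 : ℝ) ^ N * (1 - (1 / 2 : ℝ) ^ N)⁻¹ ≤ (1 / 2 : ℝ) ^ N * 2 := by gcongr
    _ = 2 * (1 / 2 : ℝ) ^ N := mul_comm _ _

/-- approximability data of a function on the unit disc -/
def Approx (e η : ℕ → ℝ) (F : ℂ → ℂ) : Prop :=
  ∀ j : ℕ, ∃ A : ℂ → ℂ, DifferentiableOn ℂ A (Metric.ball 0 (Real.exp (e j / 2))) ∧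
    (∀ w ∈ Metric.ball (0 : ℂ) (Real.exp (e j / 2)), ‖A w‖ ≤ 1) ∧
    (∀ w : ℂ, ‖w‖ ≤ Real.exp (-(e (j + 1) / 4)) → ‖A w - F w‖ ≤ η j)

theorem lipschitz_of_bounded (A : ℂ → ℂ) (s : ℝ) (hs : 1 < s)
    (hA : DifferentiableOn ℂ A (Metric.ball 0 s))
    (hb : ∀ w ∈ Metric.ball (0 : ℂ) s, ‖A w‖ ≤ 1) (w w' : ℂ) (hw : ‖w‖ ≤ 1) (hw' : ‖w'‖ ≤ 1) :
    ‖A w - A w'‖ ≤ (2 / (s - 1)) * ‖w - w'‖ := by
  have hder : ∀ x ∈ Metric.closedBall (0 : ℂ) 1, ‖deriv A x‖ ≤ 2 / (s - 1) := by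
    intro x hx
    have hx1 : ‖x‖ ≤ 1 := by simpa using hx
    have hr : 0 < (s - 1) / 2 := by linarith
    have hsub : Metric.closedBall x ((s - 1) / 2) ⊆ Metric.ball 0 s := by
      intro y hy
      rw [Metric.mem_closedBall, dist_eq_norm] at hy
      rw [Metric.mem_ball, dist_zero_right]
      calc ‖y‖ = ‖(y - x) + x‖ := by ring_nf
        _ ≤ ‖y - x‖ + ‖x‖ := norm_add_le _ _
        _ < s := by linarith
    have h1 : DiffContOnCl ℂ A (Metric.ball x ((s - 1) / 2)) := by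
      apply DifferentiableOn.diffContOnCl
      rw [closure_ball x hr.ne']
      exact hA.mono hsub
    have h2 : ∀ y ∈ Metric.sphere x ((s - 1) / 2), ‖A y‖ ≤ 1 := fun y hy =>
      hb y (hsub (Metric.sphere_subset_closedBall hy))
    have h3 := Complex.norm_deriv_le_of_forall_mem_sphere_norm_le hr h1 h2
    have : (1 : ℝ) / ((s - 1) / 2) = 2 / (s - 1) := by
      field_simp
    linarith [this ▸ h3]
  have hconv : Convex ℝ (Metric.closedBall (0 : ℂ) 1) := convex_closedBall _ _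
  have hdiff : ∀ x ∈ Metric.closedBall (0 : ℂ) 1, DifferentiableAt ℂ A x := by
    intro x hx
    have hx1 : ‖x‖ ≤ 1 := by simpa using hx
    apply hA.differentiableAt
    apply Metric.isOpen_ball.mem_nhds
    rw [Metric.mem_ball, dist_zero_right]; linarith
  exact hconv.norm_image_sub_le_of_norm_deriv_le hdiff hder (by simpa using hw') (by simpa using hw)

theorem core (e η : ℕ → ℝ) (he : ∀ j, 0 < e j) (he2 : ∀ j, e (j + 1) ≤ e j)
    (he0 : Filter.Tendsto e Filter.atTop (nhds 0))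
    (hη : ∀ j, 0 < η j) (hη1 : ∀ j, η j ≤ 1)
    (hsum : Summable (fun j => Real.sqrt (η j))) :
    ∀ δ : ℝ, 0 < δ → ∃ τ : ℝ, 0 < τ ∧ ∀ F : ℂ → ℂ, Approx e η F →
      ∀ w w' : ℂ, ‖w‖ < 1 → ‖w'‖ < 1 → ‖w - w'‖ ≤ τ → ‖F w - F w'‖ ≤ δ := by
  intro δ hδ
  -- tail sums
  set b : ℕ → ℝ := fun j => 2 * (Real.sqrt (η j) + Real.sqrt (η (j + 1))) with hb
  have hbsum : Summable b := (hsum.add ((summable_nat_add_iff 1).2 hsum)).mul_left 2
  have hb0 : ∀ j, 0 ≤ b j := fun j => by positivity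
  have htail := tendsto_sum_nat_add b
  have hev : ∀ᶠ J in Filter.atTop, ∑' k, b (k + J) < δ / 3 := by
    apply htail.eventually_lt_const (by positivity)
  obtain ⟨J, hJ⟩ := hev.exists
  have hs1 : 1 < Real.exp (e J / 2) := by
    rw [Real.one_lt_exp_iff]; linarith [he J]
  refine ⟨(δ / 3) * ((Real.exp (e J / 2) - 1) / 2), by
    have : 0 < Real.exp (e J / 2) - 1 := by linarith
    positivity, ?_⟩
  intro F hF w w' hw hw' hww
  choose A hA1 hA2 hA3 using hF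
  -- consecutive difference
  have hcons : ∀ j, ∀ w : ℂ, ‖w‖ ≤ 1 → ‖A (j + 1) w - A j w‖ ≤ b j := by
    intro j w hw
    have hexp : Real.exp (2 * (e (j + 1) / 4)) = Real.exp (e (j + 1) / 2) := by ring_nf
    have hle : Real.exp (e (j + 1) / 2) ≤ Real.exp (e j / 2) := by
      apply Real.exp_le_exp.2; linarith [he2 j]
    have hsub : Metric.ball (0 : ℂ) (Real.exp (e (j + 1) / 2)) ⊆ Metric.ball 0 (Real.exp (e j / 2)) :=
      Metric.ball_subset_ball hle
    have h3 := three_circles (fun w => A (j + 1) w - A j w) (e (j + 1) / 4) (η j + η (j + 1))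
      (by linarith [he (j + 1)]) (by linarith [hη j, hη (j + 1)]) (by linarith [hη1 j, hη1 (j + 1)])
      (by
        rw [hexp]
        exact (hA1 (j + 1)).sub ((hA1 j).mono hsub))
      (by
        intro w hw
        rw [hexp] at hw
        calc ‖A (j + 1) w - A j w‖ ≤ ‖A (j + 1) w‖ + ‖A j w‖ := norm_sub_le _ _
          _ ≤ 1 + 1 := add_le_add (hA2 _ w hw) (hA2 _ w (hsub hw))
          _ = 2 := by norm_num)
      (by
        intro w hw
        have h1 : ‖A j w - F w‖ ≤ η j := hA3 j w hw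
        have h2 : ‖A (j + 1) w - F w‖ ≤ η (j + 1) := by
          apply hA3 (j + 1) w (hw.trans _)
          apply Real.exp_le_exp.2; linarith [he2 (j + 1)]
        calc ‖A (j + 1) w - A j w‖ = ‖(A (j + 1) w - F w) - (A j w - F w)‖ := by ring_nf
          _ ≤ ‖A (j + 1) w - F w‖ + ‖A j w - F w‖ := norm_sub_le _ _
          _ ≤ η j + η (j + 1) := by linarith)
      w hw
    refine h3.trans ?_
    rw [hb]
    have : Real.sqrt (η j + η (j + 1)) ≤ Real.sqrt (η j) + Real.sqrt (η (j + 1)) := by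
      rw [Real.sqrt_le_iff]
      refine ⟨by positivity, ?_⟩
      have h1 := Real.sq_sqrt (hη j).le
      have h2 := Real.sq_sqrt (hη (j + 1)).le
      have h3 := mul_nonneg (Real.sqrt_nonneg (η j)) (Real.sqrt_nonneg (η (j + 1)))
      nlinarith
    dsimp only
    linarith
  -- limit
  have hlim : ∀ w : ℂ, ‖w‖ < 1 → Filter.Tendsto (fun j => A j w) Filter.atTop (nhds (F w)) := by
    intro w hw
    have hη0 : Filter.Tendsto η Filter.atTop (nhds 0) := by
      have h := hsum.tendsto_atTop_zero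
      have h2 : Filter.Tendsto (fun j => Real.sqrt (η j) * Real.sqrt (η j)) Filter.atTop (nhds (0 * 0)) := h.mul h
      simp only [Real.mul_self_sqrt (hη _).le, mul_zero] at h2
      exact h2
    rw [tendsto_iff_norm_sub_tendsto_zero]
    have hev2 : ∀ᶠ j in Filter.atTop, ‖w‖ ≤ Real.exp (-(e (j + 1) / 4)) := by
      have h1 : Filter.Tendsto (fun j => Real.exp (-(e (j + 1) / 4))) Filter.atTop (nhds (Real.exp (-(0 / 4)))) := by
        apply (Real.continuous_exp.tendsto _).comp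
        apply Filter.Tendsto.neg
        apply Filter.Tendsto.div_const
        exact he0.comp (Filter.tendsto_add_atTop_nat 1)
      have h2 : ‖w‖ < Real.exp (-(0 / 4)) := by simpa using hw
      filter_upwards [h1.eventually_const_lt h2] with j hj using hj.le
    apply squeeze_zero' (Filter.Eventually.of_forall fun j => norm_nonneg _) _ hη0
    filter_upwards [hev2] with j hj using hA3 j w hj
  -- tail estimate
  have htl : ∀ w : ℂ, ‖w‖ < 1 → ‖F w - A J w‖ ≤ δ / 3 := by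
    intro w hw
    have hpart : ∀ n, ‖A (n + J) w - A J w‖ ≤ ∑' k, b (k + J) := by
      intro n
      have h1 : ‖A (n + J) w - A J w‖ ≤ ∑ k ∈ Finset.range n, b (k + J) := by
        induction n with
        | zero => simp
        | succ n ih =>
          rw [Finset.sum_range_succ]
          have := hcons (n + J) w hw.le
          calc ‖A (n + 1 + J) w - A J w‖ = ‖(A (n + J + 1) w - A (n + J) w) + (A (n + J) w - A J w)‖ := by
                rw [show n + 1 + J = n + J + 1 by ring]; ring_nf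
            _ ≤ ‖A (n + J + 1) w - A (n + J) w‖ + ‖A (n + J) w - A J w‖ := norm_add_le _ _
            _ ≤ _ := by linarith
      exact h1.trans (((summable_nat_add_iff J).2 hbsum).sum_le_tsum _ (fun k _ => hb0 _))
    have hl2 : Filter.Tendsto (fun n => ‖A (n + J) w - A J w‖) Filter.atTop (nhds ‖F w - A J w‖) := by
      apply Filter.Tendsto.norm
      apply Filter.Tendsto.sub_const
      exact (hlim w hw).comp (Filter.tendsto_add_atTop_nat J)
    exact (le_of_tendsto' hl2 hpart).trans hJ.le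
  have hAJ : ‖A J w - A J w'‖ ≤ δ / 3 := by
    have h1 := lipschitz_of_bounded (A J) _ hs1 (hA1 J) (hA2 J) w w' hw.le hw'.le
    have h2 : 0 < Real.exp (e J / 2) - 1 := by linarith
    calc ‖A J w - A J w'‖ ≤ 2 / (Real.exp (e J / 2) - 1) * ‖w - w'‖ := h1
      _ ≤ 2 / (Real.exp (e J / 2) - 1) * ((δ / 3) * ((Real.exp (e J / 2) - 1) / 2)) := by gcongr
      _ = δ / 3 := by field_simp
  calc ‖F w - F w'‖ = ‖(F w - A J w) + (A J w - A J w') - (F w' - A J w')‖ := by ring_nf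
    _ ≤ ‖(F w - A J w) + (A J w - A J w')‖ + ‖F w' - A J w'‖ := norm_sub_le _ _
    _ ≤ ‖F w - A J w‖ + ‖A J w - A J w'‖ + ‖F w' - A J w'‖ := by gcongr; exact norm_add_le _ _
    _ ≤ δ := by linarith [htl w hw, htl w' hw']

end Pool.Agent.Helper459.CC
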