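import Mathlib

set_option autoImplicit false
open scoped ContDiff

namespace Pool.Agent.Helper459.CC

/-- The defining function of the Hartogs domain. -/
noncomputable def rdef (ψ : ℂ → ℝ) (p : Fin 2 → ℂ) : ℝ :=
  ‖p 1‖ ^ 2 * Real.exp (2 * ψ (p 0)) + Real.exp 2 * expNegInvGlue (‖p 0‖ ^ 2 - 1) - 1

theorem rdef_smooth (ψ : ℂ → ℝ) (hψ : ContDiff ℝ ∞ ψ) : ContDiff ℝ ∞ (rdef ψ) := by
  have h0 : ContDiff ℝ ∞ (fun p : Fin 2 → ℂ => p 0) := contDiff_apply ℝ ℂ 0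
  have h1 : ContDiff ℝ ∞ (fun p : Fin 2 → ℂ => p 1) := contDiff_apply ℝ ℂ 1
  have a1 : ContDiff ℝ ∞ (fun p : Fin 2 → ℂ => ‖p 1‖ ^ 2) := h1.norm_sq ℝ
  have a0 : ContDiff ℝ ∞ (fun p : Fin 2 → ℂ => ‖p 0‖ ^ 2) := h0.norm_sq ℝ
  have a2 : ContDiff ℝ ∞ (fun p : Fin 2 → ℂ => Real.exp (2 * ψ (p 0))) :=
    (contDiff_const.mul (hψ.comp h0)).exp
  have a3 : ContDiff ℝ ∞ (fun p : Fin 2 → ℂ => expNegInvGlue (‖p 0‖ ^ 2 - 1)) :=
    (expNegInvGlue.contDiff (n := ⊤)).comp (a0.sub contDiff_const)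
  exact ((a1.mul a2).add (contDiff_const.mul a3)).sub contDiff_const

theorem rdef_bounded (ψ : ℂ → ℝ) (hψ : Continuous ψ) :
    Bornology.IsBounded {p : Fin 2 → ℂ | rdef ψ p < 0} := by
  obtain ⟨C, hC⟩ := (isCompact_closedBall (0 : ℂ) 2).exists_bound_of_continuousOn hψ.continuousOn
  rw [isBounded_iff_forall_norm_le]
  refine ⟨2 + Real.exp C, fun p hp => ?_⟩
  have hp' : ‖p 1‖ ^ 2 * Real.exp (2 * ψ (p 0)) + Real.exp 2 * expNegInvGlue (‖p 0‖ ^ 2 - 1) - 1 < 0 := hp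
  have n1 : 0 ≤ ‖p 1‖ ^ 2 * Real.exp (2 * ψ (p 0)) := by positivity
  have n2 : 0 ≤ Real.exp 2 * expNegInvGlue (‖p 0‖ ^ 2 - 1) :=
    mul_nonneg (Real.exp_pos _).le (expNegInvGlue.nonneg _)
  have hC' := Real.exp_pos C
  -- first coordinate
  have hx : ‖p 0‖ ^ 2 - 1 ≤ 1 / 2 := by
    by_contra hcon
    push Not at hcon
    have hpos : 0 < ‖p 0‖ ^ 2 - 1 := by linarith
    have e1 : expNegInvGlue (‖p 0‖ ^ 2 - 1) = Real.exp (-(‖p 0‖ ^ 2 - 1)⁻¹) := by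
      simp only [expNegInvGlue, not_le.2 hpos, if_false]
    have e2 : (‖p 0‖ ^ 2 - 1)⁻¹ < 2 := by
      rw [inv_lt_comm₀ hpos two_pos]
      linarith
    have e3 : 1 < Real.exp 2 * expNegInvGlue (‖p 0‖ ^ 2 - 1) := by
      rw [e1, ← Real.exp_add]
      apply Real.one_lt_exp_iff.2
      linarith
    linarith
  have h0 : ‖p 0‖ ≤ 2 := by
    by_contra hcon
    push Not at hcon
    nlinarith [norm_nonneg (p 0)]
  have hψp : |ψ (p 0)| ≤ C := hC (p 0) (by simpa using h0)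
  have h1 : ‖p 1‖ ≤ Real.exp C := by
    have e1 : ‖p 1‖ ^ 2 * Real.exp (2 * ψ (p 0)) ≤ 1 := by linarith
    have e2 : Real.exp (-(2 * C)) ≤ Real.exp (2 * ψ (p 0)) := by
      apply Real.exp_le_exp.2
      have := (abs_le.1 hψp).1
      linarith
    have e3 : ‖p 1‖ ^ 2 * Real.exp (-(2 * C)) ≤ 1 :=
      (mul_le_mul_of_nonneg_left e2 (by positivity)).trans e1
    have e4 : ‖p 1‖ ^ 2 ≤ Real.exp C ^ 2 := by
      have e5 : Real.exp (-(2 * C)) * Real.exp C ^ 2 = 1 := by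
        rw [← Real.exp_nat_mul, ← Real.exp_add]
        norm_num
      have e6 := Real.exp_pos C
      calc ‖p 1‖ ^ 2 = ‖p 1‖ ^ 2 * (Real.exp (-(2 * C)) * Real.exp C ^ 2) := by rw [e5, mul_one]
        _ = (‖p 1‖ ^ 2 * Real.exp (-(2 * C))) * Real.exp C ^ 2 := by ring
        _ ≤ 1 * Real.exp C ^ 2 := mul_le_mul_of_nonneg_right e3 (by positivity)
        _ = Real.exp C ^ 2 := one_mul _
    exact (pow_le_pow_iff_left₀ (norm_nonneg _) hC'.le two_ne_zero).1 e4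
  rw [pi_norm_le_iff_of_nonneg (by positivity)]
  intro i
  fin_cases i
  · show ‖p 0‖ ≤ _
    linarith
  · show ‖p 1‖ ≤ _
    linarith

theorem rdef_mono1 (ψ : ℂ → ℝ) {p q : Fin 2 → ℂ} (h0 : q 0 = p 0) (h1 : ‖q 1‖ ≤ ‖p 1‖) :
    rdef ψ q ≤ rdef ψ p := by
  unfold rdef
  rw [h0]
  have h2 : ‖q 1‖ ^ 2 ≤ ‖p 1‖ ^ 2 := by
    have := norm_nonneg (q 1)
    gcongr
  have h3 := mul_le_mul_of_nonneg_right h2 (Real.exp_pos (2 * ψ (p 0))).le
  linarith

theorem rdef_mono0 (ψ : ℂ → ℝ) {p q : Fin 2 → ℂ} (hp : p 1 = 0) (hq : q 1 = 0) (h1 : ‖q 0‖ ≤ ‖p 0‖) :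
    rdef ψ q ≤ rdef ψ p := by
  unfold rdef
  rw [hp, hq, norm_zero]
  have h2 : ‖q 0‖ ^ 2 ≤ ‖p 0‖ ^ 2 := by
    have := norm_nonneg (q 0)
    gcongr
  have h3 := expNegInvGlue.monotone (sub_le_sub_right h2 1)
  have h4 := mul_le_mul_of_nonneg_left h3 (Real.exp_pos 2).le
  simp only [ne_eq, OfNat.ofNat_ne_zero, not_false_eq_true, zero_pow, zero_mul]
  linarith

theorem rdef_connected (ψ : ℂ → ℝ) (hψ : Continuous ψ) :
    IsConnected {p : Fin 2 → ℂ | rdef ψ p < 0} := by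
  have _ := hψ
  have hz : rdef ψ 0 < 0 := by
    unfold rdef
    simp only [Pi.zero_apply, norm_zero]
    rw [expNegInvGlue.zero_of_nonpos (by norm_num)]
    norm_num
  refine ⟨⟨0, hz⟩, ?_⟩
  apply isPreconnected_of_forall (0 : Fin 2 → ℂ)
  intro p hp
  have hp' : rdef ψ p < 0 := hp
  let q : Fin 2 → ℂ := ![p 0, 0]
  have q0 : q 0 = p 0 := rfl
  have q1 : q 1 = 0 := rfl
  have hq : rdef ψ q < 0 := lt_of_le_of_lt (rdef_mono1 ψ q0 (by rw [q1, norm_zero]; exact norm_nonneg _)) hp'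
  refine ⟨segment ℝ p q ∪ segment ℝ q 0, ?_, Or.inr (right_mem_segment ℝ q 0),
    Or.inl (left_mem_segment ℝ p q), ?_⟩
  · rintro y (hy | hy)
    · obtain ⟨a, b, ha, hb, hab, rfl⟩ := hy
      refine lt_of_le_of_lt (rdef_mono1 ψ (p := p) ?_ ?_) hp'
      · simp only [Pi.add_apply, Pi.smul_apply, q0]
        rw [← add_smul, hab, one_smul]
      · simp only [Pi.add_apply, Pi.smul_apply, q1, smul_zero, add_zero, norm_smul, Real.norm_eq_abs]
        rw [abs_of_nonneg ha]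
        have : a ≤ 1 := by linarith
        exact mul_le_of_le_one_left (norm_nonneg _) this
    · obtain ⟨a, b, ha, hb, hab, rfl⟩ := hy
      refine lt_of_le_of_lt (rdef_mono0 ψ (p := q) q1 ?_ ?_) hq
      · simp [q1]
      · simp only [Pi.add_apply, Pi.smul_apply, Pi.zero_apply, smul_zero, add_zero, norm_smul,
          Real.norm_eq_abs]
        rw [abs_of_nonneg ha]
        have : a ≤ 1 := by linarith
        exact mul_le_of_le_one_left (norm_nonneg _) this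
  · exact (convex_segment p q).isPreconnected.union q (right_mem_segment ℝ p q)
      (left_mem_segment ℝ q 0) (convex_segment q 0).isPreconnected

theorem rdef_grad (ψ : ℂ → ℝ) (hψ : ContDiff ℝ ∞ ψ) :
    ∀ p : Fin 2 → ℂ, rdef ψ p = 0 → fderiv ℝ (rdef ψ) p ≠ 0 := by
  intro p hp hf
  have hd : DifferentiableAt ℝ (rdef ψ) p :=
    ((rdef_smooth ψ hψ).differentiable (by simp)).differentiableAt
  have hF : HasFDerivAt (rdef ψ) (0 : (Fin 2 → ℂ) →L[ℝ] ℝ) p := by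
    rw [← hf]
    exact hd.hasFDerivAt
  -- every directional derivative vanishes
  have hdir : ∀ v : Fin 2 → ℂ, HasDerivAt (fun t : ℝ => rdef ψ (p + t • v)) 0 0 := by
    intro v
    have hl : HasDerivAt (fun t : ℝ => p + t • v) v 0 := by
      have := ((hasDerivAt_id (0 : ℝ)).smul_const v).const_add p
      simpa using this
    have hF' : HasFDerivAt (rdef ψ) (0 : (Fin 2 → ℂ) →L[ℝ] ℝ) (p + (0 : ℝ) • v) := by
      simpa using hF
    have h2 := hF'.comp_hasDerivAt (0 : ℝ) hl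
    exact h2.congr_deriv (by simp)
  by_cases h1 : p 1 = 0
  · -- the circle ‖p 0‖² = 3/2
    unfold rdef at hp
    rw [h1, norm_zero] at hp
    simp only [ne_eq, OfNat.ofNat_ne_zero, not_false_eq_true, zero_pow, zero_mul, zero_add] at hp
    have hx0 : 0 < ‖p 0‖ ^ 2 - 1 := by
      by_contra hcon
      rw [expNegInvGlue.zero_of_nonpos (not_lt.1 hcon)] at hp
      norm_num at hp
    have e1 : expNegInvGlue (‖p 0‖ ^ 2 - 1) = Real.exp (-(‖p 0‖ ^ 2 - 1)⁻¹) := by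
      simp only [expNegInvGlue, not_le.2 hx0, if_false]
    rw [e1, ← Real.exp_add] at hp
    have e2 : Real.exp (2 + -(‖p 0‖ ^ 2 - 1)⁻¹) = 1 := by linarith
    rw [Real.exp_eq_one_iff] at e2
    have e3 : (‖p 0‖ ^ 2 - 1)⁻¹ = 2 := by linarith
    have e4 : ‖p 0‖ ^ 2 = 3 / 2 := by
      have : (‖p 0‖ ^ 2 - 1) = 2⁻¹ := by rw [← e3, inv_inv]
      rw [sub_eq_iff_eq_add] at this
      rw [this]
      norm_num
    have hv := hdir ![p 0, 0]
    have hfun : ∀ t : ℝ, rdef ψ (p + t • ![p 0, 0])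
        = Real.exp 2 * expNegInvGlue ((1 + t) ^ 2 * (3 / 2) - 1) - 1 := by
      intro t
      unfold rdef
      have c1 : (p + t • ![p 0, 0]) 1 = 0 := by simp [h1]
      have c0 : (p + t • ![p 0, 0]) 0 = ((1 + t : ℝ) : ℂ) * p 0 := by
        simp
        ring
      rw [c1, c0, norm_mul, mul_pow, e4, Complex.norm_real, Real.norm_eq_abs, sq_abs, norm_zero]
      simp
    have hg : HasDerivAt (fun t : ℝ => Real.exp 2 * expNegInvGlue ((1 + t) ^ 2 * (3 / 2) - 1) - 1)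
        12 0 := by
      have i1 : HasDerivAt (fun t : ℝ => (1 + t) ^ 2 * (3 / 2) - 1) 3 0 := by
        have j1 : HasDerivAt (fun t : ℝ => 1 + t) 1 0 := (hasDerivAt_id (0 : ℝ)).const_add 1
        have j2 := ((j1.fun_pow 2).mul_const (3 / 2 : ℝ)).sub_const 1
        exact j2.congr_deriv (by norm_num)
      have i2 : HasDerivAt expNegInvGlue (Real.exp (-2) * 4) ((1 + (0 : ℝ)) ^ 2 * (3 / 2) - 1) := by
        have j0 : ((1 + (0 : ℝ)) ^ 2 * (3 / 2) - 1) = 1 / 2 := by norm_num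
        rw [j0]
        have j1 : HasDerivAt (fun x : ℝ => Real.exp (-x⁻¹)) (Real.exp (-2) * 4) (1 / 2) := by
          have j3 := ((hasDerivAt_inv (x := (1 / 2 : ℝ)) (by norm_num)).neg).exp
          exact j3.congr_deriv (by simp only [Pi.neg_apply]; norm_num)
        apply j1.congr_of_eventuallyEq
        filter_upwards [lt_mem_nhds (show (0 : ℝ) < 1 / 2 by norm_num)] with y hy
        simp only [expNegInvGlue, not_le.2 hy, if_false]
      have i3 := ((i2.comp (0 : ℝ) i1).const_mul (Real.exp 2)).sub_const 1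
      refine i3.congr_deriv ?_
      have : Real.exp 2 * Real.exp (-2) = 1 := by rw [← Real.exp_add]; norm_num
      calc Real.exp 2 * (Real.exp (-2) * 4 * 3) = (Real.exp 2 * Real.exp (-2)) * 12 := by ring
        _ = 12 := by rw [this, one_mul]
    have hv' : HasDerivAt (fun t : ℝ => Real.exp 2 * expNegInvGlue ((1 + t) ^ 2 * (3 / 2) - 1) - 1)
        0 0 := by
      have := hv
      simp only [hfun] at this
      exact this
    have := hg.unique hv'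
    norm_num at this
  · have hv := hdir ![0, p 1]
    let c : ℝ := Real.exp 2 * expNegInvGlue (‖p 0‖ ^ 2 - 1) - 1
    let E : ℝ := ‖p 1‖ ^ 2 * Real.exp (2 * ψ (p 0))
    have hE : 0 < E := by
      have := norm_pos_iff.2 h1
      positivity
    have hfun : ∀ t : ℝ, rdef ψ (p + t • ![0, p 1]) = (1 + t) ^ 2 * E + c := by
      intro t
      unfold rdef
      have c0 : (p + t • ![0, p 1]) 0 = p 0 := by simp
      have c1 : (p + t • ![0, p 1]) 1 = ((1 + t : ℝ) : ℂ) * p 1 := by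
        simp
        ring
      rw [c1, c0, norm_mul, mul_pow, Complex.norm_real, Real.norm_eq_abs, sq_abs]
      simp only [c, E]
      ring
    have hg : HasDerivAt (fun t : ℝ => (1 + t) ^ 2 * E + c) (2 * E) 0 := by
      have j1 : HasDerivAt (fun t : ℝ => 1 + t) 1 0 := (hasDerivAt_id (0 : ℝ)).const_add 1
      have j2 := ((j1.fun_pow 2).mul_const E).add_const c
      exact j2.congr_deriv (by norm_num)
    have hv' : HasDerivAt (fun t : ℝ => (1 + t) ^ 2 * E + c) 0 0 := by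
      have := hv
      simp only [hfun] at this
      exact this
    have := hg.unique hv'
    linarith



noncomputable def lg1 (x : ℝ) : ℝ := (x⁻¹) ^ 2 * expNegInvGlue x

noncomputable def lg2 (x : ℝ) : ℝ := ((x⁻¹) ^ 2 * ((x⁻¹) ^ 2 - 2 * x⁻¹)) * expNegInvGlue x

theorem lg_hasDeriv (x : ℝ) : HasDerivAt expNegInvGlue (lg1 x) x := by
  have h := expNegInvGlue.hasDerivAt_polynomial_eval_inv_mul 1 x
  simp only [Polynomial.eval_one, one_mul, Polynomial.derivative_one, sub_zero, mul_one,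
    Polynomial.eval_pow, Polynomial.eval_X] at h
  exact h

theorem lg1_hasDeriv (x : ℝ) : HasDerivAt lg1 (lg2 x) x := by
  have h := expNegInvGlue.hasDerivAt_polynomial_eval_inv_mul (Polynomial.X ^ 2) x
  have e : Polynomial.eval x⁻¹ (Polynomial.X ^ 2 * (Polynomial.X ^ 2 -
      Polynomial.derivative (R := ℝ) (Polynomial.X ^ 2))) = (x⁻¹) ^ 2 * ((x⁻¹) ^ 2 - 2 * x⁻¹) := by
    rw [Polynomial.derivative_X_pow]
    simp only [Polynomial.eval_mul, Polynomial.eval_sub, Polynomial.eval_pow, Polynomial.eval_X,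
      Polynomial.eval_C]
    norm_num
  rw [e] at h
  simp only [Polynomial.eval_pow, Polynomial.eval_X] at h
  exact h

theorem lg1_nonneg (x : ℝ) : 0 ≤ lg1 x := mul_nonneg (sq_nonneg _) (expNegInvGlue.nonneg x)

theorem lg2_nonneg {x : ℝ} (hx : x ≤ 1 / 2) : 0 ≤ lg2 x := by
  unfold lg2
  rcases le_or_gt x 0 with h | h
  · rw [expNegInvGlue.zero_of_nonpos h, mul_zero]
  · refine mul_nonneg (mul_nonneg (sq_nonneg _) ?_) (expNegInvGlue.nonneg x)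
    have h1 : 2 ≤ x⁻¹ := by
      rw [le_inv_comm₀ (by norm_num) h]; linarith
    nlinarith

theorem fderiv_line {E : Type} [NormedAddCommGroup E] [NormedSpace ℝ E] {F : E → ℝ}
    (hF : ContDiff ℝ 2 F) (p w : E) (t : ℝ) :
    HasDerivAt (fun s : ℝ => F (p + s • w)) (fderiv ℝ F (p + t • w) w) t := by
  have hL : HasDerivAt (fun s : ℝ => p + s • w) w t := by
    have := ((hasDerivAt_id t).smul_const w).const_add p
    simpa using this
  have h1 : HasFDerivAt F (fderiv ℝ F (p + t • w)) (p + t • w) :=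
    ((hF.differentiable (by norm_num)) _).hasFDerivAt
  exact h1.comp_hasDerivAt t hL

theorem fderiv2_line {E : Type} [NormedAddCommGroup E] [NormedSpace ℝ E] {F : E → ℝ}
    (hF : ContDiff ℝ 2 F) (p w : E) :
    HasDerivAt (fun s : ℝ => fderiv ℝ F (p + s • w) w) (fderiv ℝ (fderiv ℝ F) p w w) 0 := by
  have hL : HasDerivAt (fun s : ℝ => p + s • w) w 0 := by
    have := ((hasDerivAt_id (0 : ℝ)).smul_const w).const_add p
    simpa using this
  have hd : ContDiff ℝ 1 (fderiv ℝ F) := hF.fderiv_right (by norm_num)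
  have h1 : HasFDerivAt (fderiv ℝ F) (fderiv ℝ (fderiv ℝ F) (p + (0 : ℝ) • w)) (p + (0 : ℝ) • w) :=
    ((hd.differentiable (by norm_num)) _).hasFDerivAt
  have h2 := h1.comp_hasDerivAt (0 : ℝ) hL
  have h3 := h2.clm_apply (hasDerivAt_const (0 : ℝ) w)
  simp only [zero_smul, add_zero, map_zero] at h3
  simpa using h3

theorem second_deriv {E : Type} [NormedAddCommGroup E] [NormedSpace ℝ E] {F : E → ℝ}
    (hF : ContDiff ℝ 2 F) (p w : E) {φ1 : ℝ → ℝ} {c : ℝ}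
    (h1 : ∀ t, HasDerivAt (fun s : ℝ => F (p + s • w)) (φ1 t) t)
    (h2 : HasDerivAt φ1 c 0) : fderiv ℝ (fderiv ℝ F) p w w = c := by
  have e : (fun s : ℝ => fderiv ℝ F (p + s • w) w) = φ1 := by
    funext t
    exact (fderiv_line hF p w t).unique (h1 t)
  have h3 := fderiv2_line hF p w
  rw [e] at h3
  exact h3.unique h2

theorem rdef_contDiff (ψ : ℂ → ℝ) (hψ : ContDiff ℝ ∞ ψ) : ContDiff ℝ 2 (rdef ψ) := by
  have hψ2 : ContDiff ℝ 2 ψ := contDiff_infty.mp hψ 2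
  have h0 : ContDiff ℝ 2 (fun p : Fin 2 → ℂ => p 0) := contDiff_apply ℝ ℂ 0
  have h1 : ContDiff ℝ 2 (fun p : Fin 2 → ℂ => p 1) := contDiff_apply ℝ ℂ 1
  have hn1 : ContDiff ℝ 2 (fun p : Fin 2 → ℂ => ‖p 1‖ ^ 2) := h1.norm_sq ℝ
  have hn0 : ContDiff ℝ 2 (fun p : Fin 2 → ℂ => ‖p 0‖ ^ 2) := h0.norm_sq ℝ
  have he : ContDiff ℝ 2 (fun p : Fin 2 → ℂ => Real.exp (2 * ψ (p 0))) :=
    (contDiff_const.mul (hψ2.comp h0)).exp
  have hg : ContDiff ℝ 2 (fun p : Fin 2 → ℂ => expNegInvGlue (‖p 0‖ ^ 2 - 1)) := by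
    have : ContDiff ℝ 2 expNegInvGlue := expNegInvGlue.contDiff (n := 2)
    exact this.comp (hn0.sub contDiff_const)
  unfold rdef
  exact ((hn1.mul he).add (contDiff_const.mul hg)).sub contDiff_const

theorem nsq_line (u b : ℂ) (t : ℝ) : ‖u + t • b‖ ^ 2 =
    ‖u‖ ^ 2 + 2 * (u.re * b.re + u.im * b.im) * t + ‖b‖ ^ 2 * t ^ 2 := by
  rw [Complex.sq_norm, Complex.sq_norm, Complex.sq_norm, Complex.normSq_apply,
    Complex.normSq_apply, Complex.normSq_apply]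
  simp
  ring

theorem quad_deriv (n0 n1 n2 t : ℝ) :
    HasDerivAt (fun s : ℝ => n0 + n1 * s + n2 * s ^ 2) (n1 + 2 * n2 * t) t := by
  have h1 : HasDerivAt (fun s : ℝ => n1 * s) (n1 * 1) t := (hasDerivAt_id t).const_mul n1
  have h2 : HasDerivAt (fun s : ℝ => s ^ 2) (2 * t) t := by simpa using hasDerivAt_pow 2 t
  exact (((hasDerivAt_const t n0).add h1).add (h2.const_mul n2)).congr_deriv (by ring)

theorem rdef_line (ψ : ℂ → ℝ) (p w : Fin 2 → ℂ) (s : ℝ) : rdef ψ (p + s • w) =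
      (‖p 1‖ ^ 2 + 2 * ((p 1).re * (w 1).re + (p 1).im * (w 1).im) * s + ‖w 1‖ ^ 2 * s ^ 2) *
        Real.exp (2 * ψ (p 0 + s • w 0)) +
        Real.exp 2 * expNegInvGlue ((‖p 0‖ ^ 2 - 1) +
          2 * ((p 0).re * (w 0).re + (p 0).im * (w 0).im) * s + ‖w 0‖ ^ 2 * s ^ 2) - 1 := by
  unfold rdef
  have e1 : (p + s • w) 1 = p 1 + s • w 1 := rfl
  have e0 : (p + s • w) 0 = p 0 + s • w 0 := rfl
  rw [e1, e0, nsq_line, nsq_line]
  have : ‖p 0‖ ^ 2 + 2 * ((p 0).re * (w 0).re + (p 0).im * (w 0).im) * s + ‖w 0‖ ^ 2 * s ^ 2 - 1 =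
      (‖p 0‖ ^ 2 - 1) +
          2 * ((p 0).re * (w 0).re + (p 0).im * (w 0).im) * s + ‖w 0‖ ^ 2 * s ^ 2 := by ring
  rw [this]

theorem levi_one (ψ : ℂ → ℝ) (hψ : ContDiff ℝ ∞ ψ) (p w : Fin 2 → ℂ) :
    fderiv ℝ (fderiv ℝ (rdef ψ)) p w w =
      Real.exp (2 * ψ (p 0)) * (2 * ‖w 1‖ ^ 2 +
        4 * (2 * ((p 1).re * (w 1).re + (p 1).im * (w 1).im)) * fderiv ℝ ψ (p 0) (w 0) +
        ‖p 1‖ ^ 2 * (2 * fderiv ℝ (fderiv ℝ ψ) (p 0) (w 0) (w 0) +
          4 * fderiv ℝ ψ (p 0) (w 0) ^ 2)) +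
      Real.exp 2 * (lg2 (‖p 0‖ ^ 2 - 1) * (2 * ((p 0).re * (w 0).re + (p 0).im * (w 0).im)) ^ 2 +
        lg1 (‖p 0‖ ^ 2 - 1) * (2 * ‖w 0‖ ^ 2)) := by
  have hψ2 : ContDiff ℝ 2 ψ := contDiff_infty.mp hψ 2
  set n0 := ‖p 1‖ ^ 2
  set n1 := 2 * ((p 1).re * (w 1).re + (p 1).im * (w 1).im) with hn1
  set n2 := ‖w 1‖ ^ 2
  set q0 := ‖p 0‖ ^ 2 - 1 with hq0
  set q1 := 2 * ((p 0).re * (w 0).re + (p 0).im * (w 0).im) with hq1
  set q2 := ‖w 0‖ ^ 2
  have hfun : (fun s : ℝ => rdef ψ (p + s • w)) = fun s : ℝ =>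
      (n0 + n1 * s + n2 * s ^ 2) * Real.exp (2 * ψ (p 0 + s • w 0)) +
        Real.exp 2 * expNegInvGlue (q0 + q1 * s + q2 * s ^ 2) - 1 := by
    funext s
    exact rdef_line ψ p w s
  have hN : ∀ t : ℝ, HasDerivAt (fun s : ℝ => n0 + n1 * s + n2 * s ^ 2) (n1 + 2 * n2 * t) t :=
    fun t => quad_deriv n0 n1 n2 t
  have hQ : ∀ t : ℝ, HasDerivAt (fun s : ℝ => q0 + q1 * s + q2 * s ^ 2) (q1 + 2 * q2 * t) t :=
    fun t => quad_deriv q0 q1 q2 t
  have hE : ∀ t : ℝ, HasDerivAt (fun s : ℝ => Real.exp (2 * ψ (p 0 + s • w 0)))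
      (Real.exp (2 * ψ (p 0 + t • w 0)) * (2 * fderiv ℝ ψ (p 0 + t • w 0) (w 0))) t := by
    intro t
    exact ((fderiv_line hψ2 (p 0) (w 0) t).const_mul 2).exp
  have hG : ∀ t : ℝ, HasDerivAt (fun s : ℝ => expNegInvGlue (q0 + q1 * s + q2 * s ^ 2))
      (lg1 (q0 + q1 * t + q2 * t ^ 2) * (q1 + 2 * q2 * t)) t := by
    intro t
    exact (lg_hasDeriv _).comp t (hQ t)
  have hG1 : ∀ t : ℝ, HasDerivAt (fun s : ℝ => lg1 (q0 + q1 * s + q2 * s ^ 2))
      (lg2 (q0 + q1 * t + q2 * t ^ 2) * (q1 + 2 * q2 * t)) t := by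
    intro t
    exact (lg1_hasDeriv _).comp t (hQ t)
  have hlin : HasDerivAt (fun s : ℝ => n1 + 2 * n2 * s) (2 * n2) 0 :=
    (((hasDerivAt_id (0 : ℝ)).const_mul (2 * n2)).const_add n1).congr_deriv (mul_one _)
  have hlinq : HasDerivAt (fun s : ℝ => q1 + 2 * q2 * s) (2 * q2) 0 :=
    (((hasDerivAt_id (0 : ℝ)).const_mul (2 * q2)).const_add q1).congr_deriv (mul_one _)
  refine second_deriv (rdef_contDiff ψ hψ) p w
    (φ1 := fun t => ((n1 + 2 * n2 * t) * Real.exp (2 * ψ (p 0 + t • w 0)) +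
      (n0 + n1 * t + n2 * t ^ 2) *
        (Real.exp (2 * ψ (p 0 + t • w 0)) * (2 * fderiv ℝ ψ (p 0 + t • w 0) (w 0)))) +
      Real.exp 2 * (lg1 (q0 + q1 * t + q2 * t ^ 2) * (q1 + 2 * q2 * t))) ?_ ?_
  · intro t
    rw [hfun]
    exact (((hN t).mul (hE t)).add ((hG t).const_mul (Real.exp 2))).sub_const 1
  · have a1 := hlin.mul (hE 0)
    have a2 := (hN 0).mul ((hE 0).mul ((fderiv2_line hψ2 (p 0) (w 0)).const_mul 2))
    have a3 := ((hG1 0).mul hlinq).const_mul (Real.exp 2)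
    have a4 := (a1.add a2).add a3
    refine a4.congr_deriv ?_
    simp only [Pi.mul_apply, zero_smul, add_zero, mul_zero, zero_pow, ne_eq, OfNat.ofNat_ne_zero,
      not_false_eq_true]
    ring

theorem rdef_levi (ψ : ℂ → ℝ) (hψ : ContDiff ℝ ∞ ψ)
    (hL : ∀ z a : ℂ, ‖z‖ ≤ 2 → 0 ≤ fderiv ℝ (fderiv ℝ ψ) z a a
        + fderiv ℝ (fderiv ℝ ψ) z (Complex.I * a) (Complex.I * a)) :
    ∀ p w : Fin 2 → ℂ, rdef ψ p = 0 →
        0 ≤ fderiv ℝ (fderiv ℝ (rdef ψ)) p w w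
            + fderiv ℝ (fderiv ℝ (rdef ψ)) p (Complex.I • w) (Complex.I • w) := by
  intro p w hp
  have hx : ‖p 0‖ ^ 2 - 1 ≤ 1 / 2 := by
    by_contra hcon
    push Not at hcon
    set x := ‖p 0‖ ^ 2 - 1 with hxdef
    have hx0 : 0 < x := by linarith
    have hg : expNegInvGlue x = Real.exp (-x⁻¹) := by
      unfold expNegInvGlue
      rw [if_neg (not_le.mpr hx0)]
    have h1 : 0 ≤ ‖p 1‖ ^ 2 * Real.exp (2 * ψ (p 0)) :=
      mul_nonneg (sq_nonneg _) (Real.exp_pos _).le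
    have h2 : Real.exp 2 * expNegInvGlue x ≤ 1 := by
      unfold rdef at hp
      rw [← hxdef] at hp
      linarith
    rw [hg, ← Real.exp_add] at h2
    have h3 : 0 < 2 + -x⁻¹ := by
      have : x⁻¹ < 2 := by
        rw [inv_lt_comm₀ hx0 (by norm_num)]
        linarith
      linarith
    have := Real.one_lt_exp_iff.mpr h3
    linarith
  have hz : ‖p 0‖ ≤ 2 := by
    nlinarith [norm_nonneg (p 0)]
  have hLz := hL (p 0) (w 0) hz
  rw [levi_one ψ hψ p w, levi_one ψ hψ p (Complex.I • w)]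
  have e0 : (Complex.I • w) 0 = Complex.I * w 0 := rfl
  have e1 : (Complex.I • w) 1 = Complex.I * w 1 := rfl
  rw [e0, e1]
  have n0 : ‖Complex.I * w 0‖ = ‖w 0‖ := by rw [norm_mul, Complex.norm_I, one_mul]
  have n1 : ‖Complex.I * w 1‖ = ‖w 1‖ := by rw [norm_mul, Complex.norm_I, one_mul]
  rw [n0, n1]
  have r0 : (Complex.I * w 0).re = -(w 0).im := by simp
  have i0 : (Complex.I * w 0).im = (w 0).re := by simp
  have r1 : (Complex.I * w 1).re = -(w 1).im := by simp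
  have i1 : (Complex.I * w 1).im = (w 1).re := by simp
  rw [r0, i0, r1, i1]
  have hn1 : ‖w 1‖ ^ 2 = (w 1).re ^ 2 + (w 1).im ^ 2 := by
    rw [Complex.sq_norm, Complex.normSq_apply]; ring
  have hp1 : ‖p 1‖ ^ 2 = (p 1).re ^ 2 + (p 1).im ^ 2 := by
    rw [Complex.sq_norm, Complex.normSq_apply]; ring
  set E := Real.exp (2 * ψ (p 0)) with hE
  have hEpos : 0 < E := Real.exp_pos _
  set c1 := fderiv ℝ ψ (p 0) (w 0)
  set c2 := fderiv ℝ ψ (p 0) (Complex.I * w 0)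
  set d1 := fderiv ℝ (fderiv ℝ ψ) (p 0) (w 0) (w 0)
  set d2 := fderiv ℝ (fderiv ℝ ψ) (p 0) (Complex.I * w 0) (Complex.I * w 0)
  set g1 := lg1 (‖p 0‖ ^ 2 - 1)
  set g2 := lg2 (‖p 0‖ ^ 2 - 1)
  have hg1 : 0 ≤ g1 := lg1_nonneg _
  have hg2 : 0 ≤ g2 := lg2_nonneg hx
  have hkey : 0 ≤ 2 * ‖p 1‖ ^ 2 * (d1 + d2) := mul_nonneg (by positivity) hLz
  have hA : E * (2 * ‖w 1‖ ^ 2 +
        4 * (2 * ((p 1).re * (w 1).re + (p 1).im * (w 1).im)) * c1 +
        ‖p 1‖ ^ 2 * (2 * d1 + 4 * c1 ^ 2)) +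
      E * (2 * ‖w 1‖ ^ 2 +
        4 * (2 * ((p 1).re * -(w 1).im + (p 1).im * (w 1).re)) * c2 +
        ‖p 1‖ ^ 2 * (2 * d2 + 4 * c2 ^ 2)) =
      E * (4 * (((w 1).re + (p 1).re * c1 + (p 1).im * c2) ^ 2 +
        ((w 1).im + (p 1).im * c1 - (p 1).re * c2) ^ 2) + 2 * ‖p 1‖ ^ 2 * (d1 + d2)) := by
    rw [hn1, hp1]; ring
  have hB : 0 ≤ E * (4 * (((w 1).re + (p 1).re * c1 + (p 1).im * c2) ^ 2 +
        ((w 1).im + (p 1).im * c1 - (p 1).re * c2) ^ 2) + 2 * ‖p 1‖ ^ 2 * (d1 + d2)) := by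
    refine mul_nonneg hEpos.le ?_
    positivity
  have hC1 : 0 ≤ Real.exp 2 * (g2 * (2 * ((p 0).re * (w 0).re + (p 0).im * (w 0).im)) ^ 2 +
      g1 * (2 * ‖w 0‖ ^ 2)) := by positivity
  have hC2 : 0 ≤ Real.exp 2 * (g2 * (2 * ((p 0).re * -(w 0).im + (p 0).im * (w 0).re)) ^ 2 +
      g1 * (2 * ‖w 0‖ ^ 2)) := by positivity
  linarith

end Pool.Agent.Helper459.CC
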