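import Mathlib

set_option autoImplicit false
open scoped ContDiff

namespace Pool.Agent.Helper459.CC

/-- the integrand -/
noncomputable def kk (x : ℝ) : ℝ := Real.smoothTransition (2 * x - 1) / (2 * x)

theorem kk_zero {x : ℝ} (hx : x ≤ 1 / 2) : kk x = 0 := by
  unfold kk
  rw [Real.smoothTransition.zero_of_nonpos (by linarith), zero_div]

theorem kk_one {x : ℝ} (hx : 1 ≤ x) : kk x = 1 / (2 * x) := by
  unfold kk
  rw [Real.smoothTransition.one_of_one_le (by linarith)]

theorem kk_nonneg (x : ℝ) : 0 ≤ kk x := by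
  by_cases hx : x ≤ 1 / 2
  · rw [kk_zero hx]
  · push Not at hx
    unfold kk
    exact div_nonneg (Real.smoothTransition.nonneg _) (by linarith)

theorem kk_le_one (x : ℝ) : kk x ≤ 1 := by
  by_cases hx : x ≤ 1 / 2
  · rw [kk_zero hx]
    exact zero_le_one
  · push Not at hx
    unfold kk
    rw [div_le_one (by linarith)]
    have := Real.smoothTransition.le_one (2 * x - 1)
    linarith

theorem kk_mul (x : ℝ) : x * kk x = Real.smoothTransition (2 * x - 1) / 2 := by
  by_cases hx : x ≤ 1 / 2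
  · rw [kk_zero hx, Real.smoothTransition.zero_of_nonpos (by linarith), mul_zero, zero_div]
  · push Not at hx
    unfold kk
    have : x ≠ 0 := by linarith
    field_simp

theorem kk_contDiff : ContDiff ℝ ∞ kk := by
  rw [contDiff_iff_contDiffAt]
  intro x
  by_cases hx : x < 1 / 2
  · have h1 : kk =ᶠ[nhds x] fun _ => (0 : ℝ) := by
      filter_upwards [Iio_mem_nhds hx] with y hy
      exact kk_zero (le_of_lt hy)
    exact contDiffAt_const.congr_of_eventuallyEq h1
  · push Not at hx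
    unfold kk
    apply ContDiffAt.div
    · have h1 : ContDiff ℝ ∞ fun x : ℝ => Real.smoothTransition (2 * x - 1) :=
        Real.smoothTransition.contDiff.comp ((contDiff_const.mul contDiff_id).sub contDiff_const)
      exact h1.contDiffAt
    · exact (contDiff_const.mul contDiff_id).contDiffAt
    · linarith

/-- the profile -/
noncomputable def PhiM (t : ℝ) : ℝ := ∫ x in (1 : ℝ)..t, kk x

theorem kk_ii (a b : ℝ) : IntervalIntegrable kk MeasureTheory.volume a b :=
  kk_contDiff.continuous.intervalIntegrable a b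

theorem PhiM_hasDerivAt (t : ℝ) : HasDerivAt PhiM (kk t) t :=
  (kk_contDiff.continuous.integral_hasStrictDerivAt 1 t).hasDerivAt

theorem PhiM_contDiff : ContDiff ℝ ∞ PhiM := by
  rw [contDiff_infty_iff_deriv]
  refine ⟨fun t => (PhiM_hasDerivAt t).differentiableAt, ?_⟩
  have : deriv PhiM = kk := funext fun t => (PhiM_hasDerivAt t).deriv
  rw [this]
  exact kk_contDiff

theorem PhiM_log {t : ℝ} (ht : 1 ≤ t) : PhiM t = 1 / 2 * Real.log t := by
  unfold PhiM
  have h1 : ∫ x in (1 : ℝ)..t, kk x = ∫ x in (1 : ℝ)..t, (1 / 2) * (1 / x) := by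
    apply intervalIntegral.integral_congr
    intro x hx
    rw [Set.uIcc_of_le ht] at hx
    have hx0 : x ≠ 0 := by linarith [hx.1]
    show kk x = (1 / 2) * (1 / x)
    rw [kk_one hx.1]
    field_simp
  rw [h1, intervalIntegral.integral_const_mul, integral_one_div_of_pos one_pos (by linarith),
    div_one]

theorem PhiM_nonpos {t : ℝ} (ht : t ≤ 1) : PhiM t ≤ 0 := by
  unfold PhiM
  rw [intervalIntegral.integral_symm]
  have := intervalIntegral.integral_nonneg (μ := MeasureTheory.volume) ht (fun u _ => kk_nonneg u)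
  linarith

theorem PhiM_ge {t : ℝ} (ht0 : 0 ≤ t) (ht : t ≤ 1) : -1 ≤ PhiM t := by
  unfold PhiM
  rw [intervalIntegral.integral_symm]
  have h1 : ∫ x in t..1, kk x ≤ ∫ x in t..1, (1 : ℝ) :=
    intervalIntegral.integral_mono_on ht (kk_ii _ _) intervalIntegrable_const
      (fun x _ => kk_le_one x)
  rw [intervalIntegral.integral_const, smul_eq_mul, mul_one] at h1
  linarith

theorem PhiM_const {t : ℝ} (ht0 : 0 ≤ t) (ht : t ≤ 1 / 2) : PhiM t = PhiM 0 := by
  unfold PhiM
  rw [← intervalIntegral.integral_add_adjacent_intervals (kk_ii 1 0) (kk_ii 0 t)]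
  have h1 : ∫ x in (0 : ℝ)..t, kk x = ∫ x in (0 : ℝ)..t, (0 : ℝ) := by
    apply intervalIntegral.integral_congr
    intro x hx
    rw [Set.uIcc_of_le ht0] at hx
    exact kk_zero (hx.2.trans ht)
  rw [h1, intervalIntegral.integral_zero, add_zero]

theorem kk_deriv_nonneg (q : ℝ) : 0 ≤ kk q + q * deriv kk q := by
  have h1 : HasDerivAt kk (deriv kk q) q :=
    ((kk_contDiff.differentiable (by simp)) q).hasDerivAt
  have h2 : HasDerivAt (fun x => x * kk x) (1 * kk q + q * deriv kk q) q :=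
    (hasDerivAt_id q).mul h1
  have h3 : Monotone (fun x : ℝ => x * kk x) := by
    intro x y hxy
    show x * kk x ≤ y * kk y
    rw [kk_mul, kk_mul]
    have := Real.smoothTransition.monotone (show 2 * x - 1 ≤ 2 * y - 1 by linarith)
    linarith
  have h4 := h3.deriv_nonneg (x := q)
  rw [h2.deriv, one_mul] at h4
  exact h4

/-- the function -/
noncomputable def MM (z : ℂ) : ℝ := PhiM (z.re ^ 2 + z.im ^ 2)

theorem MM_eq (z : ℂ) : MM z = PhiM (‖z‖ ^ 2) := by
  unfold MM
  rw [Complex.sq_norm, Complex.normSq_apply]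
  congr 1
  ring

theorem MM_contDiff : ContDiff ℝ ∞ MM := by
  have h1 : ContDiff ℝ ∞ fun z : ℂ => z.re := Complex.reCLM.contDiff
  have h2 : ContDiff ℝ ∞ fun z : ℂ => z.im := Complex.imCLM.contDiff
  exact PhiM_contDiff.comp ((h1.pow 2).add (h2.pow 2))

theorem MM_log {z : ℂ} (hz : 1 ≤ ‖z‖) : MM z = Real.log ‖z‖ := by
  rw [MM_eq, PhiM_log (one_le_pow₀ hz), Real.log_pow]
  push_cast
  ring

theorem MM_fderiv (w a : ℂ) : fderiv ℝ MM w a =
    kk (w.re ^ 2 + w.im ^ 2) * (2 * w.re * a.re + 2 * w.im * a.im) := by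
  have h1 : HasFDerivAt (fun z : ℂ => z.re) Complex.reCLM w := Complex.reCLM.hasFDerivAt
  have h2 : HasFDerivAt (fun z : ℂ => z.im) Complex.imCLM w := Complex.imCLM.hasFDerivAt
  have h3 := (h1.pow 2).add (h2.pow 2)
  have h4 := (PhiM_hasDerivAt (w.re ^ 2 + w.im ^ 2)).comp_hasFDerivAt w h3
  have h5 : fderiv ℝ MM w = _ := h4.fderiv
  rw [h5]
  simp
  ring

theorem second_line {M : ℂ → ℝ} (hM : ContDiff ℝ ∞ M) (z a : ℂ) (g : ℝ → ℝ) (g' : ℝ)
    (hg : ∀ t : ℝ, fderiv ℝ M (z + t • a) a = g t) (hg' : HasDerivAt g g' 0) :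
    fderiv ℝ (fderiv ℝ M) z a a = g' := by
  have hd : ContDiff ℝ ∞ (fderiv ℝ M) := hM.fderiv_right (by simp)
  have h1 : HasFDerivAt (fderiv ℝ M) (fderiv ℝ (fderiv ℝ M) z) z :=
    ((hd.differentiable (by simp)) z).hasFDerivAt
  have h2 : HasDerivAt (fun t : ℝ => z + t • a) a 0 := by
    have := ((hasDerivAt_id (0 : ℝ)).smul_const a).const_add z
    simpa using this
  have h1' : HasFDerivAt (fderiv ℝ M) (fderiv ℝ (fderiv ℝ M) z) (z + (0 : ℝ) • a) := by
    simpa using h1
  have h3 : HasDerivAt (fun t : ℝ => fderiv ℝ M (z + t • a)) (fderiv ℝ (fderiv ℝ M) z a) 0 :=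
    h1'.comp_hasDerivAt 0 h2
  have h4 : HasDerivAt (fun t : ℝ => fderiv ℝ M (z + t • a) a) (fderiv ℝ (fderiv ℝ M) z a a) 0 := by
    have := h3.clm_apply (hasDerivAt_const (0 : ℝ) a)
    simpa using this
  have h5 : (fun t : ℝ => fderiv ℝ M (z + t • a) a) = g := funext hg
  rw [h5] at h4
  exact h4.unique hg'

theorem MM_second (z a : ℂ) : fderiv ℝ (fderiv ℝ MM) z a a =
    deriv kk (z.re ^ 2 + z.im ^ 2) * (2 * z.re * a.re + 2 * z.im * a.im) ^ 2 +
      kk (z.re ^ 2 + z.im ^ 2) * (2 * a.re ^ 2 + 2 * a.im ^ 2) := by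
  apply second_line MM_contDiff z a (fun t : ℝ =>
    kk ((z.re + t * a.re) ^ 2 + (z.im + t * a.im) ^ 2) *
      (2 * (z.re + t * a.re) * a.re + 2 * (z.im + t * a.im) * a.im))
  · intro t
    rw [MM_fderiv]
    simp
  · have h1 : HasDerivAt (fun t : ℝ => z.re + t * a.re) a.re 0 := by
      have := ((hasDerivAt_id (0 : ℝ)).mul_const a.re).const_add z.re
      simpa using this
    have h2 : HasDerivAt (fun t : ℝ => z.im + t * a.im) a.im 0 := by
      have := ((hasDerivAt_id (0 : ℝ)).mul_const a.im).const_add z.im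
      simpa using this
    have h3 := (h1.pow 2).add (h2.pow 2)
    have hk : HasDerivAt kk (deriv kk (z.re ^ 2 + z.im ^ 2))
        ((z.re + 0 * a.re) ^ 2 + (z.im + 0 * a.im) ^ 2) := by
      have : HasDerivAt kk (deriv kk (z.re ^ 2 + z.im ^ 2)) (z.re ^ 2 + z.im ^ 2) :=
        ((kk_contDiff.differentiable (by simp)) _).hasDerivAt
      simpa using this
    have h4 := HasDerivAt.comp (0 : ℝ) hk h3
    have h5 := ((h1.const_mul 2).mul_const a.re).add ((h2.const_mul 2).mul_const a.im)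
    have h6 := h4.mul h5
    refine h6.congr_deriv ?_
    simp
    ring

/-- Smooth subharmonic truncation of `log |z|`. -/
theorem exists_M : ∃ M : ℂ → ℝ, ContDiff ℝ ∞ M ∧
    (∀ z : ℂ, 1 ≤ ‖z‖ → M z = Real.log ‖z‖) ∧
    (∀ z : ℂ, ‖z‖ ≤ 1 → M z ≤ 0) ∧
    (∀ z : ℂ, -1 ≤ M z) ∧
    (∀ z : ℂ, ‖z‖ ≤ 1/2 → M z = M 0) ∧
    (∀ z a : ℂ, 0 ≤ fderiv ℝ (fderiv ℝ M) z a a
        + fderiv ℝ (fderiv ℝ M) z (Complex.I * a) (Complex.I * a)) ∧
    (∀ k : ℕ, 1 ≤ k → ∃ C : ℝ, ∀ z : ℂ, ‖iteratedFDeriv ℝ k M z‖ ≤ C) := by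
  refine ⟨MM, MM_contDiff, fun z hz => MM_log hz, ?_, ?_, ?_, ?_, ?_⟩
  · intro z hz
    rw [MM_eq]
    exact PhiM_nonpos (pow_le_one₀ (norm_nonneg _) hz)
  · intro z
    by_cases hz : 1 ≤ ‖z‖
    · rw [MM_log hz]
      have := Real.log_nonneg hz
      linarith
    · push Not at hz
      rw [MM_eq]
      exact PhiM_ge (by positivity) (pow_le_one₀ (norm_nonneg _) hz.le)
  · intro z hz
    rw [MM_eq, MM_eq, norm_zero]
    have h1 : ‖z‖ ^ 2 ≤ 1 / 2 := by
      have := norm_nonneg z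
      nlinarith
    rw [PhiM_const (by positivity) h1]
    norm_num
  · intro z a
    rw [MM_second, MM_second]
    have h := kk_deriv_nonneg (z.re ^ 2 + z.im ^ 2)
    have e1 : (Complex.I * a).re = -a.im := by simp
    have e2 : (Complex.I * a).im = a.re := by simp
    rw [e1, e2]
    have h2 : 0 ≤ 4 * (a.re ^ 2 + a.im ^ 2) *
        (kk (z.re ^ 2 + z.im ^ 2) + (z.re ^ 2 + z.im ^ 2) * deriv kk (z.re ^ 2 + z.im ^ 2)) := by
      positivity
    refine h2.trans (le_of_eq ?_)
    ring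
  · intro k hk
    have hcont : Continuous fun x => iteratedFDeriv ℝ k MM x :=
      MM_contDiff.continuous_iteratedFDeriv (by exact_mod_cast le_top)
    obtain ⟨C, hC⟩ := (isCompact_closedBall (0 : ℂ) 2).exists_bound_of_continuousOn
      hcont.continuousOn
    refine ⟨C, fun z => ?_⟩
    by_cases hz : ‖z‖ ≤ 2
    · exact hC z (by simpa using hz)
    · push Not at hz
      set t : ℝ := ‖z‖ / 2 with ht
      have ht1 : 1 < t := by
        rw [ht]
        linarith
      have ht0 : 0 < t := by linarith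
      set g : ℂ →L[ℝ] ℂ := t⁻¹ • ContinuousLinearMap.id ℝ ℂ with hg
      have hgy : ∀ y, g y = t⁻¹ • y := fun y => rfl
      have hgn : ∀ y, ‖g y‖ = t⁻¹ * ‖y‖ := by
        intro y
        rw [hgy, norm_smul, Real.norm_of_nonneg (inv_nonneg.mpr ht0.le)]
      have hev : MM =ᶠ[nhds z] fun y => (MM ∘ g) y + Real.log t := by
        have h1 : ∀ᶠ y in nhds z, t < ‖y‖ := by
          apply continuous_norm.continuousAt.eventually_const_lt
          rw [ht]
          linarith
        filter_upwards [h1] with y hy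
        have h2 : 1 ≤ ‖g y‖ := by
          rw [hgn, inv_mul_eq_div, le_div_iff₀ ht0, one_mul]
          exact hy.le
        show MM y = MM (g y) + Real.log t
        rw [MM_log (by linarith), MM_log h2, hgn, Real.log_mul (inv_ne_zero ht0.ne')
          (by linarith), Real.log_inv]
        ring
      have h3 := (hev.iteratedFDeriv (𝕜 := ℝ) k).self_of_nhds
      have hgc : ContDiff ℝ ∞ (MM ∘ g) := MM_contDiff.comp g.contDiff
      have h4 : iteratedFDeriv ℝ k (fun y => (MM ∘ g) y + Real.log t) z =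
          iteratedFDeriv ℝ k (MM ∘ g) z := by
        have h5 := iteratedFDeriv_add_apply (𝕜 := ℝ) (i := k) (f := MM ∘ g)
          (g := fun _ : ℂ => Real.log t) (x := z)
          ((hgc.of_le (by exact_mod_cast le_top)).contDiffAt) contDiffAt_const
        rw [iteratedFDeriv_const_of_ne (by omega), Pi.zero_apply, add_zero] at h5
        exact h5
      rw [h3, h4, g.iteratedFDeriv_comp_right MM_contDiff z (by exact_mod_cast le_top)]
      refine (ContinuousMultilinearMap.norm_compContinuousLinearMap_le _ _).trans ?_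
      have hgz : ‖g z‖ = 2 := by
        rw [hgn, ht]
        have : ‖z‖ ≠ 0 := by linarith
        field_simp
      have h6 := hC (g z) (by simp [hgz])
      have h7 : ‖g‖ ≤ 1 := by
        apply ContinuousLinearMap.opNorm_le_bound _ zero_le_one
        intro y
        rw [hgn]
        apply mul_le_mul_of_nonneg_right _ (norm_nonneg y)
        exact inv_le_one_of_one_le₀ ht1.le
      have h8 : ∏ _i : Fin k, ‖g‖ ≤ 1 := by
        rw [Finset.prod_const]
        exact pow_le_one₀ (norm_nonneg _) h7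
      have h9 : 0 ≤ C := (norm_nonneg _).trans h6
      calc ‖iteratedFDeriv ℝ k MM (g z)‖ * ∏ _i : Fin k, ‖g‖ ≤ C * 1 :=
            mul_le_mul h6 h8 (Finset.prod_nonneg fun _ _ => norm_nonneg _) h9
        _ = C := mul_one C

theorem quad_le_pow (n : ℕ) (h : 20 ≤ n) : 400 * ((n + 1) * (n + 2)) ≤ 2 ^ n := by
  induction n, h using Nat.le_induction with
  | base => norm_num
  | succ m hm ih =>
    rw [pow_succ]
    nlinarith

theorem quad_le (n : ℕ) : 400 * ((n + 1) * (n + 2)) ≤ 2 ^ n + 1000000 := by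
  rcases Nat.lt_or_ge n 20 with h | h
  · have : (n + 1) * (n + 2) ≤ 20 * 21 := Nat.mul_le_mul (by omega) (by omega)
    have h2 : 0 ≤ 2 ^ n := Nat.zero_le _
    linarith
  · exact (quad_le_pow n h).trans (Nat.le_add_right _ _)

theorem tendsto_log : Filter.Tendsto (fun i : ℕ => Nat.log 2 (i + 2)) Filter.atTop Filter.atTop := by
  rw [Filter.tendsto_atTop]
  intro b
  filter_upwards [Filter.eventually_ge_atTop (2 ^ b)] with i hi
  exact (Nat.le_log_iff_pow_le (by norm_num) (by omega)).2 (by omega)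

theorem sum_ratio (R : ℕ → ℝ) (hR : ∀ i, 2 ≤ R i) (hR' : Filter.Tendsto R Filter.atTop Filter.atTop)
    (A : ℝ) (hA : 0 < A) :
    Summable (fun i => (∏ l ∈ Finset.range (i + 1), (R l)⁻¹) * A ^ i) := by
  have hpos : ∀ i, 0 < R i := fun i => by linarith [hR i]
  have hp : ∀ i, 0 < (∏ l ∈ Finset.range (i + 1), (R l)⁻¹) * A ^ i := fun i =>
    mul_pos (Finset.prod_pos fun l _ => inv_pos.2 (hpos l)) (pow_pos hA _)
  refine summable_of_ratio_test_tendsto_lt_one (l := 0) (by norm_num)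
    (Filter.Eventually.of_forall fun i => (hp i).ne') ?_
  have h1 : ∀ i, ‖(∏ l ∈ Finset.range (i + 1 + 1), (R l)⁻¹) * A ^ (i + 1)‖ /
      ‖(∏ l ∈ Finset.range (i + 1), (R l)⁻¹) * A ^ i‖ = (R (i + 1))⁻¹ * A := by
    intro i
    rw [Real.norm_of_nonneg (hp (i + 1)).le, Real.norm_of_nonneg (hp i).le,
      div_eq_iff (hp i).ne', Finset.prod_range_succ _ (i + 1), pow_succ]
    ring
  simp only [h1]
  have h2 : Filter.Tendsto (fun i => R (i + 1)) Filter.atTop Filter.atTop :=
    hR'.comp (Filter.tendsto_add_atTop_nat 1)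
  have h3 := (Filter.Tendsto.inv_tendsto_atTop h2).mul_const A
  rw [zero_mul] at h3
  exact h3

/-- The parameter sequences. -/
theorem exists_params : ∃ (N : ℕ → ℕ) (R : ℕ → ℝ), (∀ i, 1 ≤ N i) ∧ (∀ i, 2 ≤ R i) ∧
    Summable (fun i => Real.sqrt ((1 / 2 : ℝ) ^ (N i))) ∧
    (∀ k : ℕ, Summable (fun i =>
      (∏ l ∈ Finset.range (i + 1), (R l)⁻¹) *
        ((4 : ℝ) ^ (i + 1) * Real.exp (100 * N i * R i)) ^ k)) := by
  have hR2 : ∀ i : ℕ, (2 : ℝ) ≤ ((Nat.log 2 (i + 2) : ℕ) : ℝ) + 2 := fun i => by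
    have : (0 : ℝ) ≤ ((Nat.log 2 (i + 2) : ℕ) : ℝ) := Nat.cast_nonneg _
    linarith
  refine ⟨fun i => 4 * (Nat.log 2 (i + 2) + 1), fun i => (Nat.log 2 (i + 2) : ℕ) + 2,
    fun i => by
      show 1 ≤ 4 * (Nat.log 2 (i + 2) + 1)
      omega, hR2, ?_, fun k => ?_⟩
  · have h1 : Summable (fun i : ℕ => (1 / ((i : ℝ) + 2)) ^ 2) := by
      have h2 : Summable (fun i : ℕ => 1 / (i : ℝ) ^ 2) :=
        Real.summable_one_div_nat_pow.2 (by norm_num)
      have h3 := (summable_nat_add_iff 2).2 h2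
      refine h3.congr fun i => ?_
      push_cast
      rw [div_pow, one_pow]
    refine Summable.of_nonneg_of_le (fun i => Real.sqrt_nonneg _) (fun i => ?_) h1
    have h4 : (1 / 2 : ℝ) ^ (4 * (Nat.log 2 (i + 2) + 1)) =
        (((1 / 2 : ℝ) ^ (Nat.log 2 (i + 2) + 1)) ^ 2) ^ 2 := by
      rw [← pow_mul, ← pow_mul]; congr 1; ring
    rw [h4, Real.sqrt_sq (by positivity)]
    refine pow_le_pow_left₀ (by positivity) ?_ 2
    rw [one_div_pow]
    refine one_div_le_one_div_of_le (by positivity) ?_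
    have h5 : i + 2 < 2 ^ (Nat.log 2 (i + 2) + 1) := Nat.lt_pow_succ_log_self (by norm_num) _
    have h6 : ((i + 2 : ℕ) : ℝ) ≤ ((2 ^ (Nat.log 2 (i + 2) + 1) : ℕ) : ℝ) := by exact_mod_cast h5.le
    push_cast at h6
    exact h6
  · have hRt : Filter.Tendsto (fun i : ℕ => ((Nat.log 2 (i + 2) : ℕ) : ℝ) + 2) Filter.atTop
        Filter.atTop :=
      Filter.tendsto_atTop_add_const_right _ _ (tendsto_natCast_atTop_atTop.comp tendsto_log)
    have h1 := (sum_ratio (fun i : ℕ => ((Nat.log 2 (i + 2) : ℕ) : ℝ) + 2) hR2 hRt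
      (Real.exp 3 ^ k) (by positivity)).mul_right (Real.exp 1000004 ^ k)
    refine Summable.of_nonneg_of_le (fun i => ?_) (fun i => ?_) h1
    · refine mul_nonneg (Finset.prod_nonneg fun l _ => ?_) (by positivity)
      exact inv_nonneg.2 (by linarith [hR2 l])
    · have hprod : 0 ≤ ∏ l ∈ Finset.range (i + 1), (((Nat.log 2 (l + 2) : ℕ) : ℝ) + 2)⁻¹ :=
        Finset.prod_nonneg fun l _ => inv_nonneg.2 (by linarith [hR2 l])
      refine le_trans ?_ (le_of_eq (mul_assoc _ _ _).symm)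
      refine mul_le_mul_of_nonneg_left ?_ hprod
      rw [← pow_mul, mul_comm k i, pow_mul, ← mul_pow]
      refine pow_le_pow_left₀ (by positivity) ?_ k
      have h4 : (4 : ℝ) ^ (i + 1) ≤ Real.exp (2 * ((i : ℝ) + 1)) := by
        have h5 : (4 : ℝ) ≤ Real.exp 2 := by
          have h6 : (2 : ℝ) ≤ Real.exp 1 := by
            have := Real.add_one_le_exp (1 : ℝ)
            linarith
          have h7 : Real.exp 2 = Real.exp 1 * Real.exp 1 := by
            rw [← Real.exp_add]; norm_num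
          rw [h7]; nlinarith
        calc (4 : ℝ) ^ (i + 1) ≤ Real.exp 2 ^ (i + 1) := pow_le_pow_left₀ (by norm_num) h5 _
          _ = Real.exp (2 * ((i : ℝ) + 1)) := by
            rw [← Real.exp_nat_mul]; congr 1; push_cast; ring
      have h8 : (100 : ℝ) * ((4 * (Nat.log 2 (i + 2) + 1) : ℕ) : ℝ) *
          (((Nat.log 2 (i + 2) : ℕ) : ℝ) + 2) ≤ (i : ℝ) + 1000002 := by
        have h9 := quad_le (Nat.log 2 (i + 2))
        have h10 : 2 ^ Nat.log 2 (i + 2) ≤ i + 2 := Nat.pow_log_le_self 2 (by omega)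
        have h11 : 400 * ((Nat.log 2 (i + 2) + 1) * (Nat.log 2 (i + 2) + 2)) ≤ i + 1000002 := by
          omega
        have h12 : ((400 * ((Nat.log 2 (i + 2) + 1) * (Nat.log 2 (i + 2) + 2)) : ℕ) : ℝ) ≤
          ((i + 1000002 : ℕ) : ℝ) := by exact_mod_cast h11
        push_cast at h12 ⊢
        linarith
      calc (4 : ℝ) ^ (i + 1) * Real.exp (100 * ((4 * (Nat.log 2 (i + 2) + 1) : ℕ) : ℝ) *
            (((Nat.log 2 (i + 2) : ℕ) : ℝ) + 2))
          ≤ Real.exp (2 * ((i : ℝ) + 1)) * Real.exp ((i : ℝ) + 1000002) :=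
            mul_le_mul h4 (Real.exp_le_exp.2 h8) (Real.exp_nonneg _) (Real.exp_nonneg _)
        _ = Real.exp 3 ^ i * Real.exp 1000004 := by
            rw [← Real.exp_nat_mul, ← Real.exp_add, ← Real.exp_add]
            congr 1
            ring

end Pool.Agent.Helper459.CC
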