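import Mathlib
import Pool.Agent.Helper459.CaraD
import Pool.Agent.Helper459.CaraE
import Pool.Agent.Helper459.CaraF

set_option autoImplicit false
open scoped ContDiff

namespace Pool.Agent.Helper459.CC

variable {ψ : ℂ → ℝ} {e ρ : ℕ → ℝ} {N : ℕ → ℕ} {H : ℕ → ℂ → ℂ}

theorem glue_zero {z : ℂ} (hz : ‖z‖ ≤ 1) : expNegInvGlue (‖z‖ ^ 2 - 1) = 0 := by
  apply expNegInvGlue.zero_of_nonpos
  nlinarith [norm_nonneg z]

theorem mem_dom {z h w : ℂ} {c : ℝ} (hz : ‖z‖ ≤ 1) (hψ : ψ z ≤ h.re + c)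
    (hw : ‖w‖ < Real.exp (-c)) : rdef ψ ![z, w * Complex.exp (-h)] < 0 := by
  have h1 : ‖w * Complex.exp (-h)‖ ^ 2 * Real.exp (2 * ψ z) < 1 := by
    rw [norm_mul, Complex.norm_exp, mul_pow]
    have h2 : Real.exp ((-h).re) ^ 2 * Real.exp (2 * ψ z) = Real.exp (2 * (ψ z - h.re)) := by
      rw [← Real.exp_nat_mul, ← Real.exp_add]
      congr 1
      simp
      ring
    rw [mul_assoc, h2]
    have h3 : Real.exp (2 * (ψ z - h.re)) ≤ Real.exp (2 * c) := by
      apply Real.exp_le_exp.2; linarith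
    have h4 : ‖w‖ ^ 2 < Real.exp (-c) ^ 2 := by
      apply pow_lt_pow_left₀ hw (norm_nonneg _); norm_num
    calc ‖w‖ ^ 2 * Real.exp (2 * (ψ z - h.re)) ≤ ‖w‖ ^ 2 * Real.exp (2 * c) := by gcongr
      _ < Real.exp (-c) ^ 2 * Real.exp (2 * c) := by gcongr
      _ = 1 := by
        rw [← Real.exp_nat_mul, ← Real.exp_add]
        simp
  unfold rdef
  simp only [Matrix.cons_val_zero, Matrix.cons_val_one]
  rw [glue_zero hz]
  linarith

theorem approx_of_weight (W : Weight ψ e ρ N H) (f : (Fin 2 → ℂ) → ℂ)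
    (hf : DifferentiableOn ℂ f {p | rdef ψ p < 0}) (hb : ∀ p, rdef ψ p < 0 → ‖f p‖ < 1) :
    Approx e (fun j => 2 * (1 / 2 : ℝ) ^ (N j)) (fun w => f ![0, w]) := by
  intro j
  have hball : ∀ l < N j, well ρ N j l ∈ Metric.ball (0 : ℂ) (2 * ρ j) := by
    intro l _
    rw [Metric.mem_ball, dist_zero_right, well_norm W.rhopos]
    linarith [W.rhopos j]
  have hwell1 : ∀ l, ‖well ρ N j l‖ ≤ 1 := by
    intro l
    rw [well_norm W.rhopos]; linarith [W.rhole j]
  have hmem1 : ∀ l < N j, ∀ w ∈ Metric.ball (0 : ℂ) (Real.exp (e j / 2)),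
      rdef ψ ![well ρ N j l, w * Complex.exp (-(H j (well ρ N j l)))] < 0 := by
    intro l hl w hw
    apply mem_dom (hwell1 l) (c := -(e j / 2)) (by linarith [W.wells j l hl])
    simpa using hw
  refine ⟨fun w => (N j : ℂ)⁻¹ * (∑ l ∈ Finset.range (N j),
    f ![well ρ N j l, w * Complex.exp (-(H j (well ρ N j l)))]), ?_, ?_, ?_⟩
  · apply DifferentiableOn.const_mul
    apply DifferentiableOn.fun_sum
    intro l hl
    apply hf.comp (t := {p | rdef ψ p < 0})
    · apply Differentiable.differentiableOn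
      rw [differentiable_pi]
      intro i
      fin_cases i
      · simp
      · exact differentiable_id.mul_const (Complex.exp (-(H j (well ρ N j l))))
    · intro w hw
      exact hmem1 l (Finset.mem_range.1 hl) w hw
  · intro w hw
    have hN : (0 : ℝ) < N j := by exact_mod_cast W.Npos j
    rw [norm_mul, norm_inv, Complex.norm_natCast]
    have h1 : ‖∑ l ∈ Finset.range (N j), f ![well ρ N j l, w * Complex.exp (-(H j (well ρ N j l)))]‖
        ≤ ∑ l ∈ Finset.range (N j), (1 : ℝ) := by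
      apply norm_sum_le_of_le
      intro l hl
      exact (hb _ (hmem1 l (Finset.mem_range.1 hl) w hw)).le
    simp only [Finset.sum_const, Finset.card_range, nsmul_eq_mul, mul_one] at h1
    calc (N j : ℝ)⁻¹ * _ ≤ (N j : ℝ)⁻¹ * N j := by gcongr
      _ = 1 := by field_simp
  · intro w hw
    have hmem2 : ∀ z ∈ Metric.ball (0 : ℂ) (2 * ρ j), rdef ψ ![z, w * Complex.exp (-(H j z))] < 0 := by
      intro z hz
      have hz1 : ‖z‖ ≤ 1 := by
        rw [Metric.mem_ball, dist_zero_right] at hz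
        linarith [W.rhole j]
      apply mem_dom hz1 (W.upper j z hz)
      refine hw.trans_lt ?_
      apply Real.exp_lt_exp.2; linarith [W.epos (j + 1)]
    have h1 := mean_lemma (fun z => f ![z, w * Complex.exp (-(H j z))]) (ρ j) (W.rhopos j) (N j) (W.Npos j)
      (by
        apply hf.comp (t := {p | rdef ψ p < 0})
        · rw [differentiableOn_pi]
          intro i
          fin_cases i
          · simp only [Fin.zero_eta, Matrix.cons_val_zero]
            exact differentiableOn_id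
          · simp only [Fin.mk_one, Matrix.cons_val_one]
            apply DifferentiableOn.const_mul
            exact (W.Hdiff j).neg.cexp
        · intro z hz
          exact hmem2 z hz)
      (fun z hz => (hb _ (hmem2 z hz)).le)
    simp only [W.Hzero, neg_zero, Complex.exp_zero, mul_one] at h1
    exact h1

theorem mobius_ne {a b : ℂ} (ha : ‖a‖ < 1) (hb : ‖b‖ < 1) : 1 - (starRingEnd ℂ) a * b ≠ 0 := by
  intro h
  have h1 : (starRingEnd ℂ) a * b = 1 := by
    linear_combination -h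
  have h2 : ‖(starRingEnd ℂ) a * b‖ = 1 := by rw [h1]; simp
  rw [norm_mul, RCLike.norm_conj] at h2
  nlinarith [norm_nonneg a, norm_nonneg b]

theorem mobius_lt {a b : ℂ} (ha : ‖a‖ < 1) (hb : ‖b‖ < 1) :
    ‖(b - a) / (1 - (starRingEnd ℂ) a * b)‖ < 1 := by
  have hne := mobius_ne ha hb
  rw [norm_div, div_lt_one (norm_pos_iff.2 hne)]
  have h1 : ‖b - a‖ ^ 2 < ‖1 - (starRingEnd ℂ) a * b‖ ^ 2 := by
    have ha2 : ‖a‖ ^ 2 < 1 := by nlinarith [norm_nonneg a]
    have hb2 : ‖b‖ ^ 2 < 1 := by nlinarith [norm_nonneg b]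
    rw [← Complex.normSq_eq_norm_sq, Complex.normSq_apply] at ha2 hb2 ⊢
    rw [← Complex.normSq_eq_norm_sq, Complex.normSq_apply]
    simp only [Complex.sub_re, Complex.sub_im, Complex.mul_re, Complex.mul_im, Complex.conj_re,
      Complex.conj_im, Complex.one_re, Complex.one_im]
    nlinarith [mul_pos (sub_pos.2 ha2) (sub_pos.2 hb2)]
  exact lt_of_pow_lt_pow_left₀ 2 (norm_nonneg _) h1

theorem sum_two (p : Fin 2 → ℂ) (a b : ℂ) (h0 : p 0 = a) (h1 : p 1 = b) : p = ![a, b] := by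
  ext i; fin_cases i
  · simpa using h0
  · simpa using h1

theorem e_tendsto (W : Weight ψ e ρ N H) : Filter.Tendsto e Filter.atTop (nhds 0) := by
  have h1 : ∀ j, e j ≤ e 0 * (1 / 2) ^ j := by
    intro j
    induction j with
    | zero => simp
    | succ n ih =>
      calc e (n + 1) ≤ e n / 2 := W.edec n
        _ ≤ (e 0 * (1 / 2) ^ n) / 2 := by linarith
        _ = e 0 * (1 / 2) ^ (n + 1) := by ring
  have h2 : Filter.Tendsto (fun j : ℕ => e 0 * (1 / 2 : ℝ) ^ j) Filter.atTop (nhds (e 0 * 0)) :=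
    (tendsto_pow_atTop_nhds_zero_of_lt_one (by norm_num) (by norm_num)).const_mul _
  rw [mul_zero] at h2
  exact squeeze_zero (fun j => (W.epos j).le) h1 h2

theorem uniform (W : Weight ψ e ρ N H) :
    ∀ δ : ℝ, 0 < δ → ∃ τ : ℝ, 0 < τ ∧ ∀ f : (Fin 2 → ℂ) → ℂ,
      DifferentiableOn ℂ f {p | rdef ψ p < 0} → (∀ p, rdef ψ p < 0 → ‖f p‖ < 1) →
      ∀ w w' : ℂ, ‖w‖ < 1 → ‖w'‖ < 1 → ‖w - w'‖ ≤ τ → ‖f ![0, w] - f ![0, w']‖ ≤ δ := by
  intro δ hδ
  have hsum : Summable (fun j => Real.sqrt (2 * (1 / 2 : ℝ) ^ (N j))) := by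
    have : (fun j => Real.sqrt (2 * (1 / 2 : ℝ) ^ (N j))) =
        fun j => Real.sqrt 2 * Real.sqrt ((1 / 2 : ℝ) ^ (N j)) := by
      ext j; rw [Real.sqrt_mul (by norm_num)]
    rw [this]
    exact W.Nsum.mul_left _
  obtain ⟨τ, hτ, h⟩ := core e (fun j => 2 * (1 / 2 : ℝ) ^ (N j)) W.epos
    (fun j => (W.edec j).trans (by linarith [W.epos j])) (e_tendsto W)
    (fun j => by positivity)
    (fun j => by
      have : (1 / 2 : ℝ) ^ (N j) ≤ (1 / 2) ^ 1 :=
        pow_le_pow_of_le_one (by norm_num) (by norm_num) (W.Npos j)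
      linarith) hsum δ hδ
  exact ⟨τ, hτ, fun f hf hb w w' hw hw' hww => h _ (approx_of_weight W f hf hb) w w' hw hw' hww⟩

/-- the Cauchy sequence -/
noncomputable def xs (j : ℕ) : Fin 2 → ℂ := ![0, ((1 - 1 / ((j : ℝ) + 2) : ℝ) : ℂ)]

theorem xs_norm (j : ℕ) : ‖((1 - 1 / ((j : ℝ) + 2) : ℝ) : ℂ)‖ < 1 := by
  rw [Complex.norm_real, Real.norm_eq_abs, abs_lt]
  have h1 : 0 < 1 / ((j : ℝ) + 2) := by positivity
  have h2 : 1 / ((j : ℝ) + 2) ≤ 1 := by
    rw [div_le_one (by positivity)]; linarith [(Nat.cast_nonneg j : (0 : ℝ) ≤ j)]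
  constructor <;> linarith

theorem xs_mem (W : Weight ψ e ρ N H) (j : ℕ) : rdef ψ (xs j) < 0 := by
  unfold rdef xs
  simp only [Matrix.cons_val_zero, Matrix.cons_val_one, norm_zero, W.zero]
  have h1 := xs_norm j
  have h2 : expNegInvGlue ((0 : ℝ) ^ 2 - 1) = 0 := expNegInvGlue.zero_of_nonpos (by norm_num)
  rw [h2]
  have h3 : ‖((1 - 1 / ((j : ℝ) + 2) : ℝ) : ℂ)‖ ^ 2 < 1 := by
    nlinarith [norm_nonneg ((1 - 1 / ((j : ℝ) + 2) : ℝ) : ℂ)]
  simp only [mul_zero, Real.exp_zero, mul_one, add_zero]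
  linarith

theorem not_complete (W : Weight ψ e ρ N H) :
    ¬ (∀ (n : ℕ) (ρ : (Fin n → ℂ) → ℝ),
    ContDiff ℝ ∞ ρ →
    Bornology.IsBounded {z : Fin n → ℂ | ρ z < 0} →
    IsConnected {z : Fin n → ℂ | ρ z < 0} →
    (∀ p : Fin n → ℂ, ρ p = 0 → fderiv ℝ ρ p ≠ 0) →
    (∀ p w : Fin n → ℂ, ρ p = 0 → fderiv ℝ ρ p w = 0 →
        fderiv ℝ ρ p (Complex.I • w) = 0 →
        0 ≤ fderiv ℝ (fderiv ℝ ρ) p w w
            + fderiv ℝ (fderiv ℝ ρ) p (Complex.I • w) (Complex.I • w)) →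
    ∀ x : ℕ → (Fin n → ℂ), (∀ j, ρ (x j) < 0) →
      (∀ ε : ℝ, ε > 0 → ∃ N : ℕ, ∀ j ≥ N, ∀ k ≥ N, ∀ f : (Fin n → ℂ) → ℂ,
          DifferentiableOn ℂ f {z : Fin n → ℂ | ρ z < 0} →
          (∀ z : Fin n → ℂ, ρ z < 0 → ‖f z‖ < 1) →
          Real.log ((1 + ‖(f (x j) - f (x k)) / (1 - (starRingEnd ℂ) (f (x j)) * f (x k))‖)
                  / (1 - ‖(f (x j) - f (x k)) / (1 - (starRingEnd ℂ) (f (x j)) * f (x k))‖)) ≤ ε) →
      ∃ y : Fin n → ℂ, ρ y < 0 ∧
        ∀ ε : ℝ, ε > 0 → ∃ N : ℕ, ∀ j ≥ N, ∀ f : (Fin n → ℂ) → ℂ,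
          DifferentiableOn ℂ f {z : Fin n → ℂ | ρ z < 0} →
          (∀ z : Fin n → ℂ, ρ z < 0 → ‖f z‖ < 1) →
          Real.log ((1 + ‖(f (x j) - f y) / (1 - (starRingEnd ℂ) (f (x j)) * f y)‖)
                  / (1 - ‖(f (x j) - f y) / (1 - (starRingEnd ℂ) (f (x j)) * f y)‖)) ≤ ε) := by
  intro hall
  obtain ⟨y, hy, hlim⟩ := hall 2 (rdef ψ) (rdef_smooth ψ W.smooth)
    (rdef_bounded ψ W.smooth.continuous) (rdef_connected ψ W.smooth.continuous)
    (rdef_grad ψ W.smooth) (fun p w hp _ _ => rdef_levi ψ W.smooth W.lap p w hp)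
    xs (xs_mem W) (by
      intro ε hε
      have hE : 1 < Real.exp ε := Real.one_lt_exp_iff.2 hε
      set δ : ℝ := (Real.exp ε - 1) / (Real.exp ε + 1) with hδ
      have hδ0 : 0 < δ := div_pos (by linarith) (by linarith)
      have hδ1 : δ < 1 := by rw [hδ, div_lt_one (by linarith)]; linarith
      obtain ⟨τ, hτ, hu⟩ := uniform W δ hδ0
      obtain ⟨N₀, hN₀⟩ := exists_nat_gt (1 / τ)
      refine ⟨N₀, fun j hj k hk f hf hb => ?_⟩
      set a : ℂ := f (xs j) with ha
      have ha1 : ‖a‖ < 1 := hb _ (xs_mem W j)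
      have hk1 : ‖f (xs k)‖ < 1 := hb _ (xs_mem W k)
      have hg := hu (fun p => (f p - a) / (1 - (starRingEnd ℂ) a * f p))
        (by
          have hd1 : DifferentiableOn ℂ (fun p => f p - a) {p | rdef ψ p < 0} := hf.sub_const _
          have hd2 : DifferentiableOn ℂ (fun p => 1 - (starRingEnd ℂ) a * f p) {p | rdef ψ p < 0} :=
            (differentiableOn_const _).sub (hf.const_mul _)
          intro p hp
          have h1 : DifferentiableAt ℂ (fun x : ℂ => x⁻¹) (1 - (starRingEnd ℂ) a * f p) :=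
            differentiableAt_inv (mobius_ne ha1 (hb p hp))
          have h2 : DifferentiableWithinAt ℂ
              (fun p => (f p - a) * (1 - (starRingEnd ℂ) a * f p)⁻¹) {p | rdef ψ p < 0} p :=
            (hd1 p hp).mul (h1.comp_differentiableWithinAt p (hd2 p hp))
          have h3 : (fun p => (f p - a) / (1 - (starRingEnd ℂ) a * f p)) =
              fun p => (f p - a) * (1 - (starRingEnd ℂ) a * f p)⁻¹ := by
            funext p; rw [div_eq_mul_inv]
          rw [h3]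
          exact h2)
        (fun p hp => mobius_lt ha1 (hb p hp))
        ((1 - 1 / ((k : ℝ) + 2) : ℝ) : ℂ) ((1 - 1 / ((j : ℝ) + 2) : ℝ) : ℂ) (xs_norm k) (xs_norm j)
        (by
          rw [← Complex.ofReal_sub, Complex.norm_real, Real.norm_eq_abs]
          have h1 : ∀ m : ℕ, N₀ ≤ m → 1 / ((m : ℝ) + 2) ≤ τ := by
            intro m hm
            have hm' : (N₀ : ℝ) ≤ m := by exact_mod_cast hm
            have : 1 / τ ≤ (m : ℝ) + 2 := by linarith
            rw [div_le_iff₀ (by positivity)]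
            rw [div_le_iff₀ hτ] at this
            linarith
          have h2 : ∀ m : ℕ, 0 < 1 / ((m : ℝ) + 2) := fun m => by positivity
          have := h1 j hj; have := h1 k hk; have := h2 j; have := h2 k
          rw [abs_le]; constructor <;> linarith)
      have e1 : f ![0, ((1 - 1 / ((j : ℝ) + 2) : ℝ) : ℂ)] = a := rfl
      have e2 : f ![0, ((1 - 1 / ((k : ℝ) + 2) : ℝ) : ℂ)] = f (xs k) := rfl
      simp only [e1, e2, sub_self, zero_div, sub_zero] at hg
      have ht : ‖(a - f (xs k)) / (1 - (starRingEnd ℂ) a * f (xs k))‖ ≤ δ := by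
        rw [norm_div, norm_sub_rev, ← norm_div]; exact hg
      set t := ‖(a - f (xs k)) / (1 - (starRingEnd ℂ) a * f (xs k))‖ with htdef
      have ht0 : 0 ≤ t := norm_nonneg _
      rw [Real.log_le_iff_le_exp (div_pos (by linarith) (by linarith)), div_le_iff₀ (by linarith)]
      have h3 : t * (Real.exp ε + 1) ≤ Real.exp ε - 1 := by
        rw [hδ, le_div_iff₀ (by linarith)] at ht
        exact ht
      linarith)
  -- boundedness
  obtain ⟨C, hC⟩ := (rdef_bounded ψ W.smooth.continuous).exists_norm_le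
  have hC0 : 0 < max C 1 := lt_of_lt_of_le one_pos (le_max_right _ _)
  set K : ℝ := 2 * max C 1 with hK
  have hK0 : 0 < K := by positivity
  have hcoord : ∀ i : Fin 2, Filter.Tendsto (fun j => xs j i) Filter.atTop (nhds (y i)) := by
    intro i
    rw [Metric.tendsto_atTop]
    intro ε hε
    obtain ⟨N₀, hN₀⟩ := hlim (ε / (4 * K)) (by positivity)
    refine ⟨N₀, fun j hj => ?_⟩
    have hb : ∀ p : Fin 2 → ℂ, rdef ψ p < 0 → ‖(K : ℂ)⁻¹ * p i‖ < 1 := by
      intro p hp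
      rw [norm_mul, norm_inv, Complex.norm_real, Real.norm_eq_abs, abs_of_pos hK0,
        inv_mul_lt_iff₀ hK0, mul_one]
      calc ‖p i‖ ≤ ‖p‖ := norm_le_pi_norm p i
        _ ≤ C := hC p hp
        _ < K := by rw [hK]; linarith [le_max_left C 1]
    have h1 := hN₀ j hj (fun p => (K : ℂ)⁻¹ * p i) (by
      apply Differentiable.differentiableOn
      fun_prop) hb
    have hx := hb _ (xs_mem W j)
    have hyy := hb _ hy
    set u : ℂ := (K : ℂ)⁻¹ * xs j i with hu
    set v : ℂ := (K : ℂ)⁻¹ * y i with hv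
    have ht1 : ‖(u - v) / (1 - (starRingEnd ℂ) u * v)‖ < 1 := by
      rw [norm_div, norm_sub_rev, ← norm_div]; exact mobius_lt hx hyy
    set t := ‖(u - v) / (1 - (starRingEnd ℂ) u * v)‖ with ht
    have ht0 : 0 ≤ t := norm_nonneg _
    have h2 : t ≤ ε / (4 * K) := by
      refine le_trans ?_ h1
      rw [Real.log_div (by linarith) (by linarith)]
      have h3 : Real.log (1 - t) ≤ (1 - t) - 1 := Real.log_le_sub_one_of_pos (by linarith)
      have h4 : 0 ≤ Real.log (1 + t) := Real.log_nonneg (by linarith)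
      linarith
    have h5 : ‖u - v‖ ≤ 2 * t := by
      have hne := mobius_ne hx hyy
      have h6 : ‖1 - (starRingEnd ℂ) u * v‖ ≤ 2 := by
        calc ‖1 - (starRingEnd ℂ) u * v‖ ≤ ‖(1 : ℂ)‖ + ‖(starRingEnd ℂ) u * v‖ := norm_sub_le _ _
          _ ≤ 1 + 1 := by
            rw [norm_one, norm_mul, RCLike.norm_conj]
            nlinarith [norm_nonneg u, norm_nonneg v]
          _ = 2 := by norm_num
      have h7 : ‖u - v‖ = t * ‖1 - (starRingEnd ℂ) u * v‖ := by
        rw [ht, norm_div, div_mul_cancel₀]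
        exact (norm_pos_iff.2 hne).ne'
      rw [h7]; nlinarith
    have h8 : ‖u - v‖ = K⁻¹ * ‖xs j i - y i‖ := by
      rw [hu, hv, ← mul_sub, norm_mul, norm_inv, Complex.norm_real, Real.norm_eq_abs, abs_of_pos hK0]
    rw [dist_eq_norm]
    have h9 : ‖xs j i - y i‖ = K * ‖u - v‖ := by
      rw [h8]; field_simp
    rw [h9]
    calc K * ‖u - v‖ ≤ K * (2 * (ε / (4 * K))) := by gcongr; linarith
      _ = ε / 2 := by field_simp; ring
      _ < ε := by linarith
  have hy0 : y 0 = 0 := by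
    have h1 := hcoord 0
    have h2 : (fun j => xs j 0) = fun _ => (0 : ℂ) := by
      ext j; simp [xs]
    rw [h2] at h1
    exact (tendsto_nhds_unique h1 tendsto_const_nhds)
  have hy1 : y 1 = 1 := by
    have h1 := hcoord 1
    have h2 : Filter.Tendsto (fun j : ℕ => ((1 - 1 / ((j : ℝ) + 2) : ℝ) : ℂ)) Filter.atTop (nhds ((1 - 0 : ℝ) : ℂ)) := by
      apply (Complex.continuous_ofReal.tendsto _).comp
      apply Filter.Tendsto.const_sub
      have h3 : Filter.Tendsto (fun j : ℕ => (j : ℝ) + 2) Filter.atTop Filter.atTop :=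
        Filter.tendsto_atTop_add_const_right _ _ tendsto_natCast_atTop_atTop
      simp only [one_div]
      exact h3.inv_tendsto_atTop
    have h4 : (fun j => xs j 1) = fun j : ℕ => ((1 - 1 / ((j : ℝ) + 2) : ℝ) : ℂ) := by
      ext j; simp [xs]
    rw [h4] at h1
    have := tendsto_nhds_unique h1 h2
    simpa using this
  have : rdef ψ y = 0 := by
    unfold rdef
    rw [hy0, hy1, W.zero]
    have h2 : expNegInvGlue (‖(0 : ℂ)‖ ^ 2 - 1) = 0 := expNegInvGlue.zero_of_nonpos (by norm_num)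
    rw [h2]; simp
  linarith


end Pool.Agent.Helper459.CC
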