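import Mathlib

set_option autoImplicit false

namespace Pool.Agent.Helper459.FL

section
open scoped MeasureTheory ENNReal NNReal Topology
open Set Filter

/-- one dimensional Hausdorff measure of a circle in C x C (sup metric) is finite -/
theorem circle_finite : μH[1] {p : ℂ × ℂ | ‖p.1‖ = 2 ∧ p.2 = 0} < ⊤ := by
  have h1 : LipschitzWith (max (Real.nnabs 2) 0) (fun t : ℝ => (circleMap 0 2 t, (0 : ℂ))) :=
    (lipschitzWith_circleMap 0 2).prodMk (LipschitzWith.const 0)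
  have h2 : {p : ℂ × ℂ | ‖p.1‖ = 2 ∧ p.2 = 0} ⊆
      (fun t : ℝ => (circleMap 0 2 t, (0 : ℂ))) '' Icc (-Real.pi) Real.pi := by
    rintro ⟨z, w⟩ ⟨hz, hw⟩
    refine ⟨Complex.arg z, ⟨(Complex.neg_pi_lt_arg z).le, Complex.arg_le_pi z⟩, ?_⟩
    simp only [Prod.mk.injEq]
    refine ⟨?_, hw.symm⟩
    simp only at hz
    have := Complex.norm_mul_exp_arg_mul_I z
    rw [hz] at this
    rw [circleMap, zero_add]
    exact_mod_cast this
  refine (MeasureTheory.measure_mono h2).trans_lt ?_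
  refine (h1.hausdorffMeasure_image_le (d := 1) zero_le_one _).trans_lt ?_
  rw [MeasureTheory.hausdorffMeasure_real, Real.volume_Icc]
  exact ENNReal.mul_lt_top (ENNReal.rpow_lt_top_of_nonneg zero_le_one ENNReal.coe_ne_top)
    ENNReal.ofReal_lt_top

/-- totally disconnected part of the circle -/
theorem circle_td (W : Set ℂ) (hW1 : ∀ z : ℂ, ‖z‖ = 2 → (∃ r : ℚ, z.re = r) → z ∈ W)
    (hW2 : ∀ z : ℂ, ‖z‖ = 2 → (∃ r : ℚ, z.im = r) → z ∈ W) (A : Set (ℂ × ℂ))
    (hA : ∀ p ∈ A, ‖p.1‖ = 2 ∧ p.2 = 0) (hAW : ∀ p ∈ A, p.1 ∉ W) (hc : IsPreconnected A) :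
    A.Subsingleton := by
  have key : ∀ f : ℂ × ℂ → ℝ, Continuous f → (∀ p ∈ A, ∀ r : ℚ, f p ≠ r) →
      ∀ p ∈ A, ∀ q ∈ A, f p = f q := by
    intro f hf hr p hp q hq
    by_contra hne
    have h1 : IsPreconnected (f '' A) := hc.image f hf.continuousOn
    have h2 := h1.ordConnected
    wlog hlt : f p < f q generalizing p q with H
    · exact H q hq p hp (fun h => hne h.symm) (lt_of_le_of_ne (not_lt.1 hlt) (fun h => hne h.symm))
    obtain ⟨r, hr1, hr2⟩ := exists_rat_btwn hlt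
    obtain ⟨a, ha, har⟩ := h2.out (mem_image_of_mem f hp) (mem_image_of_mem f hq)
      (⟨hr1.le, hr2.le⟩ : (r : ℝ) ∈ Icc (f p) (f q))
    exact hr a ha r har
  intro p hp q hq
  have e1 := key (fun p => p.1.re) (by fun_prop)
    (fun p hp r hr => hAW p hp (hW1 p.1 (hA p hp).1 ⟨r, hr⟩)) p hp q hq
  have e2 := key (fun p => p.1.im) (by fun_prop)
    (fun p hp r hr => hAW p hp (hW2 p.1 (hA p hp).1 ⟨r, hr⟩)) p hp q hq
  exact Prod.ext (Complex.ext e1 e2) ((hA p hp).2.trans (hA q hq).2.symm)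

end

end Pool.Agent.Helper459.FL
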