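import Mathlib

set_option autoImplicit false

namespace Pool.Agent.Helper459.FL
open scoped MeasureTheory ENNReal NNReal Topology
open Set Filter

/-- transfer from ℂ × ℂ to EuclideanSpace ℂ (Fin 2) -/
theorem transfer (X : Set (ℂ × ℂ)) (hX : IsCompact X) (htd : IsTotallyDisconnected X)
    (hH : μH[1] X < ⊤) (z0 : ℂ × ℂ) (hz0 : z0 ∉ X)
    (hull : ∀ F : ℂ × ℂ → ℂ, Differentiable ℂ F → ∃ x ∈ X, ‖F z0‖ ≤ ‖F x‖) :
    ¬ (∀ (n : ℕ) (X : Set (EuclideanSpace ℂ (Fin n))),
      IsCompact X → IsTotallyDisconnected X → μH[1] X < ⊤ →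
      ∀ z : EuclideanSpace ℂ (Fin n), z ∉ X →
        ∃ p : MvPolynomial (Fin n) ℂ,
          ∀ x ∈ X, ‖MvPolynomial.eval (fun i => WithLp.ofLp x i) p‖ <
            ‖MvPolynomial.eval (fun i => WithLp.ofLp z i) p‖) := by
  intro H
  set g : ℂ × ℂ → EuclideanSpace ℂ (Fin 2) := fun q => WithLp.toLp 2 ![q.1, q.2] with hg
  set e : EuclideanSpace ℂ (Fin 2) → ℂ × ℂ := fun v => (v 0, v 1) with he
  have heg : ∀ q, e (g q) = q := by
    intro q
    simp [he, hg]
  have hge : ∀ v, g (e v) = v := by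
    intro v
    ext i
    fin_cases i <;> simp [he, hg]
  have hec : Continuous e := by
    rw [he]
    fun_prop
  have hgL : LipschitzWith 2 g := by
    apply LipschitzWith.of_dist_le_mul
    intro p q
    rw [EuclideanSpace.dist_eq, Fin.sum_univ_two]
    have h1 : dist p.1 q.1 ≤ dist p q := by rw [Prod.dist_eq]; exact le_max_left _ _
    have h2 : dist p.2 q.2 ≤ dist p q := by rw [Prod.dist_eq]; exact le_max_right _ _
    have h3 : (0 : ℝ) ≤ dist p.1 q.1 := dist_nonneg
    have h4 : (0 : ℝ) ≤ dist p.2 q.2 := dist_nonneg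
    have e1 : dist ((g p).ofLp 0) ((g q).ofLp 0) = dist p.1 q.1 := by simp [hg]
    have e2 : dist ((g p).ofLp 1) ((g q).ofLp 1) = dist p.2 q.2 := by simp [hg]
    rw [e1, e2]
    have h5 : ((2 : ℝ≥0) : ℝ) = 2 := by norm_num
    rw [h5]
    apply Real.sqrt_le_iff.2
    constructor
    · have := @dist_nonneg _ _ p q
      linarith
    · nlinarith
  have hginj : Function.Injective g := fun a b hab => by
    rw [← heg a, ← heg b, hab]
  have hYc : IsCompact (g '' X) := hX.image hgL.continuous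
  have hYtd : IsTotallyDisconnected (g '' X) := by
    intro A hA hAc
    have h1 : (e '' A).Subsingleton := by
      apply htd
      · rintro _ ⟨a, ha, rfl⟩
        obtain ⟨x, hx, rfl⟩ := hA ha
        rw [heg]
        exact hx
      · exact hAc.image e hec.continuousOn
    intro a ha b hb
    have h2 := h1 ⟨a, ha, rfl⟩ ⟨b, hb, rfl⟩
    rw [← hge a, ← hge b, h2]
  have hYH : μH[1] (g '' X) < ⊤ := by
    refine (hgL.hausdorffMeasure_image_le zero_le_one X).trans_lt ?_
    refine ENNReal.mul_lt_top ?_ hH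
    exact ENNReal.rpow_lt_top_of_nonneg zero_le_one ENNReal.coe_ne_top
  have hz : g z0 ∉ g '' X := by
    rintro ⟨x, hx, hxe⟩
    rw [hginj hxe] at hx
    exact hz0 hx
  obtain ⟨p, hp⟩ := H 2 (g '' X) hYc hYtd hYH (g z0) hz
  have hcoord : ∀ i : Fin 2, Differentiable ℂ fun q : ℂ × ℂ => WithLp.ofLp (g q) i := by
    intro i
    fin_cases i
    · exact differentiable_fst
    · exact differentiable_snd
  have hd : ∀ p : MvPolynomial (Fin 2) ℂ, Differentiable ℂ fun q : ℂ × ℂ =>
      MvPolynomial.eval (fun i => WithLp.ofLp (g q) i) p := by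
    intro p
    induction p using MvPolynomial.induction_on with
    | C a => simp
    | add p q hp1 hq1 =>
      simp only [map_add]
      exact Differentiable.add hp1 hq1
    | mul_X p i hp1 =>
      simp only [map_mul, MvPolynomial.eval_X]
      exact Differentiable.mul hp1 (hcoord i)
  obtain ⟨x, hx, hle⟩ := hull _ (hd p)
  exact absurd (hp (g x) ⟨x, hx, rfl⟩) (not_lt.2 hle)

end Pool.Agent.Helper459.FL
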