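import Mathlib

set_option autoImplicit false

namespace Pool.Agent.Helper459.FL

section
open Set Filter Topology

/-- maximum principle on a Hartogs type set -/
theorem gain (F : ℂ × ℂ → ℂ) (hF : Differentiable ℂ F) (q : ℂ → ℂ) (hq : Differentiable ℂ q)
    (τ T A β L : ℝ) (hbdd : Bornology.IsBounded {z : ℂ | ‖q z‖ ≤ T})
    (hτ : 0 < τ) (hA : 0 ≤ A)
    (h1 : ∀ z w : ℂ, ‖q z‖ = τ → ‖w‖ ≤ A * τ ^ (-β) → ‖F (z, w)‖ ≤ L)
    (h2 : ∀ z w : ℂ, ‖q z‖ = T → ‖w‖ ≤ A * T ^ (-β) → ‖F (z, w)‖ ≤ L) :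
    ∀ z w : ℂ, τ ≤ ‖q z‖ → ‖q z‖ ≤ T → ‖w‖ ≤ A * ‖q z‖ ^ (-β) → ‖F (z, w)‖ ≤ L := by
  intro z0 w0 h01 h02 h03
  by_contra hcon
  push Not at hcon
  let φ : ℂ → ℝ := fun z => A * (max τ ‖q z‖) ^ (-β)
  have hqc : Continuous q := hq.continuous
  have hFc : Continuous F := hF.continuous
  have hφc : Continuous φ := by
    apply Continuous.mul continuous_const
    apply Continuous.rpow_const (by fun_prop)
    intro z
    left
    exact (lt_of_lt_of_le hτ (le_max_left _ _)).ne'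
  let G : Set (ℂ × ℂ) := {p | τ ≤ ‖q p.1‖ ∧ ‖q p.1‖ ≤ T ∧ ‖p.2‖ ≤ φ p.1}
  have hK : IsCompact {z : ℂ | ‖q z‖ ≤ T} :=
    Metric.isCompact_of_isClosed_isBounded (isClosed_le (by fun_prop) continuous_const) hbdd
  obtain ⟨B, hB⟩ := (hK.image hφc).bddAbove
  have hGcl : IsClosed G := by
    have hG' : G = {p : ℂ × ℂ | τ ≤ ‖q p.1‖} ∩ ({p : ℂ × ℂ | ‖q p.1‖ ≤ T} ∩
        {p : ℂ × ℂ | ‖p.2‖ ≤ φ p.1}) := rfl
    rw [hG']
    apply IsClosed.inter (isClosed_le continuous_const (by fun_prop))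
    apply IsClosed.inter (isClosed_le (by fun_prop) continuous_const)
    exact isClosed_le (by fun_prop) (by fun_prop)
  have hGc : IsCompact G := by
    apply IsCompact.of_isClosed_subset (hK.prod (isCompact_closedBall (0 : ℂ) B)) hGcl
    rintro ⟨z, w⟩ ⟨_, hz2, hz3⟩
    refine ⟨hz2, ?_⟩
    rw [mem_closedBall_zero_iff]
    exact hz3.trans (hB ⟨z, hz2, rfl⟩)
  have hφ : ∀ z, τ ≤ ‖q z‖ → φ z = A * ‖q z‖ ^ (-β) := by
    intro z hz
    show A * (max τ ‖q z‖) ^ (-β) = _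
    rw [max_eq_right hz]
  have hG0 : (z0, w0) ∈ G := ⟨h01, h02, by rw [hφ z0 h01]; exact h03⟩
  obtain ⟨pm, hpm, hpmax⟩ := hGc.exists_isMaxOn ⟨_, hG0⟩ (f := fun p => ‖F p‖)
    (by fun_prop)
  have hμ : L < ‖F pm‖ := lt_of_lt_of_le hcon (hpmax hG0)
  let M : Set (ℂ × ℂ) := G ∩ {p | ‖F p‖ = ‖F pm‖}
  have hMc : IsCompact M := hGc.inter_right (isClosed_eq (by fun_prop) continuous_const)
  obtain ⟨p1, hp1, hp1max⟩ := hMc.exists_isMaxOn ⟨pm, hpm, rfl⟩ (f := fun p => p.1.re)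
    (by fun_prop)
  obtain ⟨⟨hp11, hp12, hp13⟩, hp14⟩ := hp1
  obtain ⟨z1, w1⟩ := p1
  have hp14' : ‖F (z1, w1)‖ = ‖F pm‖ := hp14
  have hp11' : τ ≤ ‖q z1‖ := hp11
  have hp12' : ‖q z1‖ ≤ T := hp12
  have hp13' : ‖w1‖ ≤ A * ‖q z1‖ ^ (-β) := by rw [← hφ z1 hp11']; exact hp13
  have hlt1 : τ < ‖q z1‖ := by
    rcases lt_or_eq_of_le hp11' with h | h
    · exact h
    · have := h1 z1 w1 h.symm (by rw [h]; exact hp13')
      rw [hp14'] at this
      linarith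
  have hlt2 : ‖q z1‖ < T := by
    rcases lt_or_eq_of_le hp12' with h | h
    · exact h
    · have := h2 z1 w1 h (by rw [← h]; exact hp13')
      rw [hp14'] at this
      linarith
  have hu0 : 0 < ‖q z1‖ := lt_trans hτ hlt1
  have hu : q z1 ≠ 0 := norm_pos_iff.1 hu0
  let g : ℂ → ℂ := fun z => w1 * Complex.exp (-(β : ℂ) * Complex.log (q z / q z1))
  have hg1 : g z1 = w1 := by
    show w1 * Complex.exp (-(β : ℂ) * Complex.log (q z1 / q z1)) = w1
    rw [div_self hu, Complex.log_one, mul_zero, Complex.exp_zero, mul_one]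
  have hslit : ∀ᶠ z in 𝓝 z1, q z / q z1 ∈ Complex.slitPlane := by
    have hc : ContinuousAt (fun z => q z / q z1) z1 := by
      apply ContinuousAt.div hqc.continuousAt continuousAt_const hu
    apply hc.eventually_mem
    apply Complex.isOpen_slitPlane.mem_nhds
    rw [div_self hu]
    exact Complex.one_mem_slitPlane
  have hgd : ∀ᶠ z in 𝓝 z1, DifferentiableAt ℂ (fun z => F (z, g z)) z := by
    filter_upwards [hslit] with z hz
    have hgz : DifferentiableAt ℂ g z := by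
      apply DifferentiableAt.const_mul
      apply DifferentiableAt.cexp
      apply DifferentiableAt.const_mul
      exact DifferentiableAt.clog (f := fun y => q y / q z1) ((hq z).div_const _) hz
    exact DifferentiableAt.comp z (hF (z, g z)) (differentiableAt_id.prodMk hgz)
  have hq1 : ∀ᶠ z in 𝓝 z1, τ < ‖q z‖ := by
    have hc : ContinuousAt (fun z => ‖q z‖) z1 := by fun_prop
    exact continuousAt_const.eventually_lt hc hlt1
  have hq2 : ∀ᶠ z in 𝓝 z1, ‖q z‖ < T := by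
    have hc : ContinuousAt (fun z => ‖q z‖) z1 := by fun_prop
    exact hc.eventually_lt continuousAt_const hlt2
  have hgG : ∀ᶠ z in 𝓝 z1, (z, g z) ∈ G := by
    filter_upwards [hq1, hq2] with z hz1 hz2
    refine ⟨hz1.le, hz2.le, ?_⟩
    show ‖g z‖ ≤ φ z
    rw [hφ z hz1.le]
    show ‖w1 * Complex.exp (-(β : ℂ) * Complex.log (q z / q z1))‖ ≤ _
    have hz0 : 0 < ‖q z‖ := lt_trans hτ hz1
    have hre : (-(β : ℂ) * Complex.log (q z / q z1)).re = Real.log (‖q z‖ / ‖q z1‖) * (-β) := by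
      rw [← Complex.ofReal_neg, Complex.re_ofReal_mul, Complex.log_re, norm_div]
      ring
    rw [norm_mul, Complex.norm_exp, hre, ← Real.rpow_def_of_pos (by positivity)]
    calc ‖w1‖ * (‖q z‖ / ‖q z1‖) ^ (-β) ≤ (A * ‖q z1‖ ^ (-β)) * (‖q z‖ / ‖q z1‖) ^ (-β) := by
          apply mul_le_mul_of_nonneg_right hp13'
          positivity
      _ = A * ‖q z‖ ^ (-β) := by
          rw [mul_assoc, ← Real.mul_rpow hu0.le (by positivity)]
          congr 2
          field_simp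
  have hloc : IsLocalMax (norm ∘ fun z => F (z, g z)) z1 := by
    filter_upwards [hgG] with z hz
    show ‖F (z, g z)‖ ≤ ‖F (z1, g z1)‖
    rw [hg1, hp14']
    exact hpmax hz
  have heq := Complex.norm_eventually_eq_of_isLocalMax hgd hloc
  obtain ⟨δ, hδ, hδ2⟩ := Metric.eventually_nhds_iff.1 (heq.and hgG)
  have hzz : dist (z1 + ((δ / 2 : ℝ) : ℂ)) z1 < δ := by
    rw [dist_eq_norm, add_sub_cancel_left, Complex.norm_real, Real.norm_of_nonneg (by positivity)]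
    linarith
  obtain ⟨he1, he2⟩ := hδ2 hzz
  have he3 : (z1 + ((δ / 2 : ℝ) : ℂ), g (z1 + ((δ / 2 : ℝ) : ℂ))) ∈ M := by
    refine ⟨he2, ?_⟩
    show ‖F (z1 + ((δ / 2 : ℝ) : ℂ), g (z1 + ((δ / 2 : ℝ) : ℂ)))‖ = ‖F pm‖
    rw [← hp14']
    have : ‖F (z1 + ((δ / 2 : ℝ) : ℂ), g (z1 + ((δ / 2 : ℝ) : ℂ)))‖ = ‖F (z1, g z1)‖ := he1
    rw [this, hg1]
  have he4 := hp1max he3
  have he5 : (z1 + ((δ / 2 : ℝ) : ℂ)).re ≤ z1.re := he4
  rw [Complex.add_re, Complex.ofReal_re] at he5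
  linarith

end

end Pool.Agent.Helper459.FL
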