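import Pool.Agent.Helper459.FLTop

set_option autoImplicit false
open scoped MeasureTheory ENNReal NNReal Topology
open Set Filter

namespace Pool.Agent.Helper459.FL

variable {ι : Type} {a : ι → ℂ} {s : ι → ℝ} {Z : Set (ℂ × ℂ)}

theorem t0_pos : 0 < t0 := by unfold t0; positivity

theorem t0_le_cc : t0 ≤ cc := by unfold t0 cc; norm_num

/-- maximum modulus in the first variable -/
theorem maxmod1 (F : ℂ × ℂ → ℂ) (hF : Differentiable ℂ F) (R L : ℝ) (hR : 0 < R) (w : ℂ)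
    (h : ∀ z : ℂ, ‖z‖ = R → ‖F (z, w)‖ ≤ L) : ∀ z : ℂ, ‖z‖ ≤ R → ‖F (z, w)‖ ≤ L := by
  intro z hz
  have hd : Differentiable ℂ (fun z : ℂ => F (z, w)) := by fun_prop
  refine Complex.norm_le_of_forall_mem_frontier_norm_le (f := fun z : ℂ => F (z, w))
    (U := Metric.ball (0 : ℂ) R) Metric.isBounded_ball hd.diffContOnCl ?_ ?_
  · intro y hy
    rw [frontier_ball _ hR.ne'] at hy
    exact h y (by simpa using hy)
  · rw [closure_ball _ hR.ne']
    simpa using hz

theorem hull_KK (h : Good a s Z) : ∀ n, ∀ F : ℂ × ℂ → ℂ, Differentiable ℂ F → ∀ L : ℝ, 0 < L →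
    (∀ p ∈ KK a s Z n, ‖F p‖ ≤ L) → ∀ p ∈ Q, ‖F p‖ ≤ L := by
  intro n
  induction n with
  | zero =>
    intro F hF L _ hb p hp
    have := maxmod1 F hF 1 L one_pos p.2 (fun z hz => hb (z, p.2) ?_) p.1 hp.1
    · simpa using this
    · show (z, p.2) ∈ K
      refine ⟨?_, ?_, hp.2.trans t0_le_cc⟩
      · simp only [hz]; norm_num
      · simp only [hz]; norm_num
  | succ n ih =>
    intro F hF L hL hb
    refine h.hull F hF L hL (fun p hp => hb p (Or.inl hp)) ?_
    intro k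
    refine ih (fun p => F (T (a k) (s k) p)) (hF.comp (T_diff _ _)) L hL ?_
    intro p hp
    exact hb _ (Or.inr (mem_iUnion.2 ⟨k, mem_image_of_mem _ hp⟩))

theorem XX_small (h : Good a s Z) (U : Set (ℂ × ℂ)) (hU : IsOpen U) (hs : XX a s Z ⊆ U) :
    ∃ n, KK a s Z n ⊆ U := by
  refine exists_subset_nhds_of_isCompact' (V := KK a s Z) ?_ (KK_compact h) (KK_closed h) ?_
  · exact (KK_anti h).directed_ge
  · intro x hx
    exact hU.mem_nhds (hs hx)

theorem XX_nonempty (h : Good a s Z) : (XX a s Z).Nonempty := by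
  by_contra hne
  rw [not_nonempty_iff_eq_empty] at hne
  obtain ⟨n, hn⟩ := XX_small h ∅ isOpen_empty hne.le
  have := hull_KK h n (fun _ => 1) (by fun_prop) (1 / 2) (by norm_num)
    (fun p hp => (hn hp).elim) (0, 0) (by simp [Q, t0_pos.le])
  norm_num at this

theorem exists_big (h : Good a s Z) (F : ℂ × ℂ → ℂ) (hF : Differentiable ℂ F) :
    ∃ x ∈ XX a s Z, ‖F (0, 0)‖ ≤ ‖F x‖ := by
  by_contra hcon
  push Not at hcon
  obtain ⟨x0, hx0, hmax⟩ := (XX_compact h).exists_isMaxOn (XX_nonempty h)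
    (f := fun p => ‖F p‖) (hF.continuous.norm.continuousOn)
  have h0 := hcon x0 hx0
  have hnn : 0 ≤ ‖F x0‖ := norm_nonneg _
  obtain ⟨n, hn⟩ := XX_small h {p | ‖F p‖ < (‖F x0‖ + ‖F (0, 0)‖) / 2}
    (isOpen_lt hF.continuous.norm continuous_const) (by
      intro x hx
      have : ‖F x‖ ≤ ‖F x0‖ := hmax hx
      show ‖F x‖ < _
      linarith)
  have := hull_KK h n F hF ((‖F x0‖ + ‖F (0, 0)‖) / 2) (by linarith)
    (fun p hp => (hn hp).le) (0, 0) (by simp [Q, t0_pos.le])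
  linarith

theorem zero_notMem (h : Good a s Z) : ((0, 0) : ℂ × ℂ) ∉ XX a s Z := by
  intro h0
  have := (XX_sub h h0).1
  simp at this
  linarith

end Pool.Agent.Helper459.FL
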