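import Mathlib

set_option autoImplicit false

namespace Pool.Agent.Helper459.FL

section

theorem roots_cover (N : ℕ) (hN : 0 < N) (R e : ℝ) (hR : 0 < R) (he : e ≤ 1 / 2) (z : ℂ)
    (hz : ‖z ^ N - (R : ℂ) ^ N‖ ≤ e * R ^ N) :
    ∃ i < N, ‖z - (R : ℂ) * Complex.exp (2 * Real.pi * Complex.I * i / N)‖ ≤ 3 * R * e := by
  have hRN : 0 < R ^ N := pow_pos hR N
  have hRc : (R : ℂ) ≠ 0 := by exact_mod_cast hR.ne'
  have hRNc : (R : ℂ) ^ N ≠ 0 := pow_ne_zero _ hRc
  have hNc : (N : ℂ) ≠ 0 := by exact_mod_cast hN.ne'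
  obtain ⟨v, hv⟩ : ∃ v : ℂ, v = z ^ N / (R : ℂ) ^ N - 1 := ⟨_, rfl⟩
  have hve : ‖v‖ ≤ e := by
    have h1 : v = (z ^ N - (R : ℂ) ^ N) / (R : ℂ) ^ N := by rw [hv]; field_simp
    rw [h1, norm_div, norm_pow, Complex.norm_real, Real.norm_of_nonneg hR.le, div_le_iff₀ hRN]
    exact hz
  have he0 : 0 ≤ e := (norm_nonneg _).trans hve
  have hv2 : ‖v‖ ≤ 1 / 2 := hve.trans he
  have h1v : 1 + v ≠ 0 := by
    intro h0
    have : v = -1 := by linear_combination h0
    rw [this] at hv2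
    norm_num at hv2
  have hL := Complex.norm_log_one_add_half_le_self hv2
  obtain ⟨L, hLdef⟩ : ∃ L : ℂ, L = Complex.log (1 + v) := ⟨_, rfl⟩
  rw [← hLdef] at hL
  have hL2 : ‖L‖ ≤ 3 / 2 * e := hL.trans (by linarith)
  obtain ⟨ξ, hξdef⟩ : ∃ ξ : ℂ, ξ = Complex.exp (L / N) := ⟨_, rfl⟩
  have hξN : ξ ^ N = 1 + v := by
    rw [hξdef, ← Complex.exp_nat_mul, mul_div_cancel₀ _ hNc, hLdef, Complex.exp_log h1v]
  have hξ0 : ξ ≠ 0 := by rw [hξdef]; exact Complex.exp_ne_zero _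
  obtain ⟨w, hw⟩ : ∃ w : ℂ, w = z / ((R : ℂ) * ξ) := ⟨_, rfl⟩
  have hzw : z = (R : ℂ) * ξ * w := by rw [hw]; field_simp
  have hzN : z ^ N = (R : ℂ) ^ N * (1 + v) := by rw [hv]; field_simp; ring
  have hwN : w ^ N = 1 := by
    rw [hw, div_pow, mul_pow, hξN, hzN]
    exact div_self (mul_ne_zero hRNc h1v)
  have : NeZero N := ⟨hN.ne'⟩
  obtain ⟨i, hi, hiw⟩ := (Complex.isPrimitiveRoot_exp N hN.ne').eq_pow_of_pow_eq_one hwN
  refine ⟨i, hi, ?_⟩
  have hexp : Complex.exp (2 * Real.pi * Complex.I * i / N) = w := by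
    rw [← hiw, ← Complex.exp_nat_mul]
    congr 1
    ring
  rw [hexp]
  have hwn : ‖w‖ = 1 := Complex.norm_eq_one_of_pow_eq_one hwN hN.ne'
  have h2 : z - (R : ℂ) * w = (R : ℂ) * w * (ξ - 1) := by rw [hzw]; ring
  rw [h2, norm_mul, norm_mul, Complex.norm_real, Real.norm_of_nonneg hR.le, hwn, mul_one]
  have h3 : ‖L / N‖ ≤ ‖L‖ := by
    rw [norm_div, Complex.norm_natCast]
    exact div_le_self (norm_nonneg _) (by exact_mod_cast hN)
  have h4 : ‖ξ - 1‖ ≤ 2 * ‖L / N‖ := by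
    rw [hξdef]
    exact Complex.norm_exp_sub_one_le (h3.trans (by linarith))
  have h5 : ‖ξ - 1‖ ≤ 3 * e := by linarith
  calc R * ‖ξ - 1‖ ≤ R * (3 * e) := mul_le_mul_of_nonneg_left h5 hR.le
    _ = 3 * R * e := by ring

end

section

theorem h170_roots_aux (N i j : ℕ) (hN : 0 < N) (hi : i < N) (hij : j < i) :
    4 / (N : ℝ) ≤ ‖Complex.exp (2 * Real.pi * Complex.I * i / N) -
      Complex.exp (2 * Real.pi * Complex.I * j / N)‖ := by
  have hN' : (0:ℝ) < N := by exact_mod_cast hN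
  have hNc : (N:ℂ) ≠ 0 := by exact_mod_cast hN.ne'
  have hpi := Real.pi_pos
  have e1 : Complex.exp (2 * Real.pi * Complex.I * i / N) -
      Complex.exp (2 * Real.pi * Complex.I * j / N) =
      Complex.exp (((2 * Real.pi * j / N : ℝ) : ℂ) * Complex.I) *
        (Complex.exp (Complex.I * ((2 * Real.pi * (i - j) / N : ℝ) : ℂ)) - 1) := by
    rw [mul_sub, mul_one, ← Complex.exp_add]
    congr 2
    · push_cast; field_simp; ring
    · push_cast; field_simp
  rw [e1, norm_mul, Complex.norm_exp_ofReal_mul_I, one_mul, Complex.norm_exp_I_mul_ofReal_sub_one]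
  have hij' : (j:ℝ) + 1 ≤ i := by exact_mod_cast hij
  have hi' : (i:ℝ) + 1 ≤ N := by exact_mod_cast hi
  have hj0 : (0:ℝ) ≤ j := Nat.cast_nonneg j
  set y : ℝ := Real.pi * (i - j) / N with hy
  have e2 : 2 * Real.pi * (i - j) / N / 2 = y := by rw [hy]; ring
  rw [e2]
  have hy0 : 0 < y := by
    rw [hy]
    exact div_pos (mul_pos hpi (by linarith)) hN'
  have hypi : y < Real.pi := by
    rw [hy, div_lt_iff₀ hN']
    exact mul_lt_mul_of_pos_left (by linarith) hpi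
  have key : 2 / (N:ℝ) ≤ Real.sin y := by
    rcases le_total y (Real.pi / 2) with h | h
    · have h1 := Real.mul_le_sin hy0.le h
      refine le_trans ?_ h1
      have h2 : 2 / Real.pi * y = 2 * (i - j) / N := by
        rw [hy]; field_simp
      rw [h2]
      exact div_le_div_of_nonneg_right (by linarith) hN'.le
    · have h1 := Real.mul_le_sin (x := Real.pi - y) (by linarith) (by linarith)
      rw [Real.sin_pi_sub] at h1
      refine le_trans ?_ h1
      have h2 : 2 / Real.pi * (Real.pi - y) = 2 * (N - (i - j)) / N := by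
        rw [hy]; field_simp
      rw [h2]
      exact div_le_div_of_nonneg_right (by linarith) hN'.le
  have h3 : (4:ℝ) / N = 2 * (2 / N) := by ring
  rw [h3, Real.norm_eq_abs]
  refine le_trans ?_ (le_abs_self _)
  linarith

theorem roots_sep (N i j : ℕ) (hN : 0 < N) (hi : i < N) (hj : j < N) (hij : i ≠ j) :
    4 / (N : ℝ) ≤ ‖Complex.exp (2 * Real.pi * Complex.I * i / N) -
      Complex.exp (2 * Real.pi * Complex.I * j / N)‖ := by
  rcases Nat.lt_or_gt_of_ne hij with h | h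
  · rw [norm_sub_rev]
    exact h170_roots_aux N j i hN hj h
  · exact h170_roots_aux N i j hN hi h

end

end Pool.Agent.Helper459.FL
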