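import Pool.Agent.Helper459.FLLevel
import Pool.Agent.Helper459.FLNum
import Pool.Agent.Helper459.FLCirc

set_option autoImplicit false
open scoped MeasureTheory ENNReal NNReal Topology
open Set Filter

namespace Pool.Agent.Helper459.FL

/-- rational points of the circle -/
def WW : Set ℂ := {z | ‖z‖ = 2 ∧ ((∃ r : ℚ, z.re = r) ∨ (∃ r : ℚ, z.im = r))}

theorem WW_countable : WW.Countable := by
  have h : WW ⊆ ⋃ r : ℚ, ({⟨(r : ℝ), Real.sqrt (4 - (r : ℝ) ^ 2)⟩, ⟨(r : ℝ), -Real.sqrt (4 - (r : ℝ) ^ 2)⟩,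
      ⟨Real.sqrt (4 - (r : ℝ) ^ 2), (r : ℝ)⟩, ⟨-Real.sqrt (4 - (r : ℝ) ^ 2), (r : ℝ)⟩} : Set ℂ) := by
    rintro z ⟨hz, hr⟩
    have hsq : z.re ^ 2 + z.im ^ 2 = 4 := by
      have h1 := Complex.sq_norm z
      rw [hz, Complex.normSq_apply] at h1
      nlinarith
    rcases hr with ⟨r, hr⟩ | ⟨r, hr⟩
    · refine mem_iUnion.2 ⟨r, ?_⟩
      have h2 : Real.sqrt (4 - (r : ℝ) ^ 2) = |z.im| := by
        rw [← Real.sqrt_sq_eq_abs]; congr 1; rw [← hr]; linarith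
      rcases abs_cases z.im with ⟨h3, _⟩ | ⟨h3, _⟩
      · left
        apply Complex.ext
        · simpa using hr
        · simp only; rw [h2, h3]
      · right; left
        apply Complex.ext
        · simpa using hr
        · simp only; rw [h2, h3]; ring
    · refine mem_iUnion.2 ⟨r, ?_⟩
      have h2 : Real.sqrt (4 - (r : ℝ) ^ 2) = |z.re| := by
        rw [← Real.sqrt_sq_eq_abs]; congr 1; rw [← hr]; linarith
      rcases abs_cases z.re with ⟨h3, _⟩ | ⟨h3, _⟩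
      · right; right; left
        apply Complex.ext
        · simp only; rw [h2, h3]
        · simpa using hr
      · right; right; right
        apply Complex.ext
        · simp only; rw [h2, h3]; ring
        · simpa using hr
  refine (countable_iUnion fun r => ?_).mono h
  exact (Set.toFinite _).countable

theorem exists_enum : ∃ zb : ℕ → ℂ, WW = range zb := by
  refine WW_countable.exists_eq_range ⟨2, ?_⟩
  refine ⟨by simp, Or.inl ⟨2, by simp⟩⟩

noncomputable def zb : ℕ → ℂ := exists_enum.choose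

theorem zb_range : WW = range zb := exists_enum.choose_spec

theorem zb_norm (n : ℕ) : ‖zb n‖ = 2 := by
  have : zb n ∈ WW := by rw [zb_range]; exact mem_range_self n
  exact this.1

theorem exists_kept : ∃ kept : ℕ → Prop, ∀ n, kept n ↔
    ∀ b < n, kept b → sb b * t0 ≤ ‖zb n - zb b‖ := by
  let kept : ℕ → Prop := fun n => Nat.strongRecOn n
    (fun n ih => ∀ b (h : b < n), ih b h → sb b * t0 ≤ ‖zb n - zb b‖)
  refine ⟨kept, fun n => ?_⟩
  show Nat.strongRecOn n _ ↔ _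
  rw [Nat.strongRecOn_eq]

def kept : ℕ → Prop := exists_kept.choose

theorem kept_iff : ∀ n, kept n ↔ ∀ b < n, kept b → sb b * t0 ≤ ‖zb n - zb b‖ :=
  exists_kept.choose_spec

theorem sc_pos (j : ℕ) : 0 < sc j := by unfold sc; positivity
theorem sb_pos (j : ℕ) : 0 < sb j := by unfold sb; positivity

abbrev I0 : Type := (Σ j : ℕ, Fin (NN j)) ⊕ ℕ

noncomputable def a0 : I0 → ℂ := Sum.elim (fun p => ca p.1 p.2) zb
noncomputable def s0 : I0 → ℝ := Sum.elim (fun p => sc p.1) sb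
def ex0 : I0 → ℕ := Sum.elim (fun p => 20 * p.1 + 19) (fun b => 20 * b + 30)

def valid : I0 → Prop := Sum.elim
  (fun p => ∀ b, kept b → ¬ (‖ca p.1 p.2 - zb b‖ + sc p.1 * t0 < sb b * t0 ∧ sc p.1 ≤ sb b))
  (fun b => kept b)

abbrev II : Type := {k : I0 // valid k}

noncomputable def aa (k : II) : ℂ := a0 k.1
noncomputable def ss (k : II) : ℝ := s0 k.1

def Z1 : Set (ℂ × ℂ) := {p | ‖p.1‖ = 2 ∧ p.2 = 0 ∧ ∀ b, kept b → sb b * t0 ≤ ‖p.1 - zb b‖}

theorem s0_eq (k : I0) : s0 k = 1 / 2 ^ (ex0 k) := by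
  rcases k with p | b <;> rfl

theorem s0_pos (k : I0) : 0 < s0 k := by rw [s0_eq]; positivity

theorem ex0_ge (k : I0) : 19 ≤ ex0 k := by
  rcases k with p | b
  · show 19 ≤ 20 * p.1 + 19; omega
  · show 19 ≤ 20 * b + 30; omega

theorem s0_le (k : I0) : s0 k ≤ 1 / 2 ^ 19 := by
  rw [s0_eq]
  apply one_div_le_one_div_of_le (by positivity)
  exact pow_le_pow_right₀ (by norm_num) (ex0_ge k)

theorem a0_norm (k : I0) : 1 ≤ ‖a0 k‖ ∧ ‖a0 k‖ ≤ 2 := by
  rcases k with p | b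
  · have h : ‖a0 (Sum.inl p)‖ = Rr p.1 := by
      show ‖ca p.1 p.2‖ = _
      unfold ca
      rw [norm_mul, Complex.norm_real, Real.norm_of_nonneg (by linarith [Rr_ge p.1]),
        Complex.norm_exp]
      have : (2 * Real.pi * Complex.I * (p.2 : ℕ) / NN p.1 : ℂ).re = 0 := by
        have : (2 * Real.pi * Complex.I * (p.2 : ℕ) / NN p.1 : ℂ) =
            ((2 * Real.pi * (p.2 : ℕ) / NN p.1 : ℝ) : ℂ) * Complex.I := by
          push_cast; ring
        rw [this, Complex.re_ofReal_mul]; simp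
      rw [this]; simp
    rw [h]
    exact ⟨Rr_ge _, (Rr_lt _).le⟩
  · show 1 ≤ ‖zb b‖ ∧ ‖zb b‖ ≤ 2
    rw [zb_norm]; norm_num

theorem a0_norm_inl (p : Σ j : ℕ, Fin (NN j)) : ‖a0 (Sum.inl p)‖ = Rr p.1 := by
  show ‖ca p.1 p.2‖ = _
  unfold ca
  rw [norm_mul, Complex.norm_real, Real.norm_of_nonneg (by linarith [Rr_ge p.1]),
    Complex.norm_exp]
  have : (2 * Real.pi * Complex.I * (p.2 : ℕ) / NN p.1 : ℂ).re = 0 := by
    have : (2 * Real.pi * Complex.I * (p.2 : ℕ) / NN p.1 : ℂ) =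
        ((2 * Real.pi * (p.2 : ℕ) / NN p.1 : ℝ) : ℂ) * Complex.I := by
      push_cast; ring
    rw [this, Complex.re_ofReal_mul]; simp
  rw [this]; simp

theorem circ_sub : Z1 ⊆ {p : ℂ × ℂ | ‖p.1‖ = 2 ∧ p.2 = 0} := fun _ hp => ⟨hp.1, hp.2.1⟩

theorem Z1_closed : IsClosed Z1 := by
  have h : Z1 = {p : ℂ × ℂ | ‖p.1‖ = 2} ∩ ({p | p.2 = 0} ∩
      ⋂ b : ℕ, ⋂ _ : kept b, {p : ℂ × ℂ | sb b * t0 ≤ ‖p.1 - zb b‖}) := by
    ext p; simp [Z1]
  rw [h]
  refine IsClosed.inter (isClosed_eq (by fun_prop) (by fun_prop)) (IsClosed.inter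
    (isClosed_eq (by fun_prop) (by fun_prop)) ?_)
  exact isClosed_iInter fun b => isClosed_iInter fun _ => isClosed_le (by fun_prop) (by fun_prop)

theorem Z1_td (A : Set (ℂ × ℂ)) (hA : A ⊆ Z1) (hc : IsPreconnected A) : A.Subsingleton := by
  refine circle_td WW (fun z hz hr => ⟨hz, Or.inl hr⟩) (fun z hz hr => ⟨hz, Or.inr hr⟩) A
    (fun p hp => ⟨(hA hp).1, (hA hp).2.1⟩) ?_ hc
  intro p hp hW
  rw [zb_range] at hW
  obtain ⟨n, hn⟩ := hW
  have hp3 := (hA hp).2.2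
  rw [← hn] at hp3
  by_cases hk : kept n
  · have := hp3 n hk
    rw [sub_self, norm_zero] at this
    have h1 := mul_pos (sb_pos n) t0_pos
    linarith
  · rw [kept_iff] at hk
    push Not at hk
    obtain ⟨b, _, hb, hlt⟩ := hk
    exact absurd (hp3 b hb) (not_le.2 hlt)

theorem TK0 (k : I0) : T (a0 k) (s0 k) '' K ⊆ K := by
  rintro _ ⟨p, ⟨h1, h2, h3⟩, rfl⟩
  have hs := s0_pos k
  have hs2 := s0_le k
  have ha := a0_norm k
  have hcc : cc < 1 := cc_lt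
  have hv : ‖(s0 k : ℂ) * p.2‖ ≤ 1 / 2 := by
    rw [norm_mul, Complex.norm_real, Real.norm_of_nonneg hs.le]
    calc s0 k * ‖p.2‖ ≤ 1 / 2 ^ 19 * 1 := mul_le_mul hs2 (h3.trans hcc.le) (norm_nonneg _) (by norm_num)
      _ ≤ 1 / 2 := by norm_num
  refine ⟨?_, ?_, ?_⟩
  · show 1 / 2 ≤ ‖a0 k + (s0 k : ℂ) * p.2‖
    have := norm_sub_norm_le (a0 k) (-((s0 k : ℂ) * p.2))
    rw [norm_neg, sub_neg_eq_add] at this
    linarith [ha.1]
  · show ‖a0 k + (s0 k : ℂ) * p.2‖ ≤ 3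
    have := norm_add_le (a0 k) ((s0 k : ℂ) * p.2)
    linarith [ha.2]
  · show ‖(s0 k : ℂ) * p.1‖ ≤ cc
    rw [norm_mul, Complex.norm_real, Real.norm_of_nonneg hs.le]
    calc s0 k * ‖p.1‖ ≤ 1 / 2 ^ 19 * 3 := mul_le_mul hs2 h2 (norm_nonneg _) (by norm_num)
      _ = cc := by unfold cc; norm_num

theorem TK_snd (k : I0) (p : ℂ × ℂ) (hp : p ∈ T (a0 k) (s0 k) '' K) :
    s0 k / 2 ≤ ‖p.2‖ ∧ ‖p.2‖ ≤ 3 * s0 k := by
  obtain ⟨p, ⟨h1, h2, h3⟩, rfl⟩ := hp
  have hs := s0_pos k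
  show s0 k / 2 ≤ ‖(s0 k : ℂ) * p.1‖ ∧ ‖(s0 k : ℂ) * p.1‖ ≤ 3 * s0 k
  rw [norm_mul, Complex.norm_real, Real.norm_of_nonneg hs.le]
  constructor <;> nlinarith

theorem TK_fst (k : I0) (p : ℂ × ℂ) (hp : p ∈ T (a0 k) (s0 k) '' K) :
    ‖p.1 - a0 k‖ ≤ s0 k * cc := by
  obtain ⟨p, ⟨h1, h2, h3⟩, rfl⟩ := hp
  have hs := s0_pos k
  show ‖a0 k + (s0 k : ℂ) * p.2 - a0 k‖ ≤ s0 k * cc
  rw [add_sub_cancel_left, norm_mul, Complex.norm_real, Real.norm_of_nonneg hs.le]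
  exact mul_le_mul_of_nonneg_left h3 hs.le

theorem disjZ0 (k : I0) : Disjoint (T (a0 k) (s0 k) '' K) Z1 := by
  rw [disjoint_left]
  intro p hp hZ
  have h1 := (TK_snd k p hp).1
  rw [hZ.2.1, norm_zero] at h1
  linarith [s0_pos k]

/-- comparable scales have close exponents -/
theorem ex_close (k l : I0) (h : s0 k ≤ 6 * s0 l) : ex0 l ≤ ex0 k + 2 := by
  by_contra hcon
  push Not at hcon
  rw [s0_eq, s0_eq] at h
  have h1 : (2 : ℝ) ^ ex0 k * 8 ≤ 2 ^ ex0 l := by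
    calc (2 : ℝ) ^ ex0 k * 8 = 2 ^ (ex0 k + 3) := by rw [pow_add]; norm_num
      _ ≤ 2 ^ ex0 l := pow_le_pow_right₀ (by norm_num) (by omega)
  have hp : (0 : ℝ) < 2 ^ ex0 k := by positivity
  have h2 : (1 : ℝ) / 2 ^ ex0 l ≤ 1 / (2 ^ ex0 k * 8) := one_div_le_one_div_of_le (by positivity) h1
  have h3 : (1 : ℝ) / (2 ^ ex0 k * 8) = (1 / 2 ^ ex0 k) / 8 := by rw [div_div]
  have h4 : (0 : ℝ) < 1 / 2 ^ ex0 k := by positivity
  rw [h3] at h2
  linarith

theorem NNsc (j : ℕ) : (NN j : ℝ) * sc j ≤ 1 := by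
  have h1 : 420 * j + 904 ≤ 2 ^ (18 * j + 13) := by
    induction j with
    | zero => norm_num
    | succ n ih =>
      rw [show 18 * (n + 1) + 13 = (18 * n + 13) + 18 by ring, pow_add]
      have : 1 ≤ 2 ^ (18 * n + 13) := Nat.one_le_two_pow
      omega
  unfold NN sc
  rw [mul_one_div, div_le_one (by positivity)]
  have h2 : 2 ^ (j + 2) * (420 * j + 904) ≤ 2 ^ (20 * j + 19) := by
    calc 2 ^ (j + 2) * (420 * j + 904) ≤ 2 ^ (j + 2) * 2 ^ (18 * j + 13) := Nat.mul_le_mul_left _ h1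
      _ = 2 ^ (19 * j + 15) := by rw [← pow_add]; congr 1; ring
      _ ≤ 2 ^ (20 * j + 19) := Nat.pow_le_pow_right (by norm_num) (by omega)
  exact_mod_cast h2

theorem disj0 (k l : I0) (hkl : k ≠ l) :
    Disjoint (T (a0 k) (s0 k) '' K) (T (a0 l) (s0 l) '' K) := by
  rw [disjoint_left]
  intro p hk hl
  obtain ⟨k1, k2⟩ := TK_snd k p hk
  obtain ⟨l1, l2⟩ := TK_snd l p hl
  have e1 := ex_close k l (by linarith)
  have e2 := ex_close l k (by linarith)
  have f1 := TK_fst k p hk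
  have f2 := TK_fst l p hl
  rcases k with ⟨j, i⟩ | b <;> rcases l with ⟨j', i'⟩ | b'
  · have e1' : 20 * j' + 19 ≤ 20 * j + 19 + 2 := e1
    have e2' : 20 * j + 19 ≤ 20 * j' + 19 + 2 := e2
    have hj : j = j' := by omega
    subst hj
    have hii : (i : ℕ) ≠ i' := by
      intro h
      apply hkl
      have : i = i' := Fin.ext h
      rw [this]
    have f1' : ‖p.1 - ca j i‖ ≤ sc j * cc := f1
    have f2' : ‖p.1 - ca j i'‖ ≤ sc j * cc := f2
    have hsep := roots_sep (NN j) i i' (NN_pos j) i.2 i'.2 hii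
    have hR := Rr_ge j
    have hd : ‖ca j i - ca j i'‖ ≤ 2 * (sc j * cc) := by
      calc ‖ca j i - ca j i'‖ = ‖(p.1 - ca j i') - (p.1 - ca j i)‖ := by ring_nf
        _ ≤ ‖p.1 - ca j i'‖ + ‖p.1 - ca j i‖ := norm_sub_le _ _
        _ ≤ _ := by linarith
    have hd2 : 4 / (NN j : ℝ) ≤ ‖ca j i - ca j i'‖ := by
      unfold ca
      rw [← mul_sub, norm_mul, Complex.norm_real, Real.norm_of_nonneg (by linarith)]
      have h0 : (0 : ℝ) ≤ 4 / (NN j : ℝ) := by positivity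
      nlinarith
    have hN : (0 : ℝ) < NN j := by exact_mod_cast NN_pos j
    have h3 : 4 / (NN j : ℝ) ≤ 2 * (sc j * cc) := hd2.trans hd
    rw [div_le_iff₀ hN] at h3
    have h4 := NNsc j
    have h5 := cc_lt
    have h6 := cc_pos
    nlinarith [mul_pos hN (sc_pos j)]
  · have e1' : 20 * b' + 30 ≤ 20 * j + 19 + 2 := e1
    have e2' : 20 * j + 19 ≤ 20 * b' + 30 + 2 := e2
    omega
  · have e1' : 20 * j' + 19 ≤ 20 * b + 30 + 2 := e1
    have e2' : 20 * b + 30 ≤ 20 * j' + 19 + 2 := e2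
    omega
  · have e1' : 20 * b' + 30 ≤ 20 * b + 30 + 2 := e1
    have e2' : 20 * b + 30 ≤ 20 * b' + 30 + 2 := e2
    apply hkl
    congr 1
    omega

theorem ssum1 : ∑' k : II, ENNReal.ofReal (ss k) ≤ 1 / 2 := by
  refine le_trans ?_ scales_sum
  exact ENNReal.tsum_comp_le_tsum_of_injective Subtype.val_injective
    (fun k : I0 => ENNReal.ofReal (s0 k))

theorem fin_scale (e : ℝ) (he : 0 < e) : {k : II | e ≤ ss k}.Finite := by
  have h := ENNReal.finite_const_le_of_tsum_ne_top (a := fun k : II => ENNReal.ofReal (ss k))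
    (ne_top_of_le_ne_top (by norm_num) ssum1) (ε := ENNReal.ofReal e) (by simpa using he)
  refine h.subset ?_
  intro k hk
  exact ENNReal.ofReal_le_ofReal hk

theorem lf1 (x : ℂ × ℂ) (hx : x ∉ Z1) :
    ∃ U ∈ 𝓝 x, {k : II | (T (aa k) (ss k) '' K ∩ U).Nonempty}.Finite := by
  by_cases h2 : x.2 = 0
  swap
  · have hpos : 0 < ‖x.2‖ := norm_pos_iff.2 h2
    refine ⟨{p | ‖x.2‖ / 2 < ‖p.2‖}, ?_, ?_⟩
    · have ho : IsOpen {p : ℂ × ℂ | ‖x.2‖ / 2 < ‖p.2‖} := isOpen_lt (by fun_prop) (by fun_prop)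
      exact ho.mem_nhds (by show ‖x.2‖ / 2 < ‖x.2‖; linarith)
    · refine (fin_scale (‖x.2‖ / 6) (by positivity)).subset ?_
      rintro k ⟨p, hp, hpU⟩
      have h1 := (TK_snd k.1 p hp).2
      have h3 : ‖x.2‖ / 2 < ‖p.2‖ := hpU
      show ‖x.2‖ / 6 ≤ s0 k.1
      linarith
  by_cases h1 : ‖x.1‖ = 2
  swap
  · set d := |‖x.1‖ - 2| with hd
    have hdpos : 0 < d := abs_pos.2 (sub_ne_zero.2 h1)
    refine ⟨{p | d / 2 < |‖p.1‖ - 2|}, ?_, ?_⟩
    · have ho : IsOpen {p : ℂ × ℂ | d / 2 < |‖p.1‖ - 2|} := isOpen_lt (by fun_prop) (by fun_prop)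
      exact ho.mem_nhds (by show d / 2 < |‖x.1‖ - 2|; linarith)
    · refine (fin_scale (min (d / 4) ((d / 4) ^ 20 / 2 ^ 19)) (by positivity)).subset ?_
      rintro k ⟨p, hp, hpU⟩
      have hf := TK_fst k.1 p hp
      have hpU' : d / 2 < |‖p.1‖ - 2| := hpU
      show _ ≤ s0 k.1
      have hs := s0_pos k.1
      have hcc := cc_lt
      have h5 : |‖p.1‖ - ‖a0 k.1‖| ≤ s0 k.1 := by
        refine (abs_norm_sub_norm_le _ _).trans (hf.trans ?_)
        nlinarith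
      have h6 : d / 2 - s0 k.1 ≤ |‖a0 k.1‖ - 2| := by
        have : |‖p.1‖ - 2| ≤ |‖p.1‖ - ‖a0 k.1‖| + |‖a0 k.1‖ - 2| := abs_sub_le _ _ _
        linarith
      by_contra hcon
      push Not at hcon
      have hc1 : s0 k.1 < d / 4 := lt_of_lt_of_le hcon (min_le_left _ _)
      have hc2 : s0 k.1 < (d / 4) ^ 20 / 2 ^ 19 := lt_of_lt_of_le hcon (min_le_right _ _)
      rcases k with ⟨⟨j, i⟩ | b, hv⟩
      · have h7 : ‖a0 (Sum.inl ⟨j, i⟩)‖ = Rr j := a0_norm_inl ⟨j, i⟩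
        simp only at h6 hc1 hc2
        rw [h7] at h6
        have h8 : |Rr j - 2| = (1 / 2) ^ j := by
          unfold Rr
          rw [show (2 : ℝ) - (1 / 2) ^ j - 2 = -((1 / 2) ^ j) by ring, abs_neg, abs_of_nonneg (by positivity)]
        rw [h8] at h6
        have h9 : d / 4 ≤ (1 / 2 : ℝ) ^ j := by linarith
        have h10 : (d / 4) ^ 20 ≤ ((1 / 2 : ℝ) ^ j) ^ 20 := pow_le_pow_left₀ (by positivity) h9 20
        have h11 : s0 (Sum.inl ⟨j, i⟩) = ((1 / 2 : ℝ) ^ j) ^ 20 / 2 ^ 19 := by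
          show sc j = _
          unfold sc
          rw [← pow_mul, mul_comm j 20, one_div_pow, pow_add, div_div]
        rw [h11] at hc2
        have h12 : (d / 4) ^ 20 / 2 ^ 19 ≤ ((1 / 2 : ℝ) ^ j) ^ 20 / 2 ^ 19 :=
          div_le_div_of_nonneg_right h10 (by positivity)
        linarith
      · have h7 : ‖a0 (Sum.inr b)‖ = 2 := zb_norm b
        simp only at h6 hc1 hc2
        rw [h7, sub_self, abs_zero] at h6
        linarith
  have hex : ∃ b, kept b ∧ ‖x.1 - zb b‖ < sb b * t0 := by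
    by_contra hcon
    push Not at hcon
    exact hx ⟨h1, h2, hcon⟩
  obtain ⟨b, hb, hlt⟩ := hex
  set d := sb b * t0 - ‖x.1 - zb b‖ with hd
  have hdpos : 0 < d := by rw [hd]; linarith
  refine ⟨{p | ‖p.1 - x.1‖ < d / 2}, ?_, ?_⟩
  · exact (isOpen_lt (by fun_prop) (by fun_prop)).mem_nhds (by
      show ‖x.1 - x.1‖ < d / 2
      rw [sub_self, norm_zero]; linarith)
  · refine (fin_scale (min (d / 4) (sb b)) (lt_min (by positivity) (sb_pos b))).subset ?_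
    rintro k ⟨p, hp, hpU⟩
    have hf := TK_fst k.1 p hp
    have hpU' : ‖p.1 - x.1‖ < d / 2 := hpU
    show _ ≤ s0 k.1
    have hs := s0_pos k.1
    have hcc := cc_lt
    by_contra hcon
    push Not at hcon
    have hc1 : s0 k.1 < d / 4 := lt_of_lt_of_le hcon (min_le_left _ _)
    have hc2 : s0 k.1 < sb b := lt_of_lt_of_le hcon (min_le_right _ _)
    have h5 : ‖a0 k.1 - zb b‖ < d / 2 + s0 k.1 + ‖x.1 - zb b‖ := by
      calc ‖a0 k.1 - zb b‖ = ‖-(p.1 - a0 k.1) + (p.1 - x.1) + (x.1 - zb b)‖ := by ring_nf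
        _ ≤ ‖-(p.1 - a0 k.1)‖ + ‖p.1 - x.1‖ + ‖x.1 - zb b‖ := norm_add₃_le
        _ < _ := by
            rw [norm_neg]
            have : s0 k.1 * cc ≤ s0 k.1 := by nlinarith
            linarith
    have ht0 : t0 < 1 := by unfold t0; norm_num
    rcases k with ⟨⟨j, i⟩ | b', hv⟩
    · have hv' := hv b hb
      apply hv'
      refine ⟨?_, hc2.le⟩
      have h6 : ‖ca j i - zb b‖ < d / 2 + sc j + ‖x.1 - zb b‖ := h5
      have h7 : sc j < d / 4 := hc1
      have h8 : sc j * t0 ≤ sc j := by nlinarith [sc_pos j]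
      linarith
    · have hk' : kept b' := hv
      have h6 : ‖zb b' - zb b‖ < d / 2 + sb b' + ‖x.1 - zb b‖ := h5
      have h7 : sb b' < d / 4 := hc1
      have h8 : sb b' < sb b := hc2
      have hbb : b < b' := by
        by_contra hle
        push Not at hle
        have : sb b ≤ sb b' := by
          unfold sb
          apply one_div_le_one_div_of_le (by positivity)
          exact pow_le_pow_right₀ (by norm_num) (by omega)
        linarith
      have h9 := (kept_iff b').1 hk' b hbb hb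
      linarith

end Pool.Agent.Helper459.FL
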