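import Pool.Agent.Helper459.FLDefs

set_option autoImplicit false
open scoped MeasureTheory ENNReal NNReal Topology
open Set Filter

namespace Pool.Agent.Helper459.FL

theorem T_inj (a : ℂ) (s : ℝ) (hs : 0 < s) : Function.Injective (T a s) := by
  intro p q h
  have hs' : (s : ℂ) ≠ 0 := by exact_mod_cast hs.ne'
  simp only [T, Prod.mk.injEq] at h
  have h1 : p.2 = q.2 := by
    have := add_left_cancel h.1
    exact mul_left_cancel₀ hs' this
  have h2 : p.1 = q.1 := mul_left_cancel₀ hs' h.2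
  exact Prod.ext h2 h1

theorem T_cont (a : ℂ) (s : ℝ) : Continuous (T a s) := by
  unfold T; fun_prop

theorem T_diff (a : ℂ) (s : ℝ) : Differentiable ℂ (T a s) := by
  unfold T; fun_prop

theorem T_dist (a : ℂ) (s : ℝ) (hs : 0 < s) (p q : ℂ × ℂ) :
    dist (T a s p) (T a s q) = s * dist p q := by
  simp only [T, Prod.dist_eq]
  rw [dist_add_left, Complex.dist_eq, Complex.dist_eq, ← mul_sub, ← mul_sub, norm_mul, norm_mul,
    Complex.norm_real, Real.norm_of_nonneg hs.le, ← Complex.dist_eq, ← Complex.dist_eq,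
    ← mul_max_of_nonneg _ _ hs.le, max_comm]

theorem T_inv (a : ℂ) (s : ℝ) (hs : 0 < s) (p : ℂ × ℂ) :
    T a s (p.2 / (s : ℂ), (p.1 - a) / (s : ℂ)) = p := by
  have hs' : (s : ℂ) ≠ 0 := by exact_mod_cast hs.ne'
  simp only [T]
  ext1
  · simp only; rw [mul_div_cancel₀ _ hs']; ring
  · simp only; rw [mul_div_cancel₀ _ hs']

theorem K_closed : IsClosed K := by
  have h : K = {p : ℂ × ℂ | 1 / 2 ≤ ‖p.1‖} ∩ ({p | ‖p.1‖ ≤ 3} ∩ {p | ‖p.2‖ ≤ cc}) := by
    ext p; simp [K]
  rw [h]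
  refine IsClosed.inter (isClosed_le (by fun_prop) (by fun_prop))
    (IsClosed.inter (isClosed_le (by fun_prop) (by fun_prop))
      (isClosed_le (by fun_prop) (by fun_prop)))

theorem cc_pos : 0 < cc := by unfold cc; positivity

theorem cc_lt : cc < 1 := by unfold cc; norm_num

theorem K_compact : IsCompact K := by
  refine Metric.isCompact_of_isClosed_isBounded K_closed ?_
  refine (Metric.isBounded_closedBall (x := (0 : ℂ × ℂ)) (r := 3)).subset ?_
  intro p hp
  rw [Metric.mem_closedBall, dist_zero_right]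
  exact max_le hp.2.1 (hp.2.2.trans (cc_lt.le.trans (by norm_num)))

theorem K_dist (p q : ℂ × ℂ) (hp : p ∈ K) (hq : q ∈ K) : dist p q ≤ 6 := by
  have h1 : ‖p‖ ≤ 3 := max_le hp.2.1 (hp.2.2.trans (cc_lt.le.trans (by norm_num)))
  have h2 : ‖q‖ ≤ 3 := max_le hq.2.1 (hq.2.2.trans (cc_lt.le.trans (by norm_num)))
  calc dist p q ≤ dist p 0 + dist 0 q := dist_triangle _ _ _
    _ ≤ 6 := by rw [dist_zero_right, dist_zero_left]; linarith

/-- locally finite off `Z` union is closed -/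
theorem closed_union {E ι : Type} [TopologicalSpace E] (Z : Set E) (hZ : IsClosed Z)
    (C D : ι → Set E) (hCD : ∀ k, C k ⊆ D k) (hC : ∀ k, IsClosed (C k))
    (lf : ∀ x, x ∉ Z → ∃ U ∈ 𝓝 x, {k | (D k ∩ U).Nonempty}.Finite) :
    IsClosed (Z ∪ ⋃ k, C k) := by
  rw [← isOpen_compl_iff, isOpen_iff_mem_nhds]
  intro x hx
  have hxZ : x ∉ Z := fun h => hx (Or.inl h)
  have hxC : ∀ k, x ∉ C k := fun k h => hx (Or.inr (mem_iUnion.2 ⟨k, h⟩))
  obtain ⟨U, hU, hfin⟩ := lf x hxZ
  have h1 : Zᶜ ∈ 𝓝 x := hZ.isOpen_compl.mem_nhds hxZ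
  have h2 : (⋂ k ∈ {k | (D k ∩ U).Nonempty}, (C k)ᶜ) ∈ 𝓝 x := by
    rw [biInter_mem hfin]
    intro k _
    exact (hC k).isOpen_compl.mem_nhds (hxC k)
  filter_upwards [hU, h1, h2] with y hyU hyZ hyI hy
  rcases hy with hy | hy
  · exact hyZ hy
  · obtain ⟨k, hk⟩ := mem_iUnion.1 hy
    have : k ∈ {k | (D k ∩ U).Nonempty} := ⟨y, hCD k hk, hyU⟩
    exact mem_iInter₂.1 hyI k this hk

variable {ι : Type} {a : ι → ℂ} {s : ι → ℝ} {Z : Set (ℂ × ℂ)}

theorem KK_sub (h : Good a s Z) : ∀ n, KK a s Z n ⊆ K := by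
  intro n
  induction n with
  | zero => exact subset_rfl
  | succ n ih =>
    rintro x (hx | hx)
    · exact h.ZK hx
    · obtain ⟨k, hk⟩ := mem_iUnion.1 hx
      exact h.TK k (image_mono ih hk)

theorem KK_anti_succ (h : Good a s Z) : ∀ n, KK a s Z (n + 1) ⊆ KK a s Z n := by
  intro n
  induction n with
  | zero => exact KK_sub h 1
  | succ n ih =>
    rintro x (hx | hx)
    · exact Or.inl hx
    · obtain ⟨k, hk⟩ := mem_iUnion.1 hx
      exact Or.inr (mem_iUnion.2 ⟨k, image_mono ih hk⟩)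

theorem KK_anti (h : Good a s Z) : Antitone (KK a s Z) :=
  antitone_nat_of_succ_le (KK_anti_succ h)

theorem KK_closed (h : Good a s Z) : ∀ n, IsClosed (KK a s Z n) := by
  intro n
  induction n with
  | zero => exact K_closed
  | succ n ih =>
    refine closed_union Z h.Zcl _ (fun k => T (a k) (s k) '' K) ?_ ?_ h.lf
    · intro k; exact image_mono (KK_sub h n)
    · intro k
      exact ((K_compact.of_isClosed_subset ih (KK_sub h n)).image (T_cont _ _)).isClosed

theorem KK_compact (h : Good a s Z) (n : ℕ) : IsCompact (KK a s Z n) :=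
  K_compact.of_isClosed_subset (KK_closed h n) (KK_sub h n)

theorem XX_closed (h : Good a s Z) : IsClosed (XX a s Z) := isClosed_iInter (KK_closed h)

theorem XX_sub (h : Good a s Z) : XX a s Z ⊆ K := (iInter_subset _ 0).trans (KK_sub h 0)

theorem XX_compact (h : Good a s Z) : IsCompact (XX a s Z) :=
  K_compact.of_isClosed_subset (XX_closed h) (XX_sub h)

/-- `X ∩ T_k K = T_k X` -/
theorem XX_inter (h : Good a s Z) (k : ι) : XX a s Z ∩ T (a k) (s k) '' K = T (a k) (s k) '' XX a s Z := by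
  apply Subset.antisymm
  · rintro x ⟨hx, y, hy, rfl⟩
    refine ⟨y, ?_, rfl⟩
    refine mem_iInter.2 fun n => ?_
    have hx' := mem_iInter.1 hx (n + 1)
    rcases hx' with hx' | hx'
    · exact ((h.disjZ k).le_bot ⟨mem_image_of_mem _ hy, hx'⟩).elim
    · obtain ⟨l, hl⟩ := mem_iUnion.1 hx'
      by_cases hkl : k = l
      · subst hkl
        obtain ⟨y', hy', he⟩ := hl
        rw [← T_inj _ _ (h.spos k) he]
        exact hy'
      · exact ((h.disj k l hkl).le_bot ⟨mem_image_of_mem _ hy, image_mono (KK_sub h n) hl⟩).elim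
  · rintro x ⟨y, hy, rfl⟩
    refine ⟨?_, mem_image_of_mem _ (XX_sub h hy)⟩
    refine mem_iInter.2 fun n => ?_
    refine KK_anti_succ h n ?_
    exact Or.inr (mem_iUnion.2 ⟨k, mem_image_of_mem _ (mem_iInter.1 hy n)⟩)

theorem XX_cases (_h : Good a s Z) (x : ℂ × ℂ) (hx : x ∈ XX a s Z) :
    x ∈ Z ∨ ∃ k, x ∈ T (a k) (s k) '' K := by
  rcases mem_iInter.1 hx 1 with hx' | hx'
  · exact Or.inl hx'
  · obtain ⟨k, hk⟩ := mem_iUnion.1 hx'
    exact Or.inr ⟨k, hk⟩

/-- the rest after removing one piece is closed -/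
theorem rest_closed (h : Good a s Z) (k : ι) :
    IsClosed (Z ∪ ⋃ l : {l // l ≠ k}, T (a l) (s l) '' K) := by
  refine closed_union Z h.Zcl _ (fun l : {l // l ≠ k} => T (a l) (s l) '' K) (fun _ => subset_rfl) ?_ ?_
  · intro l; exact (K_compact.image (T_cont _ _)).isClosed
  · intro x hx
    obtain ⟨U, hU, hf⟩ := h.lf x hx
    refine ⟨U, hU, ?_⟩
    exact Set.Finite.preimage (f := (Subtype.val : {l // l ≠ k} → ι)) Subtype.val_injective.injOn hf

theorem conn_dichotomy (h : Good a s Z) (A : Set (ℂ × ℂ)) (hA : A ⊆ XX a s Z)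
    (hc : IsPreconnected A) (k : ι) (hne : (A ∩ T (a k) (s k) '' K).Nonempty) :
    A ⊆ T (a k) (s k) '' K := by
  have h1 : IsClosed (T (a k) (s k) '' K) := (K_compact.image (T_cont _ _)).isClosed
  have h2 := rest_closed h k
  have hcov : A ⊆ T (a k) (s k) '' K ∪ (Z ∪ ⋃ l : {l // l ≠ k}, T (a l) (s l) '' K) := by
    intro x hx
    rcases XX_cases h x (hA hx) with hx' | ⟨l, hl⟩
    · exact Or.inr (Or.inl hx')
    · by_cases hlk : l = k
      · subst hlk; exact Or.inl hl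
      · exact Or.inr (Or.inr (mem_iUnion.2 ⟨⟨l, hlk⟩, hl⟩))
  have hdis : Disjoint (T (a k) (s k) '' K) (Z ∪ ⋃ l : {l // l ≠ k}, T (a l) (s l) '' K) := by
    rw [disjoint_union_right]
    refine ⟨h.disjZ k, ?_⟩
    rw [disjoint_iUnion_right]
    intro l
    exact h.disj k l (Ne.symm l.2)
  by_contra hcon
  obtain ⟨y, hyA, hyn⟩ := not_subset.1 hcon
  have hy2 : (A ∩ (Z ∪ ⋃ l : {l // l ≠ k}, T (a l) (s l) '' K)).Nonempty := by
    refine ⟨y, hyA, ?_⟩
    rcases hcov hyA with h' | h'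
    · exact (hyn h').elim
    · exact h'
  obtain ⟨w, hwA, hw1, hw2⟩ := (isPreconnected_closed_iff.1 hc) _ _ h1 h2 hcov hne hy2
  exact hdis.le_bot ⟨hw1, hw2⟩

theorem XX_td (h : Good a s Z) : ∀ n : ℕ, ∀ A, A ⊆ XX a s Z → IsPreconnected A →
    ∀ x ∈ A, ∀ y ∈ A, dist x y ≤ 6 * (1 / 2) ^ n := by
  intro n
  induction n with
  | zero =>
    intro A hA _ x hx y hy
    simpa using K_dist x y (XX_sub h (hA hx)) (XX_sub h (hA hy))
  | succ n ih =>
    intro A hA hc x hx y hy
    by_cases hAZ : A ⊆ Z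
    · rw [h.Ztd A hAZ hc hx hy, dist_self]; positivity
    · obtain ⟨z, hzA, hzZ⟩ := not_subset.1 hAZ
      rcases XX_cases h z (hA hzA) with hz | ⟨k, hk⟩
      · exact (hzZ hz).elim
      · have hsub := conn_dichotomy h A hA hc k ⟨z, hzA, hk⟩
        have hsub2 : A ⊆ T (a k) (s k) '' XX a s Z := by
          rw [← XX_inter h k]; exact subset_inter hA hsub
        -- pull back
        let S : ℂ × ℂ → ℂ × ℂ := fun p => (p.2 / (s k : ℂ), (p.1 - a k) / (s k : ℂ))
        have hS : Continuous S := by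
          have hs' : (s k : ℂ) ≠ 0 := by exact_mod_cast (h.spos k).ne'
          show Continuous fun p : ℂ × ℂ => (p.2 / (s k : ℂ), (p.1 - a k) / (s k : ℂ))
          fun_prop
        have hST : ∀ p, S (T (a k) (s k) p) = p := by
          intro p
          apply T_inj _ _ (h.spos k)
          exact T_inv _ _ (h.spos k) _
        have hSA : S '' A ⊆ XX a s Z := by
          rintro _ ⟨p, hp, rfl⟩
          obtain ⟨p', hp', rfl⟩ := hsub2 hp
          rw [hST]; exact hp'
        have hcS : IsPreconnected (S '' A) := hc.image S hS.continuousOn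
        have hd := ih (S '' A) hSA hcS (S x) (mem_image_of_mem _ hx) (S y) (mem_image_of_mem _ hy)
        obtain ⟨x', hx', rfl⟩ := hsub2 hx
        obtain ⟨y', hy', rfl⟩ := hsub2 hy
        rw [hST, hST] at hd
        rw [T_dist _ _ (h.spos k)]
        have h1 := h.sle k
        have h2 := h.spos k
        have h3 : (0 : ℝ) ≤ dist x' y' := dist_nonneg
        calc s k * dist x' y' ≤ 1 / 2 * (6 * (1 / 2) ^ n) := mul_le_mul h1 hd h3 (by norm_num)
          _ = 6 * (1 / 2) ^ (n + 1) := by ring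

theorem XX_totally (h : Good a s Z) : IsTotallyDisconnected (XX a s Z) := by
  intro A hA hc x hx y hy
  have h1 := fun n => XX_td h n A hA hc x hx y hy
  have h2 : Tendsto (fun n : ℕ => 6 * (1 / 2 : ℝ) ^ n) atTop (𝓝 (6 * 0)) :=
    (tendsto_pow_atTop_nhds_zero_of_lt_one (by norm_num) (by norm_num)).const_mul _
  have h3 : dist x y ≤ 6 * 0 := ge_of_tendsto' h2 h1
  rw [mul_zero] at h3
  exact dist_le_zero.1 h3

end Pool.Agent.Helper459.FL
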