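import Mathlib

set_option autoImplicit false

namespace Pool.Agent.Helper459.KN.Holo

open Metric Set Filter Topology Asymptotics

section General

variable {E F : Type*} [NormedAddCommGroup E] [NormedSpace ℂ E]
  [NormedAddCommGroup F] [NormedSpace ℂ F]

/-- Second order Taylor estimate for a bounded holomorphic map. -/
theorem norm_sub_sub_fderiv_le {f : E → F} {c : E} {R M : ℝ} (hR : 0 < R)
    (hd : DifferentiableOn ℂ f (ball c R)) (hM : ∀ z ∈ ball c R, ‖f z‖ ≤ M) {w : E}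
    (hw : w ∈ ball c R) :
    ‖f w - f c - fderiv ℂ f c (w - c)‖ ≤ 4 * M * (‖w - c‖ / R) ^ 2 := by
  have hcc : c ∈ ball c R := mem_ball_self hR
  have hM0 : 0 ≤ M := (norm_nonneg _).trans (hM c hcc)
  have hmaps : MapsTo f (ball c R) (closedBall (f c) (2 * M)) := by
    intro z hz
    rw [mem_closedBall, dist_eq_norm]
    calc ‖f z - f c‖ ≤ ‖f z‖ + ‖f c‖ := norm_sub_le _ _
      _ ≤ 2 * M := by linarith [hM z hz, hM c hcc]
  have hfd : ‖fderiv ℂ f c‖ ≤ 2 * M / R := Complex.norm_fderiv_le_div_of_mapsTo_ball hd hmaps hR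
  have hdc : DifferentiableAt ℂ f c := hd.differentiableAt (ball_mem_nhds _ hR)
  set g : E → F := fun z => f z - f c - fderiv ℂ f c (z - c) with hg
  have hgd : DifferentiableOn ℂ g (ball c R) := by
    intro z hz
    have h1 : DifferentiableAt ℂ f z := hd.differentiableAt (isOpen_ball.mem_nhds hz)
    exact (by fun_prop : DifferentiableAt ℂ g z).differentiableWithinAt
  have hgc : g c = 0 := by simp [hg]
  have hgmaps : MapsTo g (ball c R) (closedBall (g c) (4 * M)) := by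
    intro z hz
    rw [mem_closedBall, dist_eq_norm, hgc, sub_zero]
    have h1 : ‖f z - f c‖ ≤ 2 * M := by
      have := hmaps hz
      rwa [mem_closedBall, dist_eq_norm] at this
    have h2 : ‖fderiv ℂ f c (z - c)‖ ≤ 2 * M := by
      calc ‖fderiv ℂ f c (z - c)‖ ≤ ‖fderiv ℂ f c‖ * ‖z - c‖ := ContinuousLinearMap.le_opNorm _ _
        _ ≤ (2 * M / R) * R := by
            apply mul_le_mul hfd _ (norm_nonneg _) (by positivity)
            rw [mem_ball, dist_eq_norm] at hz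
            exact hz.le
        _ = 2 * M := by field_simp
    calc ‖g z‖ ≤ ‖f z - f c‖ + ‖fderiv ℂ f c (z - c)‖ := norm_sub_le _ _
      _ ≤ 4 * M := by linarith
  have hn : (g · - g c) =o[𝓝 c] (fun w ↦ ‖w - c‖ ^ 1) := by
    have := hdc.hasFDerivAt.isLittleO
    simp only [hgc, sub_zero, pow_one]
    exact this.norm_right
  have := Complex.dist_le_mul_div_pow_of_mapsTo_ball_of_isLittleO hgd hgmaps hn hw
  rw [hgc, dist_zero_right, dist_eq_norm] at this
  simpa only [hg] using this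

omit [NormedSpace ℂ E] in
theorem ball_half_subset {c w : E} {R : ℝ} (hw : w ∈ ball c (R / 2)) :
    ball w (R / 2) ⊆ ball c R := by
  intro x hx
  rw [mem_ball] at *
  calc dist x c ≤ dist x w + dist w c := dist_triangle _ _ _
    _ < R := by linarith

/-- Lipschitz type bound for bounded holomorphic maps. -/
theorem lipschitz_half {f : E → F} {c : E} {R M : ℝ}
    (hd : DifferentiableOn ℂ f (ball c R)) (hM : ∀ z ∈ ball c R, ‖f z‖ ≤ M) {w z : E}
    (hw : w ∈ ball c (R / 2)) (hz : z ∈ ball w (R / 2)) :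
    ‖f z - f w‖ ≤ 4 * M / R * ‖z - w‖ := by
  have hsub := ball_half_subset hw
  have hR : 0 < R / 2 := (dist_nonneg).trans_lt (mem_ball.1 hw)
  have hmaps : MapsTo f (ball w (R / 2)) (closedBall (f w) (2 * M)) := by
    intro x hx
    rw [mem_closedBall, dist_eq_norm]
    calc ‖f x - f w‖ ≤ ‖f x‖ + ‖f w‖ := norm_sub_le _ _
      _ ≤ 2 * M := by linarith [hM x (hsub hx), hM w (hsub (mem_ball_self hR))]
  have := Complex.dist_le_div_mul_dist_of_mapsTo_ball (hd.mono hsub) hmaps hz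
  rw [dist_eq_norm, dist_eq_norm] at this
  calc _ ≤ _ := this
    _ = _ := by
      have : R ≠ 0 := by linarith
      field_simp; ring

theorem norm_fderiv_le_half {f : E → F} {c : E} {R M : ℝ}
    (hd : DifferentiableOn ℂ f (ball c R)) (hM : ∀ z ∈ ball c R, ‖f z‖ ≤ M) {w : E}
    (hw : w ∈ ball c (R / 2)) :
    ‖fderiv ℂ f w‖ ≤ 4 * M / R := by
  have hsub := ball_half_subset hw
  have hR : 0 < R / 2 := (dist_nonneg).trans_lt (mem_ball.1 hw)
  have hmaps : MapsTo f (ball w (R / 2)) (closedBall (f w) (2 * M)) := by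
    intro x hx
    rw [mem_closedBall, dist_eq_norm]
    calc ‖f x - f w‖ ≤ ‖f x‖ + ‖f w‖ := norm_sub_le _ _
      _ ≤ 2 * M := by linarith [hM x (hsub hx), hM w (hsub (mem_ball_self hR))]
  have := Complex.norm_fderiv_le_div_of_mapsTo_ball (hd.mono hsub) hmaps hR
  calc _ ≤ _ := this
    _ = _ := by
      have : R ≠ 0 := by linarith
      field_simp; ring

/-- Uniform limits of holomorphic maps are holomorphic. -/
theorem differentiableOn_of_uniform_limit [CompleteSpace F] {f : ℕ → E → F} {g : E → F} {c : E}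
    {R : ℝ} (hf : ∀ n, DifferentiableOn ℂ (f n) (ball c R))
    (hlim : TendstoUniformlyOn f g atTop (ball c R)) :
    DifferentiableOn ℂ g (ball c (R / 2)) := by
  rcases le_or_gt R 0 with hR | hR
  · rw [ball_eq_empty.2 (by linarith)]
    exact differentiableOn_empty
  have hc : UniformCauchySeqOn (fun n => fderiv ℂ (f n)) atTop (ball c (R / 2)) := by
    rw [Metric.uniformCauchySeqOn_iff]
    intro ε hε
    obtain ⟨N, hN⟩ := Metric.uniformCauchySeqOn_iff.1 hlim.uniformCauchySeqOn (ε * R / 8)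
      (by positivity)
    refine ⟨N, fun m hm n hn w hw => ?_⟩
    have hsub := ball_half_subset hw
    have hR2 : 0 < R / 2 := by linarith
    have hwm : w ∈ ball c R := hsub (mem_ball_self hR2)
    have e1 : fderiv ℂ (f m) w - fderiv ℂ (f n) w = fderiv ℂ (fun x => f m x - f n x) w := by
      rw [fderiv_fun_sub ((hf m).differentiableAt (isOpen_ball.mem_nhds hwm))
        ((hf n).differentiableAt (isOpen_ball.mem_nhds hwm))]
    rw [dist_eq_norm, e1]
    have := norm_fderiv_le_half (f := fun x => f m x - f n x) (c := c) (R := R) (M := ε * R / 8)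
      ((hf m).sub (hf n)) (fun z hz => by
        have := hN m hm n hn z hz
        rw [dist_eq_norm] at this
        exact this.le) hw
    calc _ ≤ _ := this
      _ = ε / 2 := by field_simp; ring
      _ < ε := by linarith
  have hex : ∀ x ∈ ball c (R / 2), ∃ L : E →L[ℂ] F,
      Tendsto (fun n => fderiv ℂ (f n) x) atTop (𝓝 L) := by
    intro x hx
    exact cauchySeq_tendsto_of_complete (hc.cauchySeq hx)
  choose! g' hg' using hex
  have hu : TendstoUniformlyOn (fun n => fderiv ℂ (f n)) g' atTop (ball c (R / 2)) :=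
    hc.tendstoUniformlyOn_of_tendsto hg'
  intro x hx
  refine (hasFDerivAt_of_tendstoUniformlyOn (f := f) isOpen_ball hu (fun n y hy => ?_)
    (fun y hy => ?_) hx).differentiableAt.differentiableWithinAt
  · exact ((hf n).differentiableAt
      (isOpen_ball.mem_nhds (ball_subset_ball (by linarith) hy))).hasFDerivAt
  · exact hlim.tendsto_at (ball_subset_ball (by linarith) hy)

/-- A holomorphic map is locally bounded. -/
theorem exists_bound {f : E → F} {s : Set E} (hs : IsOpen s) (hf : DifferentiableOn ℂ f s)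
    {z : E} (hz : z ∈ s) : ∃ R > 0, ∃ M ≥ 0, ball z R ⊆ s ∧ ∀ w ∈ ball z R, ‖f w‖ ≤ M := by
  have hc : ContinuousAt f z := (hf.differentiableAt (hs.mem_nhds hz)).continuousAt
  have h1 : ∀ᶠ w in 𝓝 z, ‖f w‖ < ‖f z‖ + 1 :=
    hc.norm.eventually_lt continuousAt_const (by simp)
  obtain ⟨R, hR, h⟩ := Metric.eventually_nhds_iff_ball.1 (h1.and (hs.mem_nhds hz))
  exact ⟨R, hR, ‖f z‖ + 1, by positivity, fun w hw => (h w hw).2, fun w hw => (h w hw).1.le⟩

/-- Directional derivatives of holomorphic maps are holomorphic. -/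
theorem differentiableOn_fderiv_apply [CompleteSpace F] {f : E → F} {s : Set E} (hs : IsOpen s)
    (hf : DifferentiableOn ℂ f s) (v : E) :
    DifferentiableOn ℂ (fun z => fderiv ℂ f z v) s := by
  intro z hz
  obtain ⟨R, hR, M, hM0, hsub, hM⟩ := exists_bound hs hf hz
  obtain ⟨N, hN⟩ := exists_nat_gt (4 * ‖v‖ / R)
  set t : ℕ → ℂ := fun n => ((n + N + 1 : ℕ) : ℂ)⁻¹ with ht
  have htpos : ∀ n, t n ≠ 0 := fun n =>
    inv_ne_zero (Nat.cast_ne_zero.2 (Nat.succ_ne_zero (n + N)))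
  have htn : ∀ n, ‖t n‖ = ((n + N + 1 : ℕ) : ℝ)⁻¹ := by
    intro n
    rw [ht]
    simp only [norm_inv, Complex.norm_natCast]
  have htv : ∀ n, ‖t n • v‖ < R / 4 := by
    intro n
    rw [norm_smul, htn]
    have h1 : (N : ℝ) < ((n + N + 1 : ℕ) : ℝ) := by exact_mod_cast (by omega)
    have h2 : 4 * ‖v‖ / R < ((n + N + 1 : ℕ) : ℝ) := hN.trans h1
    have h3 : (0 : ℝ) < ((n + N + 1 : ℕ) : ℝ) := by positivity
    rw [div_lt_iff₀ hR] at h2
    rw [inv_mul_lt_iff₀ h3]
    linarith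
  set F' : ℕ → E → F := fun n x => (t n)⁻¹ • (f (x + t n • v) - f x) with hF'
  have hdiff : ∀ n, DifferentiableOn ℂ (F' n) (ball z (R / 4)) := by
    intro n x hx
    have hx1 : x ∈ ball z R := ball_subset_ball (by linarith) hx
    have hx2 : x + t n • v ∈ ball z R := by
      rw [mem_ball, dist_eq_norm] at *
      calc ‖x + t n • v - z‖ = ‖(x - z) + t n • v‖ := by congr 1; abel
        _ ≤ ‖x - z‖ + ‖t n • v‖ := norm_add_le _ _
        _ < R := by linarith [htv n]
    have d1 : DifferentiableAt ℂ f x := hf.differentiableAt (hs.mem_nhds (hsub hx1))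
    have d2 : DifferentiableAt ℂ f (x + t n • v) := hf.differentiableAt (hs.mem_nhds (hsub hx2))
    have d3 : DifferentiableAt ℂ (fun y => f (y + t n • v)) x := by
      have : DifferentiableAt ℂ (fun y : E => y + t n • v) x := by fun_prop
      exact DifferentiableAt.comp x d2 this
    exact ((d3.sub d1).const_smul _).differentiableWithinAt
  have hlim : TendstoUniformlyOn F' (fun x => fderiv ℂ f x v) atTop (ball z (R / 4)) := by
    rw [Metric.tendstoUniformlyOn_iff]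
    intro ε hε
    have h0 : Tendsto (fun n : ℕ => (4 * M * (‖v‖ / (R / 2)) ^ 2) * ‖t n‖) atTop (𝓝 0) := by
      have : Tendsto (fun n : ℕ => ‖t n‖) atTop (𝓝 0) := by
        simp only [htn]
        have := tendsto_inv_atTop_nhds_zero_nat (𝕜 := ℝ)
        exact (tendsto_add_atTop_iff_nat (N + 1)).2 this
      simpa using this.const_mul (4 * M * (‖v‖ / (R / 2)) ^ 2)
    filter_upwards [h0.eventually_lt_const hε] with n hn x hx
    have hx1 : x ∈ ball z (R / 2) := ball_subset_ball (by linarith) hx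
    have hx3 := ball_half_subset hx1
    have hxx : x + t n • v ∈ ball x (R / 2) := by
      rw [mem_ball, dist_eq_norm]
      simp only [add_sub_cancel_left]
      linarith [htv n]
    have key := norm_sub_sub_fderiv_le (f := f) (c := x) (R := R / 2) (M := M) (by linarith)
      (hf.mono (hx3.trans hsub)) (fun w hw => hM w (hx3 hw)) hxx
    rw [add_sub_cancel_left] at key
    have e1 : fderiv ℂ f x v - F' n x =
        -((t n)⁻¹ • (f (x + t n • v) - f x - fderiv ℂ f x (t n • v))) := by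
      simp only [hF', map_smul, smul_sub, smul_smul, inv_mul_cancel₀ (htpos n), one_smul]
      abel
    rw [dist_eq_norm, e1, norm_neg, norm_smul, norm_inv]
    have htp : 0 < ‖t n‖ := norm_pos_iff.2 (htpos n)
    calc ‖t n‖⁻¹ * ‖f (x + t n • v) - f x - fderiv ℂ f x (t n • v)‖
        ≤ ‖t n‖⁻¹ * (4 * M * (‖t n • v‖ / (R / 2)) ^ 2) := by gcongr
      _ = (4 * M * (‖v‖ / (R / 2)) ^ 2) * ‖t n‖ := by
          rw [norm_smul]; field_simp
      _ < ε := hn
  have := differentiableOn_of_uniform_limit hdiff hlim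
  exact (this.differentiableAt (isOpen_ball.mem_nhds
    (mem_ball_self (by linarith)))).differentiableWithinAt

/-- Holomorphic maps on open subsets of a finite dimensional space are smooth. -/
theorem contDiffOn_of_differentiableOn [FiniteDimensional ℂ E] [CompleteSpace F] {f : E → F}
    {s : Set E} (hs : IsOpen s) (hf : DifferentiableOn ℂ f s) (n : ℕ) : ContDiffOn ℂ n f s := by
  induction n generalizing f with
  | zero => exact contDiffOn_zero.2 hf.continuousOn
  | succ n ih =>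
    have := contDiffOn_succ_of_fderiv_apply (n := (n : WithTop ℕ∞)) hf
      (fun h => absurd h (by simp)) (fun y => by
        have h1 := ih (differentiableOn_fderiv_apply hs hf y)
        refine h1.congr (fun x hx => ?_)
        rw [fderivWithin_of_isOpen hs hx])
    exact_mod_cast this

end General

end Pool.Agent.Helper459.KN.Holo


namespace Pool.Agent.Helper459.KN.One
open Complex Set Filter Metric Topology Function

/-- uniformly bounded holomorphic functions converging pointwise converge locally uniformly -/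
theorem tlu_of_pointwise {ι : Type*} {l : Filter ι} [l.NeBot] {U : Set ℂ} (hU : IsOpen U)
    {F : ι → ℂ → ℂ} {f : ℂ → ℂ} {M : ℝ}
    (hd : ∀ i, DifferentiableOn ℂ (F i) U) (hb : ∀ i, ∀ z ∈ U, ‖F i z‖ ≤ M)
    (hp : ∀ z ∈ U, Tendsto (fun i => F i z) l (𝓝 (f z))) :
    TendstoLocallyUniformlyOn F f l U := by
  obtain ⟨i0⟩ : Nonempty ι := l.nonempty_of_neBot
  rw [Metric.tendstoLocallyUniformlyOn_iff]
  intro ε hε x hx
  obtain ⟨R, hR, hRU⟩ := Metric.isOpen_iff.1 hU x hx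
  have hM : 0 ≤ M := le_trans (norm_nonneg _) (hb i0 x hx)
  have key : ∀ i, ∀ z ∈ ball x R, dist (F i z) (F i x) ≤ (2 * M + 1) / R * dist z x := by
    intro i z hz
    apply Complex.dist_le_div_mul_dist_of_mapsTo_ball ((hd i).mono hRU) _ hz
    intro w hw
    rw [mem_closedBall, dist_eq_norm]
    have h1 := hb i w (hRU hw)
    have h2 := hb i x hx
    have h3 := norm_sub_le (F i w) (F i x)
    linarith
  set L : ℝ := (2 * M + 1) / R with hL
  have hLp : 0 < L := by positivity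
  have keyf : ∀ z ∈ ball x R, dist (f z) (f x) ≤ L * dist z x := by
    intro z hz
    have h1 : Tendsto (fun i => dist (F i z) (F i x)) l (𝓝 (dist (f z) (f x))) :=
      (hp z (hRU hz)).dist (hp x hx)
    exact le_of_tendsto h1 (Eventually.of_forall fun i => key i z hz)
  refine ⟨ball x (min R (ε / (4 * L))), mem_nhdsWithin_of_mem_nhds (ball_mem_nhds _ (by positivity)), ?_⟩
  have hx' : ∀ᶠ i in l, dist (F i x) (f x) < ε / 4 := (Metric.tendsto_nhds.1 (hp x hx)) _ (by positivity)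
  filter_upwards [hx'] with i hi y hy
  have hy1 : y ∈ ball x R := ball_subset_ball (min_le_left _ _) hy
  have hy2 : dist y x < ε / (4 * L) := lt_of_lt_of_le hy (min_le_right _ _)
  have hy3 : L * dist y x < ε / 4 := by
    calc L * dist y x < L * (ε / (4 * L)) := by gcongr
      _ = ε / 4 := by field_simp
  have h1 := key i y hy1
  have h2 := keyf y hy1
  calc dist (f y) (F i y) ≤ dist (f y) (f x) + dist (f x) (F i x) + dist (F i x) (F i y) :=
        dist_triangle4 _ _ _ _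
    _ < ε := by
        rw [dist_comm (f x), dist_comm (F i x) (F i y)]
        linarith

/-- Hurwitz, local form. -/
theorem hurwitz {ι : Type*} {l : Filter ι} [l.NeBot] {V : Set ℂ} (hV : IsOpen V)
    {F : ι → ℂ → ℂ} {f : ℂ → ℂ}
    (hd : ∀ i, DifferentiableOn ℂ (F i) V) (hlim : TendstoLocallyUniformlyOn F f l V)
    (hne : ∀ i, ∀ z ∈ V, F i z ≠ 0) {a : ℂ} (ha : a ∈ V) (h0 : f a = 0) :
    ∀ᶠ z in 𝓝 a, f z = 0 := by
  have hfd : DifferentiableOn ℂ f V := hlim.differentiableOn (Eventually.of_forall hd) hV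
  have hfa : AnalyticAt ℂ f a := hfd.analyticAt (hV.mem_nhds ha)
  rcases hfa.eventually_eq_zero_or_eventually_ne_zero with h | h
  · exact h
  exfalso
  rw [eventually_nhdsWithin_iff, Metric.eventually_nhds_iff_ball] at h
  obtain ⟨r1, hr1, h1⟩ := h
  obtain ⟨r2, hr2, h2⟩ := Metric.isOpen_iff.1 hV a ha
  set r : ℝ := min r1 r2 / 2 with hr
  have hrp : 0 < r := by positivity
  have hr1' : r < r1 := by have := min_le_left r1 r2; have : 0 < min r1 r2 := by positivity
                           linarith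
  have hr2' : r < r2 := by have := min_le_right r1 r2; have : 0 < min r1 r2 := by positivity
                           linarith
  have hcb : closedBall a r ⊆ V := (closedBall_subset_ball hr2').trans h2
  have hsph : IsCompact (sphere a r) := isCompact_sphere a r
  have hne' : (sphere a r).Nonempty := NormedSpace.sphere_nonempty.2 hrp.le
  have hcont : ContinuousOn (fun z => ‖f z‖) (sphere a r) :=
    (hfd.continuousOn.mono (sphere_subset_closedBall.trans hcb)).norm
  obtain ⟨w, hw, hwmin⟩ := hsph.exists_isMinOn hne' hcont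
  have hδ : 0 < ‖f w‖ := by
    rw [norm_pos_iff]
    apply h1 w
    · have : dist w a = r := hw
      rw [mem_ball, this]; exact hr1'
    · intro hwa
      have : dist w a = r := hw
      rw [hwa, dist_self] at this
      linarith
  set δ := ‖f w‖ with hδdef
  have hunif : TendstoUniformlyOn F f l (closedBall a r) :=
    (tendstoLocallyUniformlyOn_iff_forall_isCompact hV).1 hlim _ hcb (isCompact_closedBall a r)
  have hev := (Metric.tendstoUniformlyOn_iff.1 hunif) (δ / 2) (by positivity)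
  obtain ⟨i, hi⟩ := hev.exists
  have hsphb : ∀ z ∈ sphere a r, δ / 2 ≤ ‖F i z‖ := by
    intro z hz
    have h3 := hi z (sphere_subset_closedBall hz)
    have h4 : δ ≤ ‖f z‖ := hwmin hz
    rw [dist_eq_norm] at h3
    have h5 : ‖f z‖ - ‖F i z‖ ≤ ‖f z - F i z‖ := norm_sub_norm_le _ _
    linarith
  have hctr : ‖F i a‖ < δ / 2 := by
    have h3 := hi a (mem_closedBall_self hrp.le)
    rw [dist_eq_norm, h0, zero_sub, norm_neg] at h3
    exact h3
  have hdc : DiffContOnCl ℂ (fun z => (F i z)⁻¹) (ball a r) := by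
    apply DifferentiableOn.diffContOnCl
    rw [closure_ball a hrp.ne']
    exact ((hd i).mono hcb).inv (fun z hz => hne i z (hcb hz))
  have hmax := Complex.norm_le_of_forall_mem_frontier_norm_le (C := 2 / δ) isBounded_ball hdc
    (by
      intro z hz
      rw [frontier_ball a hrp.ne'] at hz
      rw [norm_inv]
      have h3 := hsphb z hz
      rw [inv_le_comm₀ (by linarith) (by positivity)]
      rw [inv_div]
      exact h3) (subset_closure (mem_ball_self hrp))
  rw [norm_inv] at hmax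
  have hpos : 0 < ‖F i a‖ := norm_pos_iff.2 (hne i a ha)
  rw [inv_le_comm₀ hpos (by positivity), inv_div] at hmax
  linarith

theorem deriv_ne_zero_of_injOn {U : Set ℂ} (hU : IsOpen U) {f : ℂ → ℂ}
    (hf : DifferentiableOn ℂ f U) (hi : InjOn f U) {z : ℂ} (hz : z ∈ U) : deriv f z ≠ 0 := by
  intro h0
  obtain ⟨R, hR, hRU⟩ := Metric.isOpen_iff.1 hU z hz
  set ρ : ℝ := R / 4 with hρ
  have hρ0 : 0 < ρ := by positivity
  have hcb : closedBall z (2 * ρ) ⊆ U := (closedBall_subset_ball (by linarith)).trans hRU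
  have hf' : DifferentiableOn ℂ (deriv f) U := hf.deriv hU
  obtain ⟨M, hM⟩ := (isCompact_closedBall z (2 * ρ)).exists_bound_of_continuousOn
    (hf'.continuousOn.mono hcb)
  set h : ℕ → ℂ := fun n => ((ρ / (n + 1) : ℝ) : ℂ) with hh
  have hn : ∀ n, ‖h n‖ ≤ ρ ∧ h n ≠ 0 := by
    intro n
    have h1 : (0 : ℝ) < ρ / (n + 1) := by positivity
    constructor
    · simp only [hh]
      rw [Complex.norm_real, Real.norm_of_nonneg h1.le, div_le_iff₀ (by positivity)]
      have : (0 : ℝ) ≤ n := Nat.cast_nonneg n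
      nlinarith
    · simp only [hh]
      exact_mod_cast h1.ne'
  have hmem : ∀ n, ∀ w ∈ ball z ρ, w + h n ∈ closedBall z (2 * ρ) := by
    intro n w hw
    rw [mem_closedBall, dist_eq_norm]
    rw [mem_ball, dist_eq_norm] at hw
    have := (hn n).1
    calc ‖w + h n - z‖ = ‖(w - z) + h n‖ := by ring_nf
      _ ≤ ‖w - z‖ + ‖h n‖ := norm_add_le _ _
      _ ≤ 2 * ρ := by linarith
  have hsub : ball z ρ ⊆ closedBall z (2 * ρ) :=
    ball_subset_closedBall.trans (closedBall_subset_closedBall (by linarith))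
  set F : ℕ → ℂ → ℂ := fun n w => (f (w + h n) - f w) / h n with hF
  have hFd : ∀ n, DifferentiableOn ℂ (F n) (ball z ρ) := by
    intro n w hw
    have h1 : DifferentiableAt ℂ f (w + h n) := hf.differentiableAt (hU.mem_nhds (hcb (hmem n w hw)))
    have h2 : DifferentiableAt ℂ f w := hf.differentiableAt (hU.mem_nhds (hcb (hsub hw)))
    have h3 : DifferentiableAt ℂ (fun w => f (w + h n)) w :=
      DifferentiableAt.comp w h1 (differentiableAt_id.add_const _)
    exact ((h3.sub h2).div_const _).differentiableWithinAt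
  have hFb : ∀ n, ∀ w ∈ ball z ρ, ‖F n w‖ ≤ M := by
    intro n w hw
    have hconv : Convex ℝ (closedBall z (2 * ρ)) := convex_closedBall _ _
    have := hconv.norm_image_sub_le_of_norm_deriv_le (𝕜 := ℂ) (f := f) (C := M) (x := w) (y := w + h n)
      (fun x hx => hf.differentiableAt (hU.mem_nhds (hcb hx))) (fun x hx => hM x hx)
      (hsub hw) (hmem n w hw)
    simp only [hF]
    rw [norm_div, div_le_iff₀ (norm_pos_iff.2 (hn n).2)]
    simpa using this
  have hh0 : Tendsto h atTop (𝓝[≠] 0) := by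
    rw [tendsto_nhdsWithin_iff]
    constructor
    · have h1 : Tendsto (fun n : ℕ => ρ * (1 / ((n : ℝ) + 1))) atTop (𝓝 (ρ * 0)) :=
        tendsto_one_div_add_atTop_nhds_zero_nat.const_mul ρ
      have h2 : Tendsto (fun n : ℕ => ((ρ * (1 / ((n : ℝ) + 1)) : ℝ) : ℂ)) atTop (𝓝 ((ρ * 0 : ℝ) : ℂ)) :=
        (Complex.continuous_ofReal.tendsto _).comp h1
      simp only [mul_zero, Complex.ofReal_zero] at h2
      refine h2.congr ?_
      intro n
      simp only [hh]
      congr 1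
      ring
    · exact Eventually.of_forall fun n => (hn n).2
  have hFp : ∀ w ∈ ball z ρ, Tendsto (fun n => F n w) atTop (𝓝 (deriv f w)) := by
    intro w hw
    have h1 : HasDerivAt f (deriv f w) w := (hf.differentiableAt (hU.mem_nhds (hcb (hsub hw)))).hasDerivAt
    rw [hasDerivAt_iff_tendsto_slope_zero] at h1
    have h2 := h1.comp hh0
    refine h2.congr ?_
    intro n
    simp only [Function.comp, hF, smul_eq_mul]
    rw [div_eq_inv_mul]
  have htl := tlu_of_pointwise (l := atTop) isOpen_ball hFd hFb hFp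
  have hFne : ∀ n, ∀ w ∈ ball z ρ, F n w ≠ 0 := by
    intro n w hw h1
    simp only [hF, div_eq_zero_iff, (hn n).2, or_false] at h1
    have h2 := hi (hcb (hmem n w hw)) (hcb (hsub hw)) (by linear_combination h1)
    apply (hn n).2
    linear_combination h2
  have hev := hurwitz (l := atTop) isOpen_ball hFd htl hFne (mem_ball_self hρ0) h0
  -- f locally constant
  rw [Metric.eventually_nhds_iff_ball] at hev
  obtain ⟨ε, hε, hev⟩ := hev
  set δ := min ε ρ with hδ
  have hδ0 : 0 < δ := lt_min hε hρ0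
  have hbU : ball z δ ⊆ U := (ball_subset_ball (min_le_right _ _)).trans (hsub.trans hcb)
  have hconst : ∀ w ∈ ball z δ, f w = f z := by
    intro w hw
    have hconv : Convex ℝ (ball z δ) := convex_ball _ _
    have := hconv.norm_image_sub_le_of_norm_deriv_le (𝕜 := ℂ) (f := f) (C := 0) (x := z) (y := w)
      (fun x hx => hf.differentiableAt (hU.mem_nhds (hbU hx)))
      (fun x hx => by rw [hev x (ball_subset_ball (min_le_left _ _) hx)]; simp)
      (mem_ball_self hδ0) hw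
    rw [zero_mul] at this
    have := norm_le_zero_iff.1 this
    linear_combination this
  have hw : z + ((δ / 2 : ℝ) : ℂ) ∈ ball z δ := by
    rw [mem_ball, dist_eq_norm, add_sub_cancel_left, Complex.norm_real, Real.norm_of_nonneg (by positivity)]
    linarith
  have h1 := hi (hbU hw) (hbU (mem_ball_self hδ0)) (hconst _ hw)
  have h2 : ((δ / 2 : ℝ) : ℂ) = 0 := by linear_combination h1
  rw [Complex.ofReal_eq_zero] at h2
  linarith


end Pool.Agent.Helper459.KN.One
namespace Pool.Agent.Helper459.KN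
open Complex Set Filter Topology

theorem cd1 {E F : Type} [NormedAddCommGroup E] [NormedSpace ℂ E] [FiniteDimensional ℂ E]
    [NormedAddCommGroup F] [NormedSpace ℂ F] [CompleteSpace F] {G : Set E} (hG : IsOpen G)
    {f : E → F} (hf : DifferentiableOn ℂ f G) {x : E} (hx : x ∈ G) : ContDiffAt ℂ 1 f x := by
  have h := Holo.contDiffOn_of_differentiableOn hG hf 1
  exact_mod_cast h.contDiffAt (hG.mem_nhds hx)

theorem inv_thm {Θ : ℂ × ℂ → ℂ × ℂ} {x0 : ℂ × ℂ} (hΘ : ContDiffAt ℂ 1 Θ x0)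
    (hinj : Function.Injective (fderiv ℂ Θ x0)) :
    ∃ Ψ : ℂ × ℂ → ℂ × ℂ, (∀ᶠ y in 𝓝 (Θ x0), DifferentiableAt ℂ Ψ y) ∧ Ψ (Θ x0) = x0 ∧
      (∀ᶠ y in 𝓝 (Θ x0), Θ (Ψ y) = y) ∧ (∀ᶠ x in 𝓝 x0, Ψ (Θ x) = x) ∧
      Filter.map Θ (𝓝 x0) = 𝓝 (Θ x0) := by
  let e : (ℂ × ℂ) ≃L[ℂ] (ℂ × ℂ) := (LinearEquiv.ofInjectiveEndo
    ((fderiv ℂ Θ x0 : (ℂ × ℂ) →L[ℂ] (ℂ × ℂ)) : (ℂ × ℂ) →ₗ[ℂ] (ℂ × ℂ)) hinj).toContinuousLinearEquiv
  have he : (e : (ℂ × ℂ) →L[ℂ] (ℂ × ℂ)) = fderiv ℂ Θ x0 :=
    ContinuousLinearMap.ext fun _ => rfl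
  have hd : HasFDerivAt Θ (e : (ℂ × ℂ) →L[ℂ] (ℂ × ℂ)) x0 := by
    rw [he]
    exact (hΘ.differentiableAt (by simp)).hasFDerivAt
  have hs : HasStrictFDerivAt Θ (e : (ℂ × ℂ) →L[ℂ] (ℂ × ℂ)) x0 := hΘ.hasStrictFDerivAt' hd (by simp)
  refine ⟨hΘ.localInverse hd (by simp), ?_, hΘ.localInverse_apply_image hd (by simp),
    hs.eventually_right_inverse, hs.eventually_left_inverse, hs.map_nhds_eq_of_equiv⟩
  have h1 := hΘ.to_localInverse hd (by simp)
  filter_upwards [h1.eventually (by simp)] with y hy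
  exact hy.differentiableAt (by simp)

/-- straightening a holomorphic function with nonzero differential -/
theorem chart {G : Set (ℂ × ℂ)} (hG : IsOpen G) {u : ℂ × ℂ → ℂ} (hu : DifferentiableOn ℂ u G)
    {x0 : ℂ × ℂ} (hx0 : x0 ∈ G) (hne : fderiv ℂ u x0 ≠ 0) :
    ∃ (m : (ℂ × ℂ) →L[ℂ] ℂ) (r : ℝ) (Ψ : ℂ × ℂ → ℂ × ℂ), 0 < r ∧
      DifferentiableOn ℂ Ψ (Metric.ball (u x0, m x0) r) ∧
      (∀ y ∈ Metric.ball (u x0, m x0) r, Ψ y ∈ G ∧ u (Ψ y) = y.1 ∧ m (Ψ y) = y.2) ∧
      Ψ (u x0, m x0) = x0 := by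
  set L := fderiv ℂ u x0 with hL
  set α := L (1, 0) with hα
  set β := L (0, 1) with hβ
  have hLab : ∀ a b : ℂ, L (a, b) = a * α + b * β := by
    intro a b
    have h1 : ((a, b) : ℂ × ℂ) = a • (1, 0) + b • (0, 1) := by simp
    rw [h1, map_add, map_smul, map_smul, smul_eq_mul, smul_eq_mul]
  have hαβ : ¬ (α = 0 ∧ β = 0) := by
    rintro ⟨h1, h2⟩
    apply hne
    ext
    · simpa using h1
    · simpa using h2
  let m : (ℂ × ℂ) →L[ℂ] ℂ := (-(starRingEnd ℂ) β) • ContinuousLinearMap.fst ℂ ℂ ℂ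
    + ((starRingEnd ℂ) α) • ContinuousLinearMap.snd ℂ ℂ ℂ
  have hm : ∀ a b : ℂ, m (a, b) = -(starRingEnd ℂ) β * a + (starRingEnd ℂ) α * b := by
    intro a b
    simp [m]
  set Θ : ℂ × ℂ → ℂ × ℂ := fun x => (u x, m x) with hΘ
  have hΘd : DifferentiableOn ℂ Θ G := hu.prodMk m.differentiable.differentiableOn
  have hΘ' : fderiv ℂ Θ x0 = L.prod m := by
    have h1 : HasFDerivAt Θ (L.prod m) x0 :=
      (hu.differentiableAt (hG.mem_nhds hx0)).hasFDerivAt.prodMk m.hasFDerivAt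
    exact h1.fderiv
  have hinj : Function.Injective (fderiv ℂ Θ x0) := by
    rw [hΘ', injective_iff_map_eq_zero]
    rintro ⟨a, b⟩ hab
    rw [ContinuousLinearMap.prod_apply, Prod.mk_eq_zero, hLab, hm] at hab
    obtain ⟨h1, h2⟩ := hab
    have h3 : a * (α * (starRingEnd ℂ) α + β * (starRingEnd ℂ) β) = 0 := by
      linear_combination (starRingEnd ℂ) α * h1 - β * h2
    have h4 : b * (α * (starRingEnd ℂ) α + β * (starRingEnd ℂ) β) = 0 := by
      linear_combination (starRingEnd ℂ) β * h1 + α * h2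
    have h5 : (α * (starRingEnd ℂ) α + β * (starRingEnd ℂ) β) ≠ 0 := by
      rw [Complex.mul_conj, Complex.mul_conj]
      intro h
      have h6 : Complex.normSq α + Complex.normSq β = 0 := by exact_mod_cast h
      have h7 := Complex.normSq_nonneg α
      have h8 := Complex.normSq_nonneg β
      apply hαβ
      constructor
      · exact Complex.normSq_eq_zero.1 (by linarith)
      · exact Complex.normSq_eq_zero.1 (by linarith)
    have ha : a = 0 := (mul_eq_zero.1 h3).resolve_right h5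
    have hb : b = 0 := (mul_eq_zero.1 h4).resolve_right h5
    rw [ha, hb]
    rfl
  obtain ⟨Ψ, hd, h0, hr, _, _⟩ := inv_thm (cd1 hG hΘd hx0) hinj
  have hc : ContinuousAt Ψ (Θ x0) := hd.self_of_nhds.continuousAt
  have hmem : ∀ᶠ y in 𝓝 (Θ x0), Ψ y ∈ G := by
    apply hc.eventually_mem
    rw [h0]
    exact hG.mem_nhds hx0
  obtain ⟨r, hr0, hball⟩ := Metric.eventually_nhds_iff_ball.1 ((hd.and hr).and hmem)
  refine ⟨m, r, Ψ, hr0, ?_, ?_, h0⟩
  · intro y hy
    exact (hball y hy).1.1.differentiableWithinAt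
  · intro y hy
    have h1 := (hball y hy).1.2
    refine ⟨(hball y hy).2, ?_, ?_⟩
    · exact congrArg Prod.fst h1
    · exact congrArg Prod.snd h1

/-- rank one is impossible -/
theorem rank_two {G : Set (ℂ × ℂ)} (hG : IsOpen G) {Φ : ℂ × ℂ → ℂ × ℂ}
    (hΦ : DifferentiableOn ℂ Φ G) (hinj : InjOn Φ G) {x0 : ℂ × ℂ} (hx0 : x0 ∈ G)
    (hne : fderiv ℂ Φ x0 ≠ 0) : Function.Injective (fderiv ℂ Φ x0) := by
  -- two complementary functionals, the first one detecting the differential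
  have key : ∀ ℓ ℓ' : (ℂ × ℂ) →L[ℂ] ℂ, (∀ p q : ℂ × ℂ, ℓ p = ℓ q → ℓ' p = ℓ' q → p = q) →
      ℓ.comp (fderiv ℂ Φ x0) ≠ 0 → Function.Injective (fderiv ℂ Φ x0) := by
    intro ℓ ℓ' hll hl
    have hΦx : HasFDerivAt Φ (fderiv ℂ Φ x0) x0 :=
      (hΦ.differentiableAt (hG.mem_nhds hx0)).hasFDerivAt
    set u : ℂ × ℂ → ℂ := fun x => ℓ (Φ x) with hu
    have hud : DifferentiableOn ℂ u G := fun x hx =>
      (ℓ.differentiableAt.comp x (hΦ.differentiableAt (hG.mem_nhds hx))).differentiableWithinAt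
    have hu' : fderiv ℂ u x0 = ℓ.comp (fderiv ℂ Φ x0) :=
      (ℓ.hasFDerivAt.comp x0 hΦx).fderiv
    obtain ⟨m, r, Ψ, hr, hΨd, hΨ, hΨ0⟩ := chart hG hud hx0 (by rw [hu']; exact hl)
    set s0 := m x0 with hs0
    set γ : ℂ → ℂ × ℂ := fun s => Ψ (u x0, s) with hγ
    have hmem : ∀ s ∈ Metric.ball s0 r, (u x0, s) ∈ Metric.ball (u x0, s0) r := by
      intro s hs
      rw [Metric.mem_ball] at hs ⊢
      rw [Prod.dist_eq, dist_self]
      exact max_lt hr hs
    have hγd : DifferentiableOn ℂ γ (Metric.ball s0 r) := by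
      intro s hs
      have h1 : DifferentiableAt ℂ Ψ (u x0, s) :=
        hΨd.differentiableAt (Metric.isOpen_ball.mem_nhds (hmem s hs))
      exact (DifferentiableAt.comp s h1 (by fun_prop)).differentiableWithinAt
    have hγG : ∀ s ∈ Metric.ball s0 r, γ s ∈ G := fun s hs => (hΨ _ (hmem s hs)).1
    have hγu : ∀ s ∈ Metric.ball s0 r, u (γ s) = u x0 := fun s hs => (hΨ _ (hmem s hs)).2.1
    have hγm : ∀ s ∈ Metric.ball s0 r, m (γ s) = s := fun s hs => (hΨ _ (hmem s hs)).2.2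
    have hs0m : s0 ∈ Metric.ball s0 r := Metric.mem_ball_self hr
    -- the one variable function
    set k : ℂ → ℂ := fun s => ℓ' (Φ (γ s)) with hk
    have hkd : DifferentiableOn ℂ k (Metric.ball s0 r) := by
      intro s hs
      have h1 : DifferentiableAt ℂ γ s := hγd.differentiableAt (Metric.isOpen_ball.mem_nhds hs)
      have h2 : DifferentiableAt ℂ Φ (γ s) := hΦ.differentiableAt (hG.mem_nhds (hγG s hs))
      exact (ℓ'.differentiableAt.comp s (h2.comp s h1)).differentiableWithinAt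
    have hki : InjOn k (Metric.ball s0 r) := by
      intro s hs t ht hst
      have h1 : Φ (γ s) = Φ (γ t) := by
        apply hll _ _ _ hst
        exact (hγu s hs).trans (hγu t ht).symm
      have h2 := hinj (hγG s hs) (hγG t ht) h1
      rw [← hγm s hs, ← hγm t ht, h2]
    have hk' := One.deriv_ne_zero_of_injOn Metric.isOpen_ball hkd hki hs0m
    -- tangent vector
    have hγ' : HasDerivAt γ (deriv γ s0) s0 :=
      (hγd.differentiableAt (Metric.isOpen_ball.mem_nhds hs0m)).hasDerivAt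
    set t := deriv γ s0 with ht
    have hγ0 : γ s0 = x0 := hΨ0
    have hmt : m t = 1 := by
      have h1 : HasDerivAt (fun s => m (γ s)) (m t) s0 := m.hasFDerivAt.comp_hasDerivAt s0 hγ'
      have h2 : HasDerivAt (fun s => m (γ s)) 1 s0 := by
        apply (hasDerivAt_id s0).congr_of_eventuallyEq
        filter_upwards [Metric.isOpen_ball.mem_nhds hs0m] with s hs
        exact hγm s hs
      exact h1.unique h2
    have hLt : fderiv ℂ u x0 t = 0 := by
      have h0 : HasFDerivAt u (fderiv ℂ u x0) (γ s0) := by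
        rw [hγ0]
        exact (hud.differentiableAt (hG.mem_nhds hx0)).hasFDerivAt
      have h1 : HasDerivAt (fun s => u (γ s)) (fderiv ℂ u x0 t) s0 := h0.comp_hasDerivAt s0 hγ'
      have h2 : HasDerivAt (fun s => u (γ s)) 0 s0 := by
        apply (hasDerivAt_const s0 (u x0)).congr_of_eventuallyEq
        filter_upwards [Metric.isOpen_ball.mem_nhds hs0m] with s hs
        exact hγu s hs
      exact h1.unique h2
    have hkt : deriv k s0 = ℓ' (fderiv ℂ Φ x0 t) := by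
      have h0 : HasFDerivAt Φ (fderiv ℂ Φ x0) (γ s0) := by rw [hγ0]; exact hΦx
      have h1 : HasDerivAt (fun s => Φ (γ s)) (fderiv ℂ Φ x0 t) s0 := h0.comp_hasDerivAt s0 hγ'
      exact (ℓ'.hasFDerivAt.comp_hasDerivAt s0 h1).deriv
    rw [hkt] at hk'
    -- kernel of the functional is spanned by t
    have ht0 : t ≠ 0 := by
      rintro h
      rw [h, map_zero] at hmt
      exact zero_ne_one hmt
    set L := fderiv ℂ u x0 with hL
    have hLne : L ≠ 0 := by rw [hu']; exact hl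
    have hLab : ∀ a b : ℂ, L (a, b) = a * L (1, 0) + b * L (0, 1) := by
      intro a b
      have h1 : ((a, b) : ℂ × ℂ) = a • (1, 0) + b • (0, 1) := by simp
      rw [h1, map_add, map_smul, map_smul, smul_eq_mul, smul_eq_mul]
    have hαβ : ¬ (L (1, 0) = 0 ∧ L (0, 1) = 0) := by
      rintro ⟨h1, h2⟩
      apply hLne
      ext
      · simpa using h1
      · simpa using h2
    have hker : ∀ v : ℂ × ℂ, L v = 0 → ∃ c : ℂ, v = c • t := by
      intro v hv
      have h1 : v.1 * L (1, 0) + v.2 * L (0, 1) = 0 := by rw [← hLab]; exact hv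
      have h2 : t.1 * L (1, 0) + t.2 * L (0, 1) = 0 := by rw [← hLab]; exact hLt
      have h3 : L (1, 0) * (v.1 * t.2 - v.2 * t.1) = 0 := by
        linear_combination t.2 * h1 - v.2 * h2
      have h4 : L (0, 1) * (v.1 * t.2 - v.2 * t.1) = 0 := by
        linear_combination -t.1 * h1 + v.1 * h2
      have h5 : v.1 * t.2 - v.2 * t.1 = 0 := by
        by_contra h6
        exact hαβ ⟨(mul_eq_zero.1 h3).resolve_right h6, (mul_eq_zero.1 h4).resolve_right h6⟩
      by_cases h6 : t.1 = 0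
      · have h7 : t.2 ≠ 0 := fun h => ht0 (Prod.ext h6 h)
        refine ⟨v.2 / t.2, Prod.ext ?_ ?_⟩
        · show v.1 = v.2 / t.2 * t.1
          rw [h6, mul_zero]
          rw [h6, mul_zero, sub_zero] at h5
          exact (mul_eq_zero.1 h5).resolve_right h7
        · show v.2 = v.2 / t.2 * t.2
          field_simp
      · refine ⟨v.1 / t.1, Prod.ext ?_ ?_⟩
        · show v.1 = v.1 / t.1 * t.1
          field_simp
        · show v.2 = v.1 / t.1 * t.2
          field_simp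
          linear_combination -h5
    rw [injective_iff_map_eq_zero]
    intro v hv
    have h1 : L v = 0 := by
      rw [hu', ContinuousLinearMap.comp_apply, hv, map_zero]
    obtain ⟨c, hc⟩ := hker v h1
    rw [hc, map_smul] at hv
    have h2 : c * ℓ' (fderiv ℂ Φ x0 t) = 0 := by
      rw [← smul_eq_mul, ← map_smul, hv, map_zero]
    rw [hc, (mul_eq_zero.1 h2).resolve_right hk', zero_smul]
  by_cases h1 : (ContinuousLinearMap.fst ℂ ℂ ℂ).comp (fderiv ℂ Φ x0) = 0
  · apply key (ContinuousLinearMap.snd ℂ ℂ ℂ) (ContinuousLinearMap.fst ℂ ℂ ℂ)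
    · intro p q h2 h3
      exact Prod.ext h3 h2
    · intro h2
      apply hne
      apply ContinuousLinearMap.ext
      intro v
      apply Prod.ext
      · exact DFunLike.congr_fun h1 v
      · exact DFunLike.congr_fun h2 v
  · apply key (ContinuousLinearMap.fst ℂ ℂ ℂ) (ContinuousLinearMap.snd ℂ ℂ ℂ)
    · intro p q h2 h3
      exact Prod.ext h2 h3
    · exact h1


/-- iterated directional derivatives -/
noncomputable def Dv (J : ℂ × ℂ → ℂ) (v : ℂ × ℂ) : ℕ → ℂ × ℂ → ℂ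
  | 0 => J
  | n + 1 => fun x => fderiv ℂ (Dv J v n) x v

theorem Dv_diff {G : Set (ℂ × ℂ)} (hG : IsOpen G) {J : ℂ × ℂ → ℂ} (hJ : DifferentiableOn ℂ J G)
    (v : ℂ × ℂ) (n : ℕ) : DifferentiableOn ℂ (Dv J v n) G := by
  induction n with
  | zero => exact hJ
  | succ n ih => exact Holo.differentiableOn_fderiv_apply hG ih v

theorem zero_near {G : Set (ℂ × ℂ)} (hG : IsOpen G) {J : ℂ × ℂ → ℂ} (hJ : DifferentiableOn ℂ J G)
    {q : ℂ × ℂ} {ε : ℝ} (hε : Metric.ball q ε ⊆ G) (hq : ∀ v n, Dv J v n q = 0) :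
    ∀ x ∈ Metric.ball q ε, J x = 0 := by
  intro x hx
  set v := x - q with hv
  by_cases hv0 : v = 0
  · have : x = q := sub_eq_zero.1 hv0
    rw [this]
    exact hq 0 0
  have hvn : 0 < ‖v‖ := norm_pos_iff.2 hv0
  have hvε : ‖v‖ < ε := by rw [hv, ← dist_eq_norm]; exact hx
  set R := ε / ‖v‖ with hR
  have hR1 : 1 < R := by rw [hR, one_lt_div hvn]; exact hvε
  have hmem : ∀ s ∈ Metric.ball (0:ℂ) R, q + s • v ∈ G := by
    intro s hs
    apply hε
    rw [mem_ball_zero_iff, hR, lt_div_iff₀ hvn] at hs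
    rw [Metric.mem_ball, dist_eq_norm, add_sub_cancel_left, norm_smul]
    exact hs
  set φ : ℂ → ℂ := fun s => J (q + s • v) with hφ
  have hline : ∀ s : ℂ, HasDerivAt (fun s : ℂ => q + s • v) v s := by
    intro s
    have h1 := ((hasDerivAt_id s).smul_const v).const_add q
    simpa using h1
  have hφd : DifferentiableOn ℂ φ (Metric.ball 0 R) := by
    intro s hs
    have h1 : DifferentiableAt ℂ J (q + s • v) := hJ.differentiableAt (hG.mem_nhds (hmem s hs))
    exact (DifferentiableAt.comp s h1 (hline s).differentiableAt).differentiableWithinAt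
  have hit : ∀ n, ∀ s ∈ Metric.ball (0:ℂ) R, iteratedDeriv n φ s = Dv J v n (q + s • v) := by
    intro n
    induction n with
    | zero => intro s _; rw [iteratedDeriv_zero]; rfl
    | succ n ih =>
      intro s hs
      rw [iteratedDeriv_succ]
      have h1 : iteratedDeriv n φ =ᶠ[𝓝 s] fun s => Dv J v n (q + s • v) := by
        filter_upwards [Metric.isOpen_ball.mem_nhds hs] with t ht
        exact ih t ht
      rw [h1.deriv_eq]
      have h2 : HasFDerivAt (Dv J v n) (fderiv ℂ (Dv J v n) (q + s • v)) (q + s • v) :=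
        ((Dv_diff hG hJ v n).differentiableAt (hG.mem_nhds (hmem s hs))).hasFDerivAt
      exact (h2.comp_hasDerivAt s (hline s)).deriv
  have h1R : (1:ℂ) ∈ Metric.ball (0:ℂ) R := by
    rw [mem_ball_zero_iff, norm_one]; exact hR1
  have h0R : (0:ℂ) ∈ Metric.ball (0:ℂ) R := Metric.mem_ball_self (by linarith)
  have h1 := Complex.taylorSeries_eq_on_ball hφd h1R
  have h2 : ∀ n : ℕ, ((n.factorial : ℂ))⁻¹ • ((1:ℂ) - 0) ^ n • iteratedDeriv n φ 0 = 0 := by
    intro n
    rw [hit n 0 h0R, zero_smul, add_zero, hq, smul_zero, smul_zero]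
  simp only [h2, tsum_zero] at h1
  have h3 : φ 1 = J x := by
    simp only [hφ, one_smul, hv, add_sub_cancel]
  rw [← h3, ← h1]

theorem fderiv_ne {G : Set (ℂ × ℂ)} (hG : IsOpen G) {Φ : ℂ × ℂ → ℂ × ℂ}
    (hΦ : DifferentiableOn ℂ Φ G) (hinj : InjOn Φ G) {x0 : ℂ × ℂ} (hx0 : x0 ∈ G) :
    fderiv ℂ Φ x0 ≠ 0 := by
  intro hx00
  set A : ℂ × ℂ → ℂ × ℂ := fun x => fderiv ℂ Φ x (1, 0) with hA
  set B : ℂ × ℂ → ℂ × ℂ := fun x => fderiv ℂ Φ x (0, 1) with hB
  have hAd : DifferentiableOn ℂ A G := Holo.differentiableOn_fderiv_apply hG hΦ (1, 0)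
  have hBd : DifferentiableOn ℂ B G := Holo.differentiableOn_fderiv_apply hG hΦ (0, 1)
  set J : ℂ × ℂ → ℂ := fun x => (A x).1 * (B x).2 - (A x).2 * (B x).1 with hJ
  have hJd : DifferentiableOn ℂ J G := (hAd.fst.mul hBd.snd).sub (hAd.snd.mul hBd.fst)
  have hJ0 : ∀ x, fderiv ℂ Φ x = 0 → J x = 0 := by
    intro x hx
    simp [hJ, hA, hB, hx]
  have hJ1 : ∀ x ∈ G, J x = 0 → fderiv ℂ Φ x = 0 := by
    intro x hx hJx
    by_contra hne
    have hi := rank_two hG hΦ hinj hx hne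
    have hab : ∀ a b : ℂ, fderiv ℂ Φ x (a, b) = a • A x + b • B x := by
      intro a b
      have h1 : ((a, b) : ℂ × ℂ) = a • (1, 0) + b • (0, 1) := by simp
      rw [h1, map_add, map_smul, map_smul]
    have h1 : fderiv ℂ Φ x ((B x).1, -(A x).1) = 0 := by
      rw [hab]
      apply Prod.ext
      · show (B x).1 * (A x).1 + -(A x).1 * (B x).1 = 0
        ring
      · show (B x).1 * (A x).2 + -(A x).1 * (B x).2 = 0
        linear_combination -hJx
    have h2 : fderiv ℂ Φ x ((B x).2, -(A x).2) = 0 := by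
      rw [hab]
      apply Prod.ext
      · show (B x).2 * (A x).1 + -(A x).2 * (B x).1 = 0
        linear_combination hJx
      · show (B x).2 * (A x).2 + -(A x).2 * (B x).2 = 0
        ring
    have h3 := (injective_iff_map_eq_zero _).1 hi _ h1
    have h4 := (injective_iff_map_eq_zero _).1 hi _ h2
    rw [Prod.mk_eq_zero, neg_eq_zero] at h3 h4
    apply hne
    apply ContinuousLinearMap.ext
    rintro ⟨a, b⟩
    rw [hab]
    have h5 : A x = 0 := Prod.ext h3.2 h4.2
    have h6 : B x = 0 := Prod.ext h3.1 h4.1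
    rw [h5, h6]
    simp
  -- J does not vanish identically near x0
  obtain ⟨ε, hε, hεG⟩ := Metric.isOpen_iff.1 hG x0 hx0
  have hnot : ¬ ∀ x ∈ Metric.ball x0 ε, J x = 0 := by
    intro hall
    have hconst : ∀ {x y : ℂ × ℂ}, x ∈ Metric.ball x0 ε → y ∈ Metric.ball x0 ε → Φ x = Φ y :=
      fun {x y} hx hy => (convex_ball x0 ε).is_const_of_fderivWithin_eq_zero (𝕜 := ℂ)
        (hΦ.mono hεG) (fun x hx => by
          rw [fderivWithin_of_isOpen Metric.isOpen_ball hx]
          exact hJ1 x (hεG hx) (hall x hx)) hx hy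
    have h1 : x0 ∈ Metric.ball x0 ε := Metric.mem_ball_self hε
    set x1 : ℂ × ℂ := x0 + (((ε / 2 : ℝ) : ℂ), 0) with hx1
    have h2 : x1 ∈ Metric.ball x0 ε := by
      rw [Metric.mem_ball, dist_eq_norm, hx1, add_sub_cancel_left, Prod.norm_def]
      simp only [norm_zero, Complex.norm_real, Real.norm_eq_abs]
      rw [abs_of_pos (by linarith), max_lt_iff]
      constructor <;> linarith
    have h3 := hinj (hεG h1) (hεG h2) (hconst h1 h2)
    have h4 : (((ε / 2 : ℝ) : ℂ), (0:ℂ)) = 0 := by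
      have : x0 + 0 = x0 + (((ε / 2 : ℝ) : ℂ), (0:ℂ)) := by rw [add_zero]; exact h3
      exact (add_left_cancel this).symm
    rw [Prod.mk_eq_zero] at h4
    have h5 : (ε / 2 : ℝ) = 0 := by exact_mod_cast h4.1
    linarith
  -- a function vanishing on the zero set to first order only
  obtain ⟨h, hhd, hhZ, q, hqG, hqJ, hhq⟩ : ∃ h : ℂ × ℂ → ℂ, DifferentiableOn ℂ h G ∧
      (∀ x ∈ G, J x = 0 → h x = 0) ∧ ∃ q ∈ G, J q = 0 ∧ fderiv ℂ h q ≠ 0 := by
    by_contra hcon
    push Not at hcon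
    apply hnot
    apply zero_near hG hJd hεG
    intro v n
    have h1 : ∀ n, ∀ x ∈ G, J x = 0 → Dv J v n x = 0 := by
      intro n
      induction n with
      | zero => intro x _ hx; exact hx
      | succ n ih =>
        intro x hx hJx
        have h2 := hcon (Dv J v n) (Dv_diff hG hJd v n) ih x hx hJx
        show fderiv ℂ (Dv J v n) x v = 0
        rw [h2]
        rfl
    exact h1 n x0 hx0 (hJ0 x0 hx00)
  obtain ⟨m, r, Ψ, hr, hΨd, hΨ, hΨ0⟩ := chart hG hhd hqG hhq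
  have hq0 : h q = 0 := hhZ q hqG hqJ
  rw [hq0] at hΨd hΨ hΨ0
  set s0 := m q with hs0
  set y0 : ℂ × ℂ := (0, s0) with hy0
  set K : ℂ × ℂ → ℂ := fun y => J (Ψ y) with hK
  have hKd : DifferentiableOn ℂ K (Metric.ball y0 r) := by
    intro y hy
    have h1 : DifferentiableAt ℂ Ψ y := hΨd.differentiableAt (Metric.isOpen_ball.mem_nhds hy)
    have h2 : DifferentiableAt ℂ J (Ψ y) := hJd.differentiableAt (hG.mem_nhds (hΨ y hy).1)
    exact (h2.comp y h1).differentiableWithinAt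
  have hKz : ∀ y ∈ Metric.ball y0 r, K y = 0 → y.1 = 0 := by
    intro y hy hy0
    rw [← (hΨ y hy).2.1]
    exact hhZ _ (hΨ y hy).1 hy0
  have hy0m : y0 ∈ Metric.ball y0 r := Metric.mem_ball_self hr
  have hKc : ContinuousAt K y0 :=
    (hKd.differentiableAt (Metric.isOpen_ball.mem_nhds hy0m)).continuousAt
  obtain ⟨r', hr', hb⟩ : ∃ r' > 0, ∀ y ∈ Metric.ball y0 r', ‖K y‖ < ‖K y0‖ + 1 ∧
      y ∈ Metric.ball y0 r := by
    apply Metric.eventually_nhds_iff_ball.1
    exact (hKc.norm.eventually_lt continuousAt_const (by simp)).and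
      (Metric.isOpen_ball.mem_nhds hy0m)
  set t : ℕ → ℂ := fun n => ((r' / (n + 2) : ℝ) : ℂ) with ht
  have htn : ∀ n, ‖t n‖ < r' := by
    intro n
    simp only [ht, Complex.norm_real, Real.norm_eq_abs]
    rw [abs_of_pos (by positivity), div_lt_iff₀ (by positivity)]
    have : (0:ℝ) ≤ n := Nat.cast_nonneg n
    nlinarith
  have ht0 : ∀ n, t n ≠ 0 := by
    intro n
    simp only [ht]
    have : (r' / (n + 2) : ℝ) ≠ 0 := by positivity
    exact_mod_cast this
  have htlim : Tendsto t atTop (𝓝 0) := by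
    have h1 : Tendsto (fun n : ℕ => (r' / (n + 2) : ℝ)) atTop (𝓝 0) := by
      apply tendsto_const_nhds.div_atTop
      exact tendsto_atTop_add_const_right _ _ tendsto_natCast_atTop_atTop
    have h2 := (Complex.continuous_ofReal.tendsto 0).comp h1
    rw [Complex.ofReal_zero] at h2
    exact h2
  have hmem : ∀ z : ℂ, ‖z‖ < r' → ∀ s ∈ Metric.ball s0 r', (z, s) ∈ Metric.ball y0 r' := by
    intro z hz s hs
    rw [Metric.mem_ball, hy0, Prod.dist_eq, max_lt_iff]
    refine ⟨?_, hs⟩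
    rw [dist_zero_right]; exact hz
  have hFd : ∀ z : ℂ, ‖z‖ < r' → DifferentiableOn ℂ (fun s => K (z, s)) (Metric.ball s0 r') := by
    intro z hz s hs
    have h1 : DifferentiableAt ℂ K (z, s) :=
      hKd.differentiableAt (Metric.isOpen_ball.mem_nhds (hb _ (hmem z hz s hs)).2)
    exact (DifferentiableAt.comp s h1 (by fun_prop)).differentiableWithinAt
  have h0r' : ‖(0:ℂ)‖ < r' := by rw [norm_zero]; exact hr'
  have htl := One.tlu_of_pointwise (l := atTop) (U := Metric.ball s0 r')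
    (F := fun n s => K (t n, s)) (f := fun s => K (0, s)) (M := ‖K y0‖ + 1) Metric.isOpen_ball
    (fun n => hFd (t n) (htn n)) (fun n s hs => (hb _ (hmem _ (htn n) s hs)).1.le)
    (fun s hs => by
      have h1 : ContinuousAt K (0, s) :=
        (hKd.differentiableAt (Metric.isOpen_ball.mem_nhds (hb _ (hmem 0 h0r' s hs)).2)).continuousAt
      have h2 : Tendsto (fun n => (t n, s)) atTop (𝓝 ((0:ℂ), s)) :=
        htlim.prodMk_nhds tendsto_const_nhds
      exact h1.tendsto.comp h2)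
  have hev := One.hurwitz (l := atTop) Metric.isOpen_ball (fun n => hFd (t n) (htn n)) htl
    (fun n s hs h1 => ht0 n (hKz _ (hb _ (hmem _ (htn n) s hs)).2 h1))
    (Metric.mem_ball_self hr') (show K (0, s0) = 0 by
      show J (Ψ (0, s0)) = 0
      rw [hΨ0]; exact hqJ)
  -- the curve of zeros
  obtain ⟨δ, hδ, hδz⟩ := Metric.eventually_nhds_iff_ball.1
    (hev.and (Metric.isOpen_ball.mem_nhds (Metric.mem_ball_self hr' : s0 ∈ Metric.ball s0 r')))
  set γ : ℂ → ℂ × ℂ := fun s => Ψ (0, s) with hγ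
  have hmemr : ∀ s ∈ Metric.ball s0 δ, ((0:ℂ), s) ∈ Metric.ball y0 r := by
    intro s hs
    exact (hb _ (hmem 0 h0r' s (hδz s hs).2)).2
  have hγG : ∀ s ∈ Metric.ball s0 δ, γ s ∈ G := fun s hs => (hΨ _ (hmemr s hs)).1
  have hγm : ∀ s ∈ Metric.ball s0 δ, m (γ s) = s := fun s hs => (hΨ _ (hmemr s hs)).2.2
  have hder : ∀ s ∈ Metric.ball s0 δ, HasDerivAt (fun s => Φ (γ s)) 0 s := by
    intro s hs
    have h1 : DifferentiableAt ℂ Ψ (0, s) :=
      hΨd.differentiableAt (Metric.isOpen_ball.mem_nhds (hmemr s hs))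
    have h2 : DifferentiableAt ℂ γ s := DifferentiableAt.comp s h1 (by fun_prop)
    have h3 : HasFDerivAt Φ (fderiv ℂ Φ (γ s)) (γ s) :=
      (hΦ.differentiableAt (hG.mem_nhds (hγG s hs))).hasFDerivAt
    have h4 := h3.comp_hasDerivAt s h2.hasDerivAt
    rw [hJ1 (γ s) (hγG s hs) (hδz s hs).1] at h4
    exact h4
  have hconst : ∀ s ∈ Metric.ball s0 δ, Φ (γ s) = Φ (γ s0) := by
    intro s hs
    have h1 := (convex_ball s0 δ).norm_image_sub_le_of_norm_hasDerivWithin_le (𝕜 := ℂ)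
      (f := fun s => Φ (γ s)) (f' := fun _ => 0) (C := 0) (x := s0) (y := s)
      (fun s hs => (hder s hs).hasDerivWithinAt) (fun s _ => by simp)
      (Metric.mem_ball_self hδ) hs
    rw [zero_mul] at h1
    exact sub_eq_zero.1 (norm_le_zero_iff.1 h1)
  set s1 : ℂ := s0 + ((δ / 2 : ℝ) : ℂ) with hs1
  have hs1m : s1 ∈ Metric.ball s0 δ := by
    rw [Metric.mem_ball, dist_eq_norm, hs1, add_sub_cancel_left, Complex.norm_real,
      Real.norm_eq_abs, abs_of_pos (by linarith)]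
    linarith
  have hs0m : s0 ∈ Metric.ball s0 δ := Metric.mem_ball_self hδ
  have h1 := hinj (hγG s1 hs1m) (hγG s0 hs0m) (hconst s1 hs1m)
  have h2 : s1 = s0 := by rw [← hγm s1 hs1m, h1, hγm s0 hs0m]
  have h3 : ((δ / 2 : ℝ) : ℂ) = 0 := by
    rw [hs1] at h2
    simpa using h2
  have h4 : (δ / 2 : ℝ) = 0 := by exact_mod_cast h3
  linarith

/-- Osgood's theorem in dimension two: an injective holomorphic map between open subsets of ℂ²
is open and has a holomorphic inverse. -/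
theorem osgood {G : Set (ℂ × ℂ)} (hG : IsOpen G) {Φ : ℂ × ℂ → ℂ × ℂ}
    (hΦ : DifferentiableOn ℂ Φ G) (hinj : InjOn Φ G) :
    IsOpen (Φ '' G) ∧ ∃ Ψ : ℂ × ℂ → ℂ × ℂ,
      DifferentiableOn ℂ Ψ (Φ '' G) ∧ ∀ x ∈ G, Ψ (Φ x) = x := by
  have hloc := fun x (hx : x ∈ G) => inv_thm (cd1 hG hΦ hx)
    (rank_two hG hΦ hinj hx (fderiv_ne hG hΦ hinj hx))
  have hleft : ∀ x ∈ G, Function.invFunOn Φ G (Φ x) = x := fun x hx => hinj.leftInvOn_invFunOn hx
  refine ⟨?_, Function.invFunOn Φ G, ?_, hleft⟩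
  · rw [isOpen_iff_mem_nhds]
    rintro _ ⟨x, hx, rfl⟩
    obtain ⟨g, _, _, _, _, hmap⟩ := hloc x hx
    rw [← hmap]
    exact Filter.image_mem_map (hG.mem_nhds hx)
  · rintro _ ⟨x, hx, rfl⟩
    obtain ⟨g, hgd, hg0, hgr, _, _⟩ := hloc x hx
    have hgx : DifferentiableAt ℂ g (Φ x) := hgd.self_of_nhds
    have hmem : ∀ᶠ y in 𝓝 (Φ x), g y ∈ G := by
      apply hgx.continuousAt.eventually_mem
      rw [hg0]
      exact hG.mem_nhds hx
    apply DifferentiableAt.differentiableWithinAt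
    apply hgx.congr_of_eventuallyEq
    filter_upwards [hgr, hmem] with y hy1 hy2
    conv_lhs => rw [← hy1]
    exact hleft _ hy2

end Pool.Agent.Helper459.KN

section
open Complex Set Filter Topology Metric

namespace Pool.Agent.Helper459.KN

/-- a family of subharmonic polynomials -/
noncomputable def QQ (a b c e : ℝ) (z : ℂ) : ℝ :=
  a * ‖z‖ ^ 2 + b * ‖z‖ ^ 8 + c * ‖z‖ ^ 10 + e * (‖z‖ ^ 2 * (z ^ 6).re)

open ComplexConjugate in
lemma hasDerivAt_s {A B : ℂ → ℂ} {A' B' l0 v : ℂ} {t : ℝ}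
    (hA : HasDerivAt A A' (l0 + t * v)) (hB : HasDerivAt B B' (l0 + t * v)) :
    HasDerivAt (fun t : ℝ => (A (l0 + t * v) * conj (B (l0 + t * v))).re)
      (((v * A') * conj (B (l0 + t * v))).re + (A (l0 + t * v) * conj (v * B')).re) t := by
  have hline : HasDerivAt (fun z : ℂ => l0 + z * v) v (t : ℂ) := by
    simpa using ((hasDerivAt_id (t : ℂ)).mul_const v).const_add l0
  have hA1 : HasDerivAt (fun s : ℝ => A (l0 + s * v)) (A' * v) t :=
    (hA.comp (t : ℂ) hline).comp_ofReal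
  have hB1 : HasDerivAt (fun s : ℝ => B (l0 + s * v)) (B' * v) t :=
    (hB.comp (t : ℂ) hline).comp_ofReal
  have hB2 : HasDerivAt (fun s : ℝ => conj (B (l0 + s * v))) (conj (B' * v)) t := hB1.star
  have h := hA1.mul hB2
  have h2 := Complex.reCLM.hasFDerivAt.comp_hasDerivAt t h
  refine h2.congr_deriv ?_
  rw [mul_comm v A', mul_comm v B']
  exact Complex.add_re _ _

lemma second_nonpos {φ φ' : ℝ → ℝ} {D : ℝ} (h1 : ∀ᶠ t in 𝓝 (0 : ℝ), HasDerivAt φ (φ' t) t)
    (h2 : HasDerivAt φ' D 0) (hmax : IsLocalMax φ 0) : D ≤ 0 := by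
  by_contra hD
  push Not at hD
  have e1 : deriv φ =ᶠ[𝓝 0] φ' := h1.mono (fun t ht => ht.deriv)
  have e2 : deriv (deriv φ) 0 = D := by rw [e1.deriv_eq, h2.deriv]
  have e3 : deriv φ 0 = 0 := hmax.deriv_eq_zero
  have hc : ContinuousAt φ 0 := h1.self_of_nhds.continuousAt
  have hmin : IsLocalMin φ 0 := isLocalMin_of_deriv_deriv_pos (by rw [e2]; exact hD) e3 hc
  have e4 : φ =ᶠ[𝓝 0] fun _ => φ 0 := by
    filter_upwards [hmax, hmin] with t h1 h2
    exact le_antisymm h1 h2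
  have e5 : deriv φ =ᶠ[𝓝 0] fun _ => (0 : ℝ) := by
    have := e4.deriv
    simpa using this
  have e6 : deriv (deriv φ) 0 = 0 := by
    rw [e5.deriv_eq]
    simp
  linarith

open ComplexConjugate in
lemma dir_nonpos {ι : Type*} [Fintype ι] {A B : ι → ℂ → ℂ} {l0 : ℂ} {r : ℝ}
    (hl0 : l0 ∈ ball (0 : ℂ) r)
    (hA : ∀ i, DifferentiableOn ℂ (A i) (ball 0 r))
    (hB : ∀ i, DifferentiableOn ℂ (B i) (ball 0 r))
    (hmax : IsLocalMax (fun l => ∑ i, (A i l * conj (B i l)).re) l0) (v : ℂ) :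
    ∑ i, (((v * (v * deriv (deriv (A i)) l0)) * conj (B i l0)).re +
        ((v * deriv (A i) l0) * conj (v * deriv (B i) l0)).re +
      (((v * deriv (A i) l0) * conj (v * deriv (B i) l0)).re +
        (A i l0 * conj (v * (v * deriv (deriv (B i)) l0))).re)) ≤ 0 := by
  have hopen : IsOpen (ball (0 : ℂ) r) := isOpen_ball
  have hcont : Continuous (fun t : ℝ => l0 + (t : ℂ) * v) := by fun_prop
  have hnear : ∀ᶠ t : ℝ in 𝓝 (0 : ℝ), l0 + (t : ℂ) * v ∈ ball (0 : ℂ) r := by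
    apply hcont.continuousAt.eventually
    have : (fun t : ℝ => l0 + (t : ℂ) * v) 0 = l0 := by simp
    rw [this]
    exact hopen.mem_nhds hl0
  have hA1 : ∀ i, ∀ l ∈ ball (0 : ℂ) r, HasDerivAt (A i) (deriv (A i) l) l := fun i l hl =>
    ((hA i).differentiableAt (hopen.mem_nhds hl)).hasDerivAt
  have hB1 : ∀ i, ∀ l ∈ ball (0 : ℂ) r, HasDerivAt (B i) (deriv (B i) l) l := fun i l hl =>
    ((hB i).differentiableAt (hopen.mem_nhds hl)).hasDerivAt
  have hA2 : ∀ i, ∀ l ∈ ball (0 : ℂ) r, HasDerivAt (deriv (A i)) (deriv (deriv (A i)) l) l :=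
    fun i l hl => (((hA i).deriv hopen).differentiableAt (hopen.mem_nhds hl)).hasDerivAt
  have hB2 : ∀ i, ∀ l ∈ ball (0 : ℂ) r, HasDerivAt (deriv (B i)) (deriv (deriv (B i)) l) l :=
    fun i l hl => (((hB i).deriv hopen).differentiableAt (hopen.mem_nhds hl)).hasDerivAt
  refine second_nonpos (φ := fun t : ℝ => ∑ i, (A i (l0 + t * v) * conj (B i (l0 + t * v))).re)
    (φ' := fun t : ℝ => ∑ i, (((v * deriv (A i) (l0 + t * v)) * conj (B i (l0 + t * v))).re +
      (A i (l0 + t * v) * conj (v * deriv (B i) (l0 + t * v))).re)) ?_ ?_ ?_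
  · filter_upwards [hnear] with t ht
    apply HasDerivAt.fun_sum
    intro i _
    exact hasDerivAt_s (hA1 i _ ht) (hB1 i _ ht)
  · apply HasDerivAt.fun_sum
    intro i _
    have h0 : l0 + ((0 : ℝ) : ℂ) * v ∈ ball (0 : ℂ) r := by simpa using hl0
    have h1 := hasDerivAt_s (A := fun l => v * deriv (A i) l) (B := B i) (t := 0)
      ((hA2 i _ h0).const_mul v) (hB1 i _ h0)
    have h2 := hasDerivAt_s (A := A i) (B := fun l => v * deriv (B i) l) (t := 0)
      (hA1 i _ h0) ((hB2 i _ h0).const_mul v)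
    have h3 := h1.fun_add h2
    simpa using h3
  · have h1 : ∀ᶠ t : ℝ in 𝓝 (0 : ℝ),
        (∑ i, (A i (l0 + t * v) * conj (B i (l0 + t * v))).re) ≤
          ∑ i, (A i l0 * conj (B i l0)).re := by
      have : Tendsto (fun t : ℝ => l0 + (t : ℂ) * v) (𝓝 0) (𝓝 l0) := by
        have := hcont.tendsto 0
        simpa using this
      exact this.eventually hmax
    filter_upwards [h1] with t ht
    simpa using ht

open ComplexConjugate in
lemma lap_nonpos {ι : Type*} [Fintype ι] {A B : ι → ℂ → ℂ} {l0 : ℂ} {r : ℝ}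
    (hl0 : l0 ∈ ball (0 : ℂ) r)
    (hA : ∀ i, DifferentiableOn ℂ (A i) (ball 0 r))
    (hB : ∀ i, DifferentiableOn ℂ (B i) (ball 0 r))
    (hmax : IsLocalMax (fun l => ∑ i, (A i l * conj (B i l)).re) l0) :
    ∑ i, (deriv (A i) l0 * conj (deriv (B i) l0)).re ≤ 0 := by
  have h1 := dir_nonpos hl0 hA hB hmax 1
  have h2 := dir_nonpos hl0 hA hB hmax I
  have h3 := add_nonpos h1 h2
  rw [← Finset.sum_add_distrib] at h3
  have h4 : (4 : ℝ) * ∑ i, (deriv (A i) l0 * conj (deriv (B i) l0)).re ≤ 0 := by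
    rw [Finset.mul_sum]
    refine le_of_eq_of_le (Finset.sum_congr rfl ?_) h3
    intro i _
    simp only [map_mul, Complex.conj_I, one_mul, mul_re, mul_im, I_re, I_im, conj_re,
      conj_im, neg_re, neg_im]
    ring
  linarith

open ComplexConjugate in
lemma QQ_eq (a b c e : ℝ) (z : ℂ) : QQ a b c e z =
    ((a * z) * conj z).re + ((b * z ^ 4) * conj (z ^ 4)).re + ((c * z ^ 5) * conj (z ^ 5)).re +
      ((e * z ^ 7) * conj z).re := by
  have h1 : z * conj z = ((‖z‖ ^ 2 : ℝ) : ℂ) := by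
    rw [Complex.mul_conj, Complex.normSq_eq_norm_sq]
  have e1 : (a * z) * conj z = ((a * ‖z‖ ^ 2 : ℝ) : ℂ) := by
    rw [mul_assoc, h1]; push_cast; ring
  have e2 : (b * z ^ 4) * conj (z ^ 4) = ((b * ‖z‖ ^ 8 : ℝ) : ℂ) := by
    rw [map_pow, mul_assoc, ← mul_pow, h1]; push_cast; ring
  have e3 : (c * z ^ 5) * conj (z ^ 5) = ((c * ‖z‖ ^ 10 : ℝ) : ℂ) := by
    rw [map_pow, mul_assoc, ← mul_pow, h1]; push_cast; ring
  have e4 : (e * z ^ 7) * conj z = ((e * ‖z‖ ^ 2 : ℝ) : ℂ) * z ^ 6 := by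
    rw [show (e * z ^ 7) * conj z = e * z ^ 6 * (z * conj z) by ring, h1]; push_cast; ring
  rw [e1, e2, e3, e4, Complex.ofReal_re, Complex.ofReal_re, Complex.ofReal_re,
    Complex.re_ofReal_mul]
  unfold QQ
  ring

lemma QQ_continuous (a b c e : ℝ) : Continuous (QQ a b c e) := by
  unfold QQ
  fun_prop

open ComplexConjugate in
lemma no_max {a b c e : ℝ} (ha : 0 ≤ a) (hb : 7 * |e| ≤ 16 * b) (hc : 0 ≤ c)
    {r : ℝ} {f q : ℂ → ℂ} (hf : DifferentiableOn ℂ f (ball 0 r))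
    (hq : DifferentiableOn ℂ q (ball 0 r)) {ε : ℝ} (hε : 0 < ε) {l0 : ℂ}
    (hl0 : l0 ∈ ball (0 : ℂ) r) :
    ¬ IsLocalMax (fun l => QQ a b c e (f l) - (q l).re + ε * ‖l‖ ^ 2) l0 := by
  intro hmax
  let A : Fin 6 → ℂ → ℂ := ![fun l => a * f l, fun l => b * f l ^ 4, fun l => c * f l ^ 5,
    fun l => e * f l ^ 7, fun l => - q l, fun l => ε * l]
  let B : Fin 6 → ℂ → ℂ := ![fun l => f l, fun l => f l ^ 4, fun l => f l ^ 5,
    fun l => f l, fun _ => 1, fun l => l]
  have hA : ∀ i, DifferentiableOn ℂ (A i) (ball 0 r) := by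
    intro i
    fin_cases i
    · exact hf.const_mul _
    · exact (hf.pow 4).const_mul _
    · exact (hf.pow 5).const_mul _
    · exact (hf.pow 7).const_mul _
    · exact hq.neg
    · exact differentiableOn_id.const_mul _
  have hB : ∀ i, DifferentiableOn ℂ (B i) (ball 0 r) := by
    intro i
    fin_cases i
    · exact hf
    · exact hf.pow 4
    · exact hf.pow 5
    · exact hf
    · exact differentiableOn_const _
    · exact differentiableOn_id
  have heq : (fun l => QQ a b c e (f l) - (q l).re + ε * ‖l‖ ^ 2) =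
      fun l => ∑ i, (A i l * conj (B i l)).re := by
    funext l
    rw [Fin.sum_univ_six, QQ_eq]
    simp only [A, B, Matrix.cons_val]
    have : (ε * l * conj l) = ((ε * ‖l‖ ^ 2 : ℝ) : ℂ) := by
      rw [mul_assoc, Complex.mul_conj, Complex.normSq_eq_norm_sq]; push_cast; ring
    rw [this, Complex.ofReal_re, map_one, mul_one, Complex.neg_re]
    ring
  rw [heq] at hmax
  have h1 := lap_nonpos hl0 hA hB hmax
  have hfd : HasDerivAt f (deriv f l0) l0 :=
    (hf.differentiableAt (isOpen_ball.mem_nhds hl0)).hasDerivAt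
  set d := deriv f l0
  have hA0 : deriv (A 0) l0 = a * d := (hfd.const_mul (a : ℂ)).deriv
  have hA1 : deriv (A 1) l0 = b * (4 * f l0 ^ 3 * d) := by
    have := ((hfd.pow 4).const_mul (b : ℂ)).deriv
    simpa [A] using this
  have hA2 : deriv (A 2) l0 = c * (5 * f l0 ^ 4 * d) := by
    have := ((hfd.pow 5).const_mul (c : ℂ)).deriv
    simpa [A] using this
  have hA3 : deriv (A 3) l0 = e * (7 * f l0 ^ 6 * d) := by
    have := ((hfd.pow 7).const_mul (e : ℂ)).deriv
    simpa [A] using this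
  have hA5 : deriv (A 5) l0 = ε := by
    have := ((hasDerivAt_id l0).const_mul (ε : ℂ)).deriv
    simpa [A] using this
  have hB0 : deriv (B 0) l0 = d := hfd.deriv
  have hB1 : deriv (B 1) l0 = 4 * f l0 ^ 3 * d := by
    have := (hfd.fun_pow 4).deriv
    simpa [B] using this
  have hB2 : deriv (B 2) l0 = 5 * f l0 ^ 4 * d := by
    have := (hfd.fun_pow 5).deriv
    simpa [B] using this
  have hB3 : deriv (B 3) l0 = d := hfd.deriv
  have hB4 : deriv (B 4) l0 = 0 := (hasDerivAt_const l0 (1 : ℂ)).deriv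
  have hB5 : deriv (B 5) l0 = 1 := (hasDerivAt_id l0).deriv
  rw [Fin.sum_univ_six, hA0, hA1, hA2, hA3, hA5, hB0, hB1, hB2, hB3, hB4, hB5] at h1
  have hd : d * conj d = ((‖d‖ ^ 2 : ℝ) : ℂ) := by
    rw [Complex.mul_conj, Complex.normSq_eq_norm_sq]
  have hz : f l0 * conj (f l0) = ((‖f l0‖ ^ 2 : ℝ) : ℂ) := by
    rw [Complex.mul_conj, Complex.normSq_eq_norm_sq]
  have e0 : (a * d * conj d).re = a * ‖d‖ ^ 2 := by
    rw [mul_assoc, hd, ← Complex.ofReal_mul, Complex.ofReal_re]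
  have e1 : (b * (4 * f l0 ^ 3 * d) * conj (4 * f l0 ^ 3 * d)).re =
      16 * b * ‖f l0‖ ^ 6 * ‖d‖ ^ 2 := by
    have : (b * (4 * f l0 ^ 3 * d) * conj (4 * f l0 ^ 3 * d)) =
        ((16 * b * ‖f l0‖ ^ 6 * ‖d‖ ^ 2 : ℝ) : ℂ) := by
      rw [map_mul, map_mul, map_pow,
        show conj (4 : ℂ) = 4 from Complex.conj_ofNat 4,
        show b * (4 * f l0 ^ 3 * d) * (4 * conj (f l0) ^ 3 * conj d) =
          16 * b * (f l0 * conj (f l0)) ^ 3 * (d * conj d) by ring, hd, hz]
      push_cast; ring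
    rw [this, Complex.ofReal_re]
  have e2 : (c * (5 * f l0 ^ 4 * d) * conj (5 * f l0 ^ 4 * d)).re =
      25 * c * ‖f l0‖ ^ 8 * ‖d‖ ^ 2 := by
    have : (c * (5 * f l0 ^ 4 * d) * conj (5 * f l0 ^ 4 * d)) =
        ((25 * c * ‖f l0‖ ^ 8 * ‖d‖ ^ 2 : ℝ) : ℂ) := by
      rw [map_mul, map_mul, map_pow,
        show conj (5 : ℂ) = 5 from Complex.conj_ofNat 5,
        show c * (5 * f l0 ^ 4 * d) * (5 * conj (f l0) ^ 4 * conj d) =
          25 * c * (f l0 * conj (f l0)) ^ 4 * (d * conj d) by ring, hd, hz]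
      push_cast; ring
    rw [this, Complex.ofReal_re]
  have e3 : (e * (7 * f l0 ^ 6 * d) * conj d).re = 7 * e * ‖d‖ ^ 2 * (f l0 ^ 6).re := by
    rw [show e * (7 * f l0 ^ 6 * d) * conj d = 7 * e * (d * conj d) * f l0 ^ 6 by ring, hd,
      show (7 * (e : ℂ) * ((‖d‖ ^ 2 : ℝ) : ℂ) * f l0 ^ 6) =
        ((7 * e * ‖d‖ ^ 2 : ℝ) : ℂ) * f l0 ^ 6 by push_cast; ring, Complex.re_ofReal_mul]
  rw [e0, e1, e2, e3] at h1
  simp only [map_zero, mul_zero, Complex.zero_re, map_one, mul_one, Complex.ofReal_re,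
    add_zero] at h1
  have h2 : |(f l0 ^ 6).re| ≤ ‖f l0‖ ^ 6 := by
    rw [← norm_pow]
    exact Complex.abs_re_le_norm _
  have h3 : -(16 * b * ‖f l0‖ ^ 6) ≤ 7 * e * (f l0 ^ 6).re := by
    have h4 : -(|e| * ‖f l0‖ ^ 6) ≤ e * (f l0 ^ 6).re := by
      have h5 : |e * (f l0 ^ 6).re| ≤ |e| * ‖f l0‖ ^ 6 := by
        rw [abs_mul]
        exact mul_le_mul_of_nonneg_left h2 (abs_nonneg e)
      exact (abs_le.mp h5).1
    have h6 : 7 * |e| * ‖f l0‖ ^ 6 ≤ 16 * b * ‖f l0‖ ^ 6 :=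
      mul_le_mul_of_nonneg_right hb (by positivity)
    linarith
  have h7 : 0 ≤ (16 * b * ‖f l0‖ ^ 6 + 7 * e * (f l0 ^ 6).re) * ‖d‖ ^ 2 :=
    mul_nonneg (by linarith) (by positivity)
  have h8 : 0 ≤ a * ‖d‖ ^ 2 := by positivity
  have h9 : 0 ≤ 25 * c * ‖f l0‖ ^ 8 * ‖d‖ ^ 2 := by positivity
  nlinarith

/-- maximum principle for `QQ ∘ f - Re q` -/
theorem max_principle {a b c e : ℝ} (ha : 0 ≤ a) (hb : 7 * |e| ≤ 16 * b) (hc : 0 ≤ c)
    {r : ℝ} (hr : 0 < r) {f q : ℂ → ℂ} (hf : DiffContOnCl ℂ f (ball 0 r))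
    (hq : DiffContOnCl ℂ q (ball 0 r)) {δ : ℝ}
    (h : ∀ l ∈ sphere (0 : ℂ) r, QQ a b c e (f l) ≤ (q l).re + δ) :
    ∀ l ∈ closedBall (0 : ℂ) r, QQ a b c e (f l) ≤ (q l).re + δ := by
  intro l hl
  apply le_of_forall_pos_le_add
  intro η hη
  have hr2 : 0 < r ^ 2 := by positivity
  have hε : 0 < η / r ^ 2 := by positivity
  set ε := η / r ^ 2 with hεdef
  have hfc : ContinuousOn f (closedBall 0 r) := by
    have := hf.continuousOn
    rwa [closure_ball _ hr.ne'] at this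
  have hqc : ContinuousOn q (closedBall 0 r) := by
    have := hq.continuousOn
    rwa [closure_ball _ hr.ne'] at this
  have hu : ContinuousOn (fun l => QQ a b c e (f l) - (q l).re + ε * ‖l‖ ^ 2) (closedBall 0 r) := by
    apply ContinuousOn.add
    · apply ContinuousOn.sub
      · exact (QQ_continuous a b c e).comp_continuousOn hfc
      · exact Complex.continuous_re.comp_continuousOn hqc
    · fun_prop
  obtain ⟨l0, hl0, hmax⟩ := (isCompact_closedBall (0 : ℂ) r).exists_isMaxOn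
    ⟨l, hl⟩ hu
  by_cases hin : l0 ∈ ball (0 : ℂ) r
  · exfalso
    refine no_max ha hb hc hf.differentiableOn hq.differentiableOn hε hin ?_
    exact hmax.isLocalMax (mem_of_superset (isOpen_ball.mem_nhds hin) ball_subset_closedBall)
  · have hs : l0 ∈ sphere (0 : ℂ) r := by
      rw [mem_closedBall, dist_zero_right] at hl0
      rw [mem_ball, dist_zero_right] at hin
      rw [mem_sphere, dist_zero_right]
      linarith
    have h1 := h l0 hs
    have h2 : QQ a b c e (f l) - (q l).re + ε * ‖l‖ ^ 2 ≤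
      QQ a b c e (f l0) - (q l0).re + ε * ‖l0‖ ^ 2 := hmax hl
    have h3 : ‖l0‖ = r := by simpa using hs
    rw [h3] at h2
    have h4 : ε * r ^ 2 = η := by rw [hεdef]; field_simp
    have h5 : 0 ≤ ε * ‖l‖ ^ 2 := by positivity
    linarith

open ComplexConjugate in
/-- real parts of polynomials are uniformly dense in the continuous real functions on the circle -/
theorem exists_poly_approx {g : ℂ → ℝ} {r : ℝ} (hr : 0 < r) (hg : ContinuousOn g (sphere 0 r))
    {δ : ℝ} (hδ : 0 < δ) :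
    ∃ q : Polynomial ℂ, ∀ l ∈ sphere (0 : ℂ) r, |(q.eval l).re - g l| ≤ δ := by
  have : Fact (0 < (1 : ℝ)) := ⟨one_pos⟩
  let w : AddCircle (1 : ℝ) → ℂ := fun x => r * (AddCircle.toCircle x : ℂ)
  have hw : Continuous w := by
    have := (AddCircle.continuous_toCircle (T := (1 : ℝ)))
    fun_prop
  have hws : ∀ x, w x ∈ sphere (0 : ℂ) r := by
    intro x
    simp only [w, mem_sphere_iff_norm, sub_zero, norm_mul, Circle.norm_coe, mul_one,
      Complex.norm_real, Real.norm_of_nonneg hr.le]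
  let G : C(AddCircle (1 : ℝ), ℂ) := ⟨fun x => ((g (w x) : ℝ) : ℂ), by
    exact Complex.continuous_ofReal.comp (hg.comp_continuous hw hws)⟩
  have hG : G ∈ (Submodule.span ℂ (Set.range (@fourier (1 : ℝ)))).topologicalClosure := by
    rw [span_fourier_closure_eq_top]; trivial
  rw [← SetLike.mem_coe, Submodule.topologicalClosure_coe, Metric.mem_closure_iff] at hG
  obtain ⟨p, hp, hpG⟩ := hG δ hδ
  have hkey : ∃ q1 q2 : Polynomial ℂ, ∀ x, p x = q1.eval (w x) + conj (q2.eval (w x)) := by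
    have hr' : (r : ℂ) ≠ 0 := by exact_mod_cast hr.ne'
    refine Submodule.span_induction (p := fun p _ => ∃ q1 q2 : Polynomial ℂ, ∀ x,
      p x = q1.eval (w x) + conj (q2.eval (w x))) ?_ ?_ ?_ ?_ hp
    · rintro _ ⟨n, rfl⟩
      obtain ⟨m, rfl | rfl⟩ := n.eq_nat_or_neg
      · refine ⟨Polynomial.C ((r : ℂ)⁻¹ ^ m) * Polynomial.X ^ m, 0, fun x => ?_⟩
        simp only [Polynomial.eval_mul, Polynomial.eval_C, Polynomial.eval_pow,
          Polynomial.eval_X, Polynomial.eval_zero, map_zero, add_zero, w, fourier_apply]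
        rw [← mul_pow, inv_mul_cancel_left₀ hr', AddCircle.toCircle_zsmul]
        simp
      · refine ⟨0, Polynomial.C ((r : ℂ)⁻¹ ^ m) * Polynomial.X ^ m, fun x => ?_⟩
        simp only [Polynomial.eval_mul, Polynomial.eval_C, Polynomial.eval_pow,
          Polynomial.eval_X, Polynomial.eval_zero, zero_add, w, fourier_apply]
        rw [← mul_pow, inv_mul_cancel_left₀ hr', AddCircle.toCircle_zsmul]
        simp only [zpow_neg, zpow_natCast, Circle.coe_inv_eq_conj, Circle.coe_pow, map_pow]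
    · exact ⟨0, 0, fun x => by simp⟩
    · rintro p1 p2 _ _ ⟨q1, q2, h⟩ ⟨q1', q2', h'⟩
      refine ⟨q1 + q1', q2 + q2', fun x => ?_⟩
      simp only [ContinuousMap.add_apply, h, h', Polynomial.eval_add, map_add]
      ring
    · rintro c p1 _ ⟨q1, q2, h⟩
      refine ⟨Polynomial.C c * q1, Polynomial.C (conj c) * q2, fun x => ?_⟩
      simp only [ContinuousMap.smul_apply, h, smul_eq_mul, Polynomial.eval_mul, Polynomial.eval_C,
        map_mul, Complex.conj_conj]
      ring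
  obtain ⟨q1, q2, hq⟩ := hkey
  refine ⟨q1 + q2, fun l hl => ?_⟩
  obtain ⟨x, hx⟩ : ∃ x, w x = l := by
    have hl' : ‖l‖ = r := by simpa using hl
    have hlr : l / r ∈ Submonoid.unitSphere ℂ := by
      change l / r ∈ sphere (0 : ℂ) 1
      rw [mem_sphere_iff_norm, sub_zero, norm_div, hl', Complex.norm_real, Real.norm_of_nonneg hr.le,
        div_self hr.ne']
    obtain ⟨x, hx⟩ := (AddCircle.homeomorphCircle (T := (1 : ℝ)) one_ne_zero).surjective
      (⟨l / r, hlr⟩ : Circle)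
    rw [AddCircle.homeomorphCircle_apply] at hx
    refine ⟨x, ?_⟩
    simp only [w, hx]
    have hr' : (r : ℂ) ≠ 0 := by exact_mod_cast hr.ne'
    change (r : ℂ) * (l / r) = l
    field_simp
  have h1 : dist (G x) (p x) ≤ δ := (ContinuousMap.dist_apply_le_dist x).trans hpG.le
  rw [hq x, hx, dist_eq_norm] at h1
  have h2 : G x = ((g l : ℝ) : ℂ) := by
    change ((g (w x) : ℝ) : ℂ) = _
    rw [hx]
  rw [h2] at h1
  have h3 := (Complex.abs_re_le_norm _).trans h1
  rw [Polynomial.eval_add, abs_sub_comm]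
  simpa using h3

/-- sub mean value inequality -/
theorem submean {a b c e : ℝ} (ha : 0 ≤ a) (hb : 7 * |e| ≤ 16 * b) (hc : 0 ≤ c)
    {r : ℝ} (hr : 0 < r) {f : ℂ → ℂ} (hf : DiffContOnCl ℂ f (ball 0 r)) :
    QQ a b c e (f 0) ≤ Real.circleAverage (fun l => QQ a b c e (f l)) 0 r := by
  have hfc : ContinuousOn f (closedBall 0 r) := by
    have := hf.continuousOn
    rwa [closure_ball _ hr.ne'] at this
  have hgc : ContinuousOn (fun l => QQ a b c e (f l)) (sphere 0 r) :=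
    (QQ_continuous a b c e).comp_continuousOn (hfc.mono sphere_subset_closedBall)
  apply le_of_forall_pos_le_add
  intro η hη
  obtain ⟨q, hq⟩ := exists_poly_approx hr hgc (half_pos hη)
  have hqd : DiffContOnCl ℂ (fun l => q.eval l) (ball 0 r) := q.differentiable.diffContOnCl
  have h1 := max_principle ha hb hc hr hf hqd (δ := η / 2)
    (fun l hl => by have := abs_le.mp (hq l hl); linarith [this.1]) 0
    (mem_closedBall_self hr.le)
  have h2 : Real.circleAverage (fun l => q.eval l) 0 r = q.eval 0 := by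
    apply DiffContOnCl.circleAverage
    rw [abs_of_pos hr]; exact hqd
  have hci : CircleIntegrable (fun l => q.eval l) 0 r :=
    (q.continuous.continuousOn).circleIntegrable hr.le
  have h3 : Real.circleAverage (fun l => (q.eval l).re) 0 r = (q.eval 0).re := by
    rw [← h2]
    exact ContinuousLinearMap.circleAverage_comp_comm Complex.reCLM hci
  have hci2 : CircleIntegrable (fun l => (q.eval l).re) 0 r := by
    apply ContinuousOn.circleIntegrable hr.le
    exact (Complex.continuous_re.comp q.continuous).continuousOn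
  have hci3 : CircleIntegrable (fun l => QQ a b c e (f l)) 0 r := hgc.circleIntegrable hr.le
  have h4 : Real.circleAverage (fun l => (q.eval l).re - η / 2) 0 r ≤
      Real.circleAverage (fun l => QQ a b c e (f l)) 0 r := by
    apply Real.circleAverage_mono
    · exact hci2.sub (circleIntegrable_const _ _ _)
    · exact hci3
    · intro l hl
      rw [abs_of_pos hr] at hl
      have := abs_le.mp (hq l hl)
      linarith [this.2]
  have h5 : Real.circleAverage (fun l => (q.eval l).re - η / 2) 0 r = (q.eval 0).re - η / 2 := by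
    rw [Real.circleAverage_fun_sub hci2 (circleIntegrable_const _ _ _), h3,
      Real.circleAverage_const]
  linarith

end Pool.Agent.Helper459.KN

end

namespace Pool.Agent.Helper459.KN

/-- the Kohn-Nirenberg polynomial -/
noncomputable def KP (z : ℂ) : ℝ := ‖z‖ ^ 8 + 15 / 7 * (‖z‖ ^ 2 * (z ^ 6).re)

end Pool.Agent.Helper459.KN

namespace Pool.Agent.Helper459.KN.Av

section
open Complex Set Filter Topology Metric MeasureTheory

noncomputable def zr (r : ℝ) (l : ℂ) : ℂ := l * exp (-(1/2) * log (1 - r * l))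

lemma zr_slit {r : ℝ} (h0 : 0 < r) (h1 : r < 1) {l : ℂ} (hl : ‖l‖ ≤ 1) :
    (1 - r * l) ∈ slitPlane := by
  left
  have h2 : l.re ≤ 1 := (re_le_norm l).trans hl
  have h3 : (1 - (r : ℂ) * l).re = 1 - r * l.re := by simp
  rw [h3]
  nlinarith

lemma zr_diff {r : ℝ} (h0 : 0 < r) (h1 : r < 1) : DiffContOnCl ℂ (zr r) (ball 0 1) := by
  apply DifferentiableOn.diffContOnCl
  rw [closure_ball _ one_ne_zero]
  intro l hl
  have hl' : ‖l‖ ≤ 1 := by simpa using hl
  have hs := zr_slit h0 h1 hl'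
  have hd : DifferentiableAt ℂ (fun l : ℂ => 1 - (r : ℂ) * l) l := by fun_prop
  have h2 : DifferentiableAt ℂ (fun l : ℂ => log (1 - (r : ℂ) * l)) l := hd.clog hs
  have h3 : DifferentiableAt ℂ (fun l : ℂ => l * exp (-(1/2) * log (1 - (r : ℂ) * l))) l := by
    fun_prop
  exact h3.differentiableWithinAt

lemma zr_sq {r : ℝ} {l : ℂ} (h : (1 - (r : ℂ) * l) ≠ 0) : zr r l ^ 2 = l ^ 2 / (1 - r * l) := by
  have : exp (-(1/2) * log (1 - (r : ℂ) * l)) ^ 2 = (1 - (r : ℂ) * l)⁻¹ := by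
    rw [← exp_nat_mul]
    have : ((2 : ℕ) : ℂ) * (-(1/2) * log (1 - (r : ℂ) * l)) = - log (1 - (r : ℂ) * l) := by
      push_cast; ring
    rw [this, exp_neg, exp_log h]
  unfold zr
  rw [mul_pow, this, div_eq_mul_inv]

/-- scale invariant form -/
noncomputable def G (u l : ℂ) : ℝ := (‖u‖⁻¹) ^ 4 + 15 / 7 * (‖u‖⁻¹ * ((l ^ 2 / u) ^ 3).re)

lemma KP_zr {r : ℝ} {l : ℂ} (hl : ‖l‖ = 1) (h : (1 - (r : ℂ) * l) ≠ 0) :
    KP (zr r l) = G (1 - r * l) l := by
  have h1 := zr_sq h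
  have h2 : ‖zr r l‖ ^ 2 = ‖(1 - (r : ℂ) * l)‖⁻¹ := by
    rw [← norm_pow, h1, norm_div, norm_pow, hl]; simp
  unfold KP G
  have h3 : ‖zr r l‖ ^ 8 = (‖zr r l‖ ^ 2) ^ 4 := by ring
  have h4 : zr r l ^ 6 = (zr r l ^ 2) ^ 3 := by ring
  rw [h3, h4, h2, h1]

lemma G_scale {e : ℝ} (he : 0 < e) (u l : ℂ) : G (e * u) l = (e⁻¹) ^ 4 * G u l := by
  unfold G
  have h1 : ‖(e : ℂ) * u‖ = e * ‖u‖ := by
    rw [norm_mul, Complex.norm_real, Real.norm_of_nonneg he.le]
  have h2 : (l ^ 2 / ((e : ℂ) * u)) ^ 3 = ((e⁻¹ ^ 3 : ℝ) : ℂ) * (l ^ 2 / u) ^ 3 := by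
    push_cast
    rw [div_mul_eq_div_div, div_right_comm]
    rw [div_pow, div_eq_mul_inv _ ((e:ℂ) ^ 3)]
    ring
  rw [h1, h2, re_ofReal_mul, mul_inv]
  ring

lemma G_bound (u l : ℂ) (hl : ‖l‖ = 1) : |G u l| ≤ 22 / 7 * (‖u‖⁻¹) ^ 4 := by
  unfold G
  have h1 : |((l ^ 2 / u) ^ 3).re| ≤ (‖u‖⁻¹) ^ 3 := by
    refine (abs_re_le_norm _).trans ?_
    rw [norm_pow, norm_div, norm_pow, hl]; simp
  have h0 : 0 ≤ ‖u‖⁻¹ := by positivity
  calc |(‖u‖⁻¹) ^ 4 + 15 / 7 * (‖u‖⁻¹ * ((l ^ 2 / u) ^ 3).re)|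
      ≤ |(‖u‖⁻¹) ^ 4| + |15 / 7 * (‖u‖⁻¹ * ((l ^ 2 / u) ^ 3).re)| := abs_add_le _ _
    _ = (‖u‖⁻¹) ^ 4 + 15 / 7 * (‖u‖⁻¹ * |((l ^ 2 / u) ^ 3).re|) := by
        rw [abs_of_nonneg (by positivity), abs_mul, abs_mul, abs_of_nonneg h0,
          abs_of_nonneg (by norm_num : (0:ℝ) ≤ 15/7)]
    _ ≤ (‖u‖⁻¹) ^ 4 + 15 / 7 * (‖u‖⁻¹ * (‖u‖⁻¹) ^ 3) := by gcongr
    _ = 22 / 7 * (‖u‖⁻¹) ^ 4 := by ring

/-- rescaled integrand -/
noncomputable def H (e s : ℝ) : ℝ :=
  G ((1 - (1 - e : ℝ) * exp (e * s * I)) / e) (exp (e * s * I)) * ((1 - Real.cos (e * s)) / e ^ 2)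

lemma norm_exp1 (e s : ℝ) : ‖exp ((e : ℂ) * s * I)‖ = 1 := by
  have : (e : ℂ) * s * I = ((e * s : ℝ) : ℂ) * I := by push_cast; ring
  rw [this, norm_exp_ofReal_mul_I]

lemma H_eq {e : ℝ} (h0 : 0 < e) (h1 : e < 1) (s : ℝ) :
    H e s = e ^ 2 * (KP (zr (1 - e) (exp (e * s * I))) * (1 - Real.cos (e * s))) := by
  have hl := norm_exp1 e s
  have hs := zr_slit (r := 1 - e) (by linarith) (by linarith) hl.le
  have hne := slitPlane_ne_zero hs
  rw [KP_zr hl hne]
  have h2 : (1 - ((1 - e : ℝ) : ℂ) * exp (e * s * I)) =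
      (e : ℂ) * ((1 - (1 - e : ℝ) * exp (e * s * I)) / e) := by
    have : (e : ℂ) ≠ 0 := by exact_mod_cast h0.ne'
    field_simp
  rw [h2, G_scale h0]
  unfold H
  field_simp

lemma norm_w_sq (e s : ℝ) : ‖(1 - ((1 - e : ℝ) : ℂ) * exp (e * s * I))‖ ^ 2 =
    e ^ 2 + 2 * (1 - e) * (1 - Real.cos (e * s)) := by
  have : (e : ℂ) * s * I = ((e * s : ℝ) : ℂ) * I := by push_cast; ring
  rw [this, exp_mul_I, ← ofReal_cos, ← ofReal_sin]
  have h2 : (1 - ((1 - e : ℝ) : ℂ) * (((Real.cos (e * s) : ℝ) : ℂ) + ((Real.sin (e * s) : ℝ) : ℂ) * I)) =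
    ((1 - (1 - e) * Real.cos (e * s) : ℝ) : ℂ) + ((-((1 - e) * Real.sin (e * s)) : ℝ) : ℂ) * I := by
    push_cast; ring
  rw [h2, ← Complex.normSq_eq_norm_sq, Complex.normSq_add_mul_I]
  have := Real.sin_sq_add_cos_sq (e * s)
  linear_combination ((1 - e) ^ 2) * this

lemma H_bound {e s : ℝ} (h0 : 0 < e) (h1 : e ≤ 1 / 2) (hs : |e * s| ≤ Real.pi) :
    |H e s| ≤ 200 * (1 + s ^ 2)⁻¹ := by
  have hl := norm_exp1 e s
  unfold H
  rw [abs_mul]
  have hc0 : 0 ≤ 1 - Real.cos (e * s) := by linarith [Real.cos_le_one (e * s)]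
  have hc : 1 - Real.cos (e * s) ≤ (e * s) ^ 2 / 2 := by
    linarith [Real.one_sub_sq_div_two_le_cos (x := e * s)]
  have hc' : 2 / Real.pi ^ 2 * (e * s) ^ 2 ≤ 1 - Real.cos (e * s) := by
    linarith [Real.cos_le_one_sub_mul_cos_sq hs]
  have hpi : Real.pi ^ 2 < 10 := by
    have := Real.pi_lt_d2
    have := Real.pi_pos
    nlinarith
  have hpi' : (1:ℝ) / 5 ≤ 2 / Real.pi ^ 2 := by
    rw [div_le_div_iff₀ (by norm_num) (by positivity)]; linarith
  have hw : e ^ 2 * ((1 + s ^ 2) / 5) ≤ ‖(1 - ((1 - e : ℝ) : ℂ) * exp (e * s * I))‖ ^ 2 := by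
    rw [norm_w_sq]
    have h3 : 1 / 5 * (e * s) ^ 2 ≤ 1 - Real.cos (e * s) :=
      (mul_le_mul_of_nonneg_right hpi' (by positivity)).trans hc'
    have h4 : 1 / 5 * (e * s) ^ 2 ≤ 2 * (1 - e) * (1 - Real.cos (e * s)) := by
      have : 1 ≤ 2 * (1 - e) := by linarith
      nlinarith
    nlinarith [sq_nonneg e]
  have hu : (1 + s ^ 2) / 5 ≤ ‖((1 - ((1 - e : ℝ) : ℂ) * exp (e * s * I))) / e‖ ^ 2 := by
    rw [norm_div, div_pow, Complex.norm_real, Real.norm_of_nonneg h0.le,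
      le_div_iff₀ (by positivity)]
    linarith
  have hpos : 0 < 1 + s ^ 2 := by positivity
  have hinv : (‖((1 - ((1 - e : ℝ) : ℂ) * exp (e * s * I))) / e‖⁻¹) ^ 4 ≤ 25 * ((1 + s ^ 2)⁻¹) ^ 2 := by
    have : (‖((1 - ((1 - e : ℝ) : ℂ) * exp (e * s * I))) / e‖⁻¹) ^ 2 ≤ 5 * (1 + s ^ 2)⁻¹ := by
      rw [inv_pow]
      have := inv_anti₀ (by positivity) hu
      refine this.trans (le_of_eq ?_)
      rw [inv_div, div_eq_mul_inv]
    calc (‖((1 - ((1 - e : ℝ) : ℂ) * exp (e * s * I))) / e‖⁻¹) ^ 4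
        = ((‖((1 - ((1 - e : ℝ) : ℂ) * exp (e * s * I))) / e‖⁻¹) ^ 2) ^ 2 := by ring
      _ ≤ (5 * (1 + s ^ 2)⁻¹) ^ 2 := by gcongr
      _ = 25 * ((1 + s ^ 2)⁻¹) ^ 2 := by ring
  have hG := (G_bound ((1 - ((1 - e : ℝ) : ℂ) * exp (e * s * I)) / e) (exp (e * s * I)) hl)
  have hG' : |G ((1 - ((1 - e : ℝ) : ℂ) * exp (e * s * I)) / e) (exp (e * s * I))| ≤
      22 / 7 * (25 * ((1 + s ^ 2)⁻¹) ^ 2) := hG.trans (by gcongr)
  have hq : |(1 - Real.cos (e * s)) / e ^ 2| ≤ (1 + s ^ 2) / 2 := by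
    rw [abs_of_nonneg (by positivity), div_le_iff₀ (by positivity)]
    nlinarith [sq_nonneg e]
  calc _ ≤ 22 / 7 * (25 * ((1 + s ^ 2)⁻¹) ^ 2) * ((1 + s ^ 2) / 2) := by gcongr
    _ = (22 / 7 * 25 / 2) * (1 + s ^ 2)⁻¹ := by field_simp
    _ ≤ 200 * (1 + s ^ 2)⁻¹ := by gcongr; norm_num

/-- limit integrand -/
noncomputable def L (s : ℝ) : ℝ := G (1 - s * I) 1 * (s ^ 2 / 2)

lemma tendsto_exp_es (s : ℝ) : Tendsto (fun e : ℝ => exp ((e : ℂ) * s * I)) (𝓝[>] 0) (𝓝 1) := by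
  have : Continuous (fun e : ℝ => exp ((e : ℂ) * s * I)) := by fun_prop
  have h := this.tendsto 0
  simp at h
  exact h.mono_left nhdsWithin_le_nhds

lemma tendsto_u (s : ℝ) : Tendsto (fun e : ℝ => (1 - ((1 - e : ℝ) : ℂ) * exp (e * s * I)) / e)
    (𝓝[>] 0) (𝓝 (1 - s * I)) := by
  have hd : HasDerivAt (fun e : ℝ => exp ((e : ℂ) * s * I)) (s * I) 0 := by
    have h1 : HasDerivAt (fun e : ℝ => (e : ℂ) * s * I) (1 * s * I) 0 :=
      ((HasDerivAt.ofReal_comp (hasDerivAt_id (0:ℝ))).mul_const _).mul_const _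
    have h2 := h1.cexp
    simpa using h2
  have h3 := hd.tendsto_slope_zero_right
  simp only [zero_add, ofReal_zero, zero_mul, exp_zero] at h3
  have h4 := (tendsto_exp_es s).sub h3
  refine h4.congr' ?_
  filter_upwards [self_mem_nhdsWithin] with e he
  have he' : (e : ℂ) ≠ 0 := by exact_mod_cast (ne_of_gt he)
  rw [Complex.real_smul]
  push_cast
  field_simp
  ring

lemma tendsto_q (s : ℝ) : Tendsto (fun e : ℝ => (1 - Real.cos (e * s)) / e ^ 2)
    (𝓝[>] 0) (𝓝 (s ^ 2 / 2)) := by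
  have hd : HasDerivAt (fun e : ℝ => Real.sin (e * (s / 2))) (s / 2) 0 := by
    have h1 : HasDerivAt (fun e : ℝ => e * (s / 2)) (1 * (s / 2)) 0 :=
      (hasDerivAt_id (0:ℝ)).mul_const _
    have h2 := h1.sin
    simpa using h2
  have h3 := hd.tendsto_slope_zero_right
  simp only [zero_add, zero_mul, Real.sin_zero, sub_zero, smul_eq_mul] at h3
  have h4 := (h3.pow 2).const_mul 2
  have h5 : 2 * (s / 2) ^ 2 = s ^ 2 / 2 := by ring
  rw [h5] at h4
  refine h4.congr' ?_
  filter_upwards [self_mem_nhdsWithin] with e he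
  have he' : e ≠ 0 := (ne_of_gt he)
  have : Real.cos (e * s) = 1 - 2 * Real.sin (e * (s / 2)) ^ 2 := by
    have : e * s = 2 * (e * (s / 2)) := by ring
    rw [this, Real.cos_two_mul, Real.cos_sq']
    ring
  rw [this]
  field_simp
  ring

lemma tendsto_H (s : ℝ) : Tendsto (fun e : ℝ => H e s) (𝓝[>] 0) (𝓝 (L s)) := by
  unfold H L
  refine Tendsto.mul ?_ (tendsto_q s)
  have hu := tendsto_u s
  have hl := tendsto_exp_es s
  have hne : (1 - (s : ℂ) * I) ≠ 0 := by
    intro h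
    have := congrArg re h
    simp at this
  unfold G
  have h1 := (hu.norm.inv₀ (by simpa using hne))
  refine (h1.pow 4).add ((h1.mul ?_).const_mul _)
  exact (continuous_re.tendsto _).comp (((hl.pow 2).div hu hne).pow 3)

lemma L_eq (s : ℝ) : L s = 1 / 2 * (s ^ 2 / (1 + s ^ 2) ^ 2 +
    15 / 7 * (s ^ 2 * (1 - 3 * s ^ 2) / (√(1 + s ^ 2)) ^ 7)) := by
  have hpos : 0 < 1 + s ^ 2 := by positivity
  have hn : ‖(1 - (s : ℂ) * I)‖ = √(1 + s ^ 2) := by
    have h2 : (1 - (s : ℂ) * I) = ((1 : ℝ) : ℂ) + ((-s : ℝ) : ℂ) * I := by push_cast; ring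
    rw [h2, Complex.norm_add_mul_I]
    congr 1; ring
  have hq : √(1 + s ^ 2) ^ 2 = 1 + s ^ 2 := Real.sq_sqrt hpos.le
  have hq0 : 0 < √(1 + s ^ 2) := Real.sqrt_pos.2 hpos
  have hre : (((1 : ℂ) ^ 2 / (1 - (s : ℂ) * I)) ^ 3).re = (1 - 3 * s ^ 2) / (1 + s ^ 2) ^ 3 := by
    have hne : (1 - (s : ℂ) * I) ≠ 0 := by
      intro h
      have := congrArg re h
      simp at this
    have hne2 : (1 + (s : ℂ) * I) ≠ 0 := by
      intro h
      have := congrArg re h
      simp at this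
    have hne3 : ((1 + s ^ 2 : ℝ) : ℂ) ≠ 0 := by exact_mod_cast hpos.ne'
    have h3 : (((1 : ℂ) ^ 2 / (1 - (s : ℂ) * I)) ^ 3) =
        (((1 - 3 * s ^ 2) / (1 + s ^ 2) ^ 3 : ℝ) : ℂ) + ((s * (3 - s ^ 2) / (1 + s ^ 2) ^ 3 : ℝ) : ℂ) * I := by
      have h4 : ((1 + s ^ 2 : ℝ) : ℂ) = (1 - (s : ℂ) * I) * (1 + (s : ℂ) * I) := by
        push_cast
        linear_combination ((s:ℂ) ^ 2) * I_sq
      push_cast at h4 hne3 ⊢
      rw [h4]
      field_simp
      ring_nf
      simp only [I_sq, I_pow_three, I_pow_four]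
      ring
    rw [h3]
    simp only [add_re, ofReal_re, mul_re, I_re, ofReal_im, I_im]
    ring
  unfold L G
  rw [hn, hre]
  have h4 : √(1 + s ^ 2) ^ 4 = (1 + s ^ 2) ^ 2 := by
    have : √(1 + s ^ 2) ^ 4 = (√(1 + s ^ 2) ^ 2) ^ 2 := by ring
    rw [this, hq]
  have h7 : √(1 + s ^ 2) ^ 7 = √(1 + s ^ 2) * (1 + s ^ 2) ^ 3 := by
    have : √(1 + s ^ 2) ^ 7 = √(1 + s ^ 2) * (√(1 + s ^ 2) ^ 2) ^ 3 := by ring
    rw [this, hq]
  rw [inv_pow, h4, h7]
  field_simp

lemma hasDeriv_v (s : ℝ) : HasDerivAt (fun s : ℝ => s / √(1 + s ^ 2)) (1 / √(1 + s ^ 2) ^ 3) s := by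
  have hpos : 0 < 1 + s ^ 2 := by positivity
  have hq : √(1 + s ^ 2) ^ 2 = 1 + s ^ 2 := Real.sq_sqrt hpos.le
  have hq0 : 0 < √(1 + s ^ 2) := Real.sqrt_pos.2 hpos
  have h1 : HasDerivAt (fun s : ℝ => 1 + s ^ 2) (2 * s) s := by
    simpa using (hasDerivAt_pow 2 s).const_add 1
  have h2 := h1.sqrt hpos.ne'
  have h3 := (hasDerivAt_id s).div h2 hq0.ne'
  refine h3.congr_deriv ?_
  simp only [id]
  field_simp
  rw [hq]
  ring

noncomputable def A (s : ℝ) : ℝ := 1 / 2 * ((Real.arctan s - s / (1 + s ^ 2)) / 2 +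
    15 / 7 * ((s / √(1 + s ^ 2)) ^ 3 / 3 - 4 / 5 * (s / √(1 + s ^ 2)) ^ 5))

lemma hasDeriv_A (s : ℝ) : HasDerivAt A (L s) s := by
  have hpos : 0 < 1 + s ^ 2 := by positivity
  have hq : √(1 + s ^ 2) ^ 2 = 1 + s ^ 2 := Real.sq_sqrt hpos.le
  have hq0 : 0 < √(1 + s ^ 2) := Real.sqrt_pos.2 hpos
  have h1 : HasDerivAt (fun s : ℝ => 1 + s ^ 2) (2 * s) s := by
    simpa using (hasDerivAt_pow 2 s).const_add 1
  have hat := Real.hasDerivAt_arctan s
  have hrat := (hasDerivAt_id s).div h1 hpos.ne'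
  have hv := hasDeriv_v s
  have h := (((hat.sub hrat).div_const 2).add
    ((((hv.pow 3).div_const 3).sub ((hv.pow 5).const_mul (4 / 5))).const_mul (15 / 7))).const_mul (1 / 2)
  refine (h.congr_deriv ?_)
  rw [L_eq]
  simp only [id, Nat.reduceSub, Nat.cast_ofNat]
  have hs2 : s ^ 2 = √(1 + s ^ 2) ^ 2 - 1 := by rw [hq]; ring
  set q := √(1 + s ^ 2) with hqdef
  rw [← hq, div_pow, div_pow]
  have e4 : s ^ 4 = (q ^ 2 - 1) ^ 2 := by rw [← hs2]; ring
  have e1 : s * (2 * s) = 2 * (q ^ 2 - 1) := by rw [← hs2]; ring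
  rw [e4, e1, hs2]
  field_simp
  ring

lemma tendsto_A_top : Tendsto A atTop (𝓝 (1 / 2 * (Real.pi / 4 - 1))) := by
  have h1 : Tendsto Real.arctan atTop (𝓝 (Real.pi / 2)) :=
    Real.tendsto_arctan_atTop.mono_right nhdsWithin_le_nhds
  have hs : Tendsto (fun s => Real.sin (Real.arctan s)) atTop (𝓝 1) := by
    have := (Real.continuous_sin.tendsto (Real.pi / 2)).comp h1
    rwa [Real.sin_pi_div_two] at this
  have hc : Tendsto (fun s => Real.cos (Real.arctan s)) atTop (𝓝 0) := by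
    have := (Real.continuous_cos.tendsto (Real.pi / 2)).comp h1
    rwa [Real.cos_pi_div_two] at this
  have h := (((h1.sub (hs.mul hc)).div_const 2).add
    ((((hs.pow 3).div_const 3).sub ((hs.pow 5).const_mul (4 / 5))).const_mul (15 / 7))).const_mul (1 / 2)
  have he : 1 / 2 * ((Real.pi / 2 - 1 * 0) / 2 + 15 / 7 * (1 ^ 3 / 3 - 4 / 5 * 1 ^ 5)) =
    1 / 2 * (Real.pi / 4 - 1) := by ring
  rw [he] at h
  refine h.congr fun s => ?_
  have hpos : 0 < 1 + s ^ 2 := by positivity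
  have hq : √(1 + s ^ 2) ^ 2 = 1 + s ^ 2 := Real.sq_sqrt hpos.le
  have hq0 : 0 < √(1 + s ^ 2) := Real.sqrt_pos.2 hpos
  unfold A
  rw [Real.sin_arctan, Real.cos_arctan]
  have : s / √(1 + s ^ 2) * (1 / √(1 + s ^ 2)) = s / (1 + s ^ 2) := by
    rw [← hq, Real.sqrt_sq hq0.le]; field_simp
  rw [this]

lemma tendsto_A_bot : Tendsto A atBot (𝓝 (-(1 / 2 * (Real.pi / 4 - 1)))) := by
  have h := (tendsto_A_top.comp tendsto_neg_atBot_atTop).neg
  refine h.congr fun s => ?_
  simp only [Function.comp_apply]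
  unfold A
  rw [Real.arctan_neg]
  have : (-s) ^ 2 = s ^ 2 := by ring
  rw [this]
  ring

lemma L_bound (s : ℝ) : |L s| ≤ 200 * (1 + s ^ 2)⁻¹ := by
  refine le_of_tendsto (tendsto_H s).abs ?_
  have h1 : ∀ᶠ e : ℝ in 𝓝[>] 0, e ≤ 1 / 2 := by
    have : ∀ᶠ e : ℝ in 𝓝 0, e < 1 / 2 := eventually_lt_nhds (by norm_num)
    filter_upwards [nhdsWithin_le_nhds this] with e he using he.le
  have h2 : ∀ᶠ e : ℝ in 𝓝[>] 0, |e * s| ≤ Real.pi := by
    have hc : Continuous fun e : ℝ => |e * s| := by fun_prop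
    have : Tendsto (fun e : ℝ => |e * s|) (𝓝 0) (𝓝 0) := by simpa using hc.tendsto 0
    filter_upwards [nhdsWithin_le_nhds (this.eventually_lt_const Real.pi_pos)] with e he using he.le
  filter_upwards [h1, h2, self_mem_nhdsWithin] with e he1 he2 he3
  exact H_bound he3 he1 he2

lemma integrable_bound : Integrable (fun s : ℝ => 200 * (1 + s ^ 2)⁻¹) :=
  integrable_inv_one_add_sq.const_mul 200

lemma measurable_L : Measurable L := by
  have : L = deriv A := funext fun s => (hasDeriv_A s).deriv.symm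
  rw [this]
  exact measurable_deriv A

lemma integrable_L : Integrable L :=
  integrable_bound.mono' measurable_L.aestronglyMeasurable (ae_of_all _ fun s => L_bound s)

lemma integral_L : ∫ s, L s = Real.pi / 4 - 1 := by
  rw [integral_of_hasDerivAt_of_tendsto hasDeriv_A integrable_L tendsto_A_bot tendsto_A_top]
  ring

lemma measurable_H (e : ℝ) : Measurable (H e) := by
  unfold H G
  fun_prop

lemma tendsto_J : Tendsto (fun e : ℝ => ∫ s, (Ioc (-(Real.pi / e)) (Real.pi / e)).indicator (H e) s)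
    (𝓝[>] 0) (𝓝 (Real.pi / 4 - 1)) := by
  rw [← integral_L]
  refine tendsto_integral_filter_of_dominated_convergence (fun s : ℝ => 200 * (1 + s ^ 2)⁻¹)
    ?_ ?_ integrable_bound ?_
  · exact Eventually.of_forall fun e =>
      ((measurable_H e).indicator measurableSet_Ioc).aestronglyMeasurable
  · have h1 : ∀ᶠ e : ℝ in 𝓝[>] 0, e ≤ 1 / 2 := by
      have : ∀ᶠ e : ℝ in 𝓝 0, e < 1 / 2 := eventually_lt_nhds (by norm_num)
      filter_upwards [nhdsWithin_le_nhds this] with e he using he.le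
    filter_upwards [h1, self_mem_nhdsWithin] with e he1 he2
    refine ae_of_all _ fun s => ?_
    by_cases hs : s ∈ Ioc (-(Real.pi / e)) (Real.pi / e)
    · rw [indicator_of_mem hs]
      have he0 : 0 < e := he2
      refine H_bound he0 he1 ?_
      rw [abs_mul, abs_of_pos he0]
      have : |s| ≤ Real.pi / e := abs_le.2 ⟨hs.1.le, hs.2⟩
      rw [le_div_iff₀ he0] at this
      linarith
    · rw [indicator_of_notMem hs, norm_zero]
      positivity
  · refine ae_of_all _ fun s => ?_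
    refine (tendsto_H s).congr' ?_
    have hc : Continuous fun e : ℝ => |e * s| := by fun_prop
    have : Tendsto (fun e : ℝ => |e * s|) (𝓝 0) (𝓝 0) := by simpa using hc.tendsto 0
    filter_upwards [nhdsWithin_le_nhds (this.eventually_lt_const Real.pi_pos), self_mem_nhdsWithin]
      with e he he2
    have he0 : 0 < e := he2
    rw [abs_mul, abs_of_pos he0] at he
    have h3 : |s| < Real.pi / e := by rw [lt_div_iff₀ he0]; linarith
    rw [indicator_of_mem]
    exact ⟨(abs_lt.1 h3).1, (abs_lt.1 h3).2.le⟩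

lemma average_eq {e : ℝ} (h0 : 0 < e) (h1 : e < 1) :
    e * ∫ θ in (0:ℝ)..(2 * Real.pi), (KP (zr (1 - e) (circleMap 0 1 θ)) * (1 - (circleMap 0 1 θ).re)) =
    ∫ s, (Ioc (-(Real.pi / e)) (Real.pi / e)).indicator (H e) s := by
  set g : ℝ → ℝ := fun θ => (KP (zr (1 - e) (circleMap 0 1 θ)) * (1 - (circleMap 0 1 θ).re)) with hg
  have hper : Function.Periodic g (2 * Real.pi) := by
    intro θ
    simp only [hg]
    rw [periodic_circleMap 0 1 θ]
  have e1 : ∫ θ in (0:ℝ)..(2 * Real.pi), g θ = ∫ θ in (-Real.pi)..Real.pi, g θ := by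
    have := hper.intervalIntegral_add_eq 0 (-Real.pi)
    rw [zero_add] at this
    rw [this]
    congr 1
    ring
  have e2 : ∫ θ in (-Real.pi)..Real.pi, g θ =
      e * ∫ s in (-(Real.pi / e))..(Real.pi / e), g (e * s) := by
    rw [intervalIntegral.mul_integral_comp_mul_left]
    congr 1 <;> field_simp
  have e3 : ∀ s, g (e * s) = (e ^ 2)⁻¹ * H e s := by
    intro s
    rw [H_eq h0 h1]
    have hcm : circleMap 0 1 (e * s) = exp (e * s * I) := by
      simp [circleMap]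
    have hre : (exp (e * s * I)).re = Real.cos (e * s) := by
      have : (e : ℂ) * s * I = ((e * s : ℝ) : ℂ) * I := by push_cast; ring
      rw [this, exp_ofReal_mul_I_re]
    simp only [hg]
    rw [hcm, hre]
    field_simp
  rw [e1, e2]
  simp_rw [e3]
  rw [intervalIntegral.integral_const_mul, intervalIntegral.integral_of_le,
    ← integral_indicator measurableSet_Ioc]
  · field_simp
  · have : 0 < Real.pi / e := by have := Real.pi_pos; positivity
    linarith

theorem exists_neg_average :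
    ∃ z : ℂ → ℂ, DiffContOnCl ℂ z (ball 0 1) ∧ z 0 = 0 ∧
      Real.circleAverage (fun l => KP (z l) * (1 - l.re)) 0 1 < 0 := by
  have hneg : Real.pi / 4 - 1 < 0 := by linarith [Real.pi_lt_four]
  have h1 := tendsto_J.eventually_lt_const hneg
  have h2 : ∀ᶠ e : ℝ in 𝓝[>] 0, e < 1 := by
    have : ∀ᶠ e : ℝ in 𝓝 0, e < 1 := eventually_lt_nhds (by norm_num)
    exact nhdsWithin_le_nhds this
  obtain ⟨e, he1, he2, he3⟩ := (h1.and (h2.and self_mem_nhdsWithin)).exists
  have he0 : 0 < e := he3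
  refine ⟨zr (1 - e), zr_diff (by linarith) (by linarith), by simp [zr], ?_⟩
  rw [Real.circleAverage_def, smul_eq_mul]
  have h4 := average_eq he0 he2
  rw [← h4] at he1
  have h5 : ∫ θ in (0:ℝ)..(2 * Real.pi),
      (KP (zr (1 - e) (circleMap 0 1 θ)) * (1 - (circleMap 0 1 θ).re)) < 0 := by
    by_contra hcon
    push Not at hcon
    exact absurd he1 (not_lt.2 (mul_nonneg he0.le hcon))
  exact mul_neg_of_pos_of_neg (by have := Real.pi_pos; positivity) h5


end

end Pool.Agent.Helper459.KN.Av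

namespace Pool.Agent.Helper459.KN

section
open Complex Set Filter Topology Metric Asymptotics

lemma abs_re_pow_le (z : ℂ) : |‖z‖ ^ 2 * (z ^ 6).re| ≤ ‖z‖ ^ 8 := by
  rw [abs_mul, abs_of_nonneg (by positivity : (0:ℝ) ≤ ‖z‖ ^ 2)]
  calc ‖z‖ ^ 2 * |(z ^ 6).re| ≤ ‖z‖ ^ 2 * ‖z ^ 6‖ := by
        gcongr; exact abs_re_le_norm _
    _ = ‖z‖ ^ 8 := by rw [norm_pow]; ring

lemma KP_ge (z : ℂ) : -(8 / 7) * ‖z‖ ^ 8 ≤ KP z := by
  have := (abs_le.1 (abs_re_pow_le z)).1
  unfold KP; linarith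

lemma abs_KP_le (z : ℂ) : |KP z| ≤ 22 / 7 * ‖z‖ ^ 8 := by
  have := abs_le.1 (abs_re_pow_le z)
  have h8 : (0:ℝ) ≤ ‖z‖ ^ 8 := by positivity
  unfold KP
  rw [abs_le]; constructor <;> linarith

lemma continuous_KP : Continuous KP := by unfold KP; fun_prop

lemma KP_neg (z : ℂ) : KP (-z) = KP z := by
  unfold KP; rw [norm_neg, Even.neg_pow (by decide)]

lemma KP_real_mul (t : ℝ) (z : ℂ) : KP (t * z) = t ^ 8 * KP z := by
  unfold KP
  have h1 : ((t * z : ℂ) ^ 6).re = t ^ 6 * (z ^ 6).re := by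
    rw [mul_pow]
    have : ((t : ℂ) ^ 6 * z ^ 6) = ((t ^ 6 : ℝ) : ℂ) * z ^ 6 := by push_cast; ring
    rw [this, Complex.re_ofReal_mul]
  rw [h1, norm_mul, Complex.norm_real, Real.norm_eq_abs]
  have h2 : |t| ^ 2 = t ^ 2 := sq_abs t
  have h8 : |t| ^ 8 = t ^ 8 := by
    calc |t| ^ 8 = (|t| ^ 2) ^ 4 := by ring
      _ = t ^ 8 := by rw [h2]; ring
  rw [mul_pow, mul_pow, h2, h8]; ring

/-- growth bound for the first component -/
lemma growth_z {A r s : ℝ} (hs : 0 < s) (hsr : s < r) {z w : ℂ → ℂ}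
    (hz : DifferentiableOn ℂ z (ball 0 r)) (hw : DifferentiableOn ℂ w (ball 0 r))
    (hz0 : z 0 = 0) (hw0 : w 0 = -(A : ℂ)) (hM : ∀ l ∈ ball (0 : ℂ) r, (w l).re + KP (z l) < 0) :
    ∀ l ∈ closedBall (0 : ℂ) s, ‖z l‖ ^ 8 ≤ 16 * A * ((r + s) / (r - s)) := by
  intro l hl
  set ρ : ℝ := (r + s) / 2 with hρ
  have hρ0 : 0 < ρ := by rw [hρ]; linarith
  have hsρ : s < ρ := by rw [hρ]; linarith
  have hρr : ρ < r := by rw [hρ]; linarith
  have habs : |ρ| = ρ := abs_of_pos hρ0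
  have hcl : closure (ball (0:ℂ) ρ) ⊆ ball 0 r := by
    rw [closure_ball _ hρ0.ne']; exact closedBall_subset_ball hρr
  have hzD : DiffContOnCl ℂ z (ball 0 ρ) := (hz.mono hcl).diffContOnCl
  have hwD : DiffContOnCl ℂ w (ball 0 ρ) := (hw.mono hcl).diffContOnCl
  have hsub : sphere (0:ℂ) |ρ| ⊆ ball 0 r := by
    rw [habs]; exact sphere_subset_closedBall.trans (closedBall_subset_ball hρr)
  have hzc : ContinuousOn z (sphere (0:ℂ) |ρ|) := hz.continuousOn.mono hsub
  have hwc : ContinuousOn w (sphere (0:ℂ) |ρ|) := hw.continuousOn.mono hsub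
  have hsm := submean (a := 0) (b := 15/16) (c := 0) (e := 15/7) le_rfl
    (by rw [abs_of_pos (by norm_num)]; norm_num) le_rfl hρ0 hzD
  have h0 : QQ 0 (15/16) 0 (15/7) (z 0) = 0 := by rw [hz0]; unfold QQ; simp
  rw [h0] at hsm
  -- integrability
  have i1 : CircleIntegrable (fun l => QQ 0 (15/16) 0 (15/7) (z l)) 0 ρ := by
    apply ContinuousOn.circleIntegrable'
    unfold QQ; fun_prop
  have i2 : CircleIntegrable (fun l => ‖z l‖ ^ 8) 0 ρ := by
    apply ContinuousOn.circleIntegrable'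
    fun_prop
  have i3 : CircleIntegrable (fun l => -(w l).re) 0 ρ := by
    apply ContinuousOn.circleIntegrable'
    exact (Complex.continuous_re.comp_continuousOn hwc).neg
  have i4 : CircleIntegrable (fun l => (1/16 : ℝ) * ‖z l‖ ^ 8) 0 ρ := by
    apply ContinuousOn.circleIntegrable'
    fun_prop
  have hmono : Real.circleAverage (fun l => QQ 0 (15/16) 0 (15/7) (z l)) 0 ρ
      ≤ Real.circleAverage (fun l => -(w l).re - (1/16 : ℝ) * ‖z l‖ ^ 8) 0 ρ := by
    have i34 : CircleIntegrable (fun l => -(w l).re - (1/16 : ℝ) * ‖z l‖ ^ 8) 0 ρ := i3.sub i4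
    apply Real.circleAverage_mono i1 i34
    intro x hx
    have := hM x (hsub hx)
    have e1 : QQ 0 (15/16) 0 (15/7) (z x) = KP (z x) - 1/16 * ‖z x‖ ^ 8 := by
      unfold QQ KP; ring
    rw [e1]; linarith
  rw [Real.circleAverage_fun_sub i3 i4] at hmono
  have hA : Real.circleAverage (fun l => -(w l).re) 0 ρ = A := by
    have h1 : Real.circleAverage w 0 ρ = w 0 := by
      apply DiffContOnCl.circleAverage; rw [habs]; exact hwD
    have h2 := (Complex.reCLM).circleAverage_comp_comm (f := w) (c := 0) (R := ρ)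
      hwc.circleIntegrable'
    have h3 : Real.circleAverage (fun l => -(w l).re) 0 ρ
        = - Real.circleAverage (Complex.reCLM ∘ w) 0 ρ := by
      have := Real.circleAverage_fun_smul (a := (-1 : ℝ)) (f := fun l => (w l).re) (c := 0) (R := ρ)
      simpa [Function.comp_def] using this
    rw [h3, h2, h1, hw0]; simp
  have hB : Real.circleAverage (fun l => (1/16 : ℝ) * ‖z l‖ ^ 8) 0 ρ
      = 1/16 * Real.circleAverage (fun l => ‖z l‖ ^ 8) 0 ρ := by
    have := Real.circleAverage_fun_smul (a := (1/16 : ℝ)) (f := fun l => ‖z l‖ ^ 8) (c := 0) (R := ρ)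
    simpa [smul_eq_mul] using this
  rw [hA, hB] at hmono
  have hI : Real.circleAverage (fun l => ‖z l‖ ^ 8) 0 ρ ≤ 16 * A := by linarith
  -- Cauchy
  have hlρ : ‖l‖ ≤ s := by simpa using hl
  have hlb : l ∈ ball (0:ℂ) |ρ| := by rw [habs]; simp; linarith
  have hz8 : DiffContOnCl ℂ (fun l => z l ^ 8) (ball 0 |ρ|) := by
    rw [habs]
    exact (((hz.mono hcl).pow 8)).diffContOnCl
  have hC := hz8.circleAverage_smul_div hlb
  have hnorm : ‖z l ^ 8‖ ≤ Real.circleAverage (fun ζ => ‖((ζ - 0) / (ζ - l)) • (z ζ ^ 8)‖) 0 ρ := by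
    rw [← hC]
    unfold Real.circleAverage
    rw [norm_smul, smul_eq_mul, Real.norm_of_nonneg (by positivity)]
    gcongr
    apply intervalIntegral.norm_integral_le_integral_norm (by positivity)
  have hρs : 0 < ρ - s := by linarith
  have i5 : CircleIntegrable (fun ζ => ‖((ζ - 0) / (ζ - l)) • (z ζ ^ 8)‖) 0 ρ := by
    apply ContinuousOn.circleIntegrable'
    apply ContinuousOn.norm
    apply ContinuousOn.fun_smul
    · apply ContinuousOn.div (by fun_prop) (by fun_prop)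
      intro x hx h
      have : x = l := by linear_combination h
      rw [this] at hx
      rw [habs] at hx
      have : ‖l‖ = ρ := by simpa using hx
      linarith
    · exact hzc.pow 8
  have i6 : CircleIntegrable (fun ζ => (ρ / (ρ - s)) * ‖z ζ‖ ^ 8) 0 ρ := by
    apply ContinuousOn.circleIntegrable'
    fun_prop
  have hle : Real.circleAverage (fun ζ => ‖((ζ - 0) / (ζ - l)) • (z ζ ^ 8)‖) 0 ρ
      ≤ Real.circleAverage (fun ζ => (ρ / (ρ - s)) * ‖z ζ‖ ^ 8) 0 ρ := by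
    apply Real.circleAverage_mono i5 i6
    intro x hx
    rw [habs] at hx
    have hx' : ‖x‖ = ρ := by simpa using hx
    simp only [sub_zero, norm_smul, norm_div, norm_pow, hx']
    have : ρ - s ≤ ‖x - l‖ := by
      calc ρ - s ≤ ‖x‖ - ‖l‖ := by rw [hx']; linarith
        _ ≤ ‖x - l‖ := norm_sub_norm_le _ _
    gcongr
  have hB2 : Real.circleAverage (fun ζ => (ρ / (ρ - s)) * ‖z ζ‖ ^ 8) 0 ρ
      = (ρ / (ρ - s)) * Real.circleAverage (fun l => ‖z l‖ ^ 8) 0 ρ := by
    have := Real.circleAverage_fun_smul (a := (ρ / (ρ - s))) (f := fun l => ‖z l‖ ^ 8) (c := 0) (R := ρ)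
    simpa [smul_eq_mul] using this
  have e2 : ρ / (ρ - s) = (r + s) / (r - s) := by
    rw [hρ, div_eq_div_iff (by intro h; linarith) (by intro h; linarith)]; ring
  rw [norm_pow] at hnorm
  calc ‖z l‖ ^ 8 ≤ (ρ / (ρ - s)) * Real.circleAverage (fun l => ‖z l‖ ^ 8) 0 ρ := by
        rw [← hB2]; exact hnorm.trans hle
    _ ≤ (ρ / (ρ - s)) * (16 * A) := by gcongr
    _ = 16 * A * ((r + s) / (r - s)) := by rw [e2]; ring

/-- growth bound for both components -/
lemma growth {A r s : ℝ} (hA : 0 < A) (hs : 0 < s) (hsr : s < r) :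
    ∃ R : ℝ, 0 < R ∧ ∀ z w : ℂ → ℂ, DifferentiableOn ℂ z (ball 0 r) → DifferentiableOn ℂ w (ball 0 r) →
      z 0 = 0 → w 0 = -(A : ℂ) → (∀ l ∈ ball (0 : ℂ) r, (w l).re + KP (z l) < 0) →
      ∀ l ∈ ball (0 : ℂ) s, ‖z l‖ ≤ R ∧ ‖w l‖ ≤ R := by
  set s' : ℝ := (r + s) / 2 with hs'
  have h1 : s < s' := by rw [hs']; linarith
  have h2 : s' < r := by rw [hs']; linarith
  have hs'0 : 0 < s' := hs.trans h1
  set C : ℝ := 16 * A * ((r + s') / (r - s')) with hC
  have hCpos : 0 < C := by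
    rw [hC]
    have h3 : 0 < r - s' := by linarith
    have h4 : 0 < r := by linarith
    positivity
  refine ⟨(C + 1) + (2 * (8 / 7 * C) * s / (s' - s) + A * (s' + s) / (s' - s)), ?_, ?_⟩
  · have : 0 < s' - s := by linarith
    positivity
  intro z w hz hw hz0 hw0 hM l hl
  have hlb : ‖l‖ < s := by simpa using hl
  have hd : 0 < s' - s := by linarith
  have hb1 := growth_z hs'0 h2 hz hw hz0 hw0 hM
  have hnn : 0 ≤ 2 * (8 / 7 * C) * s / (s' - s) + A * (s' + s) / (s' - s) := by positivity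
  constructor
  · have h8 : ‖z l‖ ^ 8 ≤ C := hb1 l (by simp; linarith)
    have : ‖z l‖ ≤ C + 1 := by
      by_contra hcon
      push Not at hcon
      have h1 : (1:ℝ) < ‖z l‖ := by linarith
      have : ‖z l‖ ≤ ‖z l‖ ^ 8 := le_self_pow₀ h1.le (by norm_num)
      linarith
    linarith
  · have hre : MapsTo w (ball 0 s') {x | x.re ≤ 8 / 7 * C} := by
      intro x hx
      have hxs : ‖x‖ < s' := by simpa using hx
      have := hM x (by simp; linarith)
      have h3 := KP_ge (z x)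
      have h4 := hb1 x (by simp; linarith)
      simp only [Set.mem_ofPred_eq]
      nlinarith
    have hBC := borelCaratheodory (M := 8 / 7 * C) (by positivity)
      (hw.mono (ball_subset_ball h2.le)) hre hs'0 (z := l) (by simp; linarith)
    have hw0n : ‖w 0‖ = A := by rw [hw0]; simp [abs_of_pos hA]
    rw [hw0n] at hBC
    have e1 : 2 * (8 / 7 * C) * ‖l‖ / (s' - ‖l‖) ≤ 2 * (8 / 7 * C) * s / (s' - s) := by
      gcongr
    have e2 : A * (s' + ‖l‖) / (s' - ‖l‖) ≤ A * (s' + s) / (s' - s) := by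
      gcongr
    linarith

/-- second difference of a holomorphic map -/
lemma second_difference {E F : Type*} [NormedAddCommGroup E] [NormedSpace ℂ E]
    [NormedAddCommGroup F] [NormedSpace ℂ F] {G : Set E} (hG : IsOpen G) {f : E → F}
    (hf : DifferentiableOn ℂ f G) {x₀ : E} (hx₀ : x₀ ∈ G) :
    ∃ C δ : ℝ, 0 < δ ∧ ∀ y v : E, ‖y - x₀‖ < δ → ‖v‖ < δ →
      ‖f (y + v) + f (y - v) - (2 : ℂ) • f y‖ ≤ C * ‖v‖ ^ 2 := by
  have hcont : ContinuousAt f x₀ := (hf.differentiableAt (hG.mem_nhds hx₀)).continuousAt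
  obtain ⟨δ, hδ, hδG⟩ := Metric.mem_nhds_iff.1
    (Filter.inter_mem (hG.mem_nhds hx₀) (hcont.preimage_mem_nhds (ball_mem_nhds (f x₀) one_pos)))
  refine ⟨8 * (2 / δ) ^ 2, δ / 2, by positivity, ?_⟩
  intro y v hy hv
  set h : E → F := fun v => f (y + v) + f (y - v) with hh
  have hmem : ∀ u : E, ‖u‖ < δ / 2 → (y + u) ∈ ball x₀ δ := by
    intro u hu
    rw [mem_ball_iff_norm]
    calc ‖y + u - x₀‖ = ‖(y - x₀) + u‖ := by congr 1; abel
      _ ≤ ‖y - x₀‖ + ‖u‖ := norm_add_le _ _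
      _ < δ := by linarith
  have hdiff : DifferentiableOn ℂ h (ball 0 (δ / 2)) := by
    intro u hu
    have hu' : ‖u‖ < δ / 2 := by simpa using hu
    have h1 : DifferentiableAt ℂ f (y + u) :=
      hf.differentiableAt (hG.mem_nhds (hδG (hmem u hu')).1)
    have h2 : DifferentiableAt ℂ f (y - u) := by
      have := hmem (-u) (by rwa [norm_neg])
      rw [← sub_eq_add_neg] at this
      exact hf.differentiableAt (hG.mem_nhds (hδG this).1)
    have h3 : DifferentiableAt ℂ (fun v => f (y + v)) u :=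
      h1.comp u (by fun_prop)
    have h4 : DifferentiableAt ℂ (fun v => f (y - v)) u :=
      h2.comp u (by fun_prop)
    exact (h3.add h4).differentiableWithinAt
  have hval : ∀ u : E, ‖u‖ < δ / 2 → ‖f (y + u) - f x₀‖ ≤ 1 := by
    intro u hu
    have := (hδG (hmem u hu)).2
    rw [mem_preimage, mem_ball_iff_norm] at this
    exact this.le
  have hmaps : MapsTo h (ball 0 (δ / 2)) (closedBall (h 0) 8) := by
    intro u hu
    have hu' : ‖u‖ < δ / 2 := by simpa using hu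
    rw [mem_closedBall_iff_norm]
    have a1 := hval u hu'
    have a2 := hval (-u) (by rwa [norm_neg])
    have a3 := hval 0 (by simp; positivity)
    rw [← sub_eq_add_neg] at a2
    rw [add_zero] at a3
    have : h u - h 0 = (f (y + u) - f x₀) + (f (y - u) - f x₀) - (f y - f x₀) - (f y - f x₀) := by
      simp only [hh, add_zero, sub_zero]; abel
    rw [this]
    calc _ ≤ ‖(f (y + u) - f x₀) + (f (y - u) - f x₀) - (f y - f x₀)‖ + ‖f y - f x₀‖ := norm_sub_le _ _
      _ ≤ (‖(f (y + u) - f x₀) + (f (y - u) - f x₀)‖ + ‖f y - f x₀‖) + ‖f y - f x₀‖ := by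
          gcongr; exact norm_sub_le _ _
      _ ≤ ((‖f (y + u) - f x₀‖ + ‖f (y - u) - f x₀‖) + ‖f y - f x₀‖) + ‖f y - f x₀‖ := by
          gcongr; exact norm_add_le _ _
      _ ≤ 8 := by linarith
  have hlo : (fun v => h v - h 0) =o[𝓝 0] (fun v => ‖v - 0‖ ^ 1) := by
    have hdy : DifferentiableAt ℂ f y := by
      have := hmem 0 (by simp; positivity)
      rw [add_zero] at this
      exact hf.differentiableAt (hG.mem_nhds (hδG this).1)
    have b1 : HasFDerivAt (fun v : E => f (y + v)) (fderiv ℂ f y) 0 := by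
      have hy0 : HasFDerivAt f (fderiv ℂ f y) (y + 0) := by rw [add_zero]; exact hdy.hasFDerivAt
      have := hy0.comp (0 : E) ((hasFDerivAt_id (𝕜 := ℂ) (0:E)).const_add y)
      simpa [Function.comp_def] using this
    have b2 : HasFDerivAt (fun v : E => f (y - v)) (-(fderiv ℂ f y)) 0 := by
      have hy0 : HasFDerivAt f (fderiv ℂ f y) (y - 0) := by rw [sub_zero]; exact hdy.hasFDerivAt
      have := hy0.comp (0 : E) ((hasFDerivAt_id (𝕜 := ℂ) (0:E)).const_sub y)
      simpa [Function.comp_def] using this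
    have b3 : HasFDerivAt h (0 : E →L[ℂ] F) 0 := by
      have := b1.fun_add b2
      simpa [hh] using this
    have := b3.isLittleO
    simpa using this.norm_right
  have hv' : v ∈ ball (0:E) (δ / 2) := by simpa using hv
  have := Complex.dist_le_mul_div_pow_of_mapsTo_ball_of_isLittleO hdiff hmaps hlo hv'
  rw [dist_eq_norm, dist_zero_right] at this
  have e : h v - h 0 = f (y + v) + f (y - v) - (2:ℂ) • f y := by
    simp only [hh, add_zero, sub_zero, two_smul]
  rw [e] at this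
  calc _ ≤ 8 * (‖v‖ / (δ / 2)) ^ (1 + 1) := this
    _ = 8 * (2 / δ) ^ 2 * ‖v‖ ^ 2 := by
        have h9 : ‖v‖ / (δ / 2) = (2 / δ) * ‖v‖ := by field_simp
        rw [h9]; ring

/-- holomorphic maps are locally Lipschitz -/
lemma locally_lipschitz {E F : Type*} [NormedAddCommGroup E] [NormedSpace ℂ E]
    [NormedAddCommGroup F] [NormedSpace ℂ F] {G : Set E} (hG : IsOpen G) {f : E → F}
    (hf : DifferentiableOn ℂ f G) {x₀ : E} (hx₀ : x₀ ∈ G) :
    ∃ C δ : ℝ, 0 < δ ∧ ∀ y y' : E, ‖y - x₀‖ < δ → ‖y' - x₀‖ < δ →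
      ‖f y' - f y‖ ≤ C * ‖y' - y‖ := by
  have hcont : ContinuousAt f x₀ := (hf.differentiableAt (hG.mem_nhds hx₀)).continuousAt
  obtain ⟨δ, hδ, hδG⟩ := Metric.mem_nhds_iff.1
    (Filter.inter_mem (hG.mem_nhds hx₀) (hcont.preimage_mem_nhds (ball_mem_nhds (f x₀) one_pos)))
  refine ⟨2 / (δ / 2), δ / 4, by positivity, ?_⟩
  intro y y' hy hy'
  have hsub : ball y (δ / 2) ⊆ ball x₀ δ := by
    apply ball_subset_ball'
    rw [dist_eq_norm]; linarith
  have hdiff : DifferentiableOn ℂ f (ball y (δ / 2)) :=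
    hf.mono (fun u hu => (hδG (hsub hu)).1)
  have hmaps : MapsTo f (ball y (δ / 2)) (closedBall (f y) 2) := by
    intro u hu
    have h1 := (hδG (hsub hu)).2
    have h2 := (hδG (hsub (mem_ball_self (by positivity : 0 < δ / 2)))).2
    rw [mem_preimage, mem_ball] at h1 h2
    rw [mem_closedBall]
    calc dist (f u) (f y) ≤ dist (f u) (f x₀) + dist (f y) (f x₀) := dist_triangle_right _ _ _
      _ ≤ 2 := by linarith
  have hmem : y' ∈ ball y (δ / 2) := by
    rw [mem_ball_iff_norm]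
    calc ‖y' - y‖ = ‖(y' - x₀) - (y - x₀)‖ := by congr 1; abel
      _ ≤ ‖y' - x₀‖ + ‖y - x₀‖ := norm_sub_le _ _
      _ < δ / 2 := by linarith
  have := Complex.dist_le_div_mul_dist_of_mapsTo_ball hdiff hmaps hmem
  rwa [dist_eq_norm, dist_eq_norm] at this


/-- an injective holomorphic map with holomorphic inverse and convex open image -/
structure Conv (G : Set (ℂ × ℂ)) (Φ Ψ : ℂ × ℂ → ℂ × ℂ) : Prop where
  hG : IsOpen G
  hI : IsOpen (Φ '' G)
  hΦ : DifferentiableOn ℂ Φ G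
  hΨ : DifferentiableOn ℂ Ψ (Φ '' G)
  inv : ∀ x ∈ G, Ψ (Φ x) = x
  conv : Convex ℝ (Φ '' G)

lemma mean_step {G : Set (ℂ × ℂ)} {Φ Ψ : ℂ × ℂ → ℂ × ℂ} (hC : Conv G Φ Ψ) {s : ℝ} (hs : 0 < s)
    {z w : ℂ → ℂ} (hz : DifferentiableOn ℂ z (ball 0 s)) (hw : DifferentiableOn ℂ w (ball 0 s))
    (h1 : ∀ l ∈ ball (0 : ℂ) s, (z l, w l) ∈ G) (h2 : ∀ l ∈ ball (0 : ℂ) s, (-z l, w l) ∈ G)
    {k : ℕ} (hk : 1 ≤ k) (hzk : z =O[𝓝 0] (fun l => l ^ k)) :
    ∃ z' w' : ℂ → ℂ, DifferentiableOn ℂ z' (ball 0 s) ∧ DifferentiableOn ℂ w' (ball 0 s) ∧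
      (∀ l ∈ ball (0 : ℂ) s, (z' l, w' l) ∈ G) ∧ z' =O[𝓝 0] (fun l => l ^ (2 * k)) ∧
      (fun l => w' l - w l) =O[𝓝 0] (fun l => l ^ (2 * k)) := by
  set μ : ℂ → ℂ × ℂ := fun l => (2⁻¹ : ℝ) • Φ (z l, w l) + (2⁻¹ : ℝ) • Φ (-z l, w l) with hμ
  set ψ : ℂ → ℂ × ℂ := fun l => Ψ (μ l) with hψ
  have hμmem : ∀ l ∈ ball (0 : ℂ) s, μ l ∈ Φ '' G := by
    intro l hl
    exact hC.conv (mem_image_of_mem _ (h1 l hl)) (mem_image_of_mem _ (h2 l hl)) (by norm_num)
      (by norm_num) (by norm_num)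
  have hψmem : ∀ l ∈ ball (0 : ℂ) s, ψ l ∈ G := by
    intro l hl
    obtain ⟨x, hx, hxe⟩ := hμmem l hl
    show Ψ (μ l) ∈ G
    rw [← hxe, hC.inv x hx]; exact hx
  have hμd : DifferentiableOn ℂ μ (ball 0 s) := by
    have a1 : DifferentiableOn ℂ (fun l => Φ (z l, w l)) (ball 0 s) :=
      hC.hΦ.comp (hz.prodMk hw) h1
    have a2 : DifferentiableOn ℂ (fun l => Φ (-z l, w l)) (ball 0 s) :=
      hC.hΦ.comp (hz.neg.prodMk hw) h2
    have a3 := (a1.const_smul (2⁻¹ : ℝ)).add (a2.const_smul (2⁻¹ : ℝ))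
    exact a3
  have hψd : DifferentiableOn ℂ ψ (ball 0 s) := hC.hΨ.comp hμd hμmem
  have h0s : (0 : ℂ) ∈ ball (0 : ℂ) s := mem_ball_self hs
  have hz0 : z 0 = 0 := by
    obtain ⟨C, hCb⟩ := hzk.bound
    have := hCb.self_of_nhds
    simpa [zero_pow (by omega : k ≠ 0)] using this
  have hzc : ContinuousAt z 0 := (hz.differentiableAt (isOpen_ball.mem_nhds h0s)).continuousAt
  have hwc : ContinuousAt w 0 := (hw.differentiableAt (isOpen_ball.mem_nhds h0s)).continuousAt
  set x₀ : ℂ × ℂ := (0, w 0) with hx₀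
  have hx₀G : x₀ ∈ G := by have := h1 0 h0s; rwa [hz0] at this
  obtain ⟨C1, δ1, hδ1, hsd⟩ := second_difference hC.hG hC.hΦ hx₀G
  obtain ⟨C2, δ2, hδ2, hlip⟩ := locally_lipschitz hC.hI hC.hΨ (mem_image_of_mem Φ hx₀G)
  have hyc : ContinuousAt (fun l => ((0 : ℂ), w l)) 0 := continuousAt_const.prodMk hwc
  have hΦc : ContinuousAt Φ x₀ := (hC.hΦ.differentiableAt (hC.hG.mem_nhds hx₀G)).continuousAt
  have hμc : ContinuousAt μ 0 := (hμd.differentiableAt (isOpen_ball.mem_nhds h0s)).continuousAt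
  have hμ0 : μ 0 = Φ x₀ := by
    simp only [hμ, hz0, neg_zero]
    rw [← add_smul, hx₀]; norm_num
  have e1 : ∀ᶠ l in 𝓝 (0 : ℂ), ‖((0 : ℂ), w l) - x₀‖ < δ1 := by
    have := hyc.eventually (Metric.ball_mem_nhds _ hδ1)
    filter_upwards [this] with l hl
    rw [← dist_eq_norm]; exact hl
  have e2 : ∀ᶠ l in 𝓝 (0 : ℂ), ‖z l‖ < δ1 := by
    have := hzc.eventually (Metric.ball_mem_nhds _ hδ1)
    filter_upwards [this] with l hl
    have hl' : dist (z l) (z 0) < δ1 := hl
    rw [hz0, dist_zero_right] at hl'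
    exact hl'
  have e3 : ∀ᶠ l in 𝓝 (0 : ℂ), ‖μ l - Φ x₀‖ < δ2 := by
    have := hμc.eventually (Metric.ball_mem_nhds _ hδ2)
    filter_upwards [this] with l hl
    have hl' : dist (μ l) (μ 0) < δ2 := hl
    rw [hμ0] at hl'
    rw [← dist_eq_norm]; exact hl'
  have e4 : ∀ᶠ l in 𝓝 (0 : ℂ), ‖Φ ((0 : ℂ), w l) - Φ x₀‖ < δ2 := by
    have hcomp : ContinuousAt (fun l => Φ ((0 : ℂ), w l)) 0 :=
      ContinuousAt.comp (f := fun l => ((0 : ℂ), w l)) (g := Φ) hΦc hyc
    have := hcomp.eventually (Metric.ball_mem_nhds _ hδ2)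
    filter_upwards [this] with l hl
    rw [← dist_eq_norm]; exact hl
  have e5 : ∀ᶠ l in 𝓝 (0 : ℂ), ((0 : ℂ), w l) ∈ G := hyc.eventually (hC.hG.mem_nhds hx₀G)
  have key : (fun l => ψ l - ((0 : ℂ), w l)) =O[𝓝 0] (fun l => l ^ (2 * k)) := by
    have hb : (fun l => ψ l - ((0 : ℂ), w l)) =O[𝓝 0] (fun l => z l ^ 2) := by
      apply IsBigO.of_bound (|C2| * (2⁻¹ * |C1|))
      filter_upwards [e1, e2, e3, e4, e5] with l g1 g2 g3 g4 g5
      have hv : ‖((z l, (0 : ℂ)) : ℂ × ℂ)‖ = ‖z l‖ := by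
        rw [Prod.norm_def]; simp
      have s1 := hsd ((0 : ℂ), w l) (z l, (0 : ℂ)) g1 (by rw [hv]; exact g2)
      have s2 := hlip (Φ ((0 : ℂ), w l)) (μ l) g4 g3
      rw [hC.inv _ g5] at s2
      have s3 : μ l - Φ ((0 : ℂ), w l) = (2⁻¹ : ℝ) • (Φ (((0 : ℂ), w l) + (z l, (0 : ℂ)))
          + Φ (((0 : ℂ), w l) - (z l, (0 : ℂ))) - (2 : ℂ) • Φ ((0 : ℂ), w l)) := by
        have t1 : (((0 : ℂ), w l) + (z l, (0 : ℂ)) : ℂ × ℂ) = (z l, w l) := by simp
        have t2 : (((0 : ℂ), w l) - (z l, (0 : ℂ)) : ℂ × ℂ) = (-z l, w l) := by simp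
        rw [t1, t2, hμ]
        simp only [two_smul, smul_sub, smul_add]
        have t3 : (2⁻¹ : ℝ) • Φ ((0 : ℂ), w l) + (2⁻¹ : ℝ) • Φ ((0 : ℂ), w l) = Φ ((0 : ℂ), w l) := by
          rw [← add_smul]; norm_num
        rw [t3]
      calc ‖ψ l - ((0 : ℂ), w l)‖ ≤ C2 * ‖μ l - Φ ((0 : ℂ), w l)‖ := s2
        _ ≤ |C2| * ‖μ l - Φ ((0 : ℂ), w l)‖ := by gcongr; exact le_abs_self _
        _ ≤ |C2| * (2⁻¹ * (|C1| * ‖z l‖ ^ 2)) := by
            gcongr
            rw [s3, norm_smul, Real.norm_of_nonneg (by norm_num)]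
            gcongr
            rw [hv] at s1
            exact s1.trans (by gcongr; exact le_abs_self _)
        _ = |C2| * (2⁻¹ * |C1|) * ‖z l ^ 2‖ := by rw [norm_pow]; ring
    refine hb.trans ?_
    have := hzk.pow 2
    simpa [← pow_mul, mul_comm] using this
  refine ⟨fun l => (ψ l).1, fun l => (ψ l).2, ?_, ?_, ?_, ?_, ?_⟩
  · exact (differentiable_fst.comp_differentiableOn hψd)
  · exact (differentiable_snd.comp_differentiableOn hψd)
  · intro l hl; exact hψmem l hl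
  · refine IsBigO.trans ?_ key
    apply IsBigO.of_bound 1
    filter_upwards with l
    rw [one_mul]
    have := norm_fst_le (ψ l - ((0 : ℂ), w l))
    simpa using this
  · refine IsBigO.trans ?_ key
    apply IsBigO.of_bound 1
    filter_upwards with l
    rw [one_mul]
    have := norm_snd_le (ψ l - ((0 : ℂ), w l))
    simpa using this


lemma eq_of_isBigO_pow {f : ℂ → ℂ} {k : ℕ} (hk : 1 ≤ k) (hf : f =O[𝓝 0] (fun l : ℂ => l ^ k)) :
    f 0 = 0 := by
  obtain ⟨C, hCb⟩ := hf.bound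
  have := hCb.self_of_nhds
  simpa [zero_pow (by omega : k ≠ 0)] using this

lemma hasDerivAt_of_isBigO_pow {f : ℂ → ℂ} {k : ℕ} (hk : 2 ≤ k)
    (hf : f =O[𝓝 0] (fun l : ℂ => l ^ k)) : HasDerivAt f 0 0 := by
  rw [hasDerivAt_iff_isLittleO]
  have h0 := eq_of_isBigO_pow (by omega) hf
  simp only [h0, sub_zero, smul_zero]
  refine hf.trans_isLittleO ?_
  have := isLittleO_pow_pow (𝕜 := ℂ) (m := 1) (n := k) (by omega)
  simpa using this

lemma iterate {A : ℝ} (hA : 0 < A) (n : ℕ) : ∀ r s : ℝ, 0 < s → s < r → ∃ R : ℝ, 0 < R ∧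
    ∀ (G : Set (ℂ × ℂ)) (Φ Ψ : ℂ × ℂ → ℂ × ℂ), Conv G Φ Ψ →
      (∀ x ∈ G, x.2.re + KP x.1 < 0) → (∀ x ∈ G, ‖x‖ ≤ R → (-x.1, x.2) ∈ G) →
      ∀ z w : ℂ → ℂ, DifferentiableOn ℂ z (ball 0 r) → DifferentiableOn ℂ w (ball 0 r) →
        (∀ l ∈ ball (0 : ℂ) r, (z l, w l) ∈ G) → z =O[𝓝 0] (fun l => l ^ 1) →
        w 0 = -(A : ℂ) →
        ∃ z' w' : ℂ → ℂ, DifferentiableOn ℂ z' (ball 0 s) ∧ DifferentiableOn ℂ w' (ball 0 s) ∧
          (∀ l ∈ ball (0 : ℂ) s, (z' l, w' l) ∈ G) ∧ z' =O[𝓝 0] (fun l => l ^ (2 ^ n)) ∧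
          w' 0 = w 0 ∧ deriv w' 0 = deriv w 0 := by
  induction n with
  | zero =>
    intro r s hs hsr
    refine ⟨1, one_pos, ?_⟩
    intro G Φ Ψ _ _ _ z w hz hw hG hzk _
    refine ⟨z, w, hz.mono (ball_subset_ball hsr.le), hw.mono (ball_subset_ball hsr.le), ?_, ?_, rfl, rfl⟩
    · intro l hl; exact hG l (ball_subset_ball hsr.le hl)
    · simpa using hzk
  | succ n ih =>
    intro r s hs hsr
    set s1 : ℝ := (s + r) / 2 with hs1
    have h1 : s < s1 := by rw [hs1]; linarith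
    have h2 : s1 < r := by rw [hs1]; linarith
    have hs10 : 0 < s1 := hs.trans h1
    obtain ⟨R1, hR1, H1⟩ := ih r s1 hs10 h2
    obtain ⟨R2, hR2, H2⟩ := growth hA hs h1
    refine ⟨max R1 R2, lt_max_of_lt_left hR1, ?_⟩
    intro G Φ Ψ hC hMP hsym z w hz hw hG hzk hw0
    obtain ⟨zn, wn, hzn, hwn, hGn, hzkn, hwn0, hdwn⟩ := H1 G Φ Ψ hC hMP
      (fun x hx hxR => hsym x hx (hxR.trans (le_max_left _ _))) z w hz hw hG hzk hw0
    have hkpos : 1 ≤ 2 ^ n := Nat.one_le_two_pow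
    have hzn0 : zn 0 = 0 := eq_of_isBigO_pow hkpos hzkn
    have hb := H2 zn wn hzn hwn hzn0 (by rw [hwn0, hw0]) (fun l hl => hMP _ (hGn l hl))
    have hsub : ball (0:ℂ) s ⊆ ball 0 s1 := ball_subset_ball h1.le
    have g1 : ∀ l ∈ ball (0 : ℂ) s, (zn l, wn l) ∈ G := fun l hl => hGn l (hsub hl)
    have g2 : ∀ l ∈ ball (0 : ℂ) s, (-zn l, wn l) ∈ G := by
      intro l hl
      refine hsym (zn l, wn l) (g1 l hl) ?_
      rw [Prod.norm_def]
      exact max_le ((hb l hl).1.trans (le_max_right _ _)) ((hb l hl).2.trans (le_max_right _ _))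
    obtain ⟨z', w', hz', hw', hG', hzk', hwk'⟩ :=
      mean_step hC hs (hzn.mono hsub) (hwn.mono hsub) g1 g2 hkpos hzkn
    have e0 : w' 0 - wn 0 = 0 := eq_of_isBigO_pow (by omega) hwk'
    have e1 := hasDerivAt_of_isBigO_pow (by omega) hwk'
    refine ⟨z', w', hz', hw', hG', ?_, ?_, ?_⟩
    · rw [pow_succ, mul_comm]; exact hzk'
    · rw [sub_eq_zero] at e0; rw [e0, hwn0]
    · have hdn : DifferentiableAt ℂ wn 0 := hwn.differentiableAt (isOpen_ball.mem_nhds (mem_ball_self hs10))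
      have hd' : DifferentiableAt ℂ w' 0 := hw'.differentiableAt (isOpen_ball.mem_nhds (mem_ball_self hs))
      have e2 := (hd'.hasDerivAt.fun_sub hdn.hasDerivAt).unique e1
      rw [← hdwn]
      linear_combination e2

lemma no_disc {A : ℝ} (hA : 0 < A) {β : ℂ} (hβ : 2 * A < ‖β‖) : ∃ R : ℝ, 0 < R ∧
    ∀ (G : Set (ℂ × ℂ)) (Φ Ψ : ℂ × ℂ → ℂ × ℂ), Conv G Φ Ψ →
      (∀ x ∈ G, x.2.re + KP x.1 < 0) → (∀ x ∈ G, ‖x‖ ≤ R → (-x.1, x.2) ∈ G) →
      ∀ z w : ℂ → ℂ, DifferentiableOn ℂ z (ball 0 1) → DifferentiableOn ℂ w (ball 0 1) →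
        (∀ l ∈ ball (0 : ℂ) 1, (z l, w l) ∈ G) → z 0 = 0 →
        w 0 = -(A : ℂ) → deriv w 0 = β → False := by
  have hβ0 : 0 < ‖β‖ := by linarith
  set s0 : ℝ := (2 * A / ‖β‖ + 1) / 2 with hs0
  have hq : 2 * A / ‖β‖ < 1 := by rw [div_lt_one hβ0]; exact hβ
  have hq0 : 0 < 2 * A / ‖β‖ := by positivity
  have hs0pos : 0 < s0 := by rw [hs0]; linarith
  have hs01 : s0 < 1 := by rw [hs0]; linarith
  have hs0β : 2 * A / s0 < ‖β‖ := by
    rw [div_lt_iff₀ hs0pos]
    have : 2 * A / ‖β‖ < s0 := by rw [hs0]; linarith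
    rw [div_lt_iff₀ hβ0] at this
    linarith
  set s : ℝ := (s0 + 1) / 2 with hs
  set s1 : ℝ := (s + 1) / 2 with hs1
  set s2 : ℝ := (s1 + 1) / 2 with hs2
  have a1 : s0 < s := by rw [hs]; linarith
  have a2 : s < 1 := by rw [hs]; linarith
  have a3 : s < s1 := by rw [hs1]; linarith
  have a4 : s1 < 1 := by rw [hs1]; linarith
  have a5 : s1 < s2 := by rw [hs2]; linarith
  have a6 : s2 < 1 := by rw [hs2]; linarith
  have b1 : 0 < s := hs0pos.trans a1
  have b2 : 0 < s1 := b1.trans a3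
  have b3 : 0 < s2 := b2.trans a5
  set C : ℝ := 16 * A * ((s2 + s1) / (s2 - s1)) with hC
  have hCpos : 0 < C := by
    rw [hC]; have : 0 < s2 - s1 := by linarith
    positivity
  -- choose n
  have hlim : Tendsto (fun n : ℕ => 2 * (A + 8 / 7 * (C * (s / s1) ^ (2 ^ n))) / s0) atTop
      (𝓝 (2 * (A + 8 / 7 * (C * 0)) / s0)) := by
    have t1 : Tendsto (fun n : ℕ => (s / s1) ^ n) atTop (𝓝 0) :=
      tendsto_pow_atTop_nhds_zero_of_lt_one (by positivity) (by rw [div_lt_one b2]; exact a3)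
    have t2 : Tendsto (fun n : ℕ => 2 ^ n) atTop atTop := tendsto_pow_atTop_atTop_of_one_lt (by norm_num)
    have t3 := t1.comp t2
    exact (((tendsto_const_nhds.mul t3).const_mul _).const_add A |>.const_mul 2).div_const s0
  have hlt : 2 * (A + 8 / 7 * (C * 0)) / s0 < ‖β‖ := by
    simpa using hs0β
  obtain ⟨n, hn⟩ := (hlim.eventually (gt_mem_nhds hlt)).exists
  obtain ⟨R, hR, H⟩ := iterate hA n 1 s2 b3 a6
  refine ⟨R, hR, ?_⟩
  intro G Φ Ψ hConv hMP hsym z w hz hw hG hz0 hw0 hdw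
  have hzk : z =O[𝓝 0] (fun l => l ^ 1) := by
    have hd : DifferentiableAt ℂ z 0 := hz.differentiableAt (isOpen_ball.mem_nhds (mem_ball_self one_pos))
    have := hd.isBigO_sub
    simpa [hz0] using this
  obtain ⟨z', w', hz', hw', hG', hzk', hw0', hdw'⟩ := H G Φ Ψ hConv hMP hsym z w hz hw hG hzk hw0
  have hz'0 : z' 0 = 0 := eq_of_isBigO_pow Nat.one_le_two_pow hzk'
  have hgr := growth_z b2 a5 hz' hw' hz'0 (by rw [hw0', hw0]) (fun l hl => hMP _ (hG' l hl))
  -- decay of z'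
  have hdecay : ∀ l ∈ ball (0:ℂ) s, ‖z' l‖ ^ 8 ≤ C * (s / s1) ^ (2 ^ n) := by
    intro l hl
    have hls : ‖l‖ < s := by simpa using hl
    have hd8 : DifferentiableOn ℂ (fun l => z' l ^ 8) (ball 0 s1) :=
      (hz'.mono (ball_subset_ball a5.le)).pow 8
    have hm8 : MapsTo (fun l => z' l ^ 8) (ball 0 s1) (closedBall ((fun l => z' l ^ 8) 0) C) := by
      intro x hx
      simp only [hz'0, ne_eq, OfNat.ofNat_ne_zero, not_false_eq_true, zero_pow, mem_closedBall,
        dist_zero_right, norm_pow]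
      exact hgr x (ball_subset_closedBall hx)
    have hlo : (fun l => (fun l => z' l ^ 8) l - (fun l => z' l ^ 8) 0) =o[𝓝 0]
        (fun l : ℂ => ‖l - 0‖ ^ (2 ^ n - 1)) := by
      simp only [hz'0, ne_eq, OfNat.ofNat_ne_zero, not_false_eq_true, zero_pow, sub_zero]
      have h1 : (fun l => z' l ^ 8) =O[𝓝 0] (fun l : ℂ => (l ^ (2 ^ n)) ^ 8) := hzk'.pow 8
      have h2 : (fun l : ℂ => (l ^ (2 ^ n)) ^ 8) =o[𝓝 0] (fun l : ℂ => l ^ (2 ^ n - 1)) := by
        simp_rw [← pow_mul]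
        apply isLittleO_pow_pow
        have : 1 ≤ 2 ^ n := Nat.one_le_two_pow
        omega
      have h3 := h1.trans_isLittleO h2
      have h4 := h3.norm_right
      simpa [norm_pow] using h4
    have := Complex.dist_le_mul_div_pow_of_mapsTo_ball_of_isLittleO hd8 hm8 hlo
      (z := l) (by simp; linarith)
    simp only [hz'0, ne_eq, OfNat.ofNat_ne_zero, not_false_eq_true, zero_pow, dist_zero_right,
      norm_pow] at this
    have hp : 2 ^ n - 1 + 1 = 2 ^ n := Nat.sub_add_cancel Nat.one_le_two_pow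
    rw [hp] at this
    refine this.trans ?_
    gcongr
  -- derivative bound
  set M : ℝ := A + 8 / 7 * (C * (s / s1) ^ (2 ^ n)) with hM
  have hMpos : 0 < M := by rw [hM]; positivity
  have hfd : DifferentiableOn ℂ (fun l => w' l - w' 0) (ball 0 s) :=
    (hw'.mono (ball_subset_ball (a3.le.trans a5.le))).sub_const _
  have hfm : MapsTo (fun l => w' l - w' 0) (ball 0 s) {x | x.re ≤ M} := by
    intro x hx
    have h1 := hMP _ (hG' x (ball_subset_ball (a3.le.trans a5.le) hx))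
    have h2 := KP_ge (z' x)
    have h3 := hdecay x hx
    simp only [Set.mem_ofPred_eq, sub_re, hw0', hw0, neg_re, ofReal_re]
    simp only at h1
    rw [hM]; linarith
  have hbd : ∀ᶠ l in 𝓝 (0:ℂ), ‖w' l - w' 0‖ ≤ 2 * M / s0 * ‖l - 0‖ := by
    have : ball (0:ℂ) (s - s0) ∈ 𝓝 (0:ℂ) := ball_mem_nhds _ (by linarith)
    filter_upwards [this] with l hl
    have hl' : ‖l‖ < s - s0 := by simpa using hl
    have := borelCaratheodory_zero hMpos hfd hfm b1 (z := l) (by simp; linarith) (by simp)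
    refine this.trans ?_
    rw [sub_zero]
    have : s0 ≤ s - ‖l‖ := by linarith
    calc 2 * M * ‖l‖ / (s - ‖l‖) ≤ 2 * M * ‖l‖ / s0 := by gcongr
      _ = 2 * M / s0 * ‖l‖ := by ring
  have hder : HasDerivAt w' β 0 := by
    have := (hw'.differentiableAt (isOpen_ball.mem_nhds (mem_ball_self b3))).hasDerivAt
    rwa [hdw', hdw] at this
  have := hder.le_of_lip' (by positivity) hbd
  rw [hM] at this
  linarith

/-- first Fourier coefficient of a polynomial -/
lemma average_poly (q : Polynomial ℂ) :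
    Real.circleAverage (fun l => (q.eval l).re * (1 - l.re)) 0 1 =
      (q.coeff 0).re - (q.coeff 1).re / 2 := by
  have mv : ∀ p : Polynomial ℂ, Real.circleAverage (fun l => p.eval l) 0 1 = p.eval 0 := by
    intro p
    have hp : Differentiable ℂ (fun l => p.eval l) := p.differentiable
    exact DiffContOnCl.circleAverage hp.diffContOnCl
  have mvr : ∀ p : Polynomial ℂ, Real.circleAverage (fun l => (p.eval l).re) 0 1 = (p.eval 0).re := by
    intro p
    have := ContinuousLinearMap.circleAverage_comp_comm Complex.reCLM (f := fun l => p.eval l)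
      (c := 0) (R := 1) (by
        apply ContinuousOn.circleIntegrable (by norm_num)
        exact p.continuous.continuousOn)
    rw [mv p] at this
    exact this
  have key : Real.circleAverage (fun l => (q.eval l).re * (1 - l.re)) 0 1 =
      Real.circleAverage (fun l => ((q - Polynomial.C (1 / 2) * (q * Polynomial.X + q.divX +
        Polynomial.C (starRingEnd ℂ (q.coeff 0)) * Polynomial.X)).eval l).re) 0 1 := by
    apply Real.circleAverage_congr_sphere
    intro l hl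
    rw [abs_one, mem_sphere_zero_iff_norm] at hl
    have hl2 : l.re * l.re + l.im * l.im = 1 := by
      have := Complex.sq_norm l
      rw [hl, Complex.normSq_apply] at this
      linarith
    have hq : q.eval l = q.divX.eval l * l + q.coeff 0 := by
      conv_lhs => rw [← q.divX_mul_X_add]
      simp
    simp only [Polynomial.eval_sub, Polynomial.eval_mul, Polynomial.eval_add, Polynomial.eval_C,
      Polynomial.eval_X, hq]
    generalize q.divX.eval l = a
    generalize q.coeff 0 = b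
    simp only [Complex.sub_re, Complex.mul_re, Complex.add_re, Complex.add_im, Complex.mul_im,
      Complex.conj_re, Complex.conj_im]
    norm_num
    linear_combination (-1 / 2 * a.re) * hl2
  rw [key, mvr]
  simp only [Polynomial.eval_sub, Polynomial.eval_mul, Polynomial.eval_add, Polynomial.eval_C,
      Polynomial.eval_X, mul_zero, zero_add, add_zero, ← Polynomial.coeff_zero_eq_eval_zero,
      Polynomial.coeff_divX]
  simp
  ring

/-- the initial disc -/
lemma initial_disc : ∃ (z w : ℂ → ℂ) (A δ M : ℝ) (β : ℂ), 0 < A ∧ 2 * A < ‖β‖ ∧ 0 < δ ∧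
    DifferentiableOn ℂ z (ball 0 1) ∧ DifferentiableOn ℂ w (ball 0 1) ∧ z 0 = 0 ∧
    w 0 = -(A : ℂ) ∧ deriv w 0 = β ∧
    (∀ l ∈ ball (0 : ℂ) 1, (w l).re + KP (z l) ≤ -δ) ∧
    ∀ l ∈ ball (0 : ℂ) 1, ‖z l‖ ≤ M ∧ ‖w l‖ ≤ M := by
  obtain ⟨z, hz, z0, hF⟩ := Av.exists_neg_average
  set F : ℝ := Real.circleAverage (fun l => KP (z l) * (1 - l.re)) 0 1 with hFdef
  have hzc : ContinuousOn z (closedBall 0 1) := by
    have := hz.continuousOn
    rwa [closure_ball (0 : ℂ) one_ne_zero] at this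
  have hgc : ContinuousOn (fun l => KP (z l)) (sphere 0 1) :=
    continuous_KP.comp_continuousOn (hzc.mono sphere_subset_closedBall)
  set δ : ℝ := -F / 6 with hδdef
  have hδ : 0 < δ := by rw [hδdef]; linarith
  obtain ⟨q, hq⟩ := exists_poly_approx one_pos hgc hδ
  set a : ℝ := (q.coeff 0).re with ha
  set b : ℝ := (q.coeff 0).im with hb
  set c1 : ℝ := (q.coeff 1).re with hc1
  have hqc : Continuous fun l : ℂ => q.eval l := q.continuous
  have hqd : Differentiable ℂ fun l : ℂ => q.eval l := q.differentiable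
  -- average inequality
  have havg : a - c1 / 2 ≤ F + δ := by
    rw [ha, hc1, ← average_poly q]
    have e1 : F + δ = Real.circleAverage (fun l => KP (z l) * (1 - l.re) + δ * (1 - l.re)) 0 1 := by
      have i1 : CircleIntegrable (fun l => KP (z l) * (1 - l.re)) 0 1 := by
        apply ContinuousOn.circleIntegrable (by norm_num)
        exact hgc.mul (by fun_prop)
      have i2 : CircleIntegrable (fun l : ℂ => δ * (1 - l.re)) 0 1 := by
        apply ContinuousOn.circleIntegrable (by norm_num)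
        fun_prop
      rw [Real.circleAverage_fun_add i1 i2, ← hFdef]
      congr 1
      have := average_poly (Polynomial.C (δ : ℂ))
      simp only [Polynomial.eval_C, ofReal_re] at this
      rw [this]
      simp [Polynomial.coeff_C]
    rw [e1]
    apply Real.circleAverage_mono
    · apply ContinuousOn.circleIntegrable (by norm_num)
      exact ((continuous_re.comp hqc).mul (by fun_prop)).continuousOn
    · apply ContinuousOn.circleIntegrable (by norm_num)
      exact (hgc.mul (by fun_prop)).add (by fun_prop)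
    · intro l hl
      rw [abs_one] at hl
      have h1 := hq l hl
      have h2 : l.re ≤ 1 := by
        rw [mem_sphere_zero_iff_norm] at hl
        rw [← hl]; exact Complex.re_le_norm l
      have h3 := (abs_le.mp h1).2
      nlinarith
  set C : ℝ := |a| + 1 with hC
  have hCpos : 0 < C := by positivity
  set η : ℝ := min (1 / 2) (-F / (4 * C)) with hη
  have hη0 : 0 < η := by
    apply lt_min (by norm_num)
    apply div_pos <;> linarith
  have hη1 : η ≤ 1 / 2 := min_le_left _ _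
  have hη2 : η * (4 * C) ≤ -F := by
    have : η ≤ -F / (4 * C) := min_le_right _ _
    rwa [le_div_iff₀ (by positivity)] at this
  set ρ : ℝ := 1 - η with hρ
  have hρ0 : 0 < ρ := by linarith
  have hρ1 : ρ < 1 := by linarith
  set w : ℂ → ℂ := fun l => -(q.eval l - b * I + 2 * δ) - C * ((1 + ρ * l) / (1 - ρ * l)) with hw
  have hden : ∀ l ∈ closedBall (0 : ℂ) 1, (1 : ℂ) - ρ * l ≠ 0 := by
    intro l hl h
    rw [mem_closedBall_zero_iff] at hl
    have h1 : (ρ : ℂ) * l = 1 := by linear_combination -h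
    have h2 : ‖(ρ : ℂ) * l‖ = 1 := by rw [h1]; simp
    rw [norm_mul, Complex.norm_real, Real.norm_eq_abs, abs_of_pos hρ0] at h2
    nlinarith [norm_nonneg l]
  have hwd : ∀ l ∈ closedBall (0 : ℂ) 1, DifferentiableAt ℂ w l := by
    intro l hl
    have := hden l hl
    rw [hw]
    have h1 := hqd l
    fun_prop (disch := assumption)
  set A : ℝ := a + 2 * δ + C with hA
  have hApos : 0 < A := by
    rw [hA, hC]; have := neg_abs_le a; linarith
  refine ⟨z, w, A, δ, ?_⟩
  have hwc : ContinuousOn w (closedBall 0 1) := fun l hl => (hwd l hl).continuousAt.continuousWithinAt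
  obtain ⟨M1, hM1⟩ := (isCompact_closedBall (0 : ℂ) 1).exists_bound_of_continuousOn hzc
  obtain ⟨M2, hM2⟩ := (isCompact_closedBall (0 : ℂ) 1).exists_bound_of_continuousOn hwc
  have hd : HasDerivAt w (-(q.coeff 1) - 2 * ρ * C) 0 := by
    have h1 : HasDerivAt (fun l : ℂ => q.eval l) (q.coeff 1) 0 := by
      have := q.hasDerivAt 0
      have e : (Polynomial.derivative q).eval 0 = q.coeff 1 := by
        rw [← Polynomial.coeff_zero_eq_eval_zero, Polynomial.coeff_derivative]; simp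
      rwa [e] at this
    have h2 : HasDerivAt (fun l : ℂ => (1 : ℂ) + ρ * l) ρ 0 := by
      simpa using ((hasDerivAt_id (0 : ℂ)).const_mul (ρ : ℂ)).const_add 1
    have h3 : HasDerivAt (fun l : ℂ => (1 : ℂ) - ρ * l) (-ρ) 0 := by
      simpa using ((hasDerivAt_id (0 : ℂ)).const_mul (ρ : ℂ)).const_sub 1
    have h4 := (h2.div h3 (by simp)).const_mul (C : ℂ)
    have h5 := (((h1.sub_const ((b : ℂ) * I)).add_const (2 * (δ : ℂ))).neg).sub h4
    have h6 : HasDerivAt w (-q.coeff 1 - C * ((ρ * (1 - ρ * 0) - (1 + ρ * 0) * -ρ) /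
      (1 - ρ * 0) ^ 2)) 0 := h5
    refine h6.congr_deriv ?_
    ring
  refine ⟨max M1 M2, _, hApos, ?_, hδ, ?_, ?_, z0, ?_, hd.deriv, ?_, ?_⟩
  · have h1 : c1 + 2 * ρ * C ≤ ‖-(q.coeff 1) - 2 * ρ * C‖ := by
      have := (Complex.abs_re_le_norm (-(q.coeff 1) - 2 * ρ * C))
      have h2 : (-(q.coeff 1) - 2 * ρ * C).re = -(c1 + 2 * ρ * C) := by
        simp [hc1]; ring
      rw [h2, abs_neg] at this
      exact (le_abs_self _).trans this
    have h2 : 2 * A < c1 + 2 * ρ * C := by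
      rw [hA, hρ]
      nlinarith
    exact h2.trans_le h1
  · exact hz.differentiableOn
  · exact fun l hl => (hwd l (ball_subset_closedBall hl)).differentiableWithinAt
  · rw [hw]
    have : q.eval 0 = (a : ℂ) + b * I := by
      rw [← Polynomial.coeff_zero_eq_eval_zero, ha, hb, Complex.re_add_im]
    simp only [this, mul_zero, add_zero, sub_zero, div_one, hA]
    push_cast
    ring
  · intro l hl
    have hl' := ball_subset_closedBall hl
    have hm := max_principle (a := 0) (b := 1) (c := 0) (e := 15 / 7) le_rfl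
      (by rw [abs_of_pos] <;> norm_num) le_rfl one_pos hz hqd.diffContOnCl (δ := δ)
      (by
        intro l hl
        have h1 := (abs_le.mp (hq l hl)).1
        have h2 : QQ 0 1 0 (15 / 7) (z l) = KP (z l) := by unfold QQ KP; ring
        rw [h2]; linarith) l hl'
    have h2 : QQ 0 1 0 (15 / 7) (z l) = KP (z l) := by unfold QQ KP; ring
    rw [h2] at hm
    have h3 : 0 ≤ (((1 : ℂ) + ρ * l) / (1 - ρ * l)).re := by
      rw [mem_ball_zero_iff] at hl
      have hn : (ρ * l.re) * (ρ * l.re) + (ρ * l.im) * (ρ * l.im) ≤ 1 := by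
        have := Complex.sq_norm l
        rw [Complex.normSq_apply] at this
        have h5 : ‖l‖ ^ 2 ≤ 1 := by nlinarith [norm_nonneg l]
        have h6 : ρ ^ 2 ≤ 1 := by nlinarith
        have h7 : 0 ≤ l.re * l.re + l.im * l.im := by nlinarith [mul_self_nonneg l.re, mul_self_nonneg l.im]
        nlinarith
      rw [Complex.div_re, ← add_div]
      apply div_nonneg _ (Complex.normSq_nonneg _)
      simp only [Complex.add_re, Complex.sub_re, Complex.mul_re, Complex.one_re, Complex.ofReal_re,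
        Complex.ofReal_im, Complex.add_im, Complex.sub_im, Complex.mul_im, Complex.one_im]
      nlinarith
    have h4 : (w l).re = -((q.eval l).re + 2 * δ) - C * (((1 : ℂ) + ρ * l) / (1 - ρ * l)).re := by
      rw [hw]
      simp only [Complex.sub_re, Complex.neg_re, Complex.add_re, Complex.mul_re, Complex.I_re,
        Complex.I_im, Complex.ofReal_re, Complex.ofReal_im, Complex.re_ofNat, Complex.im_ofNat]
      ring
    rw [h4]
    nlinarith [mul_nonneg hCpos.le h3]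
  · intro l hl
    have hl' := ball_subset_closedBall hl
    exact ⟨(hM1 l hl').trans (le_max_left _ _), (hM2 l hl').trans (le_max_right _ _)⟩

/-- global defining function of the domain -/
noncomputable def rr (x : ℂ × ℂ) : ℝ := x.2.re + ‖x.2‖ ^ 2 + KP x.1 + ‖x.1‖ ^ 10

/-- the domain -/
def Om : Set (ℂ × ℂ) := {x | rr x < 0}

theorem rr_cont : Continuous rr := by
  have := continuous_KP
  unfold rr
  fun_prop

theorem Om_isOpen : IsOpen Om := isOpen_lt rr_cont continuous_const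

/-- anisotropic dilation -/
noncomputable def dl (t : ℝ) (x : ℂ × ℂ) : ℂ × ℂ := ((t : ℂ) * x.1, (t : ℂ) ^ 8 * x.2)

lemma rr_dl {t : ℝ} (ht : 0 < t) (x : ℂ × ℂ) :
    rr (dl t x) = t ^ 8 * (x.2.re + KP x.1 + t ^ 8 * ‖x.2‖ ^ 2 + t ^ 2 * ‖x.1‖ ^ 10) := by
  unfold rr dl
  have h1 : ((t : ℂ) ^ 8 * x.2).re = t ^ 8 * x.2.re := by
    rw [← Complex.ofReal_pow, Complex.re_ofReal_mul]
  have h2 : ‖(t : ℂ) ^ 8 * x.2‖ = t ^ 8 * ‖x.2‖ := by
    rw [← Complex.ofReal_pow, norm_mul, Complex.norm_real, Real.norm_eq_abs,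
      abs_of_pos (by positivity)]
  have h3 : ‖(t : ℂ) * x.1‖ = t * ‖x.1‖ := by
    rw [norm_mul, Complex.norm_real, Real.norm_eq_abs, abs_of_pos ht]
  simp only [h1, h2, h3, KP_real_mul]
  ring

lemma norm_dl {t : ℝ} (ht : 0 < t) (ht1 : t ≤ 1) {x : ℂ × ℂ} {K : ℝ} (h1 : ‖x.1‖ ≤ K)
    (h2 : ‖x.2‖ ≤ K) : ‖dl t x‖ ≤ t * K := by
  unfold dl
  rw [Prod.norm_def]
  apply max_le
  · simp only
    rw [norm_mul, Complex.norm_real, Real.norm_eq_abs, abs_of_pos ht]
    exact mul_le_mul_of_nonneg_left h1 ht.le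
  · simp only
    rw [← Complex.ofReal_pow, norm_mul, Complex.norm_real, Real.norm_eq_abs,
      abs_of_pos (by positivity)]
    have h3 : t ^ 8 ≤ t := by
      calc t ^ 8 ≤ t ^ 1 := pow_le_pow_of_le_one ht.le ht1 (by norm_num)
        _ = t := pow_one t
    exact mul_le_mul h3 h2 (norm_nonneg _) ht.le

theorem not_convexifiable {U : Set (ℂ × ℂ)} (hU : IsOpen U) (h0 : ((0 : ℂ), (0 : ℂ)) ∈ U)
    {Φ : ℂ × ℂ → ℂ × ℂ} (hΦ : DifferentiableOn ℂ Φ (U ∩ Om)) (hinj : InjOn Φ (U ∩ Om))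
    (hconv : Convex ℝ (Φ '' (U ∩ Om))) : False := by
  obtain ⟨z, w, A, δ, M, β, hA, hβ, hδ, hz, hw, z0, w0, hwβ, hneg, hbd⟩ := initial_disc
  obtain ⟨R, hR, H⟩ := no_disc hA hβ
  obtain ⟨hI, Ψ, hΨ, hinv⟩ := osgood (hU.inter Om_isOpen) hΦ hinj
  obtain ⟨ε, hε, hball⟩ := Metric.isOpen_iff.mp hU _ h0
  have hM0 : 0 ≤ M := (norm_nonneg _).trans (hbd 0 (mem_ball_self one_pos)).1
  set K : ℝ := M + R with hK
  have hKpos : 0 < K := by linarith
  set L : ℝ := M ^ 2 + M ^ 10 + 1 with hL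
  have hLpos : 0 < L := by positivity
  obtain ⟨t, ht, ht1, ht2, ht3⟩ : ∃ t : ℝ, 0 < t ∧ t ≤ 1 ∧ t * K < ε ∧ t * L < δ := by
    refine ⟨min 1 (min (ε / (2 * K)) (δ / (2 * L))), ?_, min_le_left _ _, ?_, ?_⟩
    · apply lt_min one_pos
      apply lt_min <;> positivity
    · have h1 : min 1 (min (ε / (2 * K)) (δ / (2 * L))) ≤ ε / (2 * K) :=
        (min_le_right _ _).trans (min_le_left _ _)
      rw [le_div_iff₀ (by positivity)] at h1
      nlinarith
    · have h1 : min 1 (min (ε / (2 * K)) (δ / (2 * L))) ≤ δ / (2 * L) :=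
        (min_le_right _ _).trans (min_le_right _ _)
      rw [le_div_iff₀ (by positivity)] at h1
      nlinarith
  have htc : (t : ℂ) ≠ 0 := by exact_mod_cast ht.ne'
  have memU : ∀ x : ℂ × ℂ, ‖x.1‖ ≤ K → ‖x.2‖ ≤ K → dl t x ∈ U := by
    intro x h1 h2
    apply hball
    have : ((0 : ℂ), (0 : ℂ)) = (0 : ℂ × ℂ) := rfl
    rw [this, mem_ball_zero_iff]
    exact (norm_dl ht ht1 h1 h2).trans_lt ht2
  have hdld : Differentiable ℂ (dl t) := by unfold dl; fun_prop
  set G : Set (ℂ × ℂ) := dl t ⁻¹' (U ∩ Om) with hG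
  set Φt : ℂ × ℂ → ℂ × ℂ := fun x => Φ (dl t x) with hΦt
  set Ψt : ℂ × ℂ → ℂ × ℂ := fun y => ((t : ℂ)⁻¹ * (Ψ y).1, ((t : ℂ) ^ 8)⁻¹ * (Ψ y).2) with hΨt
  have himg : Φt '' G = Φ '' (U ∩ Om) := by
    ext y
    constructor
    · rintro ⟨x, hx, rfl⟩
      exact ⟨dl t x, hx, rfl⟩
    · rintro ⟨x, hx, rfl⟩
      have e : dl t ((t : ℂ)⁻¹ * x.1, ((t : ℂ) ^ 8)⁻¹ * x.2) = x := by
        unfold dl
        ext
        · simp [htc]
        · simp [htc]
      refine ⟨((t : ℂ)⁻¹ * x.1, ((t : ℂ) ^ 8)⁻¹ * x.2), ?_, ?_⟩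
      · rw [hG, mem_preimage, e]; exact hx
      · rw [hΦt]; simp only [e]
  have hC : Conv G Φt Ψt := by
    refine ⟨(hU.inter Om_isOpen).preimage hdld.continuous, ?_, ?_, ?_, ?_, ?_⟩
    · rw [himg]; exact hI
    · exact hΦ.comp hdld.differentiableOn (fun x hx => hx)
    · rw [himg]
      exact ((differentiableOn_const _).mul hΨ.fst).prodMk ((differentiableOn_const _).mul hΨ.snd)
    · intro x hx
      rw [hΨt, hΦt]
      simp only
      rw [hinv _ hx]
      unfold dl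
      ext
      · simp [htc]
      · simp [htc]
    · rw [himg]; exact hconv
  refine H G Φt Ψt hC ?_ ?_ z w hz hw ?_ z0 w0 hwβ
  · intro x hx
    have h1 : rr (dl t x) < 0 := hx.2
    rw [rr_dl ht] at h1
    by_contra h2
    push Not at h2
    have : 0 ≤ t ^ 8 * (x.2.re + KP x.1 + t ^ 8 * ‖x.2‖ ^ 2 + t ^ 2 * ‖x.1‖ ^ 10) := by positivity
    linarith
  · intro x hx hxR
    rw [Prod.norm_def] at hxR
    have hx1 : ‖x.1‖ ≤ K := (le_max_left _ _).trans (hxR.trans (by linarith))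
    have hx2 : ‖x.2‖ ≤ K := (le_max_right _ _).trans (hxR.trans (by linarith))
    refine ⟨memU _ (by simpa using hx1) hx2, ?_⟩
    have h1 : rr (dl t x) < 0 := hx.2
    show rr (dl t (-x.1, x.2)) < 0
    rw [rr_dl ht] at h1 ⊢
    simpa [KP_neg] using h1
  · intro l hl
    obtain ⟨hb1, hb2⟩ := hbd l hl
    refine ⟨memU _ (hb1.trans (by linarith)) (hb2.trans (by linarith)), ?_⟩
    show rr (dl t (z l, w l)) < 0
    rw [rr_dl ht]
    apply mul_neg_of_pos_of_neg (by positivity)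
    simp only
    have h1 := hneg l hl
    have h2 : t ^ 8 ≤ t := by
      calc t ^ 8 ≤ t ^ 1 := pow_le_pow_of_le_one ht.le ht1 (by norm_num)
        _ = t := pow_one t
    have h3 : t ^ 2 ≤ t := by
      calc t ^ 2 ≤ t ^ 1 := pow_le_pow_of_le_one ht.le ht1 (by norm_num)
        _ = t := pow_one t
    have h4 : t ^ 8 * ‖w l‖ ^ 2 ≤ t * M ^ 2 :=
      mul_le_mul h2 (pow_le_pow_left₀ (norm_nonneg _) hb2 2) (by positivity) ht.le
    have h5 : t ^ 2 * ‖z l‖ ^ 10 ≤ t * M ^ 10 :=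
      mul_le_mul h3 (pow_le_pow_left₀ (norm_nonneg _) hb1 10) (by positivity) ht.le
    have h6 : t * L = t * M ^ 2 + t * M ^ 10 + t := by rw [hL]; ring
    linarith

end

end Pool.Agent.Helper459.KN
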