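import Mathlib
open Complex Set Filter Topology Metric

namespace Pool.Agent.Helper459.Worm

noncomputable def lam (s : ℝ) : ℝ := 10 * s * expNegInvGlue (s - 1)

noncomputable def eta (t : ℝ) : ℝ := 120 * (expNegInvGlue (t - 2) + expNegInvGlue (-t - 2))

/-- cutoff, `0` for `N ≤ 1/20` and `1` for `N ≥ 1/10` -/
noncomputable def kap (N : ℝ) : ℝ := Real.smoothTransition (20 * N - 1)

/-- `log |w|²` -/
noncomputable def lt (w : ℂ) : ℝ := Real.log (Complex.normSq w)

/-- `Re (z exp (- i log |w|²))` -/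
noncomputable def XX (z w : ℂ) : ℝ := z.re * Real.cos (lt w) + z.im * Real.sin (lt w)

/-- the defining function -/
noncomputable def rho (x : Fin 2 → ℂ) : ℝ :=
  lam (Complex.normSq (x 0)) + kap (Complex.normSq (x 1)) * (eta (lt (x 1)) - XX (x 0) (x 1)) +
    4 * (1 - kap (Complex.normSq (x 1)))

def Om : Set (Fin 2 → ℂ) := {x | rho x < 0}

def VV : Set (Fin 2 → ℂ) := {x | x ∈ Om ∧ ∃ j : ℕ, x 0 = 1 / ((j : ℂ) + 2)}

lemma lam_nonneg {s : ℝ} (hs : 0 ≤ s) : 0 ≤ lam s := by
  unfold lam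
  have := expNegInvGlue.nonneg (s - 1)
  positivity

lemma lam_eq_zero {s : ℝ} (hs : s ≤ 1) : lam s = 0 := by
  unfold lam
  rw [expNegInvGlue.zero_of_nonpos (by linarith)]; ring

lemma eta_nonneg (t : ℝ) : 0 ≤ eta t := by
  unfold eta
  have := expNegInvGlue.nonneg (t - 2)
  have := expNegInvGlue.nonneg (-t - 2)
  positivity

lemma eta_eq_zero {t : ℝ} (ht : |t| ≤ 2) : eta t = 0 := by
  unfold eta
  rw [abs_le] at ht
  rw [expNegInvGlue.zero_of_nonpos (by linarith), expNegInvGlue.zero_of_nonpos (by linarith)]; ring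

lemma glue_mono {x y : ℝ} (hxy : x ≤ y) : expNegInvGlue x ≤ expNegInvGlue y := by
  rcases le_or_gt x 0 with hx | hx
  · rw [expNegInvGlue.zero_of_nonpos hx]; exact expNegInvGlue.nonneg y
  · unfold expNegInvGlue
    rw [if_neg (not_le.mpr hx), if_neg (not_le.mpr (hx.trans_le hxy))]
    apply Real.exp_le_exp.mpr
    exact neg_le_neg (inv_anti₀ hx hxy)

lemma eta_mono {t s : ℝ} (h : |t| ≤ |s|) : eta t ≤ eta s := by
  have key : ∀ u : ℝ, eta u = 120 * (expNegInvGlue (|u| - 2) + expNegInvGlue (-|u| - 2)) := by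
    intro u
    unfold eta
    rcases abs_cases u with ⟨h1, _⟩ | ⟨h1, _⟩
    · rw [h1]
    · rw [h1]; ring_nf
  rw [key t, key s, expNegInvGlue.zero_of_nonpos (x := -|t| - 2) (by have := abs_nonneg t; linarith),
    expNegInvGlue.zero_of_nonpos (x := -|s| - 2) (by have := abs_nonneg s; linarith)]
  have := glue_mono (x := |t| - 2) (y := |s| - 2) (by linarith)
  linarith

lemma exp_10_3 : Real.exp (10 / 3) ≤ 30 := by
  have h1 : Real.exp (10 / 3) ^ 3 ≤ 30 ^ 3 := by
    rw [← Real.exp_nat_mul]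
    have : ((3 : ℕ) : ℝ) * (10 / 3) = ((10 : ℕ) : ℝ) * 1 := by norm_num
    rw [this, Real.exp_nat_mul]
    calc Real.exp 1 ^ 10 ≤ 2.7182818286 ^ 10 :=
          pow_le_pow_left₀ (Real.exp_pos 1).le Real.exp_one_lt_d9.le 10
      _ ≤ 30 ^ 3 := by norm_num
  exact le_of_pow_le_pow_left₀ (by norm_num) (by norm_num) h1

lemma exp_23 : Real.exp (23 / 10) ≤ 10 := by
  have h1 : Real.exp (23 / 10) ^ 10 ≤ 10 ^ 10 := by
    rw [← Real.exp_nat_mul]
    have : ((10 : ℕ) : ℝ) * (23 / 10) = ((23 : ℕ) : ℝ) * 1 := by norm_num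
    rw [this, Real.exp_nat_mul]
    calc Real.exp 1 ^ 23 ≤ 2.7182818286 ^ 23 :=
          pow_le_pow_left₀ (Real.exp_pos 1).le Real.exp_one_lt_d9.le 23
      _ ≤ 10 ^ 10 := by norm_num
  exact le_of_pow_le_pow_left₀ (by norm_num) (by norm_num) h1

lemma eta_ge {t : ℝ} (ht : 23 / 10 ≤ |t|) : 4 ≤ eta t := by
  have h1 : eta (23 / 10) ≤ eta t := eta_mono (by rw [abs_of_pos (by norm_num)]; exact ht)
  refine le_trans ?_ h1
  unfold eta
  rw [expNegInvGlue.zero_of_nonpos (x := -(23 / 10) - 2) (by norm_num)]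
  have h2 : expNegInvGlue (23 / 10 - 2) = (Real.exp (10 / 3))⁻¹ := by
    unfold expNegInvGlue
    rw [if_neg (by norm_num), ← Real.exp_neg]
    norm_num
  rw [h2]
  have h3 : (30 : ℝ)⁻¹ ≤ (Real.exp (10 / 3))⁻¹ := inv_anti₀ (Real.exp_pos _) exp_10_3
  norm_num at h3 ⊢
  linarith

lemma lam_ge {s : ℝ} (hs : 3 / 2 ≤ s) : s < lam s := by
  unfold lam
  have h1 : expNegInvGlue (1 / 2) ≤ expNegInvGlue (s - 1) := glue_mono (by linarith)
  have h2 : expNegInvGlue (1 / 2) = (Real.exp 1 ^ 2)⁻¹ := by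
    unfold expNegInvGlue
    rw [if_neg (by norm_num), ← Real.exp_nat_mul, ← Real.exp_neg]
    norm_num
  have h3 : Real.exp 1 ^ 2 ≤ 8 := by
    have := Real.exp_one_lt_d9
    have h0 := Real.exp_pos 1
    nlinarith
  have h4 : (8 : ℝ)⁻¹ ≤ (Real.exp 1 ^ 2)⁻¹ := inv_anti₀ (by positivity) h3
  rw [h2] at h1
  have h5 : (1 : ℝ) / 8 ≤ expNegInvGlue (s - 1) := by
    rw [one_div]; linarith
  nlinarith

lemma XX_sq_le (z w : ℂ) : XX z w ^ 2 + (-z.re * Real.sin (lt w) + z.im * Real.cos (lt w)) ^ 2 =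
    Complex.normSq z := by
  unfold XX
  rw [Complex.normSq_apply]
  have := Real.sin_sq_add_cos_sq (lt w)
  linear_combination (z.re * z.re + z.im * z.im) * this

lemma XX_le (z w : ℂ) : XX z w ≤ √(Complex.normSq z) := by
  apply Real.le_sqrt_of_sq_le
  have := XX_sq_le z w
  nlinarith [sq_nonneg (-z.re * Real.sin (lt w) + z.im * Real.cos (lt w))]

/-- on `{rho ≤ 0}` we are in the nice region -/
lemma rho_le {x : Fin 2 → ℂ} (hx : rho x ≤ 0) :
    |lt (x 1)| < 23 / 10 ∧ 1 / 10 < Complex.normSq (x 1) ∧ Complex.normSq (x 0) < 3 / 2 ∧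
      rho x = lam (Complex.normSq (x 0)) + eta (lt (x 1)) - XX (x 0) (x 1) := by
  set S := Complex.normSq (x 0) with hS
  set N := Complex.normSq (x 1) with hN
  have hS0 : 0 ≤ S := Complex.normSq_nonneg _
  have hN0 : 0 ≤ N := Complex.normSq_nonneg _
  have hX := XX_le (x 0) (x 1)
  rw [← hS] at hX
  have hl0 := lam_nonneg hS0
  have hsq : √S ^ 2 = S := Real.sq_sqrt hS0
  have hsq0 : 0 ≤ √S := Real.sqrt_nonneg S
  have hk0 : 0 ≤ kap N := Real.smoothTransition.nonneg _
  have hk1 : kap N ≤ 1 := Real.smoothTransition.le_one _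
  have he0 := eta_nonneg (lt (x 1))
  have hrho : rho x = lam S + kap N * (eta (lt (x 1)) - XX (x 0) (x 1)) + 4 * (1 - kap N) := rfl
  have hbig : √S < lam S + 4 := by
    by_contra hcon
    push Not at hcon
    have h4 : 4 ≤ √S := by linarith
    have h5 : 3 / 2 ≤ S := by nlinarith
    have := lam_ge h5
    nlinarith
  have hlt : |lt (x 1)| < 23 / 10 := by
    by_contra hcon
    push Not at hcon
    have h4 := eta_ge hcon
    have : 0 < rho x := by
      rw [hrho]
      nlinarith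
    linarith
  have hN1 : 1 / 10 < N := by
    by_contra hcon
    push Not at hcon
    rcases hN0.eq_or_lt with h0 | h0
    · have hk : kap N = 0 := by
        unfold kap
        exact Real.smoothTransition.zero_of_nonpos (by linarith)
      rw [hrho, hk] at hx
      linarith
    · have h1 : lt (x 1) ≤ -(23 / 10) := by
        have h2 : Real.log N ≤ Real.log (1 / 10) := Real.log_le_log h0 hcon
        have h3 : Real.log (1 / 10) ≤ -(23 / 10) := by
          rw [one_div, Real.log_inv]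
          have : 23 / 10 ≤ Real.log 10 := by
            rw [Real.le_log_iff_exp_le (by norm_num)]
            exact exp_23
          linarith
        exact h2.trans h3
      rw [abs_lt] at hlt
      linarith
  have hk : kap N = 1 := by
    unfold kap
    exact Real.smoothTransition.one_of_one_le (by linarith)
  have hrho' : rho x = lam S + eta (lt (x 1)) - XX (x 0) (x 1) := by
    rw [hrho, hk]; ring
  refine ⟨hlt, hN1, ?_, hrho'⟩
  by_contra hcon
  push Not at hcon
  have h1 := lam_ge hcon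
  have h2 : 1 < √S := by
    rw [Real.lt_sqrt (by norm_num)]; linarith
  nlinarith

/-- in the region `|lt| < 23/10`, `w ≠ 0` the function has the simple form -/
lemma rho_eq {x : Fin 2 → ℂ} (h : 1 / 10 ≤ Complex.normSq (x 1)) :
    rho x = lam (Complex.normSq (x 0)) + eta (lt (x 1)) - XX (x 0) (x 1) := by
  have hk : kap (Complex.normSq (x 1)) = 1 := by
    unfold kap
    exact Real.smoothTransition.one_of_one_le (by linarith)
  unfold rho
  rw [hk]; ring

lemma normSq_of_lt {w : ℂ} (hw : w ≠ 0) (h : -(23 / 10) ≤ lt w) : 1 / 10 ≤ Complex.normSq w := by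
  have h0 : 0 < Complex.normSq w := Complex.normSq_pos.mpr hw
  have h1 : Real.exp (-(23 / 10)) ≤ Complex.normSq w := by
    rwa [← Real.le_log_iff_exp_le h0]
  refine le_trans ?_ h1
  rw [Real.exp_neg, one_div]
  exact inv_anti₀ (Real.exp_pos _) exp_23

end Pool.Agent.Helper459.Worm
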