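import Mathlib
import Pool.Agent.Helper459.WormA
open Complex Set Filter Topology Metric

namespace Pool.Agent.Helper459.Worm

/-! ### smoothness -/

lemma contDiff_lam {n : WithTop ℕ∞} (hn : n ≤ (⊤ : ℕ∞)) : ContDiff ℝ n lam := by
  unfold lam
  have h1 : ContDiff ℝ n expNegInvGlue := (expNegInvGlue.contDiff (n := ⊤)).of_le hn
  exact (contDiff_const.mul contDiff_id).mul (h1.comp (contDiff_id.sub contDiff_const))

lemma contDiff_eta {n : WithTop ℕ∞} (hn : n ≤ (⊤ : ℕ∞)) : ContDiff ℝ n eta := by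
  unfold eta
  have h1 : ContDiff ℝ n expNegInvGlue := (expNegInvGlue.contDiff (n := ⊤)).of_le hn
  exact contDiff_const.mul ((h1.comp (contDiff_id.sub contDiff_const)).add
    (h1.comp (contDiff_id.neg.sub contDiff_const)))

lemma contDiff_kap {n : WithTop ℕ∞} (hn : n ≤ (⊤ : ℕ∞)) : ContDiff ℝ n kap := by
  unfold kap
  have h1 : ContDiff ℝ n Real.smoothTransition := (Real.smoothTransition.contDiff (n := ⊤)).of_le hn
  exact h1.comp ((contDiff_const.mul contDiff_id).sub contDiff_const)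

lemma contDiff_re_coord (i : Fin 2) {n : WithTop ℕ∞} : ContDiff ℝ n (fun x : Fin 2 → ℂ => (x i).re) :=
  Complex.reCLM.contDiff.comp (contDiff_apply ℝ ℂ i)

lemma contDiff_im_coord (i : Fin 2) {n : WithTop ℕ∞} : ContDiff ℝ n (fun x : Fin 2 → ℂ => (x i).im) :=
  Complex.imCLM.contDiff.comp (contDiff_apply ℝ ℂ i)

lemma contDiff_normSq (i : Fin 2) {n : WithTop ℕ∞} :
    ContDiff ℝ n (fun x : Fin 2 → ℂ => Complex.normSq (x i)) := by
  simp only [Complex.normSq_apply]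
  exact ((contDiff_re_coord i).mul (contDiff_re_coord i)).add
    ((contDiff_im_coord i).mul (contDiff_im_coord i))

lemma contDiffAt_lt {n : WithTop ℕ∞} {x : Fin 2 → ℂ} (hx : x 1 ≠ 0) :
    ContDiffAt ℝ n (fun x : Fin 2 → ℂ => lt (x 1)) x := by
  unfold lt
  exact (contDiff_normSq 1).contDiffAt.log (Complex.normSq_pos.mpr hx).ne'

lemma contDiffAt_XX {n : WithTop ℕ∞} {x : Fin 2 → ℂ} (hx : x 1 ≠ 0) :
    ContDiffAt ℝ n (fun x : Fin 2 → ℂ => XX (x 0) (x 1)) x := by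
  unfold XX
  exact ((contDiff_re_coord 0).contDiffAt.mul (Real.contDiff_cos.contDiffAt.comp x (contDiffAt_lt hx))).add
    ((contDiff_im_coord 0).contDiffAt.mul (Real.contDiff_sin.contDiffAt.comp x (contDiffAt_lt hx)))

theorem contDiff_rho {n : WithTop ℕ∞} (hn : n ≤ (⊤ : ℕ∞)) : ContDiff ℝ n rho := by
  rw [contDiff_iff_contDiffAt]
  intro x
  have hl : ContDiffAt ℝ n (fun x : Fin 2 → ℂ => lam (Complex.normSq (x 0))) x :=
    ((contDiff_lam hn).comp (contDiff_normSq 0)).contDiffAt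
  have hk : ContDiffAt ℝ n (fun x : Fin 2 → ℂ => kap (Complex.normSq (x 1))) x :=
    ((contDiff_kap hn).comp (contDiff_normSq 1)).contDiffAt
  by_cases hx : x 1 = 0
  · have : rho =ᶠ[𝓝 x] fun x => lam (Complex.normSq (x 0)) + 4 := by
      have hc : ContinuousAt (fun x : Fin 2 → ℂ => Complex.normSq (x 1)) x :=
        ((contDiff_normSq (n := 0) 1).continuous).continuousAt
      have h0 : Complex.normSq (x 1) < 1 / 20 := by rw [hx]; simp
      filter_upwards [hc.eventually (gt_mem_nhds h0)] with y hy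
      have hk0 : kap (Complex.normSq (y 1)) = 0 := by
        unfold kap
        exact Real.smoothTransition.zero_of_nonpos (by linarith)
      unfold rho
      rw [hk0]; ring
    exact ContDiffAt.congr_of_eventuallyEq (hl.add contDiffAt_const) this
  · unfold rho
    have he : ContDiffAt ℝ n (fun x : Fin 2 → ℂ => eta (lt (x 1))) x :=
      (contDiff_eta hn).contDiffAt.comp x (contDiffAt_lt hx)
    exact (hl.add (hk.mul (he.sub (contDiffAt_XX hx)))).add
      (contDiffAt_const.mul (contDiffAt_const.sub hk))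

theorem rho_continuous : Continuous rho := (contDiff_rho (n := 0) (by simp)).continuous

theorem Om_isOpen : IsOpen Om := isOpen_lt rho_continuous continuous_const

theorem closure_rho {x : Fin 2 → ℂ} (hx : x ∈ closure Om) : rho x ≤ 0 := by
  have : closure Om ⊆ {x | rho x ≤ 0} := by
    apply closure_minimal _ (isClosed_le rho_continuous continuous_const)
    intro x hx
    exact le_of_lt (show rho x < 0 from hx)
  exact this hx

theorem frontier_rho {x : Fin 2 → ℂ} (hx : x ∈ frontier Om) : rho x = 0 := by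
  rw [Om_isOpen.frontier_eq] at hx
  exact le_antisymm (closure_rho hx.1) (not_lt.mp hx.2)

/-! ### derivatives of the one variable functions -/

noncomputable def g1 (x : ℝ) : ℝ := (x⁻¹) ^ 2 * expNegInvGlue x

noncomputable def g2 (x : ℝ) : ℝ := ((x⁻¹) ^ 4 - 2 * (x⁻¹) ^ 3) * expNegInvGlue x

lemma hasDerivAt_g (x : ℝ) : HasDerivAt expNegInvGlue (g1 x) x := by
  have := expNegInvGlue.hasDerivAt_polynomial_eval_inv_mul 1 x
  simpa [g1] using this

lemma hasDerivAt_g1 (x : ℝ) : HasDerivAt g1 (g2 x) x := by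
  have := expNegInvGlue.hasDerivAt_polynomial_eval_inv_mul (Polynomial.X ^ 2) x
  have e1 : (fun x : ℝ => Polynomial.eval x⁻¹ (Polynomial.X ^ 2 : Polynomial ℝ) * expNegInvGlue x) = g1 := by
    funext y; simp [g1]
  rw [e1] at this
  refine this.congr_deriv ?_
  unfold g2
  congr 1
  simp
  ring

lemma comp_sub' {f : ℝ → ℝ} {f' c t : ℝ} (h : HasDerivAt f f' (t - c)) :
    HasDerivAt (fun s => f (s - c)) f' t := h.comp_sub_const t c

lemma comp_neg' {f : ℝ → ℝ} {f' c t : ℝ} (h : HasDerivAt f f' (-t - c)) :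
    HasDerivAt (fun s => f (-s - c)) (-f') t := by
  have h1 : (fun s => f (-s - c)) = fun s => f (-c - s) := by
    funext s; congr 1; ring
  have h2 : -t - c = -c - t := by ring
  rw [h1]
  rw [h2] at h
  exact h.comp_const_sub (-c) t

noncomputable def lam1 (s : ℝ) : ℝ := 10 * (expNegInvGlue (s - 1) + s * g1 (s - 1))
noncomputable def lam2 (s : ℝ) : ℝ := 10 * (2 * g1 (s - 1) + s * g2 (s - 1))
noncomputable def eta1 (t : ℝ) : ℝ := 120 * (g1 (t - 2) - g1 (-t - 2))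
noncomputable def eta2 (t : ℝ) : ℝ := 120 * (g2 (t - 2) + g2 (-t - 2))

lemma hasDerivAt_lam (s : ℝ) : HasDerivAt lam (lam1 s) s := by
  have h1 : HasDerivAt (fun s : ℝ => expNegInvGlue (s - 1)) (g1 (s - 1)) s := by
    exact comp_sub' (hasDerivAt_g (s - 1))
  have h2 := ((hasDerivAt_id s).const_mul 10).mul h1
  have h3 : HasDerivAt lam (10 * 1 * expNegInvGlue (s - 1) + 10 * s * g1 (s - 1)) s := h2
  refine h3.congr_deriv ?_
  unfold lam1; ring

lemma hasDerivAt_lam1 (s : ℝ) : HasDerivAt lam1 (lam2 s) s := by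
  have h1 : HasDerivAt (fun s : ℝ => expNegInvGlue (s - 1)) (g1 (s - 1)) s := by
    exact comp_sub' (hasDerivAt_g (s - 1))
  have h2 : HasDerivAt (fun s : ℝ => g1 (s - 1)) (g2 (s - 1)) s := by
    exact comp_sub' (hasDerivAt_g1 (s - 1))
  have h3 := (h1.add ((hasDerivAt_id s).mul h2)).const_mul 10
  have h4 : HasDerivAt lam1 (10 * (g1 (s - 1) + (1 * g1 (s - 1) + s * g2 (s - 1)))) s := h3
  refine h4.congr_deriv ?_
  unfold lam2; ring

lemma hasDerivAt_eta (t : ℝ) : HasDerivAt eta (eta1 t) t := by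
  have h1 : HasDerivAt (fun s : ℝ => expNegInvGlue (s - 2)) (g1 (t - 2)) t := by
    exact comp_sub' (hasDerivAt_g (t - 2))
  have h2 : HasDerivAt (fun s : ℝ => expNegInvGlue (-s - 2)) (-g1 (-t - 2)) t := by
    exact comp_neg' (hasDerivAt_g (-t - 2))
  have h4 : HasDerivAt eta (120 * (g1 (t - 2) + -g1 (-t - 2))) t := (h1.add h2).const_mul 120
  refine h4.congr_deriv ?_
  unfold eta1; ring

lemma hasDerivAt_eta1 (t : ℝ) : HasDerivAt eta1 (eta2 t) t := by
  have h1 : HasDerivAt (fun s : ℝ => g1 (s - 2)) (g2 (t - 2)) t := by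
    exact comp_sub' (hasDerivAt_g1 (t - 2))
  have h2 : HasDerivAt (fun s : ℝ => g1 (-s - 2)) (-g2 (-t - 2)) t := by
    exact comp_neg' (hasDerivAt_g1 (-t - 2))
  have h4 : HasDerivAt eta1 (120 * (g2 (t - 2) - -g2 (-t - 2))) t := (h1.sub h2).const_mul 120
  refine h4.congr_deriv ?_
  unfold eta2; ring

/-! ### inequalities for the one variable functions -/

lemma g1_nonneg (x : ℝ) : 0 ≤ g1 x := by
  unfold g1
  have := expNegInvGlue.nonneg x
  positivity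

lemma g1_of_nonpos {x : ℝ} (hx : x ≤ 0) : g1 x = 0 := by
  unfold g1; rw [expNegInvGlue.zero_of_nonpos hx]; ring

lemma g2_of_nonpos {x : ℝ} (hx : x ≤ 0) : g2 x = 0 := by
  unfold g2; rw [expNegInvGlue.zero_of_nonpos hx]; ring

lemma g2_nonneg {x : ℝ} (hx : x ≤ 1 / 2) : 0 ≤ g2 x := by
  rcases le_or_gt x 0 with h | h
  · rw [g2_of_nonpos h]
  · unfold g2
    apply mul_nonneg _ (expNegInvGlue.nonneg x)
    have h1 : 2 ≤ x⁻¹ := by
      rw [le_inv_comm₀ (by norm_num) h]; linarith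
    have h2 : 0 ≤ (x⁻¹) ^ 3 := by positivity
    nlinarith

/-- `g ≤ x² g'` -/
lemma g_le_g1 {x : ℝ} (hx : x ≤ 1 / 2) : 4 * expNegInvGlue x ≤ g1 x := by
  rcases le_or_gt x 0 with h | h
  · rw [g1_of_nonpos h, expNegInvGlue.zero_of_nonpos h]; simp
  · unfold g1
    have h1 : 2 ≤ x⁻¹ := by
      rw [le_inv_comm₀ (by norm_num) h]; linarith
    have h0 := expNegInvGlue.nonneg x
    nlinarith [mul_nonneg h0 (sub_nonneg.mpr h1), mul_nonneg h0 (by nlinarith : 0 ≤ (x⁻¹) ^ 2 - 4)]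

lemma g_le_g1' {x : ℝ} (hx : x ≤ 3 / 10) : expNegInvGlue x ≤ 9 / 100 * g1 x := by
  rcases le_or_gt x 0 with h | h
  · rw [g1_of_nonpos h, expNegInvGlue.zero_of_nonpos h]; simp
  · unfold g1
    have h1 : 10 / 3 ≤ x⁻¹ := by
      rw [le_inv_comm₀ (by norm_num) h]; linarith
    have h0 := expNegInvGlue.nonneg x
    have h2 : 100 / 9 ≤ (x⁻¹) ^ 2 := by nlinarith
    nlinarith

lemma g1_le_g2 {x : ℝ} (hx : x ≤ 3 / 10) : 4 * g1 x ≤ g2 x := by
  rcases le_or_gt x 0 with h | h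
  · rw [g1_of_nonpos h, g2_of_nonpos h]; simp
  · unfold g1 g2
    have h1 : 10 / 3 ≤ x⁻¹ := by
      rw [le_inv_comm₀ (by norm_num) h]; linarith
    have h0 := expNegInvGlue.nonneg x
    have h2 : 4 * (x⁻¹) ^ 2 ≤ (x⁻¹) ^ 4 - 2 * (x⁻¹) ^ 3 := by
      have : 0 ≤ (x⁻¹) ^ 2 * ((x⁻¹) ^ 2 - 2 * x⁻¹ - 4) := by
        apply mul_nonneg (by positivity)
        nlinarith
      nlinarith
    nlinarith

lemma lam1_nonneg {s : ℝ} (hs : 0 ≤ s) : 0 ≤ lam1 s := by
  unfold lam1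
  have := expNegInvGlue.nonneg (s - 1)
  have := g1_nonneg (s - 1)
  positivity

lemma lam2_nonneg {s : ℝ} (hs : 0 ≤ s) (hs' : s ≤ 3 / 2) : 0 ≤ lam2 s := by
  unfold lam2
  have := g2_nonneg (x := s - 1) (by linarith)
  have := g1_nonneg (s - 1)
  positivity

lemma lam_le_lam1 {s : ℝ} (hs : 0 ≤ s) (hs' : s ≤ 3 / 2) : 4 * lam s ≤ lam1 s := by
  unfold lam lam1
  have h1 := g_le_g1 (x := s - 1) (by linarith)
  have h2 := expNegInvGlue.nonneg (s - 1)
  nlinarith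

lemma lam1_eq_zero {s : ℝ} (hs : s ≤ 1) : lam1 s = 0 := by
  unfold lam1
  rw [expNegInvGlue.zero_of_nonpos (by linarith), g1_of_nonpos (by linarith)]; ring

lemma eta2_ge {t : ℝ} (ht : |t| ≤ 23 / 10) : 4 * |eta1 t| ≤ eta2 t := by
  rw [abs_le] at ht
  unfold eta1 eta2
  have h1 := g1_le_g2 (x := t - 2) (by linarith)
  have h2 := g1_le_g2 (x := -t - 2) (by linarith)
  have h3 := g1_nonneg (t - 2)
  have h4 := g1_nonneg (-t - 2)
  have h5 : |120 * (g1 (t - 2) - g1 (-t - 2))| ≤ 120 * (g1 (t - 2) + g1 (-t - 2)) := by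
    rw [abs_le]; constructor <;> linarith
  linarith

lemma eta_le {t : ℝ} (ht : |t| ≤ 23 / 10) : eta t ≤ 9 / 100 * |eta1 t| := by
  rw [abs_le] at ht
  unfold eta1 eta
  have h1 := g_le_g1' (x := t - 2) (by linarith)
  have h2 := g_le_g1' (x := -t - 2) (by linarith)
  have h3 := g1_nonneg (t - 2)
  have h4 := g1_nonneg (-t - 2)
  have h5 : 120 * (g1 (t - 2) + g1 (-t - 2)) ≤ |120 * (g1 (t - 2) - g1 (-t - 2))| := by
    rcases le_or_gt t 0 with h | h
    · rw [g1_of_nonpos (x := t - 2) (by linarith)]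
      rw [abs_of_nonpos (by linarith)]; linarith
    · rw [g1_of_nonpos (x := -t - 2) (by linarith)]
      rw [abs_of_nonneg (by linarith)]; linarith
  linarith

/-! ### the key algebraic inequalities -/

/-- lower bound for `|D|` -/
lemma D_bound {X y L0 L1 e0 e1 : ℝ} (hL0 : 0 ≤ L0) (hL1 : 4 * L0 ≤ L1)
    (he0 : 0 ≤ e0) (he : e0 ≤ 9 / 100 * |e1|) (hX : X = L0 + e0) (h1 : L1 ≠ 0 → 1 < X ^ 2 + y ^ 2)
    (hey : |e1| ≤ |y|) : 1 / 4 ≤ (2 * L1 * X - 1) ^ 2 + (2 * L1 * y) ^ 2 := by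
  by_contra hcon
  push Not at hcon
  have hX0 : 0 ≤ X := by linarith
  have hL10 : 0 ≤ L1 := by linarith
  have a1 : |2 * L1 * X - 1| < 1 / 2 := by
    apply abs_lt_of_sq_lt_sq _ (by norm_num)
    nlinarith [sq_nonneg (2 * L1 * y)]
  have a2 : |2 * L1 * y| < 1 / 2 := by
    apply abs_lt_of_sq_lt_sq _ (by norm_num)
    nlinarith [sq_nonneg (2 * L1 * X - 1)]
  rw [abs_lt] at a1
  have hne : L1 ≠ 0 := by
    rintro rfl
    linarith [a1.1]
  have hpos : 0 < L1 := lt_of_le_of_ne hL10 (Ne.symm hne)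
  have h2 := h1 hne
  rw [abs_mul, abs_of_pos (by linarith : (0 : ℝ) < 2 * L1)] at a2
  have hyX : |y| < X := by
    by_contra hc
    push Not at hc
    nlinarith
  have hy0 := abs_nonneg y
  have hy2 : y ^ 2 = |y| ^ 2 := (sq_abs y).symm
  have hXX : 1 / 2 < X ^ 2 := by nlinarith
  have hL : 91 / 100 * X ≤ L0 := by linarith
  nlinarith

/-- core of the Levi form inequality, case `Y ≠ 0` -/
lemma levi_core {A P Y e1 e2 X L1 Q K : ℝ} (hA0 : 0 ≤ A) (hP0 : 0 ≤ P) (hX0 : 0 ≤ X)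
    (hL1 : 0 ≤ L1) (he1 : 4 * |e1| ≤ e2) (hK : 0 ≤ K)
    (e3 : A * Q = Y ^ 2 * P) (hQ : 0 < e1 * Y → L1 * |Y| ≤ Q) :
    0 ≤ K * Y ^ 2 + (e2 + X) * P * Y ^ 2 - 4 * L1 * (e1 * Y) * A := by
  have he20 : 0 ≤ e2 := by have := abs_nonneg e1; linarith
  have t1 : 0 ≤ K * Y ^ 2 := by positivity
  have t4 : 0 ≤ X * P * Y ^ 2 := by positivity
  have t5 : 0 ≤ e2 * P * Y ^ 2 := by positivity
  rcases le_or_gt (e1 * Y) 0 with hs | hs
  · have t3 : 0 ≤ 4 * L1 * A * (-(e1 * Y)) := by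
      apply mul_nonneg (by positivity); linarith
    nlinarith
  · have h7 := hQ hs
    have hYa : e1 * Y = |e1| * |Y| := by
      rw [← abs_mul, abs_of_pos hs]
    have h8 : 0 ≤ L1 * |Y| := by positivity
    have h6 : 4 * L1 * (e1 * Y) ≤ e2 * Q := by
      calc 4 * L1 * (e1 * Y) = (4 * |e1|) * (L1 * |Y|) := by rw [hYa]; ring
        _ ≤ e2 * Q := mul_le_mul he1 h7 h8 he20
    have h9 : 4 * L1 * (e1 * Y) * A ≤ e2 * P * Y ^ 2 := by
      calc 4 * L1 * (e1 * Y) * A ≤ e2 * Q * A := mul_le_mul_of_nonneg_right h6 hA0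
        _ = e2 * (A * Q) := by ring
        _ = e2 * P * Y ^ 2 := by rw [e3]; ring
    linarith

/-- the Levi form inequality -/
lemma levi_ineq {X y S L0 L1 L2 e0 e1 e2 p q α1 α2 : ℝ} (hL0 : 0 ≤ L0) (hL1 : 4 * L0 ≤ L1)
    (hL2 : 0 ≤ L2) (hS0 : 0 ≤ S)
    (he0 : 0 ≤ e0) (he : e0 ≤ 9 / 100 * |e1|) (he2 : 4 * |e1| ≤ e2)
    (hX : X = L0 + e0) (h1 : L1 ≠ 0 → 1 < X ^ 2 + y ^ 2)
    (hE1 : α1 * (2 * L1 * X - 1) + α2 * (2 * L1 * y) = (y - e1) * p)
    (hE2 : α2 * (2 * L1 * X - 1) - α1 * (2 * L1 * y) = (y - e1) * q) :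
    0 ≤ 4 * (L2 * S + L1) * (α1 ^ 2 + α2 ^ 2) + (e2 + X) * (p ^ 2 + q ^ 2)
      + 2 * (q * α1 - p * α2) := by
  have hX0 : 0 ≤ X := by linarith
  have hL10 : 0 ≤ L1 := by linarith
  have he20 : 0 ≤ e2 := by have := abs_nonneg e1; linarith
  have hD0 : |e1| ≤ |y| → 1 / 4 ≤ (2 * L1 * X - 1) ^ 2 + (2 * L1 * y) ^ 2 :=
    D_bound hL0 hL1 he0 he hX h1
  obtain ⟨Y, hY⟩ : ∃ Y, Y = y - e1 := ⟨_, rfl⟩
  obtain ⟨D1, hD1⟩ : ∃ D1, D1 = 2 * L1 * X - 1 := ⟨_, rfl⟩
  obtain ⟨D2, hD2⟩ : ∃ D2, D2 = 2 * L1 * y := ⟨_, rfl⟩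
  rw [← hY, ← hD1, ← hD2] at hE1 hE2
  rw [← hD1, ← hD2] at hD0
  have hA0 : 0 ≤ α1 ^ 2 + α2 ^ 2 := by positivity
  have hP0 : 0 ≤ p ^ 2 + q ^ 2 := by positivity
  have e3 : (α1 ^ 2 + α2 ^ 2) * (D1 ^ 2 + D2 ^ 2) = Y ^ 2 * (p ^ 2 + q ^ 2) := by
    have : (α1 ^ 2 + α2 ^ 2) * (D1 ^ 2 + D2 ^ 2) =
      (α1 * D1 + α2 * D2) ^ 2 + (α2 * D1 - α1 * D2) ^ 2 := by ring
    rw [this, hE1, hE2]; ring
  by_cases hY0 : Y = 0
  · have hye : y = e1 := by linarith
    have hD := hD0 (le_of_eq (by rw [hye]))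
    rw [hY0] at e3
    have h0 : (α1 ^ 2 + α2 ^ 2) * (D1 ^ 2 + D2 ^ 2) = 0 := by rw [e3]; ring
    have hA' : α1 ^ 2 + α2 ^ 2 = 0 := by
      rcases mul_eq_zero.mp h0 with h | h
      · exact h
      · exfalso; linarith
    have hα1 : α1 = 0 := by
      have h2 := sq_nonneg α1
      have h3 := sq_nonneg α2
      exact pow_eq_zero_iff (two_ne_zero) |>.mp (by linarith)
    have hα2 : α2 = 0 := by
      have h2 := sq_nonneg α1
      have h3 := sq_nonneg α2
      exact pow_eq_zero_iff (two_ne_zero) |>.mp (by linarith)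
    subst hα1 hα2
    have : 0 ≤ (e2 + X) * (p ^ 2 + q ^ 2) := by positivity
    linarith
  · have hY2 : 0 < Y ^ 2 := by positivity
    have e4 : Y * (q * α1 - p * α2) = -D2 * (α1 ^ 2 + α2 ^ 2) := by
      have : Y * (q * α1 - p * α2) = α1 * (Y * q) - α2 * (Y * p) := by ring
      rw [this, ← hE1, ← hE2]; ring
    have hyY : y = Y + e1 := by rw [hY]; ring
    have hcore := levi_core (A := α1 ^ 2 + α2 ^ 2) (P := p ^ 2 + q ^ 2) (Y := Y) (e1 := e1)
      (e2 := e2) (X := X) (L1 := L1) (Q := D1 ^ 2 + D2 ^ 2) (K := 4 * (L2 * S) * (α1 ^ 2 + α2 ^ 2))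
      hA0 hP0 hX0 hL10 he2 (by positivity) e3 (by
        intro hs
        have habs : |y| = |Y| + |e1| := by
          rw [hyY]
          rcases lt_or_gt_of_ne hY0 with hn | hp
          · have : e1 < 0 := by
              by_contra hc
              push Not at hc
              have := mul_nonpos_of_nonneg_of_nonpos hc hn.le
              linarith
            rw [abs_of_neg hn, abs_of_neg this, abs_of_neg (by linarith)]; ring
          · have : 0 < e1 := by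
              by_contra hc
              push Not at hc
              have := mul_nonpos_of_nonpos_of_nonneg hc hp.le
              linarith
            rw [abs_of_pos hp, abs_of_pos this, abs_of_pos (by linarith)]
        have hD := hD0 (by rw [habs]; linarith [abs_nonneg Y])
        have h3 : |D2| = 2 * (L1 * |y|) := by
          rw [hD2, abs_mul, abs_of_nonneg (by linarith : (0 : ℝ) ≤ 2 * L1)]; ring
        have h4 : |D2| ^ 2 ≤ D1 ^ 2 + D2 ^ 2 := by rw [sq_abs]; linarith [sq_nonneg D1]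
        rw [h3] at h4
        have hLy : L1 * |y| ≤ D1 ^ 2 + D2 ^ 2 := by
          nlinarith [sq_nonneg (2 * (L1 * |y|) - 1 / 2)]
        have hYy : |Y| ≤ |y| := by rw [habs]; linarith [abs_nonneg e1]
        exact (mul_le_mul_of_nonneg_left hYy hL10).trans hLy)
    have e6 : Y ^ 2 * (4 * (L2 * S + L1) * (α1 ^ 2 + α2 ^ 2) + (e2 + X) * (p ^ 2 + q ^ 2)
        + 2 * (q * α1 - p * α2)) =
        4 * (L2 * S) * (α1 ^ 2 + α2 ^ 2) * Y ^ 2 + (e2 + X) * (p ^ 2 + q ^ 2) * Y ^ 2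
          - 4 * L1 * (e1 * Y) * (α1 ^ 2 + α2 ^ 2) := by
      have h5 : Y ^ 2 * (4 * (L2 * S + L1) * (α1 ^ 2 + α2 ^ 2) + (e2 + X) * (p ^ 2 + q ^ 2)
        + 2 * (q * α1 - p * α2)) = Y ^ 2 * (4 * (L2 * S + L1) * (α1 ^ 2 + α2 ^ 2)
          + (e2 + X) * (p ^ 2 + q ^ 2)) + 2 * Y * (Y * (q * α1 - p * α2)) := by ring
      rw [h5, e4, hD2, hyY]; ring
    rw [← e6] at hcore
    exact nonneg_of_mul_nonneg_right hcore hY2

end Pool.Agent.Helper459.Worm
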