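import Mathlib
import Pool.Agent.Helper459.WormB
open Complex Set Filter Topology Metric

namespace Pool.Agent.Helper459.Worm

/-! ### derivatives along a real line -/

section line

variable (z1 z2 a1 a2 w1 w2 b1 b2 : ℝ)

/-- squared modulus along a line -/
def qd (z1 z2 a1 a2 τ : ℝ) : ℝ := (z1 + τ * a1) * (z1 + τ * a1) + (z2 + τ * a2) * (z2 + τ * a2)

def qd1 (z1 z2 a1 a2 τ : ℝ) : ℝ := 2 * ((z1 + τ * a1) * a1 + (z2 + τ * a2) * a2)

lemma hasDerivAt_lin (z a τ : ℝ) : HasDerivAt (fun τ : ℝ => z + τ * a) a τ := by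
  simpa using ((hasDerivAt_id τ).mul_const a).const_add z

lemma hasDerivAt_qd (τ : ℝ) : HasDerivAt (qd z1 z2 a1 a2) (qd1 z1 z2 a1 a2 τ) τ := by
  have h1 := hasDerivAt_lin z1 a1 τ
  have h2 := hasDerivAt_lin z2 a2 τ
  have h3 : HasDerivAt (qd z1 z2 a1 a2) (a1 * (z1 + τ * a1) + (z1 + τ * a1) * a1 +
      (a2 * (z2 + τ * a2) + (z2 + τ * a2) * a2)) τ := (h1.mul h1).add (h2.mul h2)
  refine h3.congr_deriv ?_
  unfold qd1; ring

lemma hasDerivAt_qd1 (τ : ℝ) : HasDerivAt (qd1 z1 z2 a1 a2) (2 * (a1 * a1 + a2 * a2)) τ := by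
  have h1 := (hasDerivAt_lin z1 a1 τ).mul_const a1
  have h2 := (hasDerivAt_lin z2 a2 τ).mul_const a2
  exact (h1.add h2).const_mul 2

noncomputable def Tf (τ : ℝ) : ℝ := Real.log (qd w1 w2 b1 b2 τ)

noncomputable def Tf1 (τ : ℝ) : ℝ := qd1 w1 w2 b1 b2 τ / qd w1 w2 b1 b2 τ

noncomputable def Tf2 (τ : ℝ) : ℝ :=
  (2 * (b1 * b1 + b2 * b2) * qd w1 w2 b1 b2 τ - qd1 w1 w2 b1 b2 τ * qd1 w1 w2 b1 b2 τ) /
    qd w1 w2 b1 b2 τ ^ 2

lemma hasDerivAt_Tf {τ : ℝ} (h : qd w1 w2 b1 b2 τ ≠ 0) :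
    HasDerivAt (Tf w1 w2 b1 b2) (Tf1 w1 w2 b1 b2 τ) τ :=
  (hasDerivAt_qd w1 w2 b1 b2 τ).log h

lemma hasDerivAt_Tf1 {τ : ℝ} (h : qd w1 w2 b1 b2 τ ≠ 0) :
    HasDerivAt (Tf1 w1 w2 b1 b2) (Tf2 w1 w2 b1 b2 τ) τ :=
  (hasDerivAt_qd1 w1 w2 b1 b2 τ).div (hasDerivAt_qd w1 w2 b1 b2 τ) h

/-- the defining function along a line -/
noncomputable def phi (τ : ℝ) : ℝ :=
  lam (qd z1 z2 a1 a2 τ) + eta (Tf w1 w2 b1 b2 τ) -
    ((z1 + τ * a1) * Real.cos (Tf w1 w2 b1 b2 τ) + (z2 + τ * a2) * Real.sin (Tf w1 w2 b1 b2 τ))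

noncomputable def phi1 (τ : ℝ) : ℝ :=
  lam1 (qd z1 z2 a1 a2 τ) * qd1 z1 z2 a1 a2 τ + eta1 (Tf w1 w2 b1 b2 τ) * Tf1 w1 w2 b1 b2 τ -
    (a1 * Real.cos (Tf w1 w2 b1 b2 τ) + a2 * Real.sin (Tf w1 w2 b1 b2 τ) +
      ((z2 + τ * a2) * Real.cos (Tf w1 w2 b1 b2 τ) - (z1 + τ * a1) * Real.sin (Tf w1 w2 b1 b2 τ)) *
        Tf1 w1 w2 b1 b2 τ)

noncomputable def phi2 (τ : ℝ) : ℝ :=
  lam2 (qd z1 z2 a1 a2 τ) * qd1 z1 z2 a1 a2 τ ^ 2 +
    lam1 (qd z1 z2 a1 a2 τ) * (2 * (a1 * a1 + a2 * a2)) +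
    eta2 (Tf w1 w2 b1 b2 τ) * Tf1 w1 w2 b1 b2 τ ^ 2 + eta1 (Tf w1 w2 b1 b2 τ) * Tf2 w1 w2 b1 b2 τ -
    (2 * (a2 * Real.cos (Tf w1 w2 b1 b2 τ) - a1 * Real.sin (Tf w1 w2 b1 b2 τ)) * Tf1 w1 w2 b1 b2 τ -
      ((z1 + τ * a1) * Real.cos (Tf w1 w2 b1 b2 τ) + (z2 + τ * a2) * Real.sin (Tf w1 w2 b1 b2 τ)) *
        Tf1 w1 w2 b1 b2 τ ^ 2 +
      ((z2 + τ * a2) * Real.cos (Tf w1 w2 b1 b2 τ) - (z1 + τ * a1) * Real.sin (Tf w1 w2 b1 b2 τ)) *
        Tf2 w1 w2 b1 b2 τ)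

lemma hasDerivAt_phi {τ : ℝ} (h : qd w1 w2 b1 b2 τ ≠ 0) :
    HasDerivAt (phi z1 z2 a1 a2 w1 w2 b1 b2) (phi1 z1 z2 a1 a2 w1 w2 b1 b2 τ) τ := by
  have hT := hasDerivAt_Tf w1 w2 b1 b2 h
  have h1 := (hasDerivAt_lam (qd z1 z2 a1 a2 τ)).comp τ (hasDerivAt_qd z1 z2 a1 a2 τ)
  have h2 := (hasDerivAt_eta (Tf w1 w2 b1 b2 τ)).comp τ hT
  have h3 := (hasDerivAt_lin z1 a1 τ).mul hT.cos
  have h4 := (hasDerivAt_lin z2 a2 τ).mul hT.sin
  have h5 : HasDerivAt (phi z1 z2 a1 a2 w1 w2 b1 b2) _ τ := (h1.add h2).sub (h3.add h4)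
  refine h5.congr_deriv ?_
  unfold phi1
  ring

lemma hasDerivAt_phi1 {τ : ℝ} (h : qd w1 w2 b1 b2 τ ≠ 0) :
    HasDerivAt (phi1 z1 z2 a1 a2 w1 w2 b1 b2) (phi2 z1 z2 a1 a2 w1 w2 b1 b2 τ) τ := by
  have hT := hasDerivAt_Tf w1 w2 b1 b2 h
  have hT1 := hasDerivAt_Tf1 w1 w2 b1 b2 h
  have h1 := ((hasDerivAt_lam1 (qd z1 z2 a1 a2 τ)).comp τ (hasDerivAt_qd z1 z2 a1 a2 τ)).mul
    (hasDerivAt_qd1 z1 z2 a1 a2 τ)
  have h2 := ((hasDerivAt_eta1 (Tf w1 w2 b1 b2 τ)).comp τ hT).mul hT1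
  have h3 := (hT.cos.const_mul a1).add (hT.sin.const_mul a2)
  have h4 := (((hasDerivAt_lin z2 a2 τ).mul hT.cos).sub ((hasDerivAt_lin z1 a1 τ).mul hT.sin)).mul hT1
  have h5 : HasDerivAt (phi1 z1 z2 a1 a2 w1 w2 b1 b2) _ τ := (h1.add h2).sub (h3.add h4)
  refine h5.congr_deriv ?_
  unfold phi2
  simp only [Function.comp, Pi.sub_apply, Pi.mul_apply]
  ring

end line

lemma second_deriv {E : Type*} [NormedAddCommGroup E] [NormedSpace ℝ E] {f : E → ℝ}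
    (hf : ContDiff ℝ 2 f) (x v : E) {φ1 : ℝ → ℝ} {φ2 : ℝ}
    (h1 : ∀ᶠ τ in 𝓝 (0 : ℝ), HasDerivAt (fun τ : ℝ => f (x + τ • v)) (φ1 τ) τ)
    (h2 : HasDerivAt φ1 φ2 0) :
    fderiv ℝ f x v = φ1 0 ∧ iteratedFDeriv ℝ 2 f x ![v, v] = φ2 := by
  have hl : ∀ τ : ℝ, HasDerivAt (fun τ : ℝ => x + τ • v) v τ := by
    intro τ
    simpa using ((hasDerivAt_id τ).smul_const v).const_add x
  have hd : ∀ τ : ℝ, HasDerivAt (fun τ : ℝ => f (x + τ • v)) (fderiv ℝ f (x + τ • v) v) τ := by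
    intro τ
    have := ((hf.differentiable (by norm_num)) (x + τ • v)).hasFDerivAt
    exact this.comp_hasDerivAt τ (hl τ)
  have he : φ1 =ᶠ[𝓝 0] fun τ => fderiv ℝ f (x + τ • v) v := by
    filter_upwards [h1] with τ hτ
    exact hτ.unique (hd τ)
  constructor
  · have := he.self_of_nhds
    simp at this
    exact this.symm
  · have h3 : ContDiff ℝ 1 (fderiv ℝ f) := hf.fderiv_right (by norm_num)
    have h4 : HasFDerivAt (fderiv ℝ f) (fderiv ℝ (fderiv ℝ f) x) (x + (0 : ℝ) • v) := by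
      simpa using ((h3.differentiable (by norm_num)) x).hasFDerivAt
    have h5 : HasDerivAt (fun τ : ℝ => fderiv ℝ f (x + τ • v)) (fderiv ℝ (fderiv ℝ f) x v) 0 :=
      h4.comp_hasDerivAt (0 : ℝ) (hl 0)
    have h6 : HasDerivAt (fun τ : ℝ => fderiv ℝ f (x + τ • v) v) (fderiv ℝ (fderiv ℝ f) x v v) 0 := by
      have := h5.clm_apply (hasDerivAt_const (0 : ℝ) v)
      simpa using this
    rw [iteratedFDeriv_two_apply]
    simp only [Matrix.cons_val_zero, Matrix.cons_val_one]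
    exact (h6.congr_of_eventuallyEq he).unique h2

lemma rho_line (x v : Fin 2 → ℂ) (hx : 1 / 10 < Complex.normSq (x 1)) :
    ∀ᶠ τ in 𝓝 (0 : ℝ), HasDerivAt (fun τ : ℝ => rho (x + τ • v))
      (phi1 (x 0).re (x 0).im (v 0).re (v 0).im (x 1).re (x 1).im (v 1).re (v 1).im τ) τ := by
  have hq : ∀ i : Fin 2, ∀ τ : ℝ, Complex.normSq ((x + τ • v) i) =
      qd (x i).re (x i).im (v i).re (v i).im τ := by
    intro i τ
    rw [Complex.normSq_apply]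
    unfold qd
    simp
  have hc : Continuous (qd (x 1).re (x 1).im (v 1).re (v 1).im) := by
    unfold qd; fun_prop
  have h0 : 1 / 10 < qd (x 1).re (x 1).im (v 1).re (v 1).im 0 := by
    rw [← hq 1 0]; simpa using hx
  have hev : ∀ᶠ τ in 𝓝 (0 : ℝ), 1 / 10 < qd (x 1).re (x 1).im (v 1).re (v 1).im τ :=
    hc.continuousAt.eventually (lt_mem_nhds h0)
  filter_upwards [hev.eventually_nhds] with τ hτ
  have hτ0 := hτ.self_of_nhds
  have := hasDerivAt_phi (x 0).re (x 0).im (v 0).re (v 0).im (x 1).re (x 1).im (v 1).re (v 1).im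
    (τ := τ) (by linarith)
  refine this.congr_of_eventuallyEq ?_
  filter_upwards [hτ] with σ hσ
  rw [rho_eq (by rw [hq]; exact hσ.le)]
  unfold phi
  rw [hq 0]
  have h3 : lt ((x + σ • v) 1) = Tf (x 1).re (x 1).im (v 1).re (v 1).im σ := by
    unfold lt Tf
    rw [hq 1]
  unfold XX
  rw [h3]
  simp


/-- first and second derivatives of `rho` in the direction `v` -/
lemma rho_derivs (x v : Fin 2 → ℂ) (hx : 1 / 10 < Complex.normSq (x 1)) :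
    fderiv ℝ rho x v =
      phi1 (x 0).re (x 0).im (v 0).re (v 0).im (x 1).re (x 1).im (v 1).re (v 1).im 0 ∧
    iteratedFDeriv ℝ 2 rho x ![v, v] =
      phi2 (x 0).re (x 0).im (v 0).re (v 0).im (x 1).re (x 1).im (v 1).re (v 1).im 0 := by
  apply second_deriv (contDiff_rho (WithTop.coe_le_coe.mpr (le_top : (2 : ℕ∞) ≤ ⊤))) x v (rho_line x v hx)
  apply hasDerivAt_phi1
  have : qd (x 1).re (x 1).im (v 1).re (v 1).im 0 = Complex.normSq (x 1) := by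
    unfold qd; rw [Complex.normSq_apply]; ring
  rw [this]
  linarith

/-- the data at a boundary point -/
lemma boundary_data {x : Fin 2 → ℂ} (hx : rho x = 0) :
    ∃ S T X y L0 L1 L2 e0 e1 e2 N : ℝ, S = (x 0).re * (x 0).re + (x 0).im * (x 0).im ∧
      N = (x 1).re * (x 1).re + (x 1).im * (x 1).im ∧ 0 < N ∧ 1 / 10 < Complex.normSq (x 1) ∧
      T = Real.log N ∧
      X = (x 0).re * Real.cos T + (x 0).im * Real.sin T ∧
      y = (x 0).im * Real.cos T - (x 0).re * Real.sin T ∧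
      L0 = lam S ∧ L1 = lam1 S ∧ L2 = lam2 S ∧ e0 = eta T ∧ e1 = eta1 T ∧ e2 = eta2 T ∧
      0 ≤ L0 ∧ 4 * L0 ≤ L1 ∧ 0 ≤ L2 ∧ 0 ≤ S ∧ 0 ≤ e0 ∧ e0 ≤ 9 / 100 * |e1| ∧ 4 * |e1| ≤ e2 ∧
      X = L0 + e0 ∧ (L1 ≠ 0 → 1 < X ^ 2 + y ^ 2) ∧ S = X ^ 2 + y ^ 2 := by
  obtain ⟨h1, h2, h3, h4⟩ := rho_le hx.le
  have hS : Complex.normSq (x 0) = (x 0).re * (x 0).re + (x 0).im * (x 0).im :=
    Complex.normSq_apply _
  have hN : Complex.normSq (x 1) = (x 1).re * (x 1).re + (x 1).im * (x 1).im :=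
    Complex.normSq_apply _
  have hT : lt (x 1) = Real.log ((x 1).re * (x 1).re + (x 1).im * (x 1).im) := by
    unfold lt; rw [hN]
  have hXX : XX (x 0) (x 1) = (x 0).re * Real.cos (lt (x 1)) + (x 0).im * Real.sin (lt (x 1)) := rfl
  rw [hx, hXX, hS, hT] at h4
  rw [hS] at h3
  rw [hT] at h1
  have hSn : 0 ≤ (x 0).re * (x 0).re + (x 0).im * (x 0).im := by
    rw [← hS]; exact Complex.normSq_nonneg _
  have hrot : (x 0).re * (x 0).re + (x 0).im * (x 0).im =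
      ((x 0).re * Real.cos (Real.log ((x 1).re * (x 1).re + (x 1).im * (x 1).im)) +
        (x 0).im * Real.sin (Real.log ((x 1).re * (x 1).re + (x 1).im * (x 1).im))) ^ 2 +
      ((x 0).im * Real.cos (Real.log ((x 1).re * (x 1).re + (x 1).im * (x 1).im)) -
        (x 0).re * Real.sin (Real.log ((x 1).re * (x 1).re + (x 1).im * (x 1).im))) ^ 2 := by
    have := Real.sin_sq_add_cos_sq (Real.log ((x 1).re * (x 1).re + (x 1).im * (x 1).im))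
    linear_combination (-(x 0).re * (x 0).re - (x 0).im * (x 0).im) * this
  refine ⟨_, _, _, _, _, _, _, _, _, _, _, rfl, rfl, ?_, h2, rfl, rfl, rfl, rfl, rfl, rfl, rfl, rfl,
    rfl, lam_nonneg hSn, lam_le_lam1 hSn h3.le, lam2_nonneg hSn h3.le, hSn, eta_nonneg _,
    eta_le h1.le, eta2_ge h1.le, by linarith, ?_, hrot⟩
  · rw [← hN]; linarith
  · intro hL
    rw [← hrot]
    by_contra hc
    push Not at hc
    exact hL (lam1_eq_zero hc)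

theorem levi {x : Fin 2 → ℂ} (hx : rho x = 0) (v : Fin 2 → ℂ) (hv : fderiv ℝ rho x v = 0)
    (hIv : fderiv ℝ rho x (Complex.I • v) = 0) :
    0 ≤ iteratedFDeriv ℝ 2 rho x ![v, v] +
      iteratedFDeriv ℝ 2 rho x ![Complex.I • v, Complex.I • v] := by
  obtain ⟨S, T, X, y, L0, L1, L2, e0, e1, e2, N, hS, hN, hNp, hNs, hT, hX, hy, hL0, hL1, hL2, he0,
    he1, he2, c1, c2, c3, c4, c5, c6, c7, c8, c9, c10⟩ := boundary_data hx
  obtain ⟨d1, d2⟩ := rho_derivs x v hNs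
  obtain ⟨d3, d4⟩ := rho_derivs x (Complex.I • v) hNs
  rw [hv] at d1
  rw [hIv] at d3
  rw [d2, d4]
  have i0 : ((Complex.I • v) 0).re = -(v 0).im := by simp
  have i1 : ((Complex.I • v) 0).im = (v 0).re := by simp
  have i2 : ((Complex.I • v) 1).re = -(v 1).im := by simp
  have i3 : ((Complex.I • v) 1).im = (v 1).re := by simp
  rw [i0, i1, i2, i3] at d3 ⊢
  clear d2 d4 i0 i1 i2 i3 hv hIv hx
  generalize (v 0).re = a1 at *
  generalize (v 0).im = a2 at *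
  generalize (v 1).re = b1 at *
  generalize (v 1).im = b2 at *
  generalize (x 0).re = z1 at *
  generalize (x 0).im = z2 at *
  generalize (x 1).re = w1 at *
  generalize (x 1).im = w2 at *
  have q0 : ∀ u v a b : ℝ, qd u v a b 0 = u * u + v * v := by
    intro u v a b; unfold qd; ring
  have q1 : ∀ u v a b : ℝ, qd1 u v a b 0 = 2 * (u * a + v * b) := by
    intro u v a b; unfold qd1; ring
  have t0 : ∀ a b : ℝ, Tf w1 w2 a b 0 = T := by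
    intro a b; unfold Tf; rw [q0, hT, hN]
  have t1 : ∀ a b : ℝ, Tf1 w1 w2 a b 0 = 2 * (w1 * a + w2 * b) / N := by
    intro a b; unfold Tf1; rw [q0, q1, hN]
  have t2 : Tf2 w1 w2 b1 b2 0 + Tf2 w1 w2 (-b2) b1 0 = 0 := by
    unfold Tf2
    rw [q0, q0, q1, q1, ← hN, ← add_div]
    rw [div_eq_zero_iff]
    left
    rw [hN]; ring
  unfold phi1 at d1 d3
  unfold phi2
  simp only [q0, q1, t0, t1, zero_mul, add_zero, ← hS] at d1 d3 ⊢
  rw [← hL1, ← he1] at d1 d3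
  rw [← hL1, ← he1, ← hL2, ← he2]
  obtain ⟨p, hp⟩ : ∃ p, p = 2 * (w1 * b1 + w2 * b2) / N := ⟨_, rfl⟩
  obtain ⟨q, hq⟩ : ∃ q, q = -(2 * (w1 * -b2 + w2 * b1) / N) := ⟨_, rfl⟩
  have hq' : 2 * (w1 * -b2 + w2 * b1) / N = -q := by rw [hq]; ring
  rw [← hp] at d1 ⊢
  rw [hq'] at d3 ⊢
  have hcs := Real.sin_sq_add_cos_sq T
  have hrot : ∀ c s : ℝ, s ^ 2 + c ^ 2 = 1 → z1 * a1 + z2 * a2 =
      (z1 * c + z2 * s) * (a1 * c + a2 * s) + (z2 * c - z1 * s) * (a2 * c - a1 * s) := by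
    intro c s h
    linear_combination (-(z1 * a1) - z2 * a2) * h
  have hrot2 : ∀ c s : ℝ, s ^ 2 + c ^ 2 = 1 → z1 * -a2 + z2 * a1 =
      (z2 * c - z1 * s) * (a1 * c + a2 * s) - (z1 * c + z2 * s) * (a2 * c - a1 * s) := by
    intro c s h
    linear_combination (z1 * a2 - z2 * a1) * h
  have hrot3 : a1 * a1 + a2 * a2 = (a1 * Real.cos T + a2 * Real.sin T) ^ 2 +
      (a2 * Real.cos T - a1 * Real.sin T) ^ 2 := by
    linear_combination (-(a1 * a1) - a2 * a2) * hcs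
  have r1 := hrot _ _ hcs
  have r2 := hrot2 _ _ hcs
  rw [← hX, ← hy] at r1 r2
  obtain ⟨α1, hα1⟩ : ∃ α1, α1 = a1 * Real.cos T + a2 * Real.sin T := ⟨_, rfl⟩
  obtain ⟨α2, hα2⟩ : ∃ α2, α2 = a2 * Real.cos T - a1 * Real.sin T := ⟨_, rfl⟩
  rw [← hα1, ← hα2] at r1 r2 hrot3
  have E1 : α1 * (2 * L1 * X - 1) + α2 * (2 * L1 * y) = (y - e1) * p := by
    rw [r1, ← hα1, ← hy] at d1
    linear_combination -d1
  have E2 : α2 * (2 * L1 * X - 1) - α1 * (2 * L1 * y) = (y - e1) * q := by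
    rw [r2, ← hy] at d3
    have : -a2 * Real.cos T + a1 * Real.sin T = -α2 := by rw [hα2]; ring
    rw [this] at d3
    linear_combination d3
  have key := levi_ineq c1 c2 c3 c4 c5 c6 c7 c8 c9 E1 E2
  have hsq : 4 * L2 * S * (α1 ^ 2 + α2 ^ 2) =
      L2 * (2 * (z1 * a1 + z2 * a2)) ^ 2 + L2 * (2 * (z1 * -a2 + z2 * a1)) ^ 2 := by
    rw [r1, r2, c10]; ring
  have hX' : z1 * Real.cos T + z2 * Real.sin T = X := hX.symm
  have hy' : z2 * Real.cos T - z1 * Real.sin T = y := hy.symm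
  rw [hX', hy']
  have e5 : a1 * Real.cos T - -a2 * Real.sin T = α1 := by rw [hα1]; ring
  have e6 : -a2 * -a2 + a1 * a1 = α1 ^ 2 + α2 ^ 2 := by rw [← hrot3]; ring
  rw [← hα2, e5, e6, hrot3]
  have e7 : Tf2 w1 w2 (-b2) b1 0 = -Tf2 w1 w2 b1 b2 0 := by linarith
  rw [e7]
  refine key.trans (le_of_eq ?_)
  linear_combination hsq

/-- the gradient does not vanish on the boundary -/
theorem grad {x : Fin 2 → ℂ} (hx : rho x = 0) : fderiv ℝ rho x ≠ 0 := by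
  intro h0
  obtain ⟨S, T, X, y, L0, L1, L2, e0, e1, e2, N, hS, hN, hNp, hNs, hT, hX, hy, hL0, hL1, hL2, he0,
    he1, he2, c1, c2, c3, c4, c5, c6, c7, c8, c9, c10⟩ := boundary_data hx
  have q0 : ∀ u v a b : ℝ, qd u v a b 0 = u * u + v * v := by
    intro u v a b; unfold qd; ring
  have q1 : ∀ u v a b : ℝ, qd1 u v a b 0 = 2 * (u * a + v * b) := by
    intro u v a b; unfold qd1; ring
  have t0 : ∀ a b : ℝ, Tf (x 1).re (x 1).im a b 0 = T := by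
    intro a b; unfold Tf; rw [q0, hT, hN]
  have t1 : ∀ a b : ℝ, Tf1 (x 1).re (x 1).im a b 0 = 2 * ((x 1).re * a + (x 1).im * b) / N := by
    intro a b; unfold Tf1; rw [q0, q1, hN]
  have hcs := Real.sin_sq_add_cos_sq T
  -- direction `(a, 0)`
  have A : ∀ a1 a2 : ℝ, L1 * (2 * ((x 0).re * a1 + (x 0).im * a2)) -
      (a1 * Real.cos T + a2 * Real.sin T) = 0 := by
    intro a1 a2
    have d := (rho_derivs x ![⟨a1, a2⟩, 0] hNs).1
    rw [h0] at d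
    unfold phi1 at d
    simp only [q0, q1, t0, t1, zero_mul, add_zero, ← hS] at d
    simp at d
    rw [hL1]
    linarith
  -- direction `(0, w)`
  have B : (e1 - y) * 2 = 0 := by
    have d := (rho_derivs x ![0, x 1] hNs).1
    rw [h0] at d
    unfold phi1 at d
    simp only [q0, q1, t0, t1, zero_mul, add_zero, ← hS] at d
    simp at d
    rw [← hN, mul_div_assoc, div_self hNp.ne', ← hy, ← he1] at d
    linarith
  have A1 := A (Real.cos T) (Real.sin T)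
  have A2 := A (-Real.sin T) (Real.cos T)
  have hA1 : 2 * L1 * X = 1 := by rw [hX]; linear_combination A1 + hcs
  have hA2 : L1 * y = 0 := by rw [hy]; linear_combination A2 / 2
  have hL1ne : L1 ≠ 0 := by
    rintro h; rw [h] at hA1; norm_num at hA1
  have hy0 : y = 0 := by
    rcases mul_eq_zero.mp hA2 with h | h
    · exact absurd h hL1ne
    · exact h
  have he10 : e1 = 0 := by linarith
  have := D_bound c1 c2 c5 c6 c8 c9 (by rw [he10, hy0])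
  rw [hA1, hy0] at this
  norm_num at this

end Pool.Agent.Helper459.Worm
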