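import Mathlib
import Pool.Agent.Helper459.WormA
import Pool.Agent.Helper459.WormB

set_option autoImplicit false

open Complex Set Filter Topology Metric

namespace Pool.Agent.Helper459.Worm

lemma lt_continuousAt {w : ℂ} (hw : w ≠ 0) : ContinuousAt lt w := by
  unfold lt
  exact ContinuousAt.log Complex.continuous_normSq.continuousAt
    (Complex.normSq_pos.mpr hw).ne'

lemma ne_of_normSq {w : ℂ} (h : 1 / 10 < Complex.normSq w) : w ≠ 0 := by
  rintro rfl
  rw [map_zero] at h
  norm_num at h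

lemma XX_eq (z w : ℂ) : XX z w = (z * Complex.exp (-(lt w : ℂ) * I)).re := by
  unfold XX
  have h : Complex.exp (-(lt w : ℂ) * I) = (Real.cos (lt w) : ℂ) - (Real.sin (lt w) : ℂ) * I := by
    rw [show (-(lt w : ℂ) * I) = ((-(lt w) : ℝ) : ℂ) * I by push_cast; ring, Complex.exp_mul_I,
      ← Complex.ofReal_cos, ← Complex.ofReal_sin, Real.cos_neg, Real.sin_neg]
    push_cast
    ring
  rw [h, Complex.mul_re, Complex.sub_re, Complex.sub_im, Complex.mul_I_re, Complex.mul_I_im,
    Complex.ofReal_re, Complex.ofReal_im, Complex.ofReal_re, Complex.ofReal_im]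
  ring

/-- the flow -/
noncomputable def T (s : ℂ) (x : Fin 2 → ℂ) : Fin 2 → ℂ :=
  ![x 0 * Complex.exp (2 * I * s), x 1 * Complex.exp s]

lemma T_zero (s : ℂ) (x : Fin 2 → ℂ) : T s x 0 = x 0 * Complex.exp (2 * I * s) := rfl
lemma T_one (s : ℂ) (x : Fin 2 → ℂ) : T s x 1 = x 1 * Complex.exp s := rfl

lemma lt_T {w : ℂ} (hw : w ≠ 0) (s : ℂ) : lt (w * Complex.exp s) = lt w + 2 * s.re := by
  unfold lt
  rw [map_mul, Real.log_mul (Complex.normSq_pos.mpr hw).ne'
    (Complex.normSq_pos.mpr (Complex.exp_ne_zero s)).ne', Complex.normSq_eq_norm_sq (Complex.exp s),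
    Complex.norm_exp, Real.log_pow, Real.log_exp]
  push_cast
  ring

lemma XX_T (z : ℂ) {w : ℂ} (hw : w ≠ 0) (s : ℂ) :
    XX (z * Complex.exp (2 * I * s)) (w * Complex.exp s) = Real.exp (-2 * s.im) * XX z w := by
  rw [XX_eq, XX_eq, lt_T hw]
  have h : z * Complex.exp (2 * I * s) * Complex.exp (-((lt w + 2 * s.re : ℝ) : ℂ) * I) =
      ((Real.exp (-2 * s.im) : ℝ) : ℂ) * (z * Complex.exp (-(lt w : ℂ) * I)) := by
    rw [Complex.ofReal_exp, mul_assoc, ← Complex.exp_add, mul_left_comm, ← Complex.exp_add]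
    congr 2
    have hs : s = (s.re : ℂ) + (s.im : ℂ) * I := (Complex.re_add_im s).symm
    push_cast
    linear_combination (2 * I) * hs + (2 * (s.im : ℂ)) * Complex.I_sq
  rw [h, Complex.re_ofReal_mul]

lemma norm_T (z s : ℂ) : ‖z * Complex.exp (2 * I * s)‖ = ‖z‖ * Real.exp (-2 * s.im) := by
  rw [norm_mul, Complex.norm_exp]
  congr 2
  simp

lemma mem_Om {x : Fin 2 → ℂ} (h1 : x 1 ≠ 0) (h0 : ‖x 0‖ < 1) (ht : |lt (x 1)| ≤ 2)
    (hX : 0 < XX (x 0) (x 1)) : x ∈ Om := by
  show rho x < 0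
  have h2 : -(23 / 10) ≤ lt (x 1) := by
    have := (abs_le.mp ht).1
    linarith
  rw [rho_eq (normSq_of_lt h1 h2), lam_eq_zero, eta_eq_zero ht]
  · linarith
  · rw [Complex.normSq_eq_norm_sq]
    have := norm_nonneg (x 0)
    nlinarith

/-- pushing inside -/
noncomputable def psh (x : Fin 2 → ℂ) (e : ℝ) : Fin 2 → ℂ :=
  ![x 0 + e * Complex.exp ((lt (x 1) : ℂ) * I), x 1]

lemma psh_zero (x : Fin 2 → ℂ) (e : ℝ) : psh x e 0 = x 0 + e * Complex.exp ((lt (x 1) : ℂ) * I) :=
  rfl
lemma psh_one (x : Fin 2 → ℂ) (e : ℝ) : psh x e 1 = x 1 := rfl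

lemma XX_psh (x : Fin 2 → ℂ) (e : ℝ) : XX (psh x e 0) (psh x e 1) = XX (x 0) (x 1) + e := by
  rw [XX_eq, XX_eq, psh_zero, psh_one, add_mul, Complex.add_re]
  congr 1
  rw [mul_assoc, ← Complex.exp_add]
  have : (lt (x 1) : ℂ) * I + -(lt (x 1) : ℂ) * I = 0 := by ring
  rw [this, Complex.exp_zero]
  simp

lemma norm_psh (x : Fin 2 → ℂ) {e : ℝ} (he : 0 ≤ e) : ‖psh x e 0‖ ≤ ‖x 0‖ + e := by
  rw [psh_zero]
  refine (norm_add_le _ _).trans ?_
  rw [norm_mul, Complex.norm_exp_ofReal_mul_I, mul_one, Complex.norm_real, Real.norm_eq_abs,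
    abs_of_nonneg he]

lemma psh_cont (x : Fin 2 → ℂ) : Continuous (psh x) := by
  apply continuous_pi
  intro i
  fin_cases i
  · show Continuous fun e : ℝ => x 0 + (e : ℂ) * Complex.exp ((lt (x 1) : ℂ) * I)
    fun_prop
  · show Continuous fun e : ℝ => x 1
    fun_prop

lemma psh_at_zero (x : Fin 2 → ℂ) : psh x 0 = x := by
  funext i
  fin_cases i
  · show x 0 + ((0 : ℝ) : ℂ) * Complex.exp ((lt (x 1) : ℂ) * I) = x 0
    simp
  · rfl

lemma mem_closure_Om {x : Fin 2 → ℂ} (h1 : x 1 ≠ 0) (h0 : ‖x 0‖ < 1) (ht : |lt (x 1)| ≤ 2)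
    (hX : 0 ≤ XX (x 0) (x 1)) : x ∈ closure Om := by
  have ht0 : Tendsto (psh x) (𝓝[>] (0 : ℝ)) (𝓝 x) := by
    have := (psh_cont x).tendsto 0
    rw [psh_at_zero] at this
    exact this.mono_left nhdsWithin_le_nhds
  apply mem_closure_of_tendsto ht0
  have hev : ∀ᶠ e : ℝ in 𝓝[>] (0 : ℝ), e < 1 - ‖x 0‖ :=
    nhdsWithin_le_nhds (eventually_lt_nhds (by linarith))
  filter_upwards [hev, self_mem_nhdsWithin] with e he hpos
  have hpos' : (0 : ℝ) < e := hpos
  apply mem_Om
  · exact h1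
  · have := norm_psh x hpos'.le
    linarith
  · exact ht
  · rw [XX_psh]; linarith

lemma lt_contOn : ContinuousOn (fun x : Fin 2 → ℂ => lt (x 1)) (closure Om) := by
  intro x hx
  have h1 := ne_of_normSq (rho_le (closure_rho hx)).2.1
  exact (ContinuousAt.comp (f := fun y : Fin 2 → ℂ => y 1) (lt_continuousAt h1)
    (continuous_apply 1).continuousAt).continuousWithinAt

lemma isCompact_closure : IsCompact (closure Om) := by
  apply Metric.isCompact_of_isClosed_isBounded isClosed_closure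
  rw [Metric.isBounded_iff_subset_closedBall (0 : Fin 2 → ℂ)]
  refine ⟨4, ?_⟩
  intro x hx
  have h := rho_le (closure_rho hx)
  rw [mem_closedBall_zero_iff, pi_norm_le_iff_of_nonneg (by norm_num)]
  intro i
  fin_cases i
  · show ‖x 0‖ ≤ 4
    have h3 := h.2.2.1
    rw [Complex.normSq_eq_norm_sq] at h3
    nlinarith [norm_nonneg (x 0)]
  · show ‖x 1‖ ≤ 4
    have h1 := ne_of_normSq h.2.1
    have h4 : Complex.normSq (x 1) ≤ 10 := by
      have h5 : lt (x 1) ≤ 23 / 10 := (abs_lt.mp h.1).2.le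
      have h6 : Complex.normSq (x 1) ≤ Real.exp (23 / 10) := by
        rwa [← Real.log_le_iff_le_exp (Complex.normSq_pos.mpr h1)]
      exact h6.trans exp_23
    rw [Complex.normSq_eq_norm_sq] at h4
    nlinarith [norm_nonneg (x 1)]

/-- the closed set -/
def K0 : Set (Fin 2 → ℂ) := {x | x ∈ closure Om ∧ (1 ≤ ‖x 0‖ ∨ 2 ≤ |lt (x 1)|)}

lemma isClosed_K0 : IsClosed K0 := by
  have h : K0 = (closure Om ∩ {x | 1 ≤ ‖x 0‖}) ∪
      (closure Om ∩ (fun x : Fin 2 → ℂ => |lt (x 1)|) ⁻¹' (Ici 2)) := by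
    ext x
    simp only [K0, mem_ofPred_eq, mem_union, mem_inter_iff, mem_preimage, mem_Ici]
    tauto
  rw [h]
  apply IsClosed.union
  · exact isClosed_closure.inter (isClosed_le continuous_const (continuous_apply 0).norm)
  · exact (lt_contOn.abs).preimage_isClosed_of_isClosed isClosed_closure isClosed_Ici

lemma disj_K0 : Disjoint (closure VV) K0 := by
  have hsub : closure VV ⊆ {x | x ∈ closure Om ∧ (‖x 0‖ ≤ 1 / 2 ∧ |lt (x 1)| ≤ Real.pi / 2)} := by
    apply closure_minimal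
    · rintro x ⟨hx, j, hj⟩
      have hx' : rho x < 0 := hx
      have h := rho_le hx'.le
      refine ⟨subset_closure hx, ?_, ?_⟩
      · rw [hj, norm_div, norm_one]
        have h2 : ‖(j : ℂ) + 2‖ = (j : ℝ) + 2 := by
          rw [show (j : ℂ) + 2 = ((j + 2 : ℕ) : ℂ) by push_cast; ring, Complex.norm_natCast]
          push_cast; ring
        rw [h2]
        apply one_div_le_one_div_of_le (by norm_num)
        have : (0 : ℝ) ≤ j := Nat.cast_nonneg j
        linarith
      · have hpos : 0 < XX (x 0) (x 1) := by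
          have h3 := lam_nonneg (Complex.normSq_nonneg (x 0))
          have h4 := eta_nonneg (lt (x 1))
          have h5 := h.2.2.2
          linarith
        have hx0 : x 0 = (((j : ℝ) + 2)⁻¹ : ℝ) := by
          rw [hj]; push_cast; rw [one_div]
        have hcos : 0 < Real.cos (lt (x 1)) := by
          unfold XX at hpos
          rw [hx0, Complex.ofReal_re, Complex.ofReal_im, zero_mul, add_zero] at hpos
          have h6 : (0 : ℝ) < ((j : ℝ) + 2)⁻¹ := by positivity
          exact (pos_iff_pos_of_mul_pos hpos).mp h6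
        by_contra hcon
        push Not at hcon
        have h7 : Real.cos |lt (x 1)| ≤ 0 := by
          apply Real.cos_nonpos_of_pi_div_two_le_of_le hcon.le
          have := Real.pi_gt_three
          linarith [h.1]
        rw [Real.cos_abs] at h7
        linarith
    · have h : {x : Fin 2 → ℂ | x ∈ closure Om ∧ (‖x 0‖ ≤ 1 / 2 ∧ |lt (x 1)| ≤ Real.pi / 2)} =
        (closure Om ∩ {x | ‖x 0‖ ≤ 1 / 2}) ∩
          (closure Om ∩ (fun x : Fin 2 → ℂ => |lt (x 1)|) ⁻¹' (Iic (Real.pi / 2))) := by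
        ext x
        simp only [mem_ofPred_eq, mem_inter_iff, mem_preimage, mem_Iic]
        tauto
      rw [h]
      apply IsClosed.inter
      · exact isClosed_closure.inter (isClosed_le (continuous_apply 0).norm continuous_const)
      · exact (lt_contOn.abs).preimage_isClosed_of_isClosed isClosed_closure isClosed_Iic
  rw [Set.disjoint_left]
  intro x hx hK
  obtain ⟨_, h1, h2⟩ := hsub hx
  rcases hK.2 with h | h
  · linarith
  · have := Real.pi_lt_d2
    linarith

lemma T_cont (x : Fin 2 → ℂ) : Differentiable ℂ (fun s => T s x) := by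
  rw [differentiable_pi]
  intro i
  fin_cases i
  · show Differentiable ℂ fun s => x 0 * Complex.exp (2 * I * s)
    fun_prop
  · show Differentiable ℂ fun s => x 1 * Complex.exp s
    fun_prop

theorem key (f : (Fin 2 → ℂ) → ℂ) (hf : ContinuousOn f (closure Om))
    (hd : DifferentiableOn ℂ f Om) (x0 : Fin 2 → ℂ) (hx0 : x0 ∈ closure Om)
    (hmax : ∀ z ∈ closure Om, ‖f z‖ ≤ ‖f x0‖) (hz : ‖x0 0‖ < 1) (ht : |lt (x0 1)| < 2) :
    ∃ k ∈ K0, f k = f x0 := by
  have hx0' := rho_le (closure_rho hx0)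
  have hw : x0 1 ≠ 0 := ne_of_normSq hx0'.2.1
  have hXX : 0 ≤ XX (x0 0) (x0 1) := by
    have h1 := closure_rho hx0
    rw [hx0'.2.2.2, lam_eq_zero, eta_eq_zero ht.le] at h1
    · linarith
    · rw [Complex.normSq_eq_norm_sq]
      have := norm_nonneg (x0 0)
      nlinarith
  set r := ‖x0 0‖ with hr
  have hr0 : 0 ≤ r := norm_nonneg _
  set q := (1 + r) / 2 with hq
  have hq0 : 0 < q := by positivity
  have hq1 : q < 1 := by rw [hq]; linarith
  have hlq : Real.log q < 0 := Real.log_neg hq0 hq1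
  set η := -Real.log q / 4 with hη
  have hη0 : 0 < η := by rw [hη]; linarith
  have hqη : q * Real.exp (2 * η) < 1 := by
    have h1 : q * Real.exp (2 * η) = Real.exp (Real.log q / 2) := by
      nth_rw 1 [← Real.exp_log hq0]
      rw [← Real.exp_add]
      congr 1
      rw [hη]; ring
    rw [h1]
    rw [← Real.exp_zero]
    exact Real.exp_lt_exp.mpr (by linarith)
  set t0 := lt (x0 1) with ht0
  have ht' := abs_lt.mp ht
  set R : Set ℂ := Ioo ((-2 - t0) / 2) ((2 - t0) / 2) ×ℂ Ioo (-η) η with hR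
  have hRo : IsOpen R := isOpen_Ioo.reProdIm isOpen_Ioo
  have hRc : IsPreconnected R := by
    have : Convex ℝ R := by
      rw [hR]
      exact ((convex_Ioo _ _).is_linear_preimage Complex.reCLM.isBoundedLinearMap.toIsLinearMap).inter
        ((convex_Ioo _ _).is_linear_preimage Complex.imCLM.isBoundedLinearMap.toIsLinearMap)
    exact this.isPreconnected
  have h0R : (0 : ℂ) ∈ R := by
    rw [hR, Complex.mem_reProdIm]
    simp only [Complex.zero_re, Complex.zero_im, mem_Ioo]
    refine ⟨⟨by linarith, by linarith⟩, ⟨by linarith, hη0⟩⟩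
  -- bounds on the orbit
  have hpt : ∀ s ∈ R, ∀ x : Fin 2 → ℂ, x 1 = x0 1 → ‖x 0‖ ≤ q →
      T s x 1 ≠ 0 ∧ ‖T s x 0‖ < 1 ∧ |lt (T s x 1)| ≤ 2 := by
    intro s hs x hx1 hxq
    rw [hR, Complex.mem_reProdIm] at hs
    obtain ⟨⟨ha, hb⟩, hc, hd'⟩ := hs
    refine ⟨?_, ?_, ?_⟩
    · rw [T_one, hx1]; exact mul_ne_zero hw (Complex.exp_ne_zero _)
    · rw [T_zero, norm_T]
      calc ‖x 0‖ * Real.exp (-2 * s.im) ≤ q * Real.exp (2 * η) := by
            apply mul_le_mul hxq _ (Real.exp_pos _).le hq0.le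
            exact Real.exp_le_exp.mpr (by linarith)
        _ < 1 := hqη
    · rw [T_one, hx1, lt_T hw, ← ht0, abs_le]
      constructor <;> linarith
  have hcl : ∀ s ∈ R, T s x0 ∈ closure Om := by
    intro s hs
    obtain ⟨h1, h2, h3⟩ := hpt s hs x0 rfl (by rw [hq]; linarith)
    refine mem_closure_Om h1 h2 h3 ?_
    rw [T_zero, T_one, XX_T _ hw]
    positivity
  -- approximating points
  set c := (1 - r) / 2 with hc
  have hc0 : 0 < c := by rw [hc]; linarith
  let e : ℕ → ℝ := fun n => c / ((n : ℝ) + 1)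
  have he0 : ∀ n, 0 < e n := fun n => by positivity
  have hec : ∀ n, e n ≤ c := by
    intro n
    apply div_le_self hc0.le
    have : (0 : ℝ) ≤ n := Nat.cast_nonneg n
    linarith
  have hen : ∀ n, ∀ s ∈ R, T s (psh x0 (e n)) ∈ Om := by
    intro n s hs
    have hnq : ‖psh x0 (e n) 0‖ ≤ q := by
      have := norm_psh x0 (he0 n).le
      have := hec n
      rw [hq]; rw [hc] at this; linarith
    obtain ⟨h1, h2, h3⟩ := hpt s hs (psh x0 (e n)) rfl hnq
    refine mem_Om h1 h2 h3 ?_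
    have h4 : XX (T s (psh x0 (e n)) 0) (T s (psh x0 (e n)) 1) =
        Real.exp (-2 * s.im) * XX (psh x0 (e n) 0) (psh x0 (e n) 1) := by
      rw [T_zero, T_one]
      exact XX_T _ hw s
    rw [h4, XX_psh]
    have := he0 n
    positivity
  have hetend : Tendsto e atTop (𝓝 0) := by
    have := tendsto_const_div_atTop_nhds_zero_nat c
    exact (this.comp (tendsto_add_atTop_nat 1)).congr (fun n => by simp [e])
  have hFd : DifferentiableOn ℂ (fun s => f (T s x0)) R := by
    have hlim : TendstoLocallyUniformlyOn (fun (n : ℕ) s => f (T s (psh x0 (e n))))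
        (fun s => f (T s x0)) atTop R := by
      apply TendstoUniformlyOn.tendstoLocallyUniformlyOn
      rw [Metric.tendstoUniformlyOn_iff]
      intro ε hε
      have huc : UniformContinuousOn f (closure Om) :=
        isCompact_closure.uniformContinuousOn_of_continuous hf
      rw [Metric.uniformContinuousOn_iff] at huc
      obtain ⟨δ, hδ, hh⟩ := huc ε hε
      have hev : ∀ᶠ n in atTop, e n < δ / Real.exp (2 * η) :=
        hetend.eventually_lt_const (by positivity)
      filter_upwards [hev] with n hn s hs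
      apply hh _ (hcl s hs) _ (subset_closure (hen n s hs))
      rw [dist_pi_lt_iff hδ]
      intro i
      fin_cases i
      · show dist (T s x0 0) (T s (psh x0 (e n)) 0) < δ
        rw [T_zero, T_zero, dist_eq_norm, ← sub_mul, norm_T, psh_zero, sub_add_cancel_left,
          norm_neg, norm_mul, Complex.norm_exp_ofReal_mul_I, mul_one, Complex.norm_real,
          Real.norm_eq_abs, abs_of_pos (he0 n)]
        have hs' := hs
        rw [hR, Complex.mem_reProdIm] at hs'
        calc e n * Real.exp (-2 * s.im) ≤ e n * Real.exp (2 * η) := by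
              apply mul_le_mul_of_nonneg_left _ (he0 n).le
              exact Real.exp_le_exp.mpr (by linarith [hs'.2.1])
          _ < δ := by rwa [lt_div_iff₀ (Real.exp_pos _)] at hn
      · show dist (T s x0 1) (T s (psh x0 (e n)) 1) < δ
        rw [T_one, T_one, psh_one, dist_self]
        exact hδ
    refine hlim.differentiableOn (Eventually.of_forall fun n => ?_) hRo
    exact hd.comp ((T_cont _).differentiableOn) (fun s hs => hen n s hs)
  have hT0 : T 0 x0 = x0 := by
    funext i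
    fin_cases i
    · show x0 0 * Complex.exp (2 * I * 0) = x0 0
      simp
    · show x0 1 * Complex.exp 0 = x0 1
      simp
  have hconst : EqOn (fun s => f (T s x0)) (Function.const ℂ (f (T 0 x0))) R := by
    apply Complex.eqOn_of_isPreconnected_of_isMaxOn_norm hRc hRo hFd h0R
    intro s hs
    show ‖f (T s x0)‖ ≤ ‖f (T 0 x0)‖
    rw [hT0]
    exact hmax _ (hcl s hs)
  -- the end point
  set s1 : ℝ := (2 - t0) / 2 with hs1
  have hs1pos : 0 < s1 := by rw [hs1]; linarith
  have hRs : ∀ s : ℝ, s ∈ Ioo 0 s1 → ((s : ℝ) : ℂ) ∈ R := by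
    intro s hs
    rw [hR, Complex.mem_reProdIm]
    simp only [Complex.ofReal_re, Complex.ofReal_im, mem_Ioo]
    refine ⟨⟨by linarith [hs.1], hs.2⟩, ⟨by linarith, hη0⟩⟩
  have hTc : Tendsto (fun s : ℝ => T (s : ℂ) x0) (𝓝[<] s1) (𝓝 (T (s1 : ℂ) x0)) := by
    have h1 : Continuous fun s : ℝ => T (s : ℂ) x0 :=
      (T_cont x0).continuous.comp Complex.continuous_ofReal
    exact (h1.tendsto s1).mono_left nhdsWithin_le_nhds
  have hevI : ∀ᶠ s : ℝ in 𝓝[<] s1, s ∈ Ioo 0 s1 := Ioo_mem_nhdsLT hs1pos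
  have hend : T (s1 : ℂ) x0 ∈ closure Om := by
    apply isClosed_closure.mem_of_tendsto hTc
    filter_upwards [hevI] with s hs
    exact hcl _ (hRs s hs)
  refine ⟨T (s1 : ℂ) x0, ⟨hend, Or.inr ?_⟩, ?_⟩
  · rw [T_one, lt_T hw, ← ht0, Complex.ofReal_re]
    have : t0 + 2 * s1 = 2 := by rw [hs1]; ring
    rw [this]
    norm_num
  · have hlim1 : Tendsto (fun s : ℝ => f (T (s : ℂ) x0)) (𝓝[<] s1) (𝓝 (f (T (s1 : ℂ) x0))) := by
      have h1 : Tendsto (fun s : ℝ => T (s : ℂ) x0) (𝓝[<] s1) (𝓝[closure Om] (T (s1 : ℂ) x0)) := by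
        apply tendsto_nhdsWithin_iff.mpr
        refine ⟨hTc, ?_⟩
        filter_upwards [hevI] with s hs
        exact hcl _ (hRs s hs)
      exact (hf _ hend).tendsto.comp h1
    have hlim2 : Tendsto (fun s : ℝ => f (T (s : ℂ) x0)) (𝓝[<] s1) (𝓝 (f x0)) := by
      apply tendsto_const_nhds.congr'
      filter_upwards [hevI] with s hs
      have := hconst (hRs s hs)
      simp only [Function.const_apply, hT0] at this
      exact this.symm
    exact tendsto_nhds_unique hlim1 hlim2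

theorem shilov : Disjoint (closure VV)
    (⋂₀ {K : Set (Fin 2 → ℂ) | IsClosed K ∧ K ⊆ closure Om ∧
      ∀ f : (Fin 2 → ℂ) → ℂ, ContinuousOn f (closure Om) → DifferentiableOn ℂ f Om →
        ∃ k ∈ K, ∀ z ∈ closure Om, ‖f z‖ ≤ ‖f k‖}) := by
  apply disj_K0.mono_right
  apply sInter_subset_of_mem
  refine ⟨isClosed_K0, fun x hx => hx.1, ?_⟩
  intro f hf hd
  have hne : (closure Om).Nonempty := by
    refine ⟨![1 / 2, 1], subset_closure ?_⟩
    apply mem_Om
    · simp
    · show ‖(1 / 2 : ℂ)‖ < 1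
      norm_num
    · show |lt 1| ≤ 2
      simp [lt]
    · show 0 < XX (1 / 2) 1
      simp [XX, lt]
  obtain ⟨x0, hx0, hmax⟩ := isCompact_closure.exists_isMaxOn hne hf.norm
  have hmax' : ∀ z ∈ closure Om, ‖f z‖ ≤ ‖f x0‖ := fun z hz => hmax hz
  by_cases hK : x0 ∈ K0
  · exact ⟨x0, hK, hmax'⟩
  · have h1 : ‖x0 0‖ < 1 := by
      by_contra hcon
      push Not at hcon
      exact hK ⟨hx0, Or.inl hcon⟩
    have h2 : |lt (x0 1)| < 2 := by
      by_contra hcon
      push Not at hcon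
      exact hK ⟨hx0, Or.inr hcon⟩
    obtain ⟨k, hk, hfk⟩ := key f hf hd x0 hx0 hmax' h1 h2
    exact ⟨k, hk, fun z hz => by rw [hfk]; exact hmax' z hz⟩


end Pool.Agent.Helper459.Worm
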