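import Mathlib
import Pool.Agent.Helper459.WormA
import Pool.Agent.Helper459.WormB

set_option autoImplicit false

open Complex Set Filter Topology Metric

namespace Pool.Agent.Helper459.Worm

lemma om_mem {x : Fin 2 → ℂ} (hx : x ∈ Om) :
    |lt (x 1)| < 23 / 10 ∧ 1 / 10 < Complex.normSq (x 1) ∧ Complex.normSq (x 0) < 3 / 2 ∧
      lam (Complex.normSq (x 0)) + eta (lt (x 1)) < XX (x 0) (x 1) := by
  have hx' : rho x < 0 := hx
  obtain ⟨h1, h2, h3, h4⟩ := rho_le hx'.le
  exact ⟨h1, h2, h3, by linarith⟩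

lemma om_of {x : Fin 2 → ℂ} (h : 1 / 10 ≤ Complex.normSq (x 1))
    (h' : lam (Complex.normSq (x 0)) + eta (lt (x 1)) < XX (x 0) (x 1)) : x ∈ Om := by
  show rho x < 0
  rw [rho_eq h]; linarith

lemma lam_mono {s t : ℝ} (hs : 0 ≤ s) (hst : s ≤ t) : lam s ≤ lam t := by
  unfold lam
  have h1 := glue_mono (x := s - 1) (y := t - 1) (by linarith)
  have h2 := expNegInvGlue.nonneg (s - 1)
  exact mul_le_mul (by linarith) h1 h2 (by linarith)

/-- the parameter domain -/
def PD : Set (ℝ × ℝ × ℝ × ℝ) :=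
  {q | |q.2.2.1| ≤ 23 / 10 ∧ lam (q.1 ^ 2 + q.2.1 ^ 2) + eta q.2.2.1 < q.1}

/-- the parametrization -/
noncomputable def PF (q : ℝ × ℝ × ℝ × ℝ) : Fin 2 → ℂ :=
  ![((q.1 : ℂ) + q.2.1 * I) * Complex.exp (q.2.2.1 * I),
    Complex.exp ((q.2.2.1 / 2 : ℝ) + q.2.2.2 * I)]

lemma PF_continuous : Continuous PF := by
  unfold PF
  refine continuous_pi fun i => ?_
  fin_cases i
  · show Continuous fun q : ℝ × ℝ × ℝ × ℝ => ((q.1 : ℂ) + q.2.1 * I) * Complex.exp (q.2.2.1 * I)
    fun_prop
  · show Continuous fun q : ℝ × ℝ × ℝ × ℝ => Complex.exp ((q.2.2.1 / 2 : ℝ) + q.2.2.2 * I)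
    fun_prop

lemma PF_normSq_one (q : ℝ × ℝ × ℝ × ℝ) : Complex.normSq (PF q 1) = Real.exp q.2.2.1 := by
  show Complex.normSq (Complex.exp ((q.2.2.1 / 2 : ℝ) + q.2.2.2 * I)) = _
  rw [Complex.normSq_eq_norm_sq, Complex.norm_exp]
  simp only [Complex.add_re, Complex.ofReal_re, Complex.mul_re, Complex.I_re, Complex.ofReal_im,
    Complex.I_im, mul_zero, mul_one, sub_self, add_zero]
  rw [← Real.exp_nat_mul]
  congr 1; push_cast; ring

lemma PF_lt (q : ℝ × ℝ × ℝ × ℝ) : lt (PF q 1) = q.2.2.1 := by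
  unfold lt
  rw [PF_normSq_one, Real.log_exp]

lemma PF_zero (q : ℝ × ℝ × ℝ × ℝ) :
    (PF q 0).re = q.1 * Real.cos q.2.2.1 - q.2.1 * Real.sin q.2.2.1 ∧
    (PF q 0).im = q.1 * Real.sin q.2.2.1 + q.2.1 * Real.cos q.2.2.1 := by
  have e : PF q 0 = ((q.1 : ℂ) + q.2.1 * I) * Complex.exp (q.2.2.1 * I) := rfl
  rw [e, Complex.exp_mul_I, ← Complex.ofReal_cos, ← Complex.ofReal_sin]
  generalize Real.cos q.2.2.1 = C
  generalize Real.sin q.2.2.1 = S
  constructor
  · simp
  · simp

lemma PF_normSq_zero (q : ℝ × ℝ × ℝ × ℝ) : Complex.normSq (PF q 0) = q.1 ^ 2 + q.2.1 ^ 2 := by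
  obtain ⟨h1, h2⟩ := PF_zero q
  rw [Complex.normSq_apply, h1, h2]
  have := Real.sin_sq_add_cos_sq q.2.2.1
  linear_combination (q.1 ^ 2 + q.2.1 ^ 2) * this

lemma PF_XX (q : ℝ × ℝ × ℝ × ℝ) : XX (PF q 0) (PF q 1) = q.1 := by
  obtain ⟨h1, h2⟩ := PF_zero q
  unfold XX
  rw [PF_lt, h1, h2]
  have := Real.sin_sq_add_cos_sq q.2.2.1
  linear_combination q.1 * this

lemma PF_image : PF '' PD = Om := by
  ext x
  constructor
  · rintro ⟨q, ⟨hq1, hq2⟩, rfl⟩
    apply om_of
    · apply normSq_of_lt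
      · intro h0
        have := PF_normSq_one q
        rw [h0, Complex.normSq_zero] at this
        exact (Real.exp_pos _).ne this
      · rw [PF_lt]; linarith [(abs_le.1 hq1).1]
    · rw [PF_normSq_zero, PF_lt, PF_XX]; exact hq2
  · intro hx
    obtain ⟨h1, h2, h3, h4⟩ := om_mem hx
    set t := lt (x 1) with ht
    have hw : x 1 ≠ 0 := by
      intro h0
      rw [h0, Complex.normSq_zero] at h2
      norm_num at h2
    have hwn : 0 < ‖x 1‖ := norm_pos_iff.2 hw
    set X := XX (x 0) (x 1) with hX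
    set y := -(x 0).re * Real.sin t + (x 0).im * Real.cos t with hy
    have hXe : X = (x 0).re * Real.cos t + (x 0).im * Real.sin t := rfl
    have hsc := Real.sin_sq_add_cos_sq t
    have hsq : X ^ 2 + y ^ 2 = Complex.normSq (x 0) := XX_sq_le (x 0) (x 1)
    refine ⟨(X, y, t, Complex.arg (x 1)), ⟨h1.le, ?_⟩, ?_⟩
    · show lam (X ^ 2 + y ^ 2) + eta t < X
      rw [hsq]; exact h4
    · funext i
      fin_cases i
      · obtain ⟨k1, k2⟩ := PF_zero (X, y, t, Complex.arg (x 1))
        apply Complex.ext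
        · refine k1.trans ?_
          show X * Real.cos t - y * Real.sin t = (x 0).re
          rw [hXe, hy]
          linear_combination (x 0).re * hsc
        · refine k2.trans ?_
          show X * Real.sin t + y * Real.cos t = (x 0).im
          rw [hXe, hy]
          linear_combination (x 0).im * hsc
      · show Complex.exp ((t / 2 : ℝ) + (Complex.arg (x 1)) * I) = x 1
        have e1 : Real.exp (t / 2) = ‖x 1‖ := by
          have : t = 2 * Real.log ‖x 1‖ := by
            rw [ht]; unfold lt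
            rw [Complex.normSq_eq_norm_sq, Real.log_pow]; push_cast; ring
          rw [this, mul_div_cancel_left₀ _ (by norm_num), Real.exp_log hwn]
        rw [Complex.exp_add, ← Complex.ofReal_exp, e1]
        exact Complex.norm_mul_exp_arg_mul_I (x 1)

lemma PD_base : ((1 / 2 : ℝ), (0 : ℝ), (0 : ℝ), (0 : ℝ)) ∈ PD := by
  refine ⟨by norm_num, ?_⟩
  show lam ((1 / 2 : ℝ) ^ 2 + 0 ^ 2) + eta 0 < 1 / 2
  rw [lam_eq_zero (by norm_num), eta_eq_zero (by norm_num)]
  norm_num

lemma PD_preconnected : IsPreconnected PD := by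
  apply isPreconnected_of_forall ((1 / 2 : ℝ), (0 : ℝ), (0 : ℝ), (0 : ℝ))
  rintro ⟨X, y, t, θ⟩ ⟨h1, h2⟩
  simp only at h1 h2
  have hl0 : 0 ≤ lam (X ^ 2 + y ^ 2) := lam_nonneg (by positivity)
  have he0 := eta_nonneg t
  have hX0 : 0 < X := by linarith
  have hlX : lam (X ^ 2) < X := by
    have := lam_mono (s := X ^ 2) (t := X ^ 2 + y ^ 2) (by positivity) (by nlinarith [sq_nonneg y])
    linarith
  refine ⟨segment ℝ (X, y, t, θ) (X, 0, 0, 0) ∪ segment ℝ (X, 0, 0, 0) (1 / 2, 0, 0, 0), ?_,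
    Or.inr (right_mem_segment ℝ _ _), Or.inl (left_mem_segment ℝ _ _), ?_⟩
  · rintro q (hq | hq)
    · obtain ⟨a, b, ha, hb, hab, rfl⟩ := hq
      have ha1 : a ≤ 1 := by linarith
      refine ⟨?_, ?_⟩
      · show |a * t + b * 0| ≤ 23 / 10
        rw [mul_zero, add_zero, abs_mul, abs_of_nonneg ha]
        have := abs_nonneg t
        nlinarith
      · show lam ((a * X + b * X) ^ 2 + (a * y + b * 0) ^ 2) + eta (a * t + b * 0) < a * X + b * X
        rw [← add_mul, hab, one_mul, mul_zero, add_zero, add_zero]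
        have e1 : lam (X ^ 2 + (a * y) ^ 2) ≤ lam (X ^ 2 + y ^ 2) := by
          apply lam_mono (by positivity)
          have : (a * y) ^ 2 ≤ y ^ 2 := by
            rw [mul_pow]
            have : a ^ 2 ≤ 1 := by nlinarith
            nlinarith [sq_nonneg y]
          linarith
        have e2 : eta (a * t) ≤ eta t := by
          apply eta_mono
          rw [abs_mul, abs_of_nonneg ha]
          have := abs_nonneg t
          nlinarith
        linarith
    · obtain ⟨a, b, ha, hb, hab, rfl⟩ := hq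
      refine ⟨?_, ?_⟩
      · show |a * 0 + b * 0| ≤ 23 / 10
        norm_num
      · show lam ((a * X + b * (1 / 2)) ^ 2 + (a * 0 + b * 0) ^ 2) + eta (a * 0 + b * 0) <
          a * X + b * (1 / 2)
        rw [mul_zero, mul_zero, add_zero, eta_eq_zero (by norm_num), add_zero]
        have e0 : (0 : ℝ) ^ 2 = 0 := by norm_num
        rw [e0, add_zero]
        set c := a * X + b * (1 / 2) with hc
        have hc0 : 0 < c := by
          rcases ha.eq_or_lt with h | h
          · have : b = 1 := by linarith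
            rw [hc, ← h, this]; norm_num
          · have : 0 < a * X := by positivity
            have : 0 ≤ b * (1 / 2) := by positivity
            linarith
        rcases le_or_gt c 1 with hc1 | hc1
        · rw [lam_eq_zero (by nlinarith)]; exact hc0
        · have hcX : c ≤ X := by
            by_contra hcon
            push Not at hcon
            have : X < 1 / 2 ∨ 1 / 2 ≤ X := lt_or_ge _ _
            rcases this with h | h
            · nlinarith
            · nlinarith
          -- monotonicity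
          have g1 := glue_mono (x := c ^ 2 - 1) (y := X ^ 2 - 1) (by nlinarith)
          have g0 := expNegInvGlue.nonneg (c ^ 2 - 1)
          unfold lam at hlX ⊢
          have g2 : 10 * X * expNegInvGlue (X ^ 2 - 1) < 1 := by
            by_contra hcon
            push Not at hcon
            nlinarith
          have g3 : 10 * c * expNegInvGlue (c ^ 2 - 1) ≤ 10 * X * expNegInvGlue (X ^ 2 - 1) :=
            mul_le_mul (by linarith) g1 g0 (by linarith)
          have g4 : 10 * c * expNegInvGlue (c ^ 2 - 1) < 1 := lt_of_le_of_lt g3 g2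
          calc 10 * c ^ 2 * expNegInvGlue (c ^ 2 - 1)
              = c * (10 * c * expNegInvGlue (c ^ 2 - 1)) := by ring
            _ < c * 1 := mul_lt_mul_of_pos_left g4 hc0
            _ = c := mul_one c
  · exact IsPreconnected.union (X, 0, 0, 0) (right_mem_segment ℝ _ _) (left_mem_segment ℝ _ _)
      (convex_segment _ _).isPreconnected (convex_segment _ _).isPreconnected

theorem Om_isConnected : IsConnected Om := by
  rw [← PF_image]
  refine ⟨⟨_, mem_image_of_mem PF PD_base⟩, ?_⟩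
  exact PD_preconnected.image PF PF_continuous.continuousOn

theorem Om_isBounded : Bornology.IsBounded Om := by
  refine (Metric.isBounded_closedBall (x := (0 : Fin 2 → ℂ)) (r := 4)).subset ?_
  intro x hx
  obtain ⟨h1, h2, h3, h4⟩ := om_mem hx
  rw [mem_closedBall_zero_iff, pi_norm_le_iff_of_nonneg (by norm_num)]
  have hw0 : 0 < Complex.normSq (x 1) := by linarith
  have hw : Complex.normSq (x 1) ≤ 10 := by
    have h5 : Real.log (Complex.normSq (x 1)) ≤ 23 / 10 := (le_abs_self _).trans h1.le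
    rw [Real.log_le_iff_le_exp hw0] at h5
    exact h5.trans exp_23
  intro i
  fin_cases i
  · show ‖x 0‖ ≤ 4
    rw [Complex.normSq_eq_norm_sq] at h3
    nlinarith [norm_nonneg (x 0)]
  · show ‖x 1‖ ≤ 4
    rw [Complex.normSq_eq_norm_sq] at hw
    nlinarith [norm_nonneg (x 1)]

lemma sep_pts (z₀ : ℂ) (hz : z₀ ≠ 0) : ∃ r > 0, ∀ j : ℕ, (1 / ((j : ℂ) + 2)) ≠ z₀ →
    r ≤ ‖1 / ((j : ℂ) + 2) - z₀‖ := by
  have hz' : 0 < ‖z₀‖ := norm_pos_iff.2 hz
  -- finitely many
  have hfin : ∀ J : ℕ, ∃ r > 0, ∀ j < J, (1 / ((j : ℂ) + 2)) ≠ z₀ →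
      r ≤ ‖1 / ((j : ℂ) + 2) - z₀‖ := by
    intro J
    induction J with
    | zero => exact ⟨1, one_pos, fun j hj => absurd hj (Nat.not_lt_zero j)⟩
    | succ J ih =>
      obtain ⟨r, hr, hr'⟩ := ih
      by_cases hJ : (1 / ((J : ℂ) + 2)) = z₀
      · refine ⟨r, hr, fun j hj hne => ?_⟩
        rcases Nat.lt_succ_iff_lt_or_eq.1 hj with h | h
        · exact hr' j h hne
        · subst h; exact absurd hJ hne
      · refine ⟨min r ‖1 / ((J : ℂ) + 2) - z₀‖, lt_min hr (norm_pos_iff.2 (sub_ne_zero.2 hJ)),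
          fun j hj hne => ?_⟩
        rcases Nat.lt_succ_iff_lt_or_eq.1 hj with h | h
        · exact (min_le_left _ _).trans (hr' j h hne)
        · subst h; exact min_le_right _ _
  obtain ⟨J, hJ⟩ := exists_nat_gt (2 / ‖z₀‖)
  obtain ⟨r, hr, hr'⟩ := hfin J
  refine ⟨min r (‖z₀‖ / 2), lt_min hr (by positivity), fun j hne => ?_⟩
  rcases lt_or_ge j J with h | h
  · exact (min_le_left _ _).trans (hr' j h hne)
  · refine (min_le_right _ _).trans ?_
    have h1 : ‖1 / ((j : ℂ) + 2)‖ ≤ ‖z₀‖ / 2 := by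
      have e : ((j : ℂ) + 2) = (((j : ℝ) + 2 : ℝ) : ℂ) := by push_cast; ring
      have hj0 : (0 : ℝ) < (j : ℝ) + 2 := by positivity
      rw [e, norm_div, norm_one, Complex.norm_real, Real.norm_eq_abs, abs_of_pos hj0,
        div_le_iff₀ hj0]
      have h2 : (J : ℝ) ≤ j := by exact_mod_cast h
      rw [div_lt_iff₀ hz'] at hJ
      nlinarith
    have h3 : ‖z₀‖ ≤ ‖1 / ((j : ℂ) + 2)‖ + ‖1 / ((j : ℂ) + 2) - z₀‖ := by
      have := norm_sub_le (1 / ((j : ℂ) + 2)) (1 / ((j : ℂ) + 2) - z₀)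
      simpa using this
    linarith

theorem VV_local : ∀ p ∈ Om, ∃ r > 0, Metric.ball p r ⊆ Om ∧
    ∃ g : (Fin 2 → ℂ) → ℂ, DifferentiableOn ℂ g (Metric.ball p r) ∧
      (∃ z ∈ Metric.ball p r, g z ≠ 0) ∧
      ∀ z ∈ Metric.ball p r, (z ∈ VV ↔ g z = 0) := by
  intro p hp
  have hopen : IsOpen Om := isOpen_lt rho_continuous continuous_const
  obtain ⟨r₁, hr₁, hball⟩ := Metric.isOpen_iff.1 hopen p hp
  have hp0 : p 0 ≠ 0 := by
    intro h0
    obtain ⟨-, -, -, h4⟩ := om_mem hp
    have h5 : XX (p 0) (p 1) = 0 := by rw [h0]; simp [XX]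
    have h6 := lam_nonneg (Complex.normSq_nonneg (p 0))
    have h7 := eta_nonneg (lt (p 1))
    linarith
  obtain ⟨r₂, hr₂, hsep⟩ := sep_pts (p 0) hp0
  set r := min r₁ r₂ with hr
  have hr0 : 0 < r := lt_min hr₁ hr₂
  have hcoord : ∀ z ∈ ball p r, ‖z 0 - p 0‖ < r := by
    intro z hz
    rw [mem_ball_iff_norm] at hz
    exact lt_of_le_of_lt (norm_le_pi_norm (z - p) 0) hz
  have hsub : ball p r ⊆ Om := (ball_subset_ball (min_le_left _ _)).trans hball
  refine ⟨r, hr0, hsub, ?_⟩
  by_cases hs : ∃ j : ℕ, p 0 = 1 / ((j : ℂ) + 2)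
  · obtain ⟨j₀, hj₀⟩ := hs
    refine ⟨fun x => x 0 - p 0, by fun_prop, ?_, ?_⟩
    · refine ⟨Function.update p 0 (p 0 + (r / 2 : ℝ)), ?_, ?_⟩
      · rw [mem_ball_iff_norm, pi_norm_lt_iff hr0]
        intro i
        fin_cases i
        · simp only [Fin.zero_eta, Pi.sub_apply, Function.update_self, add_sub_cancel_left,
            Complex.norm_real, Real.norm_eq_abs]
          rw [abs_of_pos (by positivity)]; linarith
        · simpa using hr0
      · simp only [Function.update_self, add_sub_cancel_left]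
        have : ((r / 2 : ℝ) : ℂ) ≠ 0 := by
          rw [Complex.ofReal_ne_zero]; positivity
        exact this
    · intro z hz
      constructor
      · rintro ⟨-, j, hj⟩
        show z 0 - p 0 = 0
        by_contra hne
        have h1 : (1 / ((j : ℂ) + 2)) ≠ p 0 := by
          rw [← hj]; exact sub_ne_zero.1 hne
        have h2 := hsep j h1
        rw [← hj] at h2
        have h3 := hcoord z hz
        have h4 : r ≤ r₂ := min_le_right _ _
        linarith
      · intro h
        have h' : z 0 = p 0 := sub_eq_zero.1 h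
        exact ⟨hsub hz, j₀, by rw [h', hj₀]⟩
  · refine ⟨fun _ => 1, differentiableOn_const _, ⟨p, mem_ball_self hr0, one_ne_zero⟩, ?_⟩
    intro z hz
    constructor
    · rintro ⟨-, j, hj⟩
      exfalso
      have h1 : (1 / ((j : ℂ) + 2)) ≠ p 0 := fun h => hs ⟨j, h.symm⟩
      have h2 := hsep j h1
      rw [← hj] at h2
      have h3 := hcoord z hz
      have h4 : r ≤ r₂ := min_le_right _ _
      linarith
    · intro h
      exact absurd h one_ne_zero


end Pool.Agent.Helper459.Worm
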