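import Mathlib
import Pool.Agent.Helper459.WormA
import Pool.Agent.Helper459.WormB
import Pool.Agent.Helper459.WormE

set_option autoImplicit false

open Complex Set Filter Topology Metric

namespace Pool.Agent.Helper459.Worm

noncomputable def phm (a : ℝ) (z : ℂ) : ℂ := (z - a) / (1 - a * z)

lemma phm_den_ne {a : ℝ} (ha : |a| < 1) {z : ℂ} (hz : ‖z‖ < 1) : (1 : ℂ) - a * z ≠ 0 := by
  intro h
  have h1 : (a : ℂ) * z = 1 := (sub_eq_zero.mp h).symm
  have h2 : ‖(a : ℂ) * z‖ = 1 := by rw [h1, norm_one]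
  rw [norm_mul, Complex.norm_real, Real.norm_eq_abs] at h2
  nlinarith [abs_nonneg a, norm_nonneg z]

lemma phm_norm_sq {a : ℝ} (ha : |a| < 1) {z : ℂ} (hz : ‖z‖ < 1) :
    ‖phm a z‖ ^ 2 = 1 - (1 - a ^ 2) * (1 - ‖z‖ ^ 2) / ‖(1 : ℂ) - a * z‖ ^ 2 := by
  have h1 : ‖(1 : ℂ) - a * z‖ ^ 2 ≠ 0 := pow_ne_zero _ (norm_ne_zero_iff.mpr (phm_den_ne ha hz))
  rw [phm, norm_div, div_pow]
  have h2 : ‖z - a‖ ^ 2 = ‖(1 : ℂ) - a * z‖ ^ 2 - (1 - a ^ 2) * (1 - ‖z‖ ^ 2) := by
    rw [← Complex.normSq_eq_norm_sq, ← Complex.normSq_eq_norm_sq, ← Complex.normSq_eq_norm_sq,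
      Complex.normSq_apply, Complex.normSq_apply, Complex.normSq_apply]
    simp
    ring
  rw [h2, sub_div, div_self h1]

lemma phm_norm_lt {a : ℝ} (ha : |a| < 1) {z : ℂ} (hz : ‖z‖ < 1) : ‖phm a z‖ < 1 := by
  have h1 : 0 < ‖(1 : ℂ) - a * z‖ ^ 2 := pow_pos (norm_pos_iff.mpr (phm_den_ne ha hz)) 2
  have h2 := phm_norm_sq ha hz
  have h3 : 0 < 1 - a ^ 2 := by
    have := (sq_lt_one_iff_abs_lt_one a).mpr ha
    linarith
  have h4 : 0 < 1 - ‖z‖ ^ 2 := by
    nlinarith [norm_nonneg z]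
  have h5 : 0 < (1 - a ^ 2) * (1 - ‖z‖ ^ 2) / ‖(1 : ℂ) - a * z‖ ^ 2 := by positivity
  nlinarith [norm_nonneg (phm a z)]

lemma phm_neg_phm {a : ℝ} (ha : |a| < 1) {z : ℂ} (hz : ‖z‖ < 1) : phm (-a) (phm a z) = z := by
  have h1 := phm_den_ne ha hz
  have h2 : |(-a)| < 1 := by rwa [abs_neg]
  have h3 := phm_den_ne h2 (phm_norm_lt ha hz)
  have h4 : (1 : ℂ) - a ^ 2 ≠ 0 := by
    have h5 : (1 : ℝ) - a ^ 2 ≠ 0 := by
      have := (sq_lt_one_iff_abs_lt_one a).mpr ha
      linarith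
    exact_mod_cast h5
  have e1 : phm a z - ((-a : ℝ) : ℂ) = z * (1 - a ^ 2) / (1 - a * z) := by
    rw [phm]
    push_cast
    rw [sub_neg_eq_add, eq_div_iff h1, add_mul, div_mul_cancel₀ _ h1]
    ring
  have e2 : (1 : ℂ) - ((-a : ℝ) : ℂ) * phm a z = (1 - a ^ 2) / (1 - a * z) := by
    rw [phm]
    push_cast
    rw [eq_div_iff h1, sub_mul, mul_assoc, div_mul_cancel₀ _ h1]
    ring
  rw [phm, e1, e2, div_div_div_cancel_right₀ h1, mul_div_assoc, div_self h4, mul_one]

lemma phm_zero (a : ℝ) : phm (-a) 0 = a := by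
  simp [phm]

lemma phm_differentiableOn {a : ℝ} (ha : |a| < 1) : DifferentiableOn ℂ (phm a) (ball 0 1) := by
  intro z hz
  have hz' : ‖z‖ < 1 := mem_ball_zero_iff.mp hz
  refine DifferentiableAt.differentiableWithinAt ?_
  refine DifferentiableAt.div (by fun_prop) (by fun_prop) (phm_den_ne ha hz')

lemma phm_mapsTo {a : ℝ} (ha : |a| < 1) : MapsTo (phm a) (ball 0 1) (ball 0 1) := fun _ hz =>
  mem_ball_zero_iff.mpr (phm_norm_lt ha (mem_ball_zero_iff.mp hz))

/-- dividing out a zero -/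
lemma blaschke_step {H : ℂ → ℂ} (hH : DifferentiableOn ℂ H (ball 0 1)) {M : ℝ}
    (hM : ∀ ζ ∈ ball (0 : ℂ) 1, ‖H ζ‖ ≤ M) {a : ℝ} (ha : |a| < 1) (h0 : H a = 0) :
    ∃ H₁ : ℂ → ℂ, DifferentiableOn ℂ H₁ (ball 0 1) ∧ (∀ ζ ∈ ball (0 : ℂ) 1, ‖H₁ ζ‖ ≤ M) ∧
      ∀ ζ ∈ ball (0 : ℂ) 1, H ζ = phm a ζ * H₁ ζ := by
  have ha' : |(-a)| < 1 := by rwa [abs_neg]
  have hK : DifferentiableOn ℂ (fun w => H (phm (-a) w)) (ball 0 1) :=
    hH.comp (phm_differentiableOn ha') (phm_mapsTo ha')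
  have hK0 : H (phm (-a) 0) = 0 := by rw [phm_zero, h0]
  refine ⟨fun z => dslope (fun w => H (phm (-a) w)) 0 (phm a z), ?_, ?_, ?_⟩
  · exact ((differentiableOn_dslope (ball_mem_nhds 0 one_pos)).mpr hK).comp
      (phm_differentiableOn ha) (phm_mapsTo ha)
  · intro ζ hζ
    have := norm_dslope_le_div_of_mapsTo_ball (R₂ := M) hK (fun w hw => by
      rw [mem_closedBall, hK0, dist_zero_right]
      exact hM _ (phm_mapsTo ha' hw)) (phm_mapsTo ha hζ)
    rwa [div_one] at this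
  · intro ζ hζ
    have h1 := sub_smul_dslope (fun w => H (phm (-a) w)) 0 (phm a ζ)
    rw [sub_zero, smul_eq_mul] at h1
    show H ζ = phm a ζ * dslope (fun w => H (phm (-a) w)) 0 (phm a ζ)
    rw [h1]
    show H ζ = H (phm (-a) (phm a ζ)) - H (phm (-a) 0)
    rw [hK0, sub_zero, phm_neg_phm ha (mem_ball_zero_iff.mp hζ)]

/-- a bounded holomorphic function on the disc vanishing at `1 - 2/(j+2)` for all `j` is zero -/
theorem blaschke {G : ℂ → ℂ} (hG : DifferentiableOn ℂ G (ball 0 1)) {M : ℝ}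
    (hM : ∀ ζ ∈ ball (0 : ℂ) 1, ‖G ζ‖ ≤ M) (hz : ∀ j : ℕ, G (1 - 2 / ((j : ℂ) + 2)) = 0) :
    ∀ ζ ∈ ball (0 : ℂ) 1, G ζ = 0 := by
  set a : ℕ → ℝ := fun j => 1 - 2 / ((j : ℝ) + 2) with ha
  have hcast : ∀ j : ℕ, (1 - 2 / ((j : ℂ) + 2)) = ((a j : ℝ) : ℂ) := by
    intro j
    rw [ha]
    push_cast
    rfl
  have ha0 : ∀ j, 0 ≤ a j := by
    intro j
    have h1 : (2 : ℝ) / ((j : ℝ) + 2) ≤ 1 := by
      rw [div_le_one (by positivity)]
      have : (0 : ℝ) ≤ j := Nat.cast_nonneg j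
      linarith
    show 0 ≤ 1 - 2 / ((j : ℝ) + 2)
    linarith
  have hlt : ∀ j, |a j| < 1 := by
    intro j
    rw [abs_of_nonneg (ha0 j)]
    have h1 : (0 : ℝ) < 2 / ((j : ℝ) + 2) := by positivity
    show 1 - 2 / ((j : ℝ) + 2) < 1
    linarith
  have hinj : ∀ j k, a j = a k → j = k := by
    intro j k hjk
    have h1 : (2 : ℝ) / ((j : ℝ) + 2) = 2 / ((k : ℝ) + 2) := by
      have : 1 - 2 / ((j : ℝ) + 2) = 1 - 2 / ((k : ℝ) + 2) := hjk
      linarith
    rw [div_eq_div_iff (by positivity) (by positivity)] at h1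
    have h2 : (j : ℝ) = k := by linarith
    exact_mod_cast h2
  have hfac : ∀ n : ℕ, ∃ H : ℂ → ℂ, DifferentiableOn ℂ H (ball 0 1) ∧
      (∀ ζ ∈ ball (0 : ℂ) 1, ‖H ζ‖ ≤ M) ∧
      ∀ ζ ∈ ball (0 : ℂ) 1, G ζ = (∏ j ∈ Finset.range n, phm (a j) ζ) * H ζ := by
    intro n
    induction n with
    | zero => exact ⟨G, hG, hM, fun ζ _ => by simp⟩
    | succ n ih =>
      obtain ⟨H, h1, h2, h3⟩ := ih
      have han : ((a n : ℝ) : ℂ) ∈ ball (0 : ℂ) 1 := by
        rw [mem_ball_zero_iff, Complex.norm_real, Real.norm_eq_abs]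
        exact hlt n
      have hHn : H (a n) = 0 := by
        have h4 := h3 _ han
        rw [← hcast n, hz n, hcast n] at h4
        rcases mul_eq_zero.mp h4.symm with h5 | h5
        · exfalso
          obtain ⟨j, hj, h6⟩ := Finset.prod_eq_zero_iff.mp h5
          have hj' : j < n := Finset.mem_range.mp hj
          rcases div_eq_zero_iff.mp h6 with h7 | h7
          · have h8 : a n = a j := by exact_mod_cast sub_eq_zero.mp h7
            exact absurd (hinj _ _ h8) (by omega)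
          · exact phm_den_ne (hlt j) (mem_ball_zero_iff.mp han) h7
        · exact h5
      obtain ⟨H₁, g1, g2, g3⟩ := blaschke_step h1 h2 (hlt n) hHn
      refine ⟨H₁, g1, g2, fun ζ hζ => ?_⟩
      rw [Finset.prod_range_succ, h3 ζ hζ, g3 ζ hζ]
      ring
  intro ζ hζ
  have hζ' : ‖ζ‖ < 1 := mem_ball_zero_iff.mp hζ
  set c : ℝ := (1 - ‖ζ‖ ^ 2) / 4 with hc
  have hc0 : 0 < c := by
    have : 0 < 1 - ‖ζ‖ ^ 2 := by nlinarith [norm_nonneg ζ]
    positivity
  have hphi : ∀ j, ‖phm (a j) ζ‖ ^ 2 ≤ Real.exp (-(c * (1 / ((j : ℝ) + 1)))) := by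
    intro j
    rw [phm_norm_sq (hlt j) hζ']
    have h1 : ‖(1 : ℂ) - a j * ζ‖ ≤ 2 := by
      calc ‖(1 : ℂ) - a j * ζ‖ ≤ ‖(1 : ℂ)‖ + ‖(a j : ℂ) * ζ‖ := norm_sub_le _ _
        _ ≤ 1 + 1 := by
            rw [norm_one, norm_mul, Complex.norm_real, Real.norm_eq_abs]
            have := hlt j
            nlinarith [abs_nonneg (a j), norm_nonneg ζ]
        _ = 2 := by norm_num
    have h2 : 0 < ‖(1 : ℂ) - a j * ζ‖ := norm_pos_iff.mpr (phm_den_ne (hlt j) hζ')
    have h3 : ‖(1 : ℂ) - a j * ζ‖ ^ 2 ≤ 4 := by nlinarith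
    have h4 : 0 ≤ 1 - ‖ζ‖ ^ 2 := by nlinarith [norm_nonneg ζ]
    have h5 : 1 / ((j : ℝ) + 1) ≤ 1 - a j ^ 2 := by
      have e1 : (1 : ℝ) - a j = 2 / ((j : ℝ) + 2) := by
        show 1 - (1 - 2 / ((j : ℝ) + 2)) = _
        ring
      have e2 : 1 / ((j : ℝ) + 1) ≤ 2 / ((j : ℝ) + 2) := by
        rw [div_le_div_iff₀ (by positivity) (by positivity)]
        have : (0 : ℝ) ≤ j := Nat.cast_nonneg j
        linarith
      have e3 := hlt j
      rw [abs_of_nonneg (ha0 j)] at e3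
      nlinarith [ha0 j]
    have h6 : c * (1 / ((j : ℝ) + 1)) ≤
        (1 - a j ^ 2) * (1 - ‖ζ‖ ^ 2) / ‖(1 : ℂ) - a j * ζ‖ ^ 2 := by
      rw [le_div_iff₀ (by positivity)]
      have h7 : 0 ≤ 1 / ((j : ℝ) + 1) := by positivity
      have h8 : 0 ≤ 1 - a j ^ 2 := h7.trans h5
      calc c * (1 / ((j : ℝ) + 1)) * ‖(1 : ℂ) - a j * ζ‖ ^ 2
          ≤ c * (1 - a j ^ 2) * ‖(1 : ℂ) - a j * ζ‖ ^ 2 := by gcongr
        _ ≤ c * (1 - a j ^ 2) * 4 := mul_le_mul_of_nonneg_left h3 (mul_nonneg hc0.le h8)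
        _ = _ := by
            rw [hc]
            ring
    have h7 := Real.add_one_le_exp (-(c * (1 / ((j : ℝ) + 1))))
    linarith
  have hM0 : 0 ≤ M := (norm_nonneg _).trans (hM 0 (by simp))
  have hbound : ∀ n : ℕ, ‖G ζ‖ ^ 2 ≤
      M ^ 2 * Real.exp (-(c * ∑ j ∈ Finset.range n, (1 / ((j : ℝ) + 1)))) := by
    intro n
    obtain ⟨H, -, h2, h3⟩ := hfac n
    rw [h3 ζ hζ, norm_mul, mul_pow, norm_prod, ← Finset.prod_pow, mul_comm]
    refine mul_le_mul ?_ ?_ (Finset.prod_nonneg fun _ _ => by positivity) (by positivity)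
    · exact pow_le_pow_left₀ (norm_nonneg _) (h2 ζ hζ) 2
    · rw [Finset.mul_sum, ← Finset.sum_neg_distrib, Real.exp_sum]
      exact Finset.prod_le_prod (fun _ _ => by positivity) fun j _ => hphi j
  have hlim : Tendsto (fun n : ℕ => M ^ 2 *
      Real.exp (-(c * ∑ j ∈ Finset.range n, (1 / ((j : ℝ) + 1))))) atTop (𝓝 (M ^ 2 * 0)) := by
    refine Tendsto.const_mul _ (Real.tendsto_exp_neg_atTop_nhds_zero.comp ?_)
    exact Real.tendsto_sum_range_one_div_nat_succ_atTop.const_mul_atTop hc0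
  have hfin := ge_of_tendsto' hlim hbound
  rw [mul_zero] at hfin
  have h0 : ‖G ζ‖ = 0 := by
    have : ‖G ζ‖ ^ 2 = 0 := le_antisymm hfin (sq_nonneg _)
    exact pow_eq_zero_iff (two_ne_zero) |>.mp this
  exact norm_eq_zero.mp h0


lemma mem_Om' {z w : ℂ} (hw : 1 / 10 ≤ Complex.normSq w) (ht : |lt w| ≤ 2)
    (hz : Complex.normSq z ≤ 1) (hX : 0 < XX z w) : ![z, w] ∈ Om := by
  show rho ![z, w] < 0
  have h1 : (![z, w] : Fin 2 → ℂ) 0 = z := rfl
  have h2 : (![z, w] : Fin 2 → ℂ) 1 = w := rfl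
  rw [rho_eq (by rw [h2]; exact hw), h1, h2, lam_eq_zero hz, eta_eq_zero ht]
  linarith

lemma mem_Om_circle {z w : ℂ} (hw : Complex.normSq w = 1) (hz : z ∈ ball (1 / 2 : ℂ) (1 / 2)) :
    ![z, w] ∈ Om := by
  have hlt : lt w = 0 := by unfold lt; rw [hw]; simp
  have h1 : ‖z - 1 / 2‖ < 1 / 2 := by simpa [dist_eq_norm] using hz
  have h2 : Complex.normSq (z - 1 / 2) < 1 / 4 := by
    rw [Complex.normSq_eq_norm_sq]
    have := norm_nonneg (z - 1 / 2)
    nlinarith
  rw [Complex.normSq_apply] at h2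
  simp only [Complex.sub_re, Complex.sub_im] at h2
  norm_num at h2
  apply mem_Om' (by rw [hw]; norm_num) (by rw [hlt]; norm_num)
  · rw [Complex.normSq_apply]
    nlinarith [mul_self_nonneg z.im, mul_self_nonneg (z.re - 1)]
  · unfold XX
    rw [hlt]
    simp only [Real.cos_zero, Real.sin_zero, mul_one, mul_zero, add_zero]
    nlinarith [mul_self_nonneg z.im, mul_self_nonneg z.re]

lemma diff_pair {g h : ℂ → ℂ} (hg : Differentiable ℂ g) (hh : Differentiable ℂ h) :
    Differentiable ℂ (fun ζ => (![g ζ, h ζ] : Fin 2 → ℂ)) := by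
  rw [differentiable_pi]
  intro i
  fin_cases i
  · exact hg
  · exact hh

lemma mem_Om_ball {z w : ℂ} (hz : z ∈ ball (1 / 2 : ℂ) (1 / 8)) (hw : w ∈ ball (1 : ℂ) (1 / 100)) :
    ![z, w] ∈ Om := by
  have h1 : ‖z - 1 / 2‖ < 1 / 8 := by simpa [dist_eq_norm] using hz
  have h2 : ‖w - 1‖ < 1 / 100 := by simpa [dist_eq_norm] using hw
  have hre : |z.re - 1 / 2| < 1 / 8 := by
    refine lt_of_le_of_lt ?_ h1
    have := Complex.abs_re_le_norm (z - 1 / 2)
    simpa using this
  have him : |z.im| < 1 / 8 := by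
    refine lt_of_le_of_lt ?_ h1
    have := Complex.abs_im_le_norm (z - 1 / 2)
    simpa using this
  have hw1 : |‖w‖ - 1| < 1 / 100 := by
    refine lt_of_le_of_lt ?_ h2
    have := abs_norm_sub_norm_le w 1
    simpa using this
  rw [abs_lt] at hw1
  have hN : Complex.normSq w = ‖w‖ ^ 2 := Complex.normSq_eq_norm_sq w
  have hN1 : 98 / 100 ≤ Complex.normSq w := by rw [hN]; nlinarith
  have hN2 : Complex.normSq w ≤ 103 / 100 := by rw [hN]; nlinarith
  have hNpos : 0 < Complex.normSq w := by linarith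
  have hlt1 : lt w ≤ 3 / 100 := by
    unfold lt
    have := Real.log_le_sub_one_of_pos hNpos
    linarith
  have hlt2 : -(3 / 100) ≤ lt w := by
    unfold lt
    have := Real.one_sub_inv_le_log_of_pos hNpos
    have h3 : (Complex.normSq w)⁻¹ ≤ (98 / 100 : ℝ)⁻¹ := inv_anti₀ (by norm_num) hN1
    have h4 : (98 / 100 : ℝ)⁻¹ ≤ 103 / 100 := by norm_num
    linarith
  have habs : |lt w| ≤ 3 / 100 := abs_le.2 ⟨hlt2, hlt1⟩
  apply mem_Om' (by linarith) (by linarith)
  · rw [Complex.normSq_apply]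
    rw [abs_lt] at hre him
    nlinarith
  · unfold XX
    have hcos : 99 / 100 ≤ Real.cos (lt w) := by
      have := Real.one_sub_sq_div_two_le_cos (x := lt w)
      have h5 : lt w ^ 2 ≤ (3 / 100) ^ 2 := by rw [← sq_abs]; exact pow_le_pow_left₀ (abs_nonneg _) habs 2
      linarith
    have hsin : |Real.sin (lt w)| ≤ 3 / 100 := le_trans Real.abs_sin_le_abs habs
    have h6 : |z.im * Real.sin (lt w)| ≤ 1 / 8 * (3 / 100) := by
      rw [abs_mul]
      exact mul_le_mul him.le hsin (abs_nonneg _) (by norm_num)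
    rw [abs_le] at h6
    rw [abs_lt] at hre
    nlinarith [h6.1]

/-- TARGET: bounded holomorphic functions on `Om` vanishing on `VV` are zero -/
theorem no_bounded {f : (Fin 2 → ℂ) → ℂ} (hf : DifferentiableOn ℂ f Om) {M : ℝ}
    (hM : ∀ z ∈ Om, ‖f z‖ ≤ M) (hV : ∀ v ∈ VV, f v = 0) : ∀ z ∈ Om, f z = 0 := by
  have hOm : IsOpen Om := isOpen_lt rho_continuous continuous_const
  -- Step 1
  have step1 : ∀ w : ℂ, Complex.normSq w = 1 → ∀ z ∈ ball (1 / 2 : ℂ) (1 / 2), f ![z, w] = 0 := by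
    intro w hw
    have hmem : ∀ ζ ∈ ball (0 : ℂ) 1, (1 - ζ) / 2 ∈ ball (1 / 2 : ℂ) (1 / 2) := by
      intro ζ hζ
      have h1 : ‖ζ‖ < 1 := by simpa using hζ
      rw [mem_ball, dist_eq_norm]
      have h2 : (1 - ζ) / 2 - 1 / 2 = -(ζ / 2) := by ring
      rw [h2, norm_neg, norm_div]
      norm_num
      linarith
    have hG := blaschke (G := fun ζ => f ![(1 - ζ) / 2, w]) (M := M) ?_ ?_ ?_
    · intro z hz
      have h1 : ‖z - 1 / 2‖ < 1 / 2 := by simpa [dist_eq_norm] using hz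
      have h2 : (1 - 2 * z) ∈ ball (0 : ℂ) 1 := by
        rw [mem_ball, dist_eq_norm]
        have h3 : 1 - 2 * z - 0 = -(2 * (z - 1 / 2)) := by ring
        rw [h3, norm_neg, norm_mul]
        norm_num at h1 ⊢
        linarith
      have h3 := hG _ h2
      have h4 : (1 - (1 - 2 * z)) / 2 = z := by ring
      simpa [h4] using h3
    · apply hf.comp (diff_pair (by fun_prop) (by fun_prop)).differentiableOn
      intro ζ hζ
      exact mem_Om_circle hw (hmem ζ hζ)
    · intro ζ hζ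
      exact hM _ (mem_Om_circle hw (hmem ζ hζ))
    · intro j
      have hj : (j : ℂ) + 2 ≠ 0 := by
        have : ((j : ℝ) + 2) ≠ 0 := by positivity
        exact_mod_cast this
      have h4 : (1 - (1 - 2 / ((j : ℂ) + 2))) / 2 = 1 / ((j : ℂ) + 2) := by
        field_simp
        ring
      show f ![(1 - (1 - 2 / ((j : ℂ) + 2))) / 2, w] = 0
      rw [h4]
      apply hV
      refine ⟨?_, j, rfl⟩
      apply mem_Om_circle hw
      rw [← h4]
      apply hmem
      rw [mem_ball, dist_eq_norm, sub_zero]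
      have h5 : (1 - 2 / ((j : ℂ) + 2)) = (((j : ℝ) / (j + 2) : ℝ) : ℂ) := by
        push_cast
        field_simp
        ring
      rw [h5, Complex.norm_real, Real.norm_eq_abs, abs_of_nonneg (by positivity), div_lt_one (by positivity)]
      linarith
  -- Step 2
  have step2 : ∀ z ∈ ball (1 / 2 : ℂ) (1 / 8), ∀ w ∈ ball (1 : ℂ) (1 / 100), f ![z, w] = 0 := by
    intro z hz w hw
    have hdiff : DifferentiableOn ℂ (fun w => f ![z, w]) (ball (1 : ℂ) (1 / 100)) := by
      apply hf.comp (diff_pair (by fun_prop) (by fun_prop)).differentiableOn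
      intro w hw
      exact mem_Om_ball hz hw
    have han := hdiff.analyticOnNhd isOpen_ball
    have hfreq : ∃ᶠ w in 𝓝[≠] (1 : ℂ), f ![z, w] = 0 := by
      have htend : Tendsto (fun n : ℕ => Complex.exp (((1 / ((n : ℝ) + 1) : ℝ) : ℂ) * I)) atTop (𝓝[≠] (1 : ℂ)) := by
        rw [tendsto_nhdsWithin_iff]
        constructor
        · have h1 : Tendsto (fun n : ℕ => (1 / ((n : ℝ) + 1) : ℝ)) atTop (𝓝 0) := tendsto_one_div_add_atTop_nhds_zero_nat
          have h2 : Continuous (fun t : ℝ => Complex.exp ((t : ℂ) * I)) := by fun_prop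
          have h3 := (h2.tendsto 0).comp h1
          simp only [Complex.ofReal_zero, zero_mul, Complex.exp_zero] at h3
          exact h3
        · refine Eventually.of_forall fun n h => ?_
          have h1 := congrArg Complex.im h
          rw [Complex.exp_ofReal_mul_I_im] at h1
          simp only [Complex.one_im] at h1
          have h2 : 0 < (1 / ((n : ℝ) + 1) : ℝ) := by positivity
          have h3 : (1 / ((n : ℝ) + 1) : ℝ) ≤ 1 := by
            rw [div_le_one (by positivity)]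
            have : (0 : ℝ) ≤ n := Nat.cast_nonneg n
            linarith
          have h4 := Real.sin_pos_of_pos_of_lt_pi h2 (by linarith [Real.pi_gt_three])
          linarith
      apply htend.frequently
      apply Frequently.of_forall
      intro n
      apply step1
      · rw [Complex.normSq_eq_norm_sq, Complex.norm_exp_ofReal_mul_I]
        norm_num
      · exact ball_subset_ball (by norm_num) hz
    exact han.eqOn_zero_of_preconnected_of_frequently_eq_zero
      (convex_ball _ _).isPreconnected (mem_ball_self (by norm_num)) hfreq hw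
  -- Step 3
  let Z : Set (Fin 2 → ℂ) := {x | ∀ᶠ y in 𝓝 x, f y = 0}
  have hZopen : IsOpen Z := isOpen_setOfPred_eventually_nhds
  have hsub : Om ⊆ Z := by
    apply Om_isConnected.isPreconnected.subset_of_closure_inter_subset hZopen
    · refine ⟨![1 / 2, 1], mem_Om_ball (mem_ball_self (by norm_num)) (mem_ball_self (by norm_num)), ?_⟩
      show ∀ᶠ y in 𝓝 (![1 / 2, 1] : Fin 2 → ℂ), f y = 0
      have h0 : ∀ᶠ y : Fin 2 → ℂ in 𝓝 (![1 / 2, 1] : Fin 2 → ℂ), y 0 ∈ ball (1 / 2 : ℂ) (1 / 8) :=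
        ((continuous_apply (0 : Fin 2)).tendsto (![1 / 2, 1] : Fin 2 → ℂ)).eventually (isOpen_ball.mem_nhds (mem_ball_self (by norm_num)))
      have h1 : ∀ᶠ y : Fin 2 → ℂ in 𝓝 (![1 / 2, 1] : Fin 2 → ℂ), y 1 ∈ ball (1 : ℂ) (1 / 100) :=
        ((continuous_apply (1 : Fin 2)).tendsto (![1 / 2, 1] : Fin 2 → ℂ)).eventually (isOpen_ball.mem_nhds (mem_ball_self (by norm_num)))
      filter_upwards [h0, h1] with y hy0 hy1
      have h2 := step2 _ hy0 _ hy1
      have h3 : (![y 0, y 1] : Fin 2 → ℂ) = y := by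
        funext i
        fin_cases i <;> rfl
      rwa [h3] at h2
    · rintro p ⟨hp, hpOm⟩
      obtain ⟨ε, hε, hball⟩ := Metric.isOpen_iff.1 hOm p hpOm
      set r := ε / 3 with hr
      have hrpos : 0 < r := by positivity
      obtain ⟨q, hqZ, hq⟩ := Metric.mem_closure_iff.1 hp r hrpos
      have hqp : ‖q - p‖ < r := by rw [← dist_eq_norm, dist_comm]; exact hq
      have hball2 : ball q (2 * r) ⊆ Om := by
        refine Set.Subset.trans ?_ hball
        intro x hx
        rw [mem_ball] at hx ⊢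
        calc dist x p ≤ dist x q + dist q p := dist_triangle _ _ _
          _ < 2 * r + r := by
              have : dist q p < r := by rw [dist_comm]; exact hq
              linarith
          _ = ε := by rw [hr]; ring
      have hzero : ∀ x ∈ ball q (2 * r), f x = 0 := by
        intro x hx
        let D : Set ℂ := {c : ℂ | q + c • (x - q) ∈ ball q (2 * r)}
        have hcont : Continuous (fun c : ℂ => q + c • (x - q)) := by fun_prop
        have hDopen : IsOpen D := isOpen_ball.preimage hcont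
        have hDconv : Convex ℝ D := by
          have h1 : D = (fun c : ℂ => c • (x - q)) ⁻¹' (ball (0 : Fin 2 → ℂ) (2 * r)) := by
            ext c
            simp [D, dist_eq_norm]
          rw [h1]
          exact (convex_ball _ _).is_linear_preimage
            ⟨fun a b => add_smul a b _, fun a b => smul_assoc a b _⟩
        have hgd : DifferentiableOn ℂ (fun c : ℂ => f (q + c • (x - q))) D := by
          apply hf.comp
          · exact (by fun_prop : Differentiable ℂ (fun c : ℂ => q + c • (x - q))).differentiableOn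
          · intro c hc
            exact hball2 hc
        have han := hgd.analyticOnNhd hDopen
        have h0D : (0 : ℂ) ∈ D := by
          show q + (0 : ℂ) • (x - q) ∈ ball q (2 * r)
          rw [zero_smul, add_zero]
          exact mem_ball_self (by positivity)
        have h1D : (1 : ℂ) ∈ D := by
          show q + (1 : ℂ) • (x - q) ∈ ball q (2 * r)
          rw [one_smul, add_sub_cancel]
          exact hx
        have hev : (fun c : ℂ => f (q + c • (x - q))) =ᶠ[𝓝 0] 0 := by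
          have h2 : Tendsto (fun c : ℂ => q + c • (x - q)) (𝓝 0) (𝓝 q) := by
            have := hcont.tendsto 0
            simpa using this
          exact h2.eventually hqZ
        have h3 := han.eqOn_zero_of_preconnected_of_eventuallyEq_zero hDconv.isPreconnected h0D hev h1D
        have h4 : f (q + (1 : ℂ) • (x - q)) = 0 := h3
        rw [one_smul, add_sub_cancel] at h4
        exact h4
      show ∀ᶠ y in 𝓝 p, f y = 0
      filter_upwards [Metric.ball_mem_nhds p hrpos] with y hy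
      apply hzero
      rw [mem_ball] at hy ⊢
      calc dist y q ≤ dist y p + dist p q := dist_triangle _ _ _
        _ < r + r := by linarith
        _ = 2 * r := by ring
  intro z hz
  exact (hsub hz).self_of_nhds


end Pool.Agent.Helper459.Worm
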